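import Mathlib

/-!
# GAP, module ALT: a relation between the maximal minors (residue forms)

If `∑ F_i β_i = 0` for `d+1` vectors, then for every alternating `d`-linear map `φ`,
`F_l φ(β without β_i) = ± F_i φ(β without β_l)`.
-/

set_option linter.dupNamespace false

namespace Pool.Agent.GAP

/-- Proof. For `i = l` take `ε = 1`. Otherwise write `l = i.succAbove a`. By multilinearity in the
place `a`, `F_l φ(β ∘ i.succAbove) = φ(update (β ∘ i.succAbove) a (F_l β_l))`, and
`F_l β_l = - F_i β_i - ∑_{m ≠ i, l} F_m β_m`; the terms `m ≠ i, l` give `0` because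
`β_m = (β ∘ i.succAbove) b` with `b ≠ a` then occurs twice. So
`F_l φ(β ∘ i.succAbove) = - F_i φ(update (β ∘ i.succAbove) a (β_i))`. The family
`update (β ∘ i.succAbove) a (β_i)` is a permutation of `β ∘ l.succAbove`: both enumerate
`{m ≠ l}` (the first one is `m ↦ β (τ m)` with `τ = update i.succAbove a i : Fin d → Fin (d+1)`,
injective with image `{m ≠ l}`), so it is `(β ∘ l.succAbove) ∘ π` with a permutation `π` of
`Fin d`, and `AlternatingMap.map_perm` gives the sign. -/
theorem alt_rel {K V W : Type*} [Field K] [AddCommGroup V] [Module K V] [AddCommGroup W]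
    [Module K W] {d : ℕ} (φ : V [⋀^Fin d]→ₗ[K] W) (β : Fin (d + 1) → V) (F : Fin (d + 1) → K)
    (h : ∑ i, F i • β i = 0) (i l : Fin (d + 1)) :
    ∃ ε : K, (ε = 1 ∨ ε = -1) ∧
      F l • φ (fun a => β (i.succAbove a)) = ε • F i • φ (fun a => β (l.succAbove a)) := by
  classical
  by_cases hil : i = l
  · subst hil
    exact ⟨1, Or.inl rfl, by rw [one_smul]⟩
  obtain ⟨a, ha⟩ : ∃ a, i.succAbove a = l := Fin.exists_succAbove_eq (Ne.symm hil)
  set g : Fin d → V := fun b => β (i.succAbove b) with hg
  -- the relation
  have h1 : F l • φ g + F i • φ (Function.update g a (β i)) = 0 := by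
    have h2 : φ (Function.update g a (∑ m, F m • β m)) = 0 := by
      rw [h]
      exact φ.map_coord_zero a (by simp)
    have h3 : φ (Function.update g a (∑ m, F m • β m)) =
        ∑ m, F m • φ (Function.update g a (β m)) := by
      rw [φ.map_update_sum]
      refine Finset.sum_congr rfl ?_
      intro m _
      rw [φ.map_update_smul]
    rw [h3, Fin.sum_univ_succAbove _ i] at h2
    have h4 : ∑ b, F (i.succAbove b) • φ (Function.update g a (β (i.succAbove b))) =
        F l • φ g := by
      rw [Finset.sum_eq_single a]
      · rw [ha]
        congr 2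
        have h5 : β l = g a := by rw [hg]; simp only [ha]
        rw [h5, Function.update_eq_self]
      · intro b _ hb
        have h5 : φ (Function.update g a (g b)) = 0 := φ.map_update_self g (Ne.symm hb)
        have h6 : β (i.succAbove b) = g b := rfl
        rw [h6, h5, smul_zero]
      · intro h5
        exact absurd (Finset.mem_univ a) h5
    rw [h4] at h2
    rw [add_comm]
    exact h2
  -- the permutation
  set τ : Fin d → Fin (d + 1) := Function.update i.succAbove a i with hτ
  have hτl : ∀ b, τ b ≠ l := by
    intro b
    by_cases hb : b = a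
    · subst hb
      rw [hτ, Function.update_self]
      exact hil
    · rw [hτ, Function.update_of_ne hb]
      intro h5
      rw [← ha] at h5
      exact hb (Fin.succAbove_right_injective h5)
  have hτi : Function.Injective τ := by
    intro b c hbc
    by_cases hb : b = a
    · by_cases hc : c = a
      · rw [hb, hc]
      · rw [hτ, hb, Function.update_self, Function.update_of_ne hc] at hbc
        exact absurd hbc.symm (Fin.succAbove_ne i c)
    · by_cases hc : c = a
      · rw [hτ, hc, Function.update_self, Function.update_of_ne hb] at hbc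
        exact absurd hbc (Fin.succAbove_ne i b)
      · rw [hτ, Function.update_of_ne hb, Function.update_of_ne hc] at hbc
        exact Fin.succAbove_right_injective hbc
  have hex : ∀ b, ∃ c, l.succAbove c = τ b := fun b => Fin.exists_succAbove_eq (hτl b)
  choose π hπ using hex
  have hπi : Function.Injective π := by
    intro b c hbc
    apply hτi
    rw [← hπ b, ← hπ c, hbc]
  let σ : Equiv.Perm (Fin d) := Equiv.ofBijective π (Finite.injective_iff_bijective.1 hπi)
  have h7 : Function.update g a (β i) = (fun b => β (l.succAbove b)) ∘ σ := by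
    funext b
    have h8 : σ b = π b := rfl
    simp only [Function.comp, h8, hπ]
    by_cases hb : b = a
    · rw [hb, Function.update_self, hτ, Function.update_self]
    · rw [Function.update_of_ne hb, hτ, Function.update_of_ne hb]
  rw [h7, φ.map_perm] at h1
  have h9 : F l • φ g = -(F i • (Equiv.Perm.sign σ • φ (fun b => β (l.succAbove b)))) :=
    eq_neg_of_add_eq_zero_left h1
  rcases Int.units_eq_one_or (Equiv.Perm.sign σ) with hs | hs
  · refine ⟨-1, Or.inr rfl, ?_⟩
    rw [h9, hs, one_smul, neg_smul, one_smul]
  · refine ⟨1, Or.inl rfl, ?_⟩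
    rw [h9, hs, one_smul]
    simp

end Pool.Agent.GAP
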