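import Pool.Agent.GAP.Cmb

/-!
# GAP, module DENS: dual lattices are dense along the directions not seen by short vectors

Proof. Let `H = (Fin n → ℤ) ⧸ M`, a finite abelian group (it is finitely generated and killed by
`q`; or: it is a quotient of `(ZMod q)^n`). A character `ψ : AddChar H ℂ` is given by unit complex
numbers `ζ_i = ψ(e_i)` (`‖ζ_i‖ = 1`), `ζ_i = exp(2πi x_i)` with `x_i ∈ ℝ`; as `ψ = 1` on `M`, the
vector `x` lies in `Dual M`; the `x_i` may be changed by integers. Put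
`c = exp(-2πi w_i)` and, for `N : ℕ`,
`P(ψ) = ∏_i ((2 + ζ_i c_i + conj(ζ_i c_i)) / 4)^N = ∏_i ((1 + cos 2π(x_i - w_i)) / 2)^N ≥ 0`.
Expanding (`(2 + z + z⁻¹)/4 = (1+z)^2/(4z)` for `|z| = 1`, so the `N`-th power is
`4^(-N) ∑_{s=-N}^{N} (2N choose N+s) z^s`) gives
`P(ψ) = ∑_{s ∈ [-N,N]^n} a_s ψ(s) exp(-2πi ⟨w, s⟩)` with `a_s = ∏ (2N choose N+s_i)/4^N ≥ 0`. The
average over all characters `ψ` of `H` keeps exactly the `s ∈ M` (`AddChar.sum_apply_eq_ite` or the
orthogonality relations); for these `⟨w, s⟩ ∈ ℤ` by hypothesis if `N ≤ K`. So the average is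
`∑_{s ∈ M, |s_i| ≤ N} a_s ≥ a_0 = ((2N choose N)/4^N)^n ≥ (2N+1)^(-n)`.
If for every `ψ` some `x_i` had distance `≥ ε` from `w_i + ℤ`, then every `P(ψ) ≤ ρ^N` with
`ρ = (1 + cos 2πε)/2 < 1` (for `0 < ε ≤ 1/2`), which is `< (2N+1)^(-n)` for `N = K` large,
a contradiction. So some `ψ` gives `x` with all `|x_i - w_i| < ε` after an integral translation
(`ℤ^n ⊆ Dual M`).
-/

set_option linter.dupNamespace false
set_option autoImplicit false

namespace Pool.Agent.GAP

open Finset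

namespace Dens

variable {n : ℕ}

lemma finite_quot {M : AddSubgroup (Fin n → ℤ)} (h : FinIdx M) :
    Finite ((Fin n → ℤ) ⧸ M) := by
  obtain ⟨q, hq, hM⟩ := h
  have hq' : (0 : ℤ) < q := by exact_mod_cast hq
  refine Finite.of_surjective (α := Fin n → Fin q)
    (fun r => (QuotientAddGroup.mk (fun i => ((r i : ℕ) : ℤ)) : (Fin n → ℤ) ⧸ M)) ?_
  intro x
  obtain ⟨m, rfl⟩ := QuotientAddGroup.mk_surjective x
  have hlt : ∀ i, (m i % (q : ℤ)).toNat < q := by
    intro i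
    have h1 := Int.emod_nonneg (m i) (ne_of_gt hq')
    have h2 := Int.emod_lt_of_pos (m i) hq'
    omega
  refine ⟨fun i => ⟨(m i % (q : ℤ)).toNat, hlt i⟩, ?_⟩
  rw [QuotientAddGroup.eq]
  have h1 := hM (fun i => m i / (q : ℤ))
  convert h1 using 1
  funext i
  have h2 := Int.emod_nonneg (m i) (ne_of_gt hq')
  have h3 := Int.emod_add_mul_ediv (m i) (q : ℤ)
  simp only [Pi.add_apply, Pi.neg_apply, Pi.smul_apply, nsmul_eq_mul]
  rw [Int.toNat_of_nonneg h2]
  linarith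

lemma map_sum' {ι : Type*} (χ : AddChar (Fin n → ℤ) ℂ) (S : Finset ι) (f : ι → Fin n → ℤ) :
    χ (∑ i ∈ S, f i) = ∏ i ∈ S, χ (f i) := by
  classical
  induction S using Finset.induction_on with
  | empty => simp
  | insert a S ha ih => rw [Finset.sum_insert ha, Finset.prod_insert ha, AddChar.map_add_eq_mul, ih]

lemma char_prod (χ : AddChar (Fin n → ℤ) ℂ) (m : Fin n → ℤ) :
    χ m = ∏ i, χ (Pi.single i 1) ^ (m i) := by
  have h : m = ∑ i, m i • (Pi.single i 1 : Fin n → ℤ) := by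
    funext j
    simp [Finset.sum_apply, Pi.single_apply]
  conv_lhs => rw [h]
  rw [map_sum']
  exact Finset.prod_congr rfl (fun i _ => AddChar.map_zsmul_eq_zpow _ _ _)

/-- The coefficients. -/
noncomputable def cf (N : ℕ) (s : Fin n → ℕ) : ℝ := ∏ i, (N.choose (s i) : ℝ) / 2 ^ N

/-- The box. -/
def Bx (n N : ℕ) : Finset (Fin n → ℕ) := Fintype.piFinset (fun _ : Fin n => Finset.range (N + 1))

lemma cf_nonneg (N : ℕ) (s : Fin n → ℕ) : 0 ≤ cf N s :=
  Finset.prod_nonneg (fun i _ => by positivity)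

lemma sum_cf (N : ℕ) : ∑ s ∈ Bx n N, cf N s = 1 := by
  unfold cf Bx
  rw [← Finset.prod_univ_sum (fun _ : Fin n => Finset.range (N + 1))
    (fun _ k => (N.choose k : ℝ) / 2 ^ N)]
  have h : ∑ k ∈ Finset.range (N + 1), (N.choose k : ℝ) / 2 ^ N = 1 := by
    rw [← Finset.sum_div]
    have h1 := Nat.sum_range_choose N
    have h2 : ∑ k ∈ Finset.range (N + 1), (N.choose k : ℝ) = 2 ^ N := by exact_mod_cast h1
    rw [h2, div_self (by positivity)]
  simp [h]

lemma card_Bx (N : ℕ) : (Bx n N).card = (N + 1) ^ n := by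
  unfold Bx
  simp

lemma sum_cf_sq (N : ℕ) : 1 ≤ ((N : ℝ) + 1) ^ n * ∑ s ∈ Bx n N, cf N s ^ 2 := by
  have h := sq_sum_le_card_mul_sum_sq (s := Bx n N) (f := fun s => cf N s)
  rw [sum_cf, card_Bx] at h
  simpa using h

lemma kernel (N : ℕ) (χ : AddChar (Fin n → ℤ) ℂ) :
    ∏ i, ((1 + χ (Pi.single i 1)) / 2) ^ N
      = ∑ s ∈ Bx n N, (cf N s : ℂ) * χ (fun i => (s i : ℤ)) := by
  have h : ∀ i : Fin n, ((1 + χ (Pi.single i 1)) / 2) ^ N
      = ∑ k ∈ Finset.range (N + 1), ((N.choose k : ℝ) / 2 ^ N : ℂ) * χ (Pi.single i 1) ^ k := by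
    intro i
    rw [div_pow, add_comm, add_pow, Finset.sum_div]
    refine Finset.sum_congr rfl (fun k _ => ?_)
    rw [one_pow]
    push_cast
    ring
  rw [Finset.prod_congr rfl (fun i _ => h i), Finset.prod_univ_sum]
  unfold Bx
  refine Finset.sum_congr rfl (fun s _ => ?_)
  rw [Finset.prod_mul_distrib, char_prod χ (fun i => (s i : ℤ))]
  congr 1
  · unfold cf
    push_cast
    rfl

lemma kernel_sq (N : ℕ) (χ : AddChar (Fin n → ℤ) ℂ) (hχ : ∀ m, ‖χ m‖ = 1) :
    ((∏ i, (‖1 + χ (Pi.single i 1)‖ ^ 2 / 4) ^ N : ℝ) : ℂ)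
      = ∑ s ∈ Bx n N, ∑ t ∈ Bx n N, (cf N s : ℂ) * (cf N t : ℂ) *
        χ ((fun i => (s i : ℤ)) - (fun i => (t i : ℤ))) := by
  have h1 : ((∏ i, (‖1 + χ (Pi.single i 1)‖ ^ 2 / 4) ^ N : ℝ) : ℂ)
      = (∏ i, ((1 + χ (Pi.single i 1)) / 2) ^ N) *
        (starRingEnd ℂ) (∏ i, ((1 + χ (Pi.single i 1)) / 2) ^ N) := by
    rw [Complex.mul_conj, Complex.normSq_eq_norm_sq]
    congr 1
    rw [norm_prod, ← Finset.prod_pow]
    refine Finset.prod_congr rfl (fun i _ => ?_)
    rw [norm_pow, norm_div, ← pow_mul, mul_comm N 2, pow_mul]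
    congr 1
    rw [div_pow]
    norm_num
  rw [h1, kernel, map_sum, Finset.sum_mul_sum]
  refine Finset.sum_congr rfl (fun s _ => Finset.sum_congr rfl (fun t _ => ?_))
  rw [map_mul, Complex.conj_ofReal, AddChar.map_sub_eq_div]
  have h2 : (starRingEnd ℂ) (χ (fun i => (t i : ℤ))) = (χ (fun i => (t i : ℤ)))⁻¹ := by
    rw [Complex.inv_def, Complex.normSq_eq_norm_sq, hχ]
    simp
  rw [h2, div_eq_mul_inv]
  ring

/-- The character of `w`. -/
noncomputable def wch (w : Fin n → ℝ) : AddChar (Fin n → ℤ) ℂ where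
  toFun m := Complex.exp (-(2 * Real.pi * pair w m : ℝ) * Complex.I)
  map_zero_eq_one' := by simp [pair]
  map_add_eq_mul' := by
    intro a b
    rw [← Complex.exp_add]
    congr 1
    simp only [pair, Pi.add_apply]
    push_cast
    simp only [mul_add, Finset.sum_add_distrib]
    ring

lemma wch_apply (w : Fin n → ℝ) (m : Fin n → ℤ) :
    wch w m = Complex.exp (-(2 * Real.pi * pair w m : ℝ) * Complex.I) := rfl

lemma wch_norm (w : Fin n → ℝ) (m : Fin n → ℤ) : ‖wch w m‖ = 1 := by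
  rw [wch_apply]
  have := Complex.norm_exp_ofReal_mul_I (-(2 * Real.pi * pair w m))
  simpa using this

lemma wch_one (w : Fin n → ℝ) (m : Fin n → ℤ) (h : ∃ z : ℤ, pair w m = z) : wch w m = 1 := by
  obtain ⟨z, hz⟩ := h
  rw [wch_apply, hz, Complex.exp_eq_one_iff]
  refine ⟨-z, ?_⟩
  push_cast
  ring

lemma sum_psi {M : AddSubgroup (Fin n → ℤ)} [Fintype ((Fin n → ℤ) ⧸ M)] (N : ℕ) (w : Fin n → ℝ)
    (hw : ∀ m ∈ M, (∀ i, |m i| ≤ N) → ∃ z : ℤ, pair w m = z) :
    (Fintype.card ((Fin n → ℤ) ⧸ M) : ℝ) * ∑ s ∈ Bx n N, cf N s ^ 2 ≤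
      ∑ ψ : AddChar ((Fin n → ℤ) ⧸ M) ℂ,
        ∏ i, (‖1 + (ψ.compAddMonoidHom (QuotientAddGroup.mk' M) * wch w) (Pi.single i 1)‖ ^ 2 / 4) ^ N := by
  classical
  have key : ((∑ ψ : AddChar ((Fin n → ℤ) ⧸ M) ℂ,
        ∏ i, (‖1 + (ψ.compAddMonoidHom (QuotientAddGroup.mk' M) * wch w) (Pi.single i 1)‖ ^ 2 / 4) ^ N : ℝ) : ℂ)
      = ((∑ s ∈ Bx n N, ∑ t ∈ Bx n N, cf N s * cf N t *
        (if (fun i => (s i : ℤ)) - (fun i => (t i : ℤ)) ∈ M then
          (Fintype.card ((Fin n → ℤ) ⧸ M) : ℝ) else 0) : ℝ) : ℂ) := by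
    rw [Complex.ofReal_sum]
    have h1 : ∀ ψ : AddChar ((Fin n → ℤ) ⧸ M) ℂ,
        ((∏ i, (‖1 + (ψ.compAddMonoidHom (QuotientAddGroup.mk' M) * wch w) (Pi.single i 1)‖ ^ 2 / 4) ^ N : ℝ) : ℂ)
        = ∑ s ∈ Bx n N, ∑ t ∈ Bx n N, (cf N s : ℂ) * (cf N t : ℂ) *
        (ψ.compAddMonoidHom (QuotientAddGroup.mk' M) * wch w) ((fun i => (s i : ℤ)) - (fun i => (t i : ℤ))) := by
      intro ψ
      apply kernel_sq
      intro m
      rw [AddChar.mul_apply, norm_mul, wch_norm, mul_one, AddChar.compAddMonoidHom_apply,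
        AddChar.norm_apply]
    rw [Finset.sum_congr rfl (fun ψ _ => h1 ψ), Finset.sum_comm, Complex.ofReal_sum]
    refine Finset.sum_congr rfl (fun s hs => ?_)
    rw [Finset.sum_comm, Complex.ofReal_sum]
    refine Finset.sum_congr rfl (fun t ht => ?_)
    rw [← Finset.mul_sum, Complex.ofReal_mul, Complex.ofReal_mul]
    congr 1
    have h2 : ∀ ψ : AddChar ((Fin n → ℤ) ⧸ M) ℂ,
        (ψ.compAddMonoidHom (QuotientAddGroup.mk' M) * wch w) ((fun i => (s i : ℤ)) - (fun i => (t i : ℤ)))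
        = ψ (QuotientAddGroup.mk' M ((fun i => (s i : ℤ)) - (fun i => (t i : ℤ)))) *
          wch w ((fun i => (s i : ℤ)) - (fun i => (t i : ℤ))) := fun ψ => rfl
    rw [Finset.sum_congr rfl (fun ψ _ => h2 ψ), ← Finset.sum_mul, AddChar.sum_apply_eq_ite]
    have h3 : (QuotientAddGroup.mk' M ((fun i => (s i : ℤ)) - (fun i => (t i : ℤ))) = 0) ↔
        (fun i => (s i : ℤ)) - (fun i => (t i : ℤ)) ∈ M := by
      rw [QuotientAddGroup.mk'_apply, QuotientAddGroup.eq_zero_iff]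
    by_cases hm : (fun i => (s i : ℤ)) - (fun i => (t i : ℤ)) ∈ M
    · rw [if_pos (h3.2 hm), if_pos hm, wch_one, mul_one, Complex.ofReal_natCast]
      apply hw _ hm
      intro i
      have hs' := Finset.mem_range.1 (Fintype.mem_piFinset.1 hs i)
      have ht' := Finset.mem_range.1 (Fintype.mem_piFinset.1 ht i)
      simp only [Pi.sub_apply]
      rw [abs_le]
      constructor <;> omega
    · rw [if_neg (fun h => hm (h3.1 h)), if_neg hm, zero_mul, Complex.ofReal_zero]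
  have key2 := Complex.ofReal_injective key
  rw [key2, Finset.mul_sum]
  refine Finset.sum_le_sum (fun s hs => ?_)
  have h4 : (Fintype.card ((Fin n → ℤ) ⧸ M) : ℝ) * cf N s ^ 2 = cf N s * cf N s *
        (if (fun i => (s i : ℤ)) - (fun i => (s i : ℤ)) ∈ M then
          (Fintype.card ((Fin n → ℤ) ⧸ M) : ℝ) else 0) := by
    rw [sub_self, if_pos M.zero_mem]
    ring
  rw [h4]
  refine Finset.single_le_sum (f := fun t => cf N s * cf N t *
        (if (fun i => (s i : ℤ)) - (fun i => (t i : ℤ)) ∈ M then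
          (Fintype.card ((Fin n → ℤ) ⧸ M) : ℝ) else 0)) (fun t _ => ?_) hs
  have := cf_nonneg N s
  have := cf_nonneg N t
  split_ifs <;> positivity

lemma exists_N (n : ℕ) {ε : ℝ} (hε : 0 < ε) :
    ∃ N : ℕ, ((N : ℝ) + 1) ^ n * (max 0 (1 - 4 * ε ^ 2)) ^ N < 1 := by
  set ρ := max 0 (1 - 4 * ε ^ 2) with hρ
  have h0 : 0 ≤ ρ := le_max_left _ _
  have h1 : ρ < 1 := by
    rw [hρ, max_lt_iff]
    constructor
    · norm_num
    · have : 0 < ε ^ 2 := by positivity
      linarith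
  have h2 := tendsto_pow_const_mul_const_pow_of_abs_lt_one n (r := ρ) (by rw [abs_of_nonneg h0]; exact h1)
  have h3 : (0 : ℝ) < (1 / 2) ^ n := by positivity
  have h4 := ((tendsto_order.1 h2).2 _ h3).and (Filter.eventually_ge_atTop 1)
  obtain ⟨N, hN, hN1⟩ := h4.exists
  refine ⟨N, ?_⟩
  have h5 : ((N : ℝ) + 1) ^ n ≤ 2 ^ n * (N : ℝ) ^ n := by
    rw [← mul_pow]
    have : (1 : ℝ) ≤ N := by exact_mod_cast hN1
    exact pow_le_pow_left₀ (by positivity) (by linarith) n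
  calc ((N : ℝ) + 1) ^ n * ρ ^ N ≤ 2 ^ n * (N : ℝ) ^ n * ρ ^ N := by gcongr
    _ = 2 ^ n * ((N : ℝ) ^ n * ρ ^ N) := by ring
    _ < 2 ^ n * (1 / 2) ^ n := by gcongr
    _ = 1 := by rw [← mul_pow]; norm_num

lemma par {z : ℂ} (hz : ‖z‖ = 1) : ‖1 + z‖ ^ 2 / 4 = 1 - ‖1 - z‖ ^ 2 / 4 := by
  have h := parallelogram_law_with_norm ℝ (1 : ℂ) z
  rw [hz] at h
  norm_num at h
  nlinarith [h]

end Dens

open Dens in
theorem exists_dual_near (n : ℕ) {ε : ℝ} (hε : 0 < ε) :
    ∃ N : ℕ, ∀ (M : AddSubgroup (Fin n → ℤ)), FinIdx M → ∀ w : Fin n → ℝ,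
      (∀ m ∈ M, (∀ i, |m i| ≤ N) → ∃ z : ℤ, pair w m = z) →
      ∃ x ∈ Dual M, ∀ i, |x i - w i| < ε := by
  classical
  obtain ⟨N, hN⟩ := exists_N n hε
  refine ⟨N, fun M hM w hw => ?_⟩
  have := finite_quot hM
  have := Fintype.ofFinite ((Fin n → ℤ) ⧸ M)
  have hnorm : ∀ (ψ : AddChar ((Fin n → ℤ) ⧸ M) ℂ) (m : Fin n → ℤ),
      ‖(ψ.compAddMonoidHom (QuotientAddGroup.mk' M) * wch w) m‖ = 1 := by
    intro ψ m
    rw [AddChar.mul_apply, norm_mul, wch_norm, mul_one, AddChar.compAddMonoidHom_apply,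
        AddChar.norm_apply]
  obtain ⟨ψ, hψ⟩ : ∃ ψ : AddChar ((Fin n → ℤ) ⧸ M) ℂ, ∀ i,
      ‖1 - (ψ.compAddMonoidHom (QuotientAddGroup.mk' M) * wch w) (Pi.single i 1)‖ < 4 * ε := by
    by_contra hcon
    push Not at hcon
    have h1 := sum_psi N w hw
    have h2 : ∀ ψ : AddChar ((Fin n → ℤ) ⧸ M) ℂ,
        ∏ i, (‖1 + (ψ.compAddMonoidHom (QuotientAddGroup.mk' M) * wch w) (Pi.single i 1)‖ ^ 2 / 4) ^ N
        ≤ (max 0 (1 - 4 * ε ^ 2)) ^ N := by
      intro ψ
      obtain ⟨i, hi⟩ := hcon ψ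
      rw [← Finset.mul_prod_erase Finset.univ _ (Finset.mem_univ i)]
      have h3 : (‖1 + (ψ.compAddMonoidHom (QuotientAddGroup.mk' M) * wch w) (Pi.single i 1)‖ ^ 2 / 4) ^ N
          ≤ (max 0 (1 - 4 * ε ^ 2)) ^ N := by
        apply pow_le_pow_left₀ (by positivity)
        rw [par (hnorm ψ _)]
        refine le_trans ?_ (le_max_right _ _)
        nlinarith
      have h4 : ∏ j ∈ Finset.univ.erase i,
          (‖1 + (ψ.compAddMonoidHom (QuotientAddGroup.mk' M) * wch w) (Pi.single j 1)‖ ^ 2 / 4) ^ N ≤ 1 := by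
        apply Finset.prod_le_one
        · intro j _; positivity
        · intro j _
          apply pow_le_one₀ (by positivity)
          rw [par (hnorm ψ _)]
          have := sq_nonneg ‖1 - (ψ.compAddMonoidHom (QuotientAddGroup.mk' M) * wch w) (Pi.single j 1)‖
          linarith
      calc _ ≤ (max 0 (1 - 4 * ε ^ 2)) ^ N * 1 := by
            apply mul_le_mul h3 h4
            · apply Finset.prod_nonneg
              intro j _; positivity
            · positivity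
        _ = _ := mul_one _
    have h5 : ∑ ψ : AddChar ((Fin n → ℤ) ⧸ M) ℂ,
        ∏ i, (‖1 + (ψ.compAddMonoidHom (QuotientAddGroup.mk' M) * wch w) (Pi.single i 1)‖ ^ 2 / 4) ^ N
        ≤ (Fintype.card ((Fin n → ℤ) ⧸ M) : ℝ) * (max 0 (1 - 4 * ε ^ 2)) ^ N := by
      refine (Finset.sum_le_sum (fun ψ _ => h2 ψ)).trans ?_
      rw [Finset.sum_const, nsmul_eq_mul, Finset.card_univ, AddChar.card_eq]
    have hc : (0 : ℝ) < (Fintype.card ((Fin n → ℤ) ⧸ M) : ℝ) := by
      exact_mod_cast Fintype.card_pos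
    have h6 := le_of_mul_le_mul_left (h1.trans h5) hc
    have h7 := sum_cf_sq (n := n) N
    have h8 : ((N : ℝ) + 1) ^ n * ∑ s ∈ Bx n N, cf N s ^ 2 ≤ ((N : ℝ) + 1) ^ n * (max 0 (1 - 4 * ε ^ 2)) ^ N :=
      mul_le_mul_of_nonneg_left h6 (by positivity)
    linarith
  set z : Fin n → ℂ := fun i => (ψ.compAddMonoidHom (QuotientAddGroup.mk' M) * wch w) (Pi.single i 1) with hz
  have hzn : ∀ i, ‖z i‖ = 1 := fun i => hnorm ψ _
  refine ⟨fun i => w i + Complex.arg (z i) / (2 * Real.pi), ?_, ?_⟩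
  · intro m hm
    have h1 : (ψ.compAddMonoidHom (QuotientAddGroup.mk' M) * wch w) m = wch w m := by
      rw [AddChar.mul_apply, AddChar.compAddMonoidHom_apply]
      have : QuotientAddGroup.mk' M m = 0 := by
        rw [QuotientAddGroup.mk'_apply, QuotientAddGroup.eq_zero_iff]; exact hm
      rw [this, AddChar.map_zero_eq_one, one_mul]
    rw [char_prod] at h1
    have h2 : ∀ i, (ψ.compAddMonoidHom (QuotientAddGroup.mk' M) * wch w) (Pi.single i 1) ^ (m i)
        = Complex.exp ((Complex.arg (z i) * m i : ℝ) * Complex.I) := by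
      intro i
      have h3 : (ψ.compAddMonoidHom (QuotientAddGroup.mk' M) * wch w) (Pi.single i 1)
          = Complex.exp (Complex.arg (z i) * Complex.I) := by
        have := Complex.norm_mul_exp_arg_mul_I (z i)
        rw [hzn, Complex.ofReal_one, one_mul] at this
        exact this.symm
      rw [h3, ← Complex.exp_int_mul]
      congr 1
      push_cast
      ring
    rw [Finset.prod_congr rfl (fun i _ => h2 i), ← Complex.exp_sum, wch_apply] at h1
    have h4 : Complex.exp ((2 * Real.pi * pair (fun i => w i + Complex.arg (z i) / (2 * Real.pi)) m : ℝ) * Complex.I) = 1 := by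
      have h5 : ((2 * Real.pi * pair (fun i => w i + Complex.arg (z i) / (2 * Real.pi)) m : ℝ) : ℂ) * Complex.I
          = ∑ i, ((Complex.arg (z i) * m i : ℝ) : ℂ) * Complex.I - (-(2 * Real.pi * pair w m : ℝ) * Complex.I) := by
        rw [← Finset.sum_mul, neg_mul, sub_neg_eq_add, ← add_mul]
        congr 1
        rw [← Complex.ofReal_sum, ← Complex.ofReal_add]
        congr 1
        unfold pair
        rw [Finset.mul_sum, Finset.mul_sum, ← Finset.sum_add_distrib]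
        refine Finset.sum_congr rfl (fun i _ => ?_)
        have := Real.pi_ne_zero
        field_simp
        ring
      rw [h5, Complex.exp_sub, h1, div_self (Complex.exp_ne_zero _)]
    rw [Complex.exp_eq_one_iff] at h4
    obtain ⟨k, hk⟩ := h4
    refine ⟨k, ?_⟩
    have h6 : ((2 * Real.pi * pair (fun i => w i + Complex.arg (z i) / (2 * Real.pi)) m : ℝ) : ℂ)
        = ((k * (2 * Real.pi) : ℝ) : ℂ) := by
      have h7 : ((2 * Real.pi * pair (fun i => w i + Complex.arg (z i) / (2 * Real.pi)) m : ℝ) : ℂ) * Complex.I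
          = ((k * (2 * Real.pi) : ℝ) : ℂ) * Complex.I := by
        rw [hk]
        push_cast
        ring
      exact mul_right_cancel₀ Complex.I_ne_zero h7
    have h8 := Complex.ofReal_injective h6
    have hpi : (2 * Real.pi) ≠ 0 := by positivity
    rw [mul_comm (k : ℝ)] at h8
    exact mul_left_cancel₀ hpi h8
  · intro i
    have h1 : ‖1 - z i‖ = 2 * |Real.sin (Complex.arg (z i) / 2)| := by
      have h3 : z i = Complex.exp (Complex.I * Complex.arg (z i)) := by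
        have := Complex.norm_mul_exp_arg_mul_I (z i)
        rw [hzn, Complex.ofReal_one, one_mul] at this
        rw [mul_comm]
        exact this.symm
      rw [norm_sub_rev]
      conv_lhs => rw [h3]
      rw [Complex.norm_exp_I_mul_ofReal_sub_one, norm_mul]
      simp
    have h2 : |Complex.arg (z i) / 2| ≤ Real.pi / 2 := by
      rw [abs_div, abs_two]
      have := Complex.abs_arg_le_pi (z i)
      linarith
    have h3 := Real.mul_abs_le_abs_sin h2
    have h4 := hψ i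
    change ‖1 - z i‖ < 4 * ε at h4
    rw [h1] at h4
    have h5 : w i + Complex.arg (z i) / (2 * Real.pi) - w i = Complex.arg (z i) / (2 * Real.pi) := by ring
    show |w i + Complex.arg (z i) / (2 * Real.pi) - w i| < ε
    rw [h5, abs_div, abs_of_pos (by positivity : (0 : ℝ) < 2 * Real.pi)]
    rw [abs_div, abs_two] at h3
    rw [div_lt_iff₀ (by positivity)]
    have h6 : 2 / Real.pi * (|Complex.arg (z i)| / 2) < 2 * ε := by linarith
    have h7 : |Complex.arg (z i)| = 2 / Real.pi * (|Complex.arg (z i)| / 2) * Real.pi := by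
      have := Real.pi_ne_zero
      field_simp
    rw [h7]
    have := Real.pi_pos
    nlinarith

end Pool.Agent.GAP
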