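import Pool.Agent.GAP.Wqo
import Pool.Agent.GAP.Dens

/-!
# GAP, module LIM: the combinatorial limit argument

Proof. By `exists_decreasing_subseq` (for the sets of the functions `m : Fin n → ℕ`, `m ∈ S_i`) we
may pass to a subsequence: for `a ≤ b` every `m' ∈ S_(φ b)` is `≥` some `m ∈ S_(φ a)`, so for
`w' > 0`: `α_(φ b)(w') ≤ α_(φ a)(w')` (`IsAl` values). Let `U = Filter.hyperfilter ℕ` (an
ultrafilter) and `M_∞ = {m | ∀ᶠ a in U, m ∈ M_(φ a)}`, an additive subgroup of `ℤ^n`. It is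
finitely generated (`ℤ^n` is a Noetherian `ℤ`-module), so `∀ᶠ a in U, M_∞ ≤ M_(φ a)`; fix such an
`a` and put `i = φ a`. Let `ε > 0`, `J` be given. The function `w' ↦ α_i(w')` is continuous
(`|⟨w', m⟩ - ⟨w, m⟩| ≤ ∑ |w'_l - w_l| m_l`; finitely many `m ∈ S_i`): there is `δ > 0`, smaller
than all `w_i(l)`, such that `|w'_l - w_l| < δ` for all `l` implies `α_i(w') < α_i(w_i) + ε`. Take
`N` from `exists_dual_near n δ`. For `U`-many `b`: `φ b ≥ J`, `b ≥ a`, and for all `m` with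
`|m_l| ≤ N` (finitely many): `m ∈ M_(φ b) → m ∈ M_∞` (an ultrafilter decides each `m`). For such `b`
every `m ∈ M_(φ b)` with `|m_l| ≤ N` lies in `M_∞ ⊆ M_i`, so `⟨w_i, m⟩ ∈ ℤ`. So there is
`w' ∈ Dual M_(φ b)` with `|w'_l - w_i(l)| < δ`; it is positive and
`α_(φ b)(w') ≤ α_i(w') < α_i(w_i) + ε`. Take `j = φ b`.
-/

set_option linter.dupNamespace false
set_option autoImplicit false

namespace Pool.Agent.GAP

namespace Lim

/-- The limit of the lattices along the ultrafilter. -/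
def Minf {n : ℕ} (M : ℕ → AddSubgroup (Fin n → ℤ)) (φ : ℕ → ℕ) : AddSubgroup (Fin n → ℤ) where
  carrier := {m | ∀ᶠ a in (Filter.hyperfilter ℕ : Filter ℕ), m ∈ M (φ a)}
  zero_mem' := Filter.Eventually.of_forall (fun a => (M (φ a)).zero_mem)
  add_mem' := by
    intro x y hx hy
    filter_upwards [hx, hy] with a h1 h2 using (M (φ a)).add_mem h1 h2
  neg_mem' := by
    intro x hx
    filter_upwards [hx] with a h1 using (M (φ a)).neg_mem h1

lemma mem_Minf {n : ℕ} {M : ℕ → AddSubgroup (Fin n → ℤ)} {φ : ℕ → ℕ} {m : Fin n → ℤ} :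
    m ∈ Minf M φ ↔ ∀ᶠ a in (Filter.hyperfilter ℕ : Filter ℕ), m ∈ M (φ a) := Iff.rfl

lemma le_ev {n : ℕ} (M : ℕ → AddSubgroup (Fin n → ℤ)) (φ : ℕ → ℕ) :
    ∀ᶠ a in (Filter.hyperfilter ℕ : Filter ℕ), Minf M φ ≤ M (φ a) := by
  obtain ⟨T, hT⟩ : (AddSubgroup.toIntSubmodule (Minf M φ)).FG := IsNoetherian.noetherian _
  have h1 : ∀ᶠ a in (Filter.hyperfilter ℕ : Filter ℕ), ∀ t ∈ T, t ∈ M (φ a) := by
    rw [Filter.eventually_all_finset]
    intro t ht
    have : t ∈ AddSubgroup.toIntSubmodule (Minf M φ) := by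
      rw [← hT]
      exact Submodule.subset_span ht
    exact this
  filter_upwards [h1] with a ha m hm
  have h2 : m ∈ AddSubgroup.toIntSubmodule (Minf M φ) := hm
  rw [← hT] at h2
  have h3 : Submodule.span ℤ (T : Set (Fin n → ℤ)) ≤ AddSubgroup.toIntSubmodule (M (φ a)) := by
    rw [Submodule.span_le]
    intro t ht
    exact ha t ht
  exact h3 h2

lemma pairN_mono {n : ℕ} {w : Fin n → ℝ} (hw : ∀ l, 0 < w l) {m m' : Fin n →₀ ℕ}
    (h : ∀ l, m l ≤ m' l) : pairN w m ≤ pairN w m' := by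
  unfold pairN
  refine Finset.sum_le_sum (fun l _ => ?_)
  exact mul_le_mul_of_nonneg_left (by exact_mod_cast h l) (hw l).le

end Lim

open Lim in
theorem limit (n : ℕ) (M : ℕ → AddSubgroup (Fin n → ℤ)) (hM : ∀ i, FinIdx (M i))
    (S : ℕ → Finset (Fin n →₀ ℕ)) (hS : ∀ i, (S i).Nonempty) (w : ℕ → Fin n → ℝ)
    (hw : ∀ i, w i ∈ Dual (M i)) (hpos : ∀ i l, 0 < w i l) (α : ℕ → ℝ)
    (hα : ∀ i, IsAl (S i) (w i) (α i)) :
    ∃ i, ∀ ε > 0, ∀ J : ℕ, ∃ j ≥ J, ∃ w' ∈ Dual (M j), (∀ l, 0 < w' l) ∧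
      ∃ a', IsAl (S j) w' a' ∧ a' < α i + ε := by
  classical
  obtain ⟨φ, hφ, hdec⟩ := exists_decreasing_subseq n (fun i => {m | ∃ s ∈ S i, m = (s : Fin n → ℕ)})
  obtain ⟨a, ha⟩ := (le_ev M φ).exists
  refine ⟨φ a, fun ε hε J => ?_⟩
  obtain ⟨δ, hδ, hball⟩ : ∃ δ > 0, ∀ w' : Fin n → ℝ, (∀ l, |w' l - w (φ a) l| < δ) →
      (∀ l, 0 < w' l) ∧ ∀ m ∈ S (φ a), ∑ i, w' i - pairN w' m < α (φ a) + ε := by
    have hopen : IsOpen {w' : Fin n → ℝ | (∀ l, 0 < w' l) ∧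
        ∀ m ∈ S (φ a), ∑ i, w' i - pairN w' m < α (φ a) + ε} := by
      have h1 : {w' : Fin n → ℝ | (∀ l, 0 < w' l) ∧
        ∀ m ∈ S (φ a), ∑ i, w' i - pairN w' m < α (φ a) + ε} =
        (⋂ l, {w' | 0 < w' l}) ∩ ⋂ m ∈ S (φ a), {w' | ∑ i, w' i - pairN w' m < α (φ a) + ε} := by
        ext w'
        simp
      rw [h1]
      refine IsOpen.inter (isOpen_iInter_of_finite fun l => ?_)
        (isOpen_biInter_finset fun m _ => ?_)
      · exact isOpen_lt continuous_const (continuous_apply l)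
      · refine isOpen_lt ?_ continuous_const
        unfold pairN
        fun_prop
    obtain ⟨δ, hδ, hb⟩ := Metric.isOpen_iff.1 hopen (w (φ a))
      ⟨hpos (φ a), fun m hm => by
        have := (hα (φ a)).2 m hm
        linarith⟩
    refine ⟨δ, hδ, fun w' h => hb ?_⟩
    rw [Metric.mem_ball, dist_pi_lt_iff hδ]
    intro l
    rw [Real.dist_eq]
    exact h l
  obtain ⟨N, hN⟩ := exists_dual_near n hδ
  have hcof : (Filter.hyperfilter ℕ : Filter ℕ) ≤ Filter.atTop := by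
    rw [← Nat.cofinite_eq_atTop]
    exact Filter.hyperfilter_le_cofinite
  have h1 : ∀ᶠ b in (Filter.hyperfilter ℕ : Filter ℕ),
      ∀ m ∈ Fintype.piFinset (fun _ : Fin n => Finset.Icc (-(N : ℤ)) N), m ∈ M (φ b) → m ∈ Minf M φ := by
    rw [Filter.eventually_all_finset]
    intro m _
    by_cases hm : m ∈ Minf M φ
    · exact Filter.Eventually.of_forall (fun _ _ => hm)
    · have : ∀ᶠ b in (Filter.hyperfilter ℕ : Filter ℕ), ¬ m ∈ M (φ b) :=
        Ultrafilter.eventually_not.2 hm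
      filter_upwards [this] with b hb h using absurd h hb
  have h2 : ∀ᶠ b in (Filter.hyperfilter ℕ : Filter ℕ), J ≤ b ∧ a ≤ b :=
    hcof ((Filter.eventually_ge_atTop J).and (Filter.eventually_ge_atTop a))
  obtain ⟨b, hb1, hb2, hb3⟩ := (h1.and h2).exists
  refine ⟨φ b, hb2.trans (hφ.id_le b), ?_⟩
  obtain ⟨w', hw', hnear⟩ := hN (M (φ b)) (hM _) (w (φ a)) (by
    intro m hm hmN
    apply hw (φ a)
    apply ha
    apply hb1 m _ hm
    rw [Fintype.mem_piFinset]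
    intro l
    rw [Finset.mem_Icc, ← abs_le]
    exact hmN l)
  obtain ⟨hp, hS'⟩ := hball w' hnear
  obtain ⟨a', ha'⟩ := exists_isAl (hS (φ b)) w'
  refine ⟨w', hw', hp, a', ha', ?_⟩
  obtain ⟨m', hm', rfl⟩ := ha'.1
  obtain ⟨m0, ⟨m, hm, rfl⟩, hle⟩ := hdec a b hb3 m' ⟨m', hm', rfl⟩
  have h3 := hS' m hm
  have h4 := pairN_mono hp (m := m) (m' := m') (fun l => hle l)
  linarith

end Pool.Agent.GAP
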