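import Pool.Agent.GAP.Fin
import Pool.Agent.GAP.Lim

/-!
# GAP: the gap theorem and the ACC on `[0, 1)`
-/

set_option linter.dupNamespace false

namespace Pool.Agent.GAP

universe u v

theorem comb_data {d : ℕ} {r : EReal} (hr : r ∈ mldSet.{u, v} (d + 1)) :
    ∃ (M : AddSubgroup (Fin (d + 1) → ℤ)) (S : Finset (Fin (d + 1) →₀ ℕ)), FinIdx M ∧
      S.Nonempty ∧
      (∀ w ∈ Dual M, (∀ i, 0 < w i) → ∀ a : ℝ, IsAl S w a → a ≤ 1 →
        r ≤ ((a : ℝ) : EReal) ∨ r < 0) ∧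
      ∀ t : ℝ, r < ((t : ℝ) : EReal) → ∃ w ∈ Dual M, (∀ i, 0 < w i) ∧ ∃ a, IsAl S w a ∧ a < t := by
  obtain ⟨k, _, _, _, X, K, _, _, _, _, _, D, rfl⟩ := hr
  have := X.fin
  refine ⟨perp X.G, X.f.support, perp_finIdx X.G, ?_, ?_, ?_⟩
  · rw [Finset.nonempty_iff_ne_empty]
    intro h
    exact X.irr.ne_zero (MvPolynomial.support_eq_empty.1 h)
  · intro w hw hpos a ha ha1
    exact mld_upper X D hw hpos ha ha1
  · intro t ht
    exact mld_lower X D ht

theorem key {d : ℕ} (s : ℕ → EReal) (hs : ∀ i, s i ∈ mldSet.{u, v} (d + 1)) (h1 : ∀ i, s i < 1)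
    (h0 : ∀ i, 0 ≤ s i) (t : ℕ → ℝ) (ht : ∀ i, s i < ((t i : ℝ) : EReal)) :
    ∃ i, ∀ J, ∃ j ≥ J, s j ≤ ((t i : ℝ) : EReal) := by
  choose M S hM hS hup hlow using fun i => comb_data (hs i)
  choose w hw hpos α hα hαt using fun i => hlow i (t i) (ht i)
  obtain ⟨i, hi⟩ := limit (d + 1) M hM S hS w hw hpos α hα
  refine ⟨i, fun J => ?_⟩
  rcases le_or_gt 1 (t i) with h2 | h2
  · refine ⟨J, le_rfl, (h1 J).le.trans ?_⟩
    exact_mod_cast h2
  · obtain ⟨j, hj, w', hw', hpos', a', ha', hlt⟩ := hi (t i - α i) (by linarith [hαt i]) J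
    refine ⟨j, hj, ?_⟩
    have h3 : a' < t i := by linarith
    rcases hup j w' hw' hpos' a' ha' (by linarith) with h4 | h4
    · exact h4.trans (by exact_mod_cast h3.le)
    · exact absurd (h0 j) (not_le.2 h4)

theorem acc (d : ℕ) : ¬ ∃ s : ℕ → EReal, StrictMono s ∧
    ∀ i, s i ∈ mldSet.{u, v} (d + 1) ∧ 0 ≤ s i ∧ s i < 1 := by
  rintro ⟨s, hs, h⟩
  have hreal : ∀ i, (((s i).toReal : ℝ) : EReal) = s i := by
    intro i
    refine EReal.coe_toReal ?_ ?_
    · intro h1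
      have := (h i).2.2
      rw [h1] at this
      exact absurd this (by simp)
    · intro h1
      have := (h i).2.1
      rw [h1] at this
      exact absurd this (by simp)
  obtain ⟨i, hi⟩ := key s (fun i => (h i).1) (fun i => (h i).2.2) (fun i => (h i).2.1)
    (fun i => (s (i + 1)).toReal) (fun i => by
      rw [hreal]
      exact hs (Nat.lt_succ_self i))
  obtain ⟨j, hj, hle⟩ := hi (i + 2)
  simp only [hreal] at hle
  have h1 : s (i + 1) < s (i + 2) := hs (Nat.lt_succ_self _)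
  have h2 : s (i + 2) ≤ s j := hs.monotone hj
  exact absurd (h1.trans_le (h2.trans hle)) (lt_irrefl _)

theorem gap (d : ℕ) {t : ℝ} (ht0 : 0 < t) (ht1 : t ≤ 1) : ∃ a : ℝ, 0 < a ∧ a < t ∧
    ∀ r ∈ mldSet.{u, v} (d + 1), ((a : ℝ) : EReal) < r → ((t : ℝ) : EReal) ≤ r := by
  by_contra hcon
  push Not at hcon
  have hstep : ∀ x : {x : EReal // 0 ≤ x ∧ x < ((t : ℝ) : EReal)},
      ∃ r : {x : EReal // 0 ≤ x ∧ x < ((t : ℝ) : EReal)},
      x.1 < r.1 ∧ r.1 ∈ mldSet.{u, v} (d + 1) := by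
    rintro ⟨x, hx0, hx1⟩
    have hxt : ((x.toReal : ℝ) : EReal) = x := by
      refine EReal.coe_toReal ?_ ?_
      · intro h1
        rw [h1] at hx1
        exact absurd hx1 (by simp)
      · intro h1
        rw [h1] at hx0
        exact absurd hx0 (by simp)
    have hx0' : 0 ≤ x.toReal := by
      have : ((0 : ℝ) : EReal) ≤ ((x.toReal : ℝ) : EReal) := by
        rw [hxt]
        exact_mod_cast hx0
      exact_mod_cast this
    have hx1' : x.toReal < t := by
      have : ((x.toReal : ℝ) : EReal) < ((t : ℝ) : EReal) := by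
        rw [hxt]
        exact hx1
      exact_mod_cast this
    obtain ⟨r, hr, hr1, hr2⟩ := hcon ((x.toReal + t) / 2) (by linarith) (by linarith)
    have h3 : x < r := by
      refine lt_of_le_of_lt ?_ hr1
      rw [← hxt]
      have : x.toReal ≤ (x.toReal + t) / 2 := by linarith
      exact_mod_cast this
    exact ⟨⟨r, hx0.trans h3.le, hr2⟩, h3, hr⟩
  choose g hg1 hg2 using hstep
  let s : ℕ → {x : EReal // 0 ≤ x ∧ x < ((t : ℝ) : EReal)} :=
    fun n => g^[n + 1] ⟨0, le_rfl, by exact_mod_cast ht0⟩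
  refine acc.{u, v} d ⟨fun n => (s n).1, strictMono_nat_of_lt_succ fun n => ?_, fun n => ?_⟩
  · change (g^[n + 1] _).1 < (g^[n + 1 + 1] _).1
    rw [Function.iterate_succ_apply' g (n + 1)]
    exact hg1 _
  · refine ⟨?_, (s n).2.1, (s n).2.2.trans_le (by exact_mod_cast ht1)⟩
    change (g^[n + 1] _).1 ∈ _
    rw [Function.iterate_succ_apply' g n]
    exact hg2 _

end Pool.Agent.GAP
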