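import Pool.Agent.GAP.Tor

/-!
# GAP, module BAS: a basis of `M` adapted to a primitive weight; the polynomial chart

`exists_chart`. `M` is a subgroup of `ℤ^(d+1)` containing `q ℤ^(d+1)`, so it is free of rank
`d + 1`. Choose `b0` with `w b0 = 1`. The kernel of `w` is free (subgroup of a free group) and
`M = ℤ b0 ⊕ ker w`, so its rank is `d`; take a basis `b`. `c m` are the coordinates of
`m - w(m) b0 ∈ ker w`.

`gen_poly`. `z ev b' = ev a'`; multiply `a'`, `b'` with a monomial `χ(N b0 + ∑ N b_j)`, `N` large, so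
that all exponents become nonnegative in the basis; then both are values of `φ`.
-/

set_option linter.dupNamespace false

namespace Pool.Agent.GAP

open AddMonoidAlgebra

variable {k K : Type*} [Field k] [Field K] [Algebra k K] {d : ℕ}

/-- A basis `b0, b` of `M` with `w b0 = 1`, `w b_j = 0`, and the coordinates `c`. -/
structure Chart (T : TorData k K d) (w : T.M →+ ℤ) where
  b0 : T.M
  b : Fin d → T.M
  c : T.M →+ (Fin d → ℤ)
  w0 : w b0 = 1
  wb : ∀ j, w (b j) = 0
  eq : ∀ m, m = w m • b0 + ∑ j, c m j • b j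
  c0 : c b0 = 0
  cb : ∀ j, c (b j) = Pi.single j 1

private theorem bas_finrank (T : TorData k K d) :
    Module.finrank ℤ T.M = d + 1 := by
  have hfin : Module.Finite ℤ (AddSubgroup.toIntSubmodule T.M) := inferInstance
  have hfin' : Module.Finite ℤ T.M := hfin
  apply le_antisymm
  · have h1 : Module.finrank ℤ (AddSubgroup.toIntSubmodule T.M) ≤
        Module.finrank ℤ (Fin (d + 1) → ℤ) := Submodule.finrank_le _
    rw [Module.finrank_fin_fun] at h1
    exact h1
  · let g : (Fin (d + 1) → ℤ) →ₗ[ℤ] T.M :=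
      { toFun := fun m => ⟨T.q • m, T.all m⟩
        map_add' := by
          intro x y
          apply Subtype.ext
          exact smul_add _ _ _
        map_smul' := by
          intro c x
          apply Subtype.ext
          exact smul_comm _ _ _ }
    have hg : Function.Injective g := by
      intro x y hxy
      have h1 : T.q • x = T.q • y := congrArg Subtype.val hxy
      funext i
      have h2 := congrFun h1 i
      simp only [Pi.smul_apply, nsmul_eq_mul] at h2
      exact mul_left_cancel₀ (by exact_mod_cast T.q_pos.ne') h2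
    have h1 := LinearMap.finrank_le_finrank_of_injective hg
    rwa [Module.finrank_fin_fun] at h1

theorem exists_chart (T : TorData k K d) (w : T.M →+ ℤ) (hw : ∃ m, w m = 1) :
    Nonempty (Chart T w) := by
  classical
  obtain ⟨b0, hb0⟩ := hw
  have hfin : Module.Finite ℤ (AddSubgroup.toIntSubmodule T.M) := inferInstance
  have hfin' : Module.Finite ℤ T.M := hfin
  have hfree : Module.Free ℤ (AddSubgroup.toIntSubmodule T.M) := inferInstance
  have hfree' : Module.Free ℤ T.M := hfree
  set W : T.M →ₗ[ℤ] ℤ := w.toIntLinearMap with hW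
  have hWa : ∀ m, W m = w m := fun m => rfl
  have hsurj : LinearMap.range W = ⊤ := by
    rw [LinearMap.range_eq_top]
    intro z
    refine ⟨z • b0, ?_⟩
    rw [map_smul, hWa, hb0, smul_eq_mul, mul_one]
  have hrank : Module.finrank ℤ (LinearMap.ker W) = d := by
    have h1 := Submodule.finrank_quotient_add_finrank (LinearMap.ker W)
    rw [(LinearMap.quotKerEquivRange W).finrank_eq, hsurj, finrank_top, Module.finrank_self,
      bas_finrank] at h1
    omega
  let B : Module.Basis (Fin d) ℤ (LinearMap.ker W) := Module.finBasisOfFinrankEq ℤ _ hrank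
  have hmem : ∀ m : T.M, (LinearMap.id - W.smulRight b0 : T.M →ₗ[ℤ] T.M) m ∈ LinearMap.ker W := by
    intro m
    rw [LinearMap.mem_ker, LinearMap.sub_apply, LinearMap.id_apply, LinearMap.smulRight_apply,
      map_sub, map_smul, hWa b0, hb0, smul_eq_mul, mul_one, sub_self]
  let π : T.M →ₗ[ℤ] LinearMap.ker W := LinearMap.codRestrict _ _ hmem
  have hπ : ∀ m, ((π m : LinearMap.ker W) : T.M) = m - w m • b0 := fun m => rfl
  let c : T.M →ₗ[ℤ] (Fin d → ℤ) := B.equivFun.toLinearMap.comp π
  have hker : ∀ j, w (B j : T.M) = 0 := fun j => (B j).2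
  refine ⟨⟨b0, fun j => (B j : T.M), c.toAddMonoidHom, hb0, hker, ?_, ?_, ?_⟩⟩
  · intro m
    have h1 : ∑ j, c m j • (B j) = π m := B.sum_equivFun (π m)
    have h2 : ∑ j, c m j • (B j : T.M) = m - w m • b0 := by
      rw [← hπ, ← h1]
      push_cast
      rfl
    change m = w m • b0 + ∑ j, c m j • (B j : T.M)
    rw [h2]
    abel
  · change c b0 = 0
    have h1 : π b0 = 0 := by
      apply Subtype.ext
      rw [hπ, hb0, one_smul, sub_self]
      rfl
    change B.equivFun (π b0) = 0
    rw [h1, map_zero]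
  · intro j
    change B.equivFun (π (B j : T.M)) = Pi.single j 1
    have h1 : π (B j : T.M) = B j := by
      apply Subtype.ext
      rw [hπ, hker, zero_smul, sub_zero]
    rw [h1]
    funext i
    rw [Module.Basis.equivFun_self, Pi.single_apply]
    simp only [eq_comm]

variable {T : TorData k K d} {w : T.M →+ ℤ} (H : Chart T w)

/-- The evaluation `X ↦ χ(b0)`, `X_j ↦ χ(b_j)`. -/
noncomputable def Chart.φ : Polynomial (MvPolynomial (Fin d) k) →+* K :=
  Polynomial.eval₂RingHom (MvPolynomial.aeval (fun j => T.mon (H.b j))).toRingHom (T.mon H.b0)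

private theorem bas_mon_nsmul (n : ℕ) (m : T.M) : T.mon (n • m) = T.mon m ^ n := by
  induction n with
  | zero => rw [zero_smul, T.mon_zero, pow_zero]
  | succ n ih => rw [succ_nsmul, T.mon_add, ih, pow_succ]

private theorem bas_mon_sum {ι : Type*} (s : Finset ι) (g : ι → T.M) :
    T.mon (∑ i ∈ s, g i) = ∏ i ∈ s, T.mon (g i) := by
  classical
  induction s using Finset.induction_on with
  | empty => rw [Finset.sum_empty, Finset.prod_empty, T.mon_zero]
  | insert a s ha ih => rw [Finset.sum_insert ha, Finset.prod_insert ha, T.mon_add, ih]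

private theorem bas_phi (n : ℕ) (e : Fin d →₀ ℕ) (c : k) :
    H.φ (Polynomial.monomial n (MvPolynomial.monomial e c)) =
      algebraMap k K c * (∏ j, T.mon (H.b j) ^ e j) * T.mon H.b0 ^ n := by
  unfold Chart.φ
  rw [Polynomial.coe_eval₂RingHom, Polynomial.eval₂_monomial]
  congr 1
  change MvPolynomial.aeval (fun j => T.mon (H.b j)) (MvPolynomial.monomial e c) = _
  rw [MvPolynomial.aeval_monomial, Finsupp.prod_fintype]
  intro i
  exact pow_zero _

private theorem bas_mon_eq {m : T.M} (h0 : 0 ≤ w m) (h1 : ∀ j, 0 ≤ H.c m j) :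
    T.mon m = (∏ j, T.mon (H.b j) ^ (H.c m j).toNat) * T.mon H.b0 ^ (w m).toNat := by
  have h2 : m = (w m).toNat • H.b0 + ∑ j, (H.c m j).toNat • H.b j := by
    conv_lhs => rw [H.eq m]
    congr 1
    · conv_lhs => rw [← Int.toNat_of_nonneg h0]
      rw [natCast_zsmul]
    · refine Finset.sum_congr rfl fun j _ => ?_
      conv_lhs => rw [← Int.toNat_of_nonneg (h1 j)]
      rw [natCast_zsmul]
  conv_lhs => rw [h2]
  rw [T.mon_add, bas_mon_nsmul, bas_mon_sum, mul_comm]
  congr 1
  exact Finset.prod_congr rfl fun j _ => bas_mon_nsmul _ _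

private theorem bas_poly (a : AddMonoidAlgebra k T.M) (s : T.M)
    (h : ∀ m ∈ a.coeff.support, 0 ≤ w (m + s) ∧ ∀ j, 0 ≤ H.c (m + s) j) :
    ∃ x, H.φ x = T.mon s * T.ev a := by
  classical
  refine ⟨∑ m ∈ a.coeff.support, Polynomial.monomial (w (m + s)).toNat (MvPolynomial.monomial
    (Finsupp.equivFunOnFinite.symm fun j => (H.c (m + s) j).toNat) (a.coeff m)), ?_⟩
  have h1 : T.ev a = ∑ m ∈ a.coeff.support, algebraMap k K (a.coeff m) * T.mon m := by
    unfold TorData.ev
    rw [AddMonoidAlgebra.lift_apply', Finsupp.sum]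
    rfl
  rw [h1, map_sum, Finset.mul_sum]
  refine Finset.sum_congr rfl fun m hm => ?_
  obtain ⟨h2, h3⟩ := h m hm
  rw [bas_phi, mul_assoc]
  have h4 := bas_mon_eq H h2 h3
  have h5 : (∏ j, T.mon (H.b j) ^ (Finsupp.equivFunOnFinite.symm
      (fun j => (H.c (m + s) j).toNat)) j) * T.mon H.b0 ^ (w (m + s)).toNat =
      T.mon (m + s) := by
    rw [h4]
    rfl
  rw [h5, T.mon_add]
  ring

private theorem bas_bound (S : Finset T.M) : ∃ N : ℤ, ∀ m ∈ S, 0 ≤ w m + N ∧
    ∀ j, 0 ≤ H.c m j + N := by
  classical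
  induction S using Finset.induction_on with
  | empty => exact ⟨0, fun m hm => absurd hm (Finset.notMem_empty m)⟩
  | insert a S ha ih =>
    obtain ⟨N, hN⟩ := ih
    have hs : ∀ j, |H.c a j| ≤ ∑ j, |H.c a j| := fun j =>
      Finset.single_le_sum (f := fun j => |H.c a j|) (fun i _ => abs_nonneg _) (Finset.mem_univ j)
    have hs0 : 0 ≤ ∑ j, |H.c a j| := Finset.sum_nonneg fun j _ => abs_nonneg _
    refine ⟨max N 0 + |w a| + ∑ j, |H.c a j|, fun m hm => ?_⟩
    have h1 := le_max_left N 0
    have h2 := le_max_right N 0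
    have h3 := abs_nonneg (w a)
    rcases Finset.mem_insert.1 hm with rfl | hm
    · refine ⟨?_, fun j => ?_⟩
      · have := neg_abs_le (w m)
        linarith
      · have := neg_abs_le (H.c m j)
        have := hs j
        linarith
    · obtain ⟨h4, h5⟩ := hN m hm
      refine ⟨by linarith, fun j => ?_⟩
      have := h5 j
      linarith

theorem gen_poly (hT : T.OK) (z : K) : ∃ x y, H.φ y ≠ 0 ∧ z * H.φ y = H.φ x := by
  classical
  obtain ⟨a, b, hb, hz⟩ := hT.gen z
  obtain ⟨N, hN⟩ := bas_bound H (a.coeff.support ∪ b.coeff.support)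
  set s : T.M := N • H.b0 + ∑ j, N • H.b j with hs
  have hws : w s = N := by
    rw [hs, map_add, map_sum, map_zsmul, H.w0, Finset.sum_eq_zero, add_zero]
    · simp
    · intro j _
      rw [map_zsmul, H.wb, smul_zero]
  have hcs : ∀ j, H.c s j = N := by
    intro j
    rw [hs, map_add, map_sum, map_zsmul, H.c0, smul_zero, zero_add, Finset.sum_apply,
      Finset.sum_eq_single j]
    · rw [map_zsmul, H.cb, Pi.smul_apply, Pi.single_eq_same]
      simp
    · intro i _ hi
      rw [map_zsmul, H.cb, Pi.smul_apply, Pi.single_eq_of_ne hi.symm, smul_zero]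
    · intro hh
      exact absurd (Finset.mem_univ _) hh
  have key : ∀ m ∈ a.coeff.support ∪ b.coeff.support,
      0 ≤ w (m + s) ∧ ∀ j, 0 ≤ H.c (m + s) j := by
    intro m hm
    obtain ⟨h1, h2⟩ := hN m hm
    refine ⟨by rw [map_add, hws]; exact h1, fun j => ?_⟩
    rw [map_add, Pi.add_apply, hcs]
    exact h2 j
  obtain ⟨x, hx⟩ := bas_poly H a s fun m hm => key m (Finset.mem_union_left _ hm)
  obtain ⟨y, hy⟩ := bas_poly H b s fun m hm => key m (Finset.mem_union_right _ hm)
  refine ⟨x, y, ?_, ?_⟩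
  · rw [hy]
    exact mul_ne_zero (T.mon_ne s) hb
  · rw [hx, hy, ← hz]
    ring

/-- The exponent `a + c(δ m)` as a vector of natural numbers. -/
noncomputable def Chart.ex (a : Fin d → ℤ) (m : Fin (d + 1) →₀ ℕ) : Fin d →₀ ℕ :=
  Finsupp.equivFunOnFinite.symm fun j => (a j + H.c (T.δ m) j).toNat

/-- The polynomial `F_2 = X^(-r) y^a F`. -/
noncomputable def Chart.F2 (r : ℤ) (a : Fin d → ℤ) : Polynomial (MvPolynomial (Fin d) k) :=
  ∑ m ∈ T.f.support, Polynomial.monomial (w (T.δ m) - r).toNat
    (MvPolynomial.monomial (H.ex a m) (MvPolynomial.coeff m T.f))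

/-- The polynomial `H_0 = F_2(0)`: the monomials of weight `r`. -/
noncomputable def Chart.H0 (r : ℤ) (a : Fin d → ℤ) : MvPolynomial (Fin d) k :=
  ∑ m ∈ T.f.support.filter (fun m => w (T.δ m) = r),
    MvPolynomial.monomial (H.ex a m) (MvPolynomial.coeff m T.f)

theorem coeff_F2 {r : ℤ} (hr : T.IsMin w r) (a : Fin d → ℤ) : (H.F2 r a).coeff 0 = H.H0 r a := by
  unfold Chart.F2 Chart.H0
  rw [Polynomial.finsetSum_coeff, Finset.sum_filter]
  refine Finset.sum_congr rfl fun m hm => ?_
  rw [Polynomial.coeff_monomial]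
  have h1 := hr.2 m hm
  by_cases h : w (T.δ m) = r
  · rw [if_pos h, if_pos]
    omega
  · rw [if_neg h, if_neg]
    omega

theorem exists_shift (T : TorData k K d) {w : T.M →+ ℤ} (H : Chart T w) :
    ∃ a : Fin d → ℤ, ∀ m ∈ T.f.support, ∀ j, 0 ≤ a j + H.c (T.δ m) j := by
  classical
  obtain ⟨N, hN⟩ := bas_bound H (T.f.support.image T.δ)
  refine ⟨fun _ => N, fun m hm j => ?_⟩
  have := (hN (T.δ m) (Finset.mem_image_of_mem _ hm)).2 j
  linarith

end Pool.Agent.GAP
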