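import Pool.Agent.GAP.Ord

/-!
# GAP: the order of a form in terms of derivations
-/

set_option linter.dupNamespace false

namespace Pool.Agent.GAP

variable {k K : Type*} [Field k] [Field K] [Algebra k K] {d : ℕ}

/-- The determinant form of `d` derivations. -/
noncomputable def detForm (δ : Fin d → Derivation k K K) : ⋀[K]^d (Ω[K⁄k]) →ₗ[K] K :=
  exteriorPower.alternatingMapLinearEquiv
    ((Matrix.detRowAlternating (n := Fin d) (R := K)).compLinearMap
      (LinearMap.pi fun i => (δ i).liftKaehlerDifferential))

theorem detForm_ιMulti (δ : Fin d → Derivation k K K) (v : Fin d → Ω[K⁄k]) :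
    detForm δ (exteriorPower.ιMulti K d v) =
      (Matrix.of fun i j => (δ i).liftKaehlerDifferential (v j)).det := by
  unfold detForm
  rw [exteriorPower.alternatingMapLinearEquiv_apply_ιMulti, ← Matrix.det_transpose]
  rfl

theorem detForm_D (δ : Fin d → Derivation k K K) (g : Fin d → K) :
    detForm δ (exteriorPower.ιMulti K d (fun j => KaehlerDifferential.D k K (g j))) =
      (Matrix.of fun i j => δ i (g j)).det := by
  rw [detForm_ιMulti]
  congr 1
  ext i j
  simp only [Matrix.of_apply]
  exact Derivation.liftKaehlerDifferential_comp_D (δ i) (g j)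

theorem ord_eq_ordForm (E : NVal k K) (δ : Fin d → Derivation k K K) {θ : ⋀[K]^d (Ω[K⁄k])}
    (h1 : detForm δ θ = 1) (h2 : ∀ ω, ω = detForm δ ω • θ) : E.ord δ = E.ordForm θ := by
  have key : ∀ ω ∈ E.lat d, detForm δ ω = 0 ∨ ∃ g : Fin d → K, (∀ i, E.Int (g i)) ∧
      (Matrix.of fun i j => δ i (g j)).det ≠ 0 ∧
      E.v (Matrix.of fun i j => δ i (g j)).det ≤ E.v (detForm δ ω) := by
    intro ω hω
    unfold NVal.lat at hω
    induction hω using AddSubgroup.closure_induction with
    | mem x hx =>
      obtain ⟨a, g, ha, hg, rfl⟩ := hx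
      rw [map_smul, detForm_D, smul_eq_mul]
      by_cases h : a * (Matrix.of fun i j => δ i (g j)).det = 0
      · exact Or.inl h
      · right
        rw [mul_eq_zero, not_or] at h
        refine ⟨g, hg, h.2, ?_⟩
        rw [E.v_mul _ _ h.1 h.2]
        have := NVal.Ge.le ha h.1
        omega
    | zero => left; rw [map_zero]
    | add x y _ _ hx hy =>
      rw [map_add]
      rcases hx with hx | ⟨g, hg, hg1, hg2⟩
      · rw [hx, zero_add]
        exact hy
      · rcases hy with hy | ⟨g', hg', hg1', hg2'⟩
        · right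
          rw [hy, add_zero]
          exact ⟨g, hg, hg1, hg2⟩
        · by_cases hx0 : detForm δ x = 0
          · right
            rw [hx0, zero_add]
            exact ⟨g', hg', hg1', hg2'⟩
          by_cases hy0 : detForm δ y = 0
          · right
            rw [hy0, add_zero]
            exact ⟨g, hg, hg1, hg2⟩
          by_cases hxy : detForm δ x + detForm δ y = 0
          · exact Or.inl hxy
          · right
            have h3 := E.v_add _ _ hx0 hy0 hxy
            rcases le_total (E.v (detForm δ x)) (E.v (detForm δ y)) with h4 | h4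
            · rw [min_eq_left h4] at h3
              exact ⟨g, hg, hg1, hg2.trans h3⟩
            · rw [min_eq_right h4] at h3
              exact ⟨g', hg', hg1', hg2'.trans h3⟩
    | neg x _ hx =>
      rw [map_neg, E.v_neg]
      rcases hx with hx | hx
      · left; rw [hx, neg_zero]
      · exact Or.inr hx
  apply le_antisymm
  · unfold NVal.ord
    refine iSup_le ?_
    rintro ⟨g, hg, hdet⟩
    refine le_ordForm E hdet ?_
    have h3 := h2 (exteriorPower.ιMulti K d (fun j => KaehlerDifferential.D k K (g j)))
    rw [detForm_D] at h3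
    rw [← h3]
    refine AddSubgroup.subset_closure ⟨1, g, NVal.Int.one, hg, ?_⟩
    rw [one_smul]
  · unfold NVal.ordForm
    refine iSup_le ?_
    rintro ⟨s, hs, hsθ⟩
    rcases key _ hsθ with h3 | ⟨g, hg, hdet, hle⟩
    · rw [map_smul, h1, smul_eq_mul, mul_one] at h3
      exact absurd h3 hs
    · rw [map_smul, h1, smul_eq_mul, mul_one] at hle
      unfold NVal.ord
      refine le_trans ?_ (le_iSup (fun g : {g : Fin d → K // (∀ i, E.Int (g i)) ∧
        (Matrix.of fun i j => δ i (g j)).det ≠ 0} =>
          (((-(E.v (Matrix.of fun i j => δ i (g.1 j)).det) : ℤ) : ℝ) : EReal)) ⟨g, hg, hdet⟩)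
      have h4 : -(E.v s) ≤ -(E.v (Matrix.of fun i j => δ i (g j)).det) := by omega
      exact_mod_cast h4

end Pool.Agent.GAP
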