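import Pool.Agent.GAP.Str2

/-!
# GAP: from the hyperquotients of the statement to those of the proof
-/

set_option linter.dupNamespace false

namespace Pool.Agent.GAP

open MvPolynomial

universe u v

variable {k : Type u} [Field k] {n : ℕ} {B : Type v} [CommRing B] [Algebra k B]

/-- The datum of a hyperquotient. -/
def toPre (Y : Hyperquotient k n B) : Pre k n :=
  ⟨Y.f, Y.G, Y.fin, Y.irr, Y.zero, Y.nvar, Y.semi⟩

/-- The map from the coordinate ring to `B`. -/
noncomputable def toB (Y : Hyperquotient k n B) : (toPre Y).B →ₐ[k] B :=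
  Ideal.Quotient.liftₐ (Ideal.span {Y.f}) Y.π (fun p hp => by
    rw [Ideal.mem_span_singleton] at hp
    exact (Y.ker p).2 hp)

theorem toB_cl (Y : Hyperquotient k n B) (p : MvPolynomial (Fin n) k) :
    toB Y ((toPre Y).cl p) = Y.π p := rfl

theorem toB_bijective (Y : Hyperquotient k n B) : Function.Bijective (toB Y) := by
  constructor
  · rw [injective_iff_map_eq_zero]
    intro b hb
    obtain ⟨p, rfl⟩ := (toPre Y).cl_surjective b
    rw [toB_cl, Y.ker] at hb
    exact ((toPre Y).cl_eq_zero p).2 hb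
  · intro b
    obtain ⟨p, rfl⟩ := Y.surj b
    exact ⟨(toPre Y).cl p, toB_cl Y p⟩

/-- The isomorphism of the coordinate ring with `B`. -/
noncomputable def eB (Y : Hyperquotient k n B) : (toPre Y).B ≃ₐ[k] B :=
  AlgEquiv.ofBijective (toB Y) (toB_bijective Y)

theorem eB_cl (Y : Hyperquotient k n B) (p : MvPolynomial (Fin n) k) :
    eB Y ((toPre Y).cl p) = Y.π p := rfl

theorem eB_symm_π (Y : Hyperquotient k n B) (p : MvPolynomial (Fin n) k) :
    (eB Y).symm (Y.π p) = (toPre Y).cl p := by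
  rw [← eB_cl, AlgEquiv.symm_apply_apply]

theorem mem_orig_iff (Y : Hyperquotient k n B) (b : (toPre Y).B) :
    b ∈ (toPre Y).orig ↔ eB Y b ∈ Ideal.span (Set.range fun i => Y.π (X i)) := by
  have h1 : (Ideal.span (Set.range fun i => Y.π (X i))) =
      ((toPre Y).orig).map (eB Y : (toPre Y).B →+* B) := by
    unfold Pre.orig
    rw [Ideal.map_span]
    congr 1
    ext z
    simp only [Set.mem_range, Set.mem_image, exists_exists_eq_and]
    rfl
  rw [h1]
  constructor
  · intro h
    exact Ideal.mem_map_of_mem (eB Y : (toPre Y).B →+* B) h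
  · intro h
    obtain ⟨c, hc, hcb⟩ := (Ideal.mem_map_iff_of_surjective (eB Y : (toPre Y).B →+* B)
      (eB Y).surjective).1 h
    have : c = b := (eB Y).injective hcb
    exact this ▸ hc

theorem normal_of (Y : Hyperquotient k n B) (z : (toPre Y).L) (hz : IsIntegral (toPre Y).B z) :
    ∃ b s : (toPre Y).B, s ∉ (toPre Y).orig ∧
      z * algebraMap (toPre Y).B (toPre Y).L s = algebraMap (toPre Y).B (toPre Y).L b := by
  have hdom : IsDomain B := (eB Y).symm.toMulEquiv.isDomain _
  let E : (toPre Y).L ≃+* FractionRing B := IsFractionRing.ringEquivOfRingEquiv (eB Y).toRingEquiv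
  have hE : ∀ b : (toPre Y).B, E (algebraMap (toPre Y).B (toPre Y).L b) =
      algebraMap B (FractionRing B) (eB Y b) := fun b =>
    IsFractionRing.ringEquivOfRingEquiv_algebraMap (eB Y).toRingEquiv b
  have hcomp : (E : (toPre Y).L →+* FractionRing B).comp (algebraMap (toPre Y).B (toPre Y).L) =
      (algebraMap B (FractionRing B)).comp (eB Y : (toPre Y).B →+* B) := RingHom.ext hE
  have hz' : IsIntegral B (E z) := by
    obtain ⟨p, hp, hpz⟩ := hz
    refine ⟨p.map (eB Y : (toPre Y).B →+* B), hp.map _, ?_⟩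
    rw [Polynomial.eval₂_map, ← hcomp]
    have h1 := Polynomial.hom_eval₂ p (algebraMap (toPre Y).B (toPre Y).L)
      (E : (toPre Y).L →+* FractionRing B) z
    rw [hpz, map_zero] at h1
    exact h1.symm
  obtain ⟨b, s, hs, hbs⟩ := Y.normal (E z) hz'
  refine ⟨(eB Y).symm b, (eB Y).symm s, ?_, ?_⟩
  · rw [mem_orig_iff, AlgEquiv.apply_symm_apply]
    exact hs
  · apply E.injective
    rw [map_mul, hE, hE, AlgEquiv.apply_symm_apply, AlgEquiv.apply_symm_apply]
    exact hbs

theorem free_of (Y : Hyperquotient k n B) (q : Ideal (toPre Y).B) (hq : q.IsPrime)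
    (hle : q ≤ (toPre Y).orig) (hne : q ≠ ⊥)
    (hmin : ∀ q' : Ideal (toPre Y).B, q'.IsPrime → q' ≤ q → q' = ⊥ ∨ q' = q)
    (g : Fin n → kˣ) (hg : g ∈ Y.G) (hg1 : g ≠ 1) : ∃ i, g i ≠ 1 ∧ (toPre Y).x i ∉ q := by
  have hmem : ∀ b : B, b ∈ q.comap ((eB Y).symm : B →+* (toPre Y).B) ↔ (eB Y).symm b ∈ q :=
    fun b => Iff.rfl
  obtain ⟨i, hi, hi2⟩ := Y.free (q.comap ((eB Y).symm : B →+* (toPre Y).B)) (hq.comap _) (by
    intro b hb
    rw [hmem] at hb
    have h1 := (mem_orig_iff Y _).1 (hle hb)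
    rwa [AlgEquiv.apply_symm_apply] at h1) (by
    intro h0
    apply hne
    rw [eq_bot_iff]
    intro b hb
    have h1 : eB Y b ∈ q.comap ((eB Y).symm : B →+* (toPre Y).B) := by
      rw [hmem, AlgEquiv.symm_apply_apply]
      exact hb
    rw [h0, Ideal.mem_bot] at h1
    rw [Ideal.mem_bot]
    exact (eB Y).injective (by rw [h1, map_zero])) (by
    intro q' hq' hle'
    have hmem' : ∀ b : (toPre Y).B, b ∈ q'.comap ((eB Y) : (toPre Y).B →+* B) ↔ eB Y b ∈ q' :=
      fun b => Iff.rfl
    rcases hmin (q'.comap ((eB Y) : (toPre Y).B →+* B)) (hq'.comap _) (by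
      intro b hb
      have h1 := hle' ((hmem' b).1 hb)
      rw [hmem, AlgEquiv.symm_apply_apply] at h1
      exact h1) with h | h
    · left
      rw [eq_bot_iff]
      intro b hb
      have h1 : (eB Y).symm b ∈ q'.comap ((eB Y) : (toPre Y).B →+* B) := by
        rw [hmem', AlgEquiv.apply_symm_apply]
        exact hb
      rw [h, Ideal.mem_bot] at h1
      rw [Ideal.mem_bot]
      exact (eB Y).symm.injective (by rw [h1, map_zero])
    · right
      ext b
      rw [hmem, ← h, hmem', AlgEquiv.apply_symm_apply]) g hg hg1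
  refine ⟨i, hi, fun h => hi2 ?_⟩
  rw [hmem, eB_symm_π]
  exact h

/-- The hyperquotient as an `HQ`. -/
def toHQ (Y : Hyperquotient k n B) : HQ k n where
  toPre := toPre Y
  nondeg := Y.nondeg
  normal := normal_of Y
  free := free_of Y

theorem mem_A_iff (Y : Hyperquotient k n B) (b : (toPre Y).B) :
    b ∈ (toPre Y).A ↔ eB Y b ∈ Y.A := by
  obtain ⟨p, rfl⟩ := (toPre Y).cl_surjective b
  rw [eB_cl]
  constructor
  · intro h g hg q hq
    have h1 := ((toPre Y).act_cl g hg p).symm.trans (h g hg)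
    rw [Y.scale_congr hg hq, ← eB_cl, h1, eB_cl]
  · intro h g hg
    refine ((toPre Y).act_cl g hg p).trans ?_
    apply (eB Y).injective
    rw [eB_cl, eB_cl]
    exact h g hg p rfl

/-- The isomorphism of the rings of invariants. -/
noncomputable def eA (Y : Hyperquotient k n B) : (toPre Y).A ≃+* Y.A where
  toFun a := ⟨eB Y a, (mem_A_iff Y a).1 a.2⟩
  invFun a := ⟨(eB Y).symm a, (mem_A_iff Y _).2 (by
    rw [AlgEquiv.apply_symm_apply]
    exact a.2)⟩
  left_inv a := Subtype.ext ((eB Y).symm_apply_apply a)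
  right_inv a := Subtype.ext ((eB Y).apply_symm_apply a)
  map_mul' a b := Subtype.ext (map_mul (eB Y) _ _)
  map_add' a b := Subtype.ext (map_add (eB Y) _ _)

theorem mem_P_iff (Y : Hyperquotient k n B) (a : (toPre Y).A) :
    a ∈ (toPre Y).P ↔ eA Y a ∈ Y.P :=
  mem_orig_iff Y a

end Pool.Agent.GAP
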