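import Pool.Agent.GAP.Germ

/-!
# GAP: transport of the divisors along an isomorphism of the coordinate rings
-/

set_option linter.dupNamespace false

namespace Pool.Agent.GAP

variable {k A A' K : Type*} [Field k] [CommRing A] [CommRing A'] [Field K] [Algebra k K]
  [Algebra A K] [Algebra A' K]

theorem isDivisorOn_of (e : A ≃+* A') (hc : ∀ a, algebraMap A' K (e a) = algebraMap A K a)
    {P : Ideal A} {P' : Ideal A'} (hP : ∀ a, a ∈ P ↔ e a ∈ P') {E : NVal k K}
    (h : IsDivisorOn E P') : IsDivisorOn E P := by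
  refine ⟨fun a => ?_, fun a ha => ?_, fun z hz => ?_⟩
  · rw [← hc]
    exact h.1 (e a)
  · rw [← hc]
    exact h.2.1 (e a) (fun h1 => ha ((hP a).2 h1))
  · obtain ⟨a, b, hb, hb2, hab⟩ := h.2.2 z hz
    refine ⟨e.symm a, e.symm b, ?_, ?_, ?_⟩
    · intro h1
      apply hb
      rw [← e.apply_symm_apply b, h1, map_zero]
    · rw [← hc, e.apply_symm_apply]
      exact hb2
    · rw [← hc, ← hc, e.apply_symm_apply, e.apply_symm_apply]
      exact hab

theorem isDivisorOver_of (e : A ≃+* A') (hc : ∀ a, algebraMap A' K (e a) = algebraMap A K a)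
    {P : Ideal A} {P' : Ideal A'} (hP : ∀ a, a ∈ P ↔ e a ∈ P') {E : NVal k K}
    (h : IsDivisorOver E P') : IsDivisorOver E P := by
  refine ⟨fun a => ?_, fun a ha => ?_, fun a ha ha0 => ?_, h.2.2.2⟩
  · rw [← hc]
    exact h.1 (e a)
  · rw [← hc]
    exact h.2.1 (e a) (fun h1 => ha ((hP a).2 h1))
  · rw [← hc]
    refine h.2.2.1 (e a) ((hP a).1 ha) ?_
    intro h1
    exact ha0 (e.injective (by rw [h1, map_zero]))

theorem isDivisorOn_iff (e : A ≃+* A') (hc : ∀ a, algebraMap A' K (e a) = algebraMap A K a)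
    {P : Ideal A} {P' : Ideal A'} (hP : ∀ a, a ∈ P ↔ e a ∈ P') {E : NVal k K} :
    IsDivisorOn E P ↔ IsDivisorOn E P' := by
  refine ⟨fun h => isDivisorOn_of e.symm (fun a => ?_) (fun a => ?_) h,
    isDivisorOn_of e hc hP⟩
  · rw [← hc, e.apply_symm_apply]
  · rw [hP, e.apply_symm_apply]

theorem isDivisorOver_iff (e : A ≃+* A') (hc : ∀ a, algebraMap A' K (e a) = algebraMap A K a)
    {P : Ideal A} {P' : Ideal A'} (hP : ∀ a, a ∈ P ↔ e a ∈ P') {E : NVal k K} :
    IsDivisorOver E P ↔ IsDivisorOver E P' := by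
  refine ⟨fun h => isDivisorOver_of e.symm (fun a => ?_) (fun a => ?_) h,
    isDivisorOver_of e hc hP⟩
  · rw [← hc, e.apply_symm_apply]
  · rw [hP, e.apply_symm_apply]

end Pool.Agent.GAP
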