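import Pool.Agent.GAP.Asm
import Pool.Agent.GAP.Dlt
import Pool.Agent.GAP.Trn
import Pool.Agent.GAP.Hqt

/-!
# GAP: from the definitions of the statement to those of the proof
-/

set_option linter.dupNamespace false

namespace Pool.Agent.GAP

open MvPolynomial

universe u v w

variable {k : Type u} [Field k] {d : ℕ} {B : Type v} [CommRing B] [Algebra k B]

/-- The function field as an algebra over the ring of invariants. -/
@[instance_reducible]
noncomputable def algA (Y : Hyperquotient k (d + 1) B) (K : Type w) [Field K] [Algebra Y.A K] :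
    Algebra (toHQ Y).A K :=
  ((algebraMap Y.A K).comp ((eA Y).symm.symm).toRingHom).toAlgebra

theorem algA_apply (Y : Hyperquotient k (d + 1) B) (K : Type w) [Field K] [Algebra Y.A K]
    (a : (toHQ Y).A) : @algebraMap (toHQ Y).A K _ _ (algA Y K) a = algebraMap Y.A K (eA Y a) := rfl

theorem towerA (Y : Hyperquotient k (d + 1) B) (K : Type w) [Field K] [Algebra k K]
    [Algebra Y.A K] [IsScalarTower k Y.A K] :
    @IsScalarTower k (toHQ Y).A K _ (algA Y K).toSMul _ := by
  let _ := algA Y K
  refine IsScalarTower.of_algebraMap_eq fun c => ?_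
  rw [algA_apply, IsScalarTower.algebraMap_apply k Y.A K c]
  congr 1
  exact Subtype.ext ((eB Y).commutes c).symm

theorem fracA (Y : Hyperquotient k (d + 1) B) (K : Type w) [Field K] [Algebra Y.A K]
    [h : IsFractionRing Y.A K] : @IsFractionRing (toHQ Y).A _ K _ (algA Y K) :=
  (IsFractionRing.isFractionRing_iff_of_base_ringEquiv (R := Y.A) (S := K) (eA Y).symm).1 h

section

variable (Y : Hyperquotient k (d + 1) B) (K : Type w) [Field K] [Algebra k K] [Algebra Y.A K]

theorem on_iff (E : NVal k K) :
    @IsDivisorOn k (toHQ Y).A K _ _ _ _ (algA Y K) E (toHQ Y).P ↔ IsDivisorOn E Y.P := by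
  let _ : Algebra (toPre Y).A K := algA Y K
  exact isDivisorOn_iff (eA Y) (fun _ => rfl) (mem_P_iff Y)

theorem over_iff (E : NVal k K) :
    @IsDivisorOver k (toHQ Y).A K _ _ _ _ (algA Y K) E (toHQ Y).P ↔ IsDivisorOver E Y.P := by
  let _ : Algebra (toPre Y).A K := algA Y K
  exact isDivisorOver_iff (eA Y) (fun _ => rfl) (mem_P_iff Y)

end

/-- A rational form dual to the given derivations. -/
theorem exists_dual_form {K : Type w} [Field K] [Algebra k K] {T : TorData k K d} [CharZero k]
    (hOK : T.OK) {δ : Fin d → Derivation k K K}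
    (hδ : ∃ g : Fin d → K, (Matrix.of fun i j => δ i (g j)).det ≠ 0) :
    ∃ θ : ⋀[K]^d (Ω[K⁄k]), θ ≠ 0 ∧ detForm δ θ = 1 ∧ ∀ ω, ω = detForm δ ω • θ := by
  obtain ⟨g, hg⟩ := hδ
  obtain ⟨i, hi⟩ := hOK.ne
  set ω0 : ⋀[K]^d (Ω[K⁄k]) :=
    exteriorPower.ιMulti K d (fun j => KaehlerDifferential.D k K (g j)) with hω0
  have h0 : detForm δ ω0 ≠ 0 := by
    rw [hω0, detForm_D]
    exact hg
  have h1 : detForm δ ((detForm δ ω0)⁻¹ • ω0) = 1 := by
    rw [map_smul, smul_eq_mul, inv_mul_cancel₀ h0]
  refine ⟨(detForm δ ω0)⁻¹ • ω0, ?_, h1, fun ω => ?_⟩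
  · intro h2
    rw [h2, map_zero] at h1
    exact zero_ne_one h1
  · obtain ⟨a, ha⟩ := forms_eq T hOK hi ω
    obtain ⟨b, hb⟩ := forms_eq T hOK hi ω0
    have hb0 : b ≠ 0 := by
      rintro rfl
      rw [zero_smul] at hb
      rw [hb, map_zero] at h0
      exact h0 rfl
    have hd : detForm δ (T.θ i) ≠ 0 := by
      intro h2
      rw [hb, map_smul, h2, smul_zero] at h0
      exact h0 rfl
    rw [ha, hb, map_smul, map_smul, smul_smul, smul_smul, smul_eq_mul, smul_eq_mul]
    congr 1
    field_simp

theorem mem_mldSet [IsAlgClosed k] [CharZero k] (Y : Hyperquotient k (d + 1) B) (K : Type w)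
    [Field K] [Algebra k K] [Algebra Y.A K] [IsScalarTower k Y.A K] [IsFractionRing Y.A K]
    (D : Canonical k K Y.P d) : D.mld ∈ mldSet.{u, w} (d + 1) := by
  let i1 := algA Y K
  have i2 := towerA Y K
  have i3 := fracA Y K
  obtain ⟨_, h⟩ := exists_ctxK (toHQ Y).toPre K
  obtain ⟨T, hT, hOK⟩ := base h
  obtain ⟨θ, hθ0, hθ1, hθ2⟩ := exists_dual_form hOK D.basis
  have hord : ∀ E : NVal k K, E.ord D.δ = E.ordForm θ := fun E => ord_eq_ordForm E D.δ hθ1 hθ2
  let D' : CanData k K (toHQ Y).P d := ⟨θ, D.m, D.h, hθ0, D.m_pos, D.h_ne, fun E hE => by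
    rw [← hord]
    exact D.ord E ((on_iff Y K E).1 hE)⟩
  have hmld : D.mld = D'.mld := by
    have hld : ∀ E, D.logDisc E = D'.logDisc E := by
      intro E
      unfold Canonical.logDisc CanData.logDisc
      rw [hord]
    unfold Canonical.mld CanData.mld
    apply le_antisymm
    · refine le_iInf ?_
      rintro ⟨E, hE⟩
      rw [← hld]
      exact iInf_le (fun E : {E : NVal k K // IsDivisorOver E Y.P} => D.logDisc E.1)
        ⟨E, (over_iff Y K E).1 hE⟩
    · refine le_iInf ?_
      rintro ⟨E, hE⟩
      rw [hld]
      exact iInf_le (fun E : {E : NVal k K // IsDivisorOver E (toHQ Y).P} => D'.logDisc E.1)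
        ⟨E, (over_iff Y K E).2 hE⟩
  have hfin : Module.finrank K (Ω[K⁄k]) = d := finrank_eq T hOK
  have hgen : ∀ e : ℕ, Module.finrank K (Ω[K⁄k]) = e → ∀ D' : CanData k K (toHQ Y).P e,
      D'.mld ∈ mldSet.{u, w} (d + 1) := by
    rintro e rfl D'
    exact ⟨k, inferInstance, inferInstance, inferInstance, toHQ Y, K, inferInstance,
      inferInstance, i1, i2, i3, D', rfl⟩
  rw [hmld]
  exact hgen d hfin D'

theorem exists_canonical [IsAlgClosed k] [CharZero k] (Y : Hyperquotient k (d + 1) B)
    (K : Type w) [Field K] [Algebra k K] [Algebra Y.A K] [IsScalarTower k Y.A K]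
    [IsFractionRing Y.A K] : Nonempty (Canonical k K Y.P d) := by
  let i1 := algA Y K
  have i2 := towerA Y K
  have i3 := fracA Y K
  obtain ⟨_, h⟩ := exists_ctxK (toHQ Y).toPre K
  obtain ⟨T, hT, hOK⟩ := base h
  obtain ⟨i, hi⟩ := hOK.ne
  obtain ⟨D0, hD0, hm, -⟩ := exists_can h (toHQ Y).normal hT hOK hi
  -- the basis dual to `β_j`
  have hspan : ⊤ ≤ Submodule.span K (Set.range (fun a : Fin d => T.β (i.succAbove a))) :=
    (span_beta T hOK hi).ge
  let b : Module.Basis (Fin d) K (Ω[K⁄k]) := Module.Basis.mk (hOK.indep i hi) hspan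
  let δ : Fin d → Derivation k K K := fun j => (b.coord j).compDer (KaehlerDifferential.D k K)
  have hlift : ∀ j, (δ j).liftKaehlerDifferential = b.coord j := fun j =>
    Derivation.liftKaehlerDifferential_unique _ _ (Derivation.liftKaehlerDifferential_comp _)
  have hb : ∀ j, b j = T.β (i.succAbove j) := fun j => Module.Basis.mk_apply _ _ j
  set θ' : ⋀[K]^d (Ω[K⁄k]) := exteriorPower.ιMulti K d (fun a => T.β (i.succAbove a)) with hθ'
  have hdet : detForm δ θ' = 1 := by
    rw [hθ', detForm_ιMulti]
    have h1 : (Matrix.of fun a j => (δ a).liftKaehlerDifferential (T.β (i.succAbove j))) =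
        (1 : Matrix (Fin d) (Fin d) K) := by
      ext a j
      rw [Matrix.of_apply, hlift, ← hb, Module.Basis.coord_apply, Module.Basis.repr_self,
        Matrix.one_apply, Finsupp.single_apply]
      simp only [eq_comm]
    rw [h1, Matrix.det_one]
  have hθθ : θ' = T.ev (T.FD i) • T.θ i := by
    unfold TorData.θ
    rw [smul_smul, mul_inv_cancel₀ hi, one_smul]
  have hall : ∀ ω, ω = detForm δ ω • θ' := by
    intro ω
    obtain ⟨c, hc⟩ := forms_eq T hOK hi ω
    have h1 : ω = (c * (T.ev (T.FD i))⁻¹) • θ' := by
      rw [hθθ, smul_smul, mul_assoc, inv_mul_cancel₀ hi, mul_one]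
      exact hc
    conv_rhs => rw [h1, map_smul, hdet, smul_eq_mul, mul_one]
    exact h1
  have hbasis : ∃ g : Fin d → K, (Matrix.of fun i j => δ i (g j)).det ≠ 0 := by
    by_contra hcon
    push Not at hcon
    have hzero : detForm δ = 0 := by
      apply LinearMap.ext
      intro ω
      have hω : ω ∈ Submodule.span K (Set.range (exteriorPower.ιMulti K d
          (M := Ω[K⁄k]))) := by
        rw [exteriorPower.ιMulti_span]
        trivial
      rw [LinearMap.zero_apply]
      induction hω using Submodule.span_induction with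
      | mem x hx =>
        obtain ⟨v, rfl⟩ := hx
        -- expand the arguments one by one
        have key : ∀ s : Finset (Fin d), ∀ v : Fin d → Ω[K⁄k],
            (∀ j, j ∉ s → ∃ g : K, v j = KaehlerDifferential.D k K g) →
            detForm δ (exteriorPower.ιMulti K d v) = 0 := by
          intro s
          induction s using Finset.induction_on with
          | empty =>
            intro v hv
            choose g hg using fun j => hv j (Finset.notMem_empty j)
            have : v = fun j => KaehlerDifferential.D k K (g j) := funext hg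
            rw [this, detForm_D]
            exact hcon g
          | insert a s ha ih =>
            intro v hv
            have h3 : ∀ y : Ω[K⁄k],
                detForm δ (exteriorPower.ιMulti K d (Function.update v a y)) = 0 := by
              intro y
              have hy : y ∈ Submodule.span K (Set.range (KaehlerDifferential.D k K)) := by
                rw [KaehlerDifferential.span_range_derivation]
                trivial
              induction hy using Submodule.span_induction with
              | mem y hy =>
                obtain ⟨g, rfl⟩ := hy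
                refine ih _ (fun j hj => ?_)
                by_cases hja : j = a
                · subst hja
                  exact ⟨g, Function.update_self _ _ _⟩
                · rw [Function.update_of_ne hja]
                  exact hv j (by simp [hja, hj])
              | zero =>
                rw [AlternatingMap.map_update_zero, map_zero]
              | add y z _ _ hy hz =>
                rw [AlternatingMap.map_update_add, map_add, hy, hz, add_zero]
              | smul c y _ hy =>
                rw [AlternatingMap.map_update_smul, map_smul, hy, smul_zero]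
            have := h3 (v a)
            rwa [Function.update_eq_self] at this
        exact key Finset.univ v (fun j hj => absurd (Finset.mem_univ j) hj)
      | zero => rw [map_zero]
      | add x y _ _ hx hy => rw [map_add, hx, hy, add_zero]
      | smul c x _ hx => rw [map_smul, hx, smul_zero]
    rw [hzero, LinearMap.zero_apply] at hdet
    exact zero_ne_one hdet
  have hmp := D0.m_pos
  have hm0 : (D0.m : ℝ) ≠ 0 := by positivity
  refine ⟨⟨δ, D0.m, D0.h * T.ev (T.FD i) ^ D0.m, hbasis, D0.m_pos,
    mul_ne_zero D0.h_ne (pow_ne_zero _ hi), fun E hE => ?_⟩⟩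
  rw [ord_eq_ordForm E δ hdet hall, hθθ, ordForm_smul E _ hi, ← hD0,
    D0.ord E ((on_iff Y K E).2 hE), E.v_mul _ _ D0.h_ne (pow_ne_zero _ hi), E.v_pow _ hi,
    ← EReal.coe_add]
  congr 1
  push_cast
  field_simp
  ring

end Pool.Agent.GAP
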