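import Mathlib

/-!
# GAP: combinatorial definitions

`M ⊆ ℤ^n` is the lattice of the invariant Laurent monomials, `S ⊆ ℕ^n` the support of `f`.
-/

set_option linter.dupNamespace false

namespace Pool.Agent.GAP

variable {n : ℕ}

/-- The pairing `⟨w, m⟩`. -/
def pair (w : Fin n → ℝ) (m : Fin n → ℤ) : ℝ := ∑ i, w i * m i

/-- The pairing `⟨w, m⟩` for an exponent `m ∈ ℕ^n`. -/
def pairN (w : Fin n → ℝ) (m : Fin n →₀ ℕ) : ℝ := ∑ i, w i * m i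

/-- The dual lattice of `M`. -/
def Dual (M : AddSubgroup (Fin n → ℤ)) : Set (Fin n → ℝ) :=
  {w | ∀ m ∈ M, ∃ z : ℤ, pair w m = z}

/-- `a = α(w) = ∑ w_i - min_{m ∈ S} ⟨w, m⟩`, that is `a = max_{m ∈ S} (∑ w_i - ⟨w, m⟩)`. -/
def IsAl (S : Finset (Fin n →₀ ℕ)) (w : Fin n → ℝ) (a : ℝ) : Prop :=
  (∃ m ∈ S, a = ∑ i, w i - pairN w m) ∧ ∀ m ∈ S, ∑ i, w i - pairN w m ≤ a

theorem exists_isAl {S : Finset (Fin n →₀ ℕ)} (hS : S.Nonempty) (w : Fin n → ℝ) :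
    ∃ a, IsAl S w a := by
  obtain ⟨m, hm, h⟩ := S.exists_max_image (fun m => ∑ i, w i - pairN w m) hS
  exact ⟨_, ⟨m, hm, rfl⟩, h⟩

theorem IsAl.unique {S : Finset (Fin n →₀ ℕ)} {w : Fin n → ℝ} {a b : ℝ} (ha : IsAl S w a)
    (hb : IsAl S w b) : a = b := by
  obtain ⟨⟨m, hm, rfl⟩, h1⟩ := ha
  obtain ⟨⟨m', hm', rfl⟩, h2⟩ := hb
  exact le_antisymm (h2 m hm) (h1 m' hm')

/-- `M` has finite index (exponent form). -/
def FinIdx (M : AddSubgroup (Fin n → ℤ)) : Prop := ∃ q : ℕ, 0 < q ∧ ∀ m : Fin n → ℤ, q • m ∈ M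

end Pool.Agent.GAP
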