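import Pool.Agent.GAP.Ofd

/-!
# GAP, module DVL: construction of valuations

`exists_val`: Let `𝔓 = {x ∈ C[X] | p ∣ x(0)}`, a prime ideal (preimage of `(p)` under `x ↦ x(0)`).
`ker φ ≤ 𝔓`: if `φ x = 0` then `C c * x = F2 g`, so `p ∣ c x(0)`, `p ∤ c`. Let `R = φ(C[X]) ≅
C[X]/ker φ`, a Noetherian domain with fraction field `K` (`hgen`), `𝔮 = φ(𝔓)` a prime ideal of
`R`, `O = R_𝔮`: a Noetherian local domain with fraction field `K`. Its maximal ideal is generated by
`φ(X)`: `𝔓 = (X, p)`, and `φ(p) φ(g) = φ(C (F2(0))) = φ(C (F2(0)) - F2) ∈ (φ X)` with `φ(C g)` a unit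
of `O`. `φ X ≠ 0`: otherwise `C c * X = F2 G`, comparing the coefficients: `F2(0) G(0) = 0`, so
`G = X G'`, `C c = F2 G'`, so `p ∣ F2(0) ∣ c` (the coefficient of `X^0`: `c = F2(0) G'(0)`),
contradiction. A Noetherian local domain with principal nonzero maximal ideal is a discrete
valuation ring (`IsDiscreteValuationRing.TFAE`), with uniformizer `φ X`. Apply `nval_of_dvr`.
-/

set_option linter.dupNamespace false

namespace Pool.Agent.GAP

variable {k K : Type*} [Field k] [Field K] [Algebra k K]

/-- a localization with principal maximal ideal is a discrete valuation ring -/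
theorem Dvl_dvr {A : Type*} [CommRing A] [IsDomain A] [IsNoetherianRing A] (q : Ideal A)
    [q.IsPrime] {ϖ : A} (h0 : ϖ ≠ 0) (hq : ϖ ∈ q)
    (h : ∀ x ∈ q, ∃ s c : A, s ∉ q ∧ x * s = ϖ * c) :
    IsDiscreteValuationRing (Localization.AtPrime q) ∧
      IsLocalRing.maximalIdeal (Localization.AtPrime q) =
        Ideal.span {algebraMap A (Localization.AtPrime q) ϖ} := by
  have hinj : Function.Injective (algebraMap A (Localization.AtPrime q)) :=
    IsLocalization.injective _ q.primeCompl_le_nonZeroDivisors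
  have : IsDomain (Localization.AtPrime q) :=
    IsLocalization.isDomain_localization q.primeCompl_le_nonZeroDivisors
  have : IsNoetherianRing (Localization.AtPrime q) :=
    IsLocalization.isNoetherianRing q.primeCompl _ inferInstance
  have hmax : IsLocalRing.maximalIdeal (Localization.AtPrime q) =
      Ideal.span {algebraMap A (Localization.AtPrime q) ϖ} := by
    rw [← Localization.AtPrime.map_eq_maximalIdeal]
    apply le_antisymm
    · rw [Ideal.map_le_iff_le_comap]
      intro x hx
      obtain ⟨s, c, hs, hsc⟩ := h x hx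
      rw [Ideal.mem_comap, Ideal.mem_span_singleton]
      have hu : IsUnit (algebraMap A (Localization.AtPrime q) s) :=
        IsLocalization.map_units _ (⟨s, hs⟩ : q.primeCompl)
      have h1 : algebraMap A (Localization.AtPrime q) ϖ ∣
          algebraMap A (Localization.AtPrime q) x * algebraMap A (Localization.AtPrime q) s := by
        rw [← map_mul, hsc, map_mul]
        exact dvd_mul_right _ _
      exact (hu.dvd_mul_right).1 h1
    · rw [Ideal.span_singleton_le_iff_mem]
      exact Ideal.mem_map_of_mem _ hq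
  have hne : algebraMap A (Localization.AtPrime q) ϖ ≠ 0 := by
    intro h1
    exact h0 (hinj (by rw [h1, map_zero]))
  have hnf : ¬ IsField (Localization.AtPrime q) := by
    rw [IsLocalRing.isField_iff_maximalIdeal_eq, hmax, Ideal.span_singleton_eq_bot]
    exact hne
  refine ⟨?_, hmax⟩
  have h5 : (IsLocalRing.maximalIdeal (Localization.AtPrime q)).IsPrincipal :=
    ⟨⟨algebraMap A (Localization.AtPrime q) ϖ, hmax⟩⟩
  exact ((IsDiscreteValuationRing.TFAE (Localization.AtPrime q) hnf).out 0 4).2 h5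

/-- the valuation of a localization which is a discrete valuation ring -/
theorem Dvl_loc {A : Type*} [CommRing A] [IsDomain A] [Algebra k A] [Algebra A K]
    [IsScalarTower k A K] [IsFractionRing A K] (q : Ideal A) [q.IsPrime]
    (hd : IsDiscreteValuationRing (Localization.AtPrime q)) :
    ∃ E : NVal k K, (∀ z : K, E.Int z ↔ ∃ a s : A, s ∉ q ∧
        z * algebraMap A K s = algebraMap A K a) ∧
      (∀ a : A, a ≠ 0 → (E.v (algebraMap A K a) = 0 ↔ a ∉ q)) ∧
      ∀ ϖ : A, Irreducible (algebraMap A (Localization.AtPrime q) ϖ) →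
        E.v (algebraMap A K ϖ) = 1 := by
  let _ : Algebra (Localization.AtPrime q) K :=
    IsLocalization.localizationAlgebraOfSubmonoidLe (Localization.AtPrime q) K q.primeCompl
      (nonZeroDivisors A) q.primeCompl_le_nonZeroDivisors
  have : IsScalarTower A (Localization.AtPrime q) K :=
    IsLocalization.localization_isScalarTower_of_submonoid_le (Localization.AtPrime q) K
      q.primeCompl (nonZeroDivisors A) q.primeCompl_le_nonZeroDivisors
  have : IsFractionRing (Localization.AtPrime q) K :=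
    IsFractionRing.isFractionRing_of_isDomain_of_isLocalization q.primeCompl
      (Localization.AtPrime q) K
  have : IsScalarTower k (Localization.AtPrime q) K := by
    refine IsScalarTower.of_algebraMap_eq fun c => ?_
    rw [IsScalarTower.algebraMap_apply k A (Localization.AtPrime q),
      ← IsScalarTower.algebraMap_apply A (Localization.AtPrime q) K,
      ← IsScalarTower.algebraMap_apply k A K]
  have hinj : Function.Injective (algebraMap A (Localization.AtPrime q)) :=
    IsLocalization.injective _ q.primeCompl_le_nonZeroDivisors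
  have hinjK : Function.Injective (algebraMap (Localization.AtPrime q) K) :=
    IsFractionRing.injective _ _
  obtain ⟨E, h1, h2, h3⟩ := nval_of_dvr (k := k) (K := K) (O := Localization.AtPrime q)
  refine ⟨E, fun z => ?_, fun a ha => ?_, fun ϖ hϖ => ?_⟩
  · rw [h1 z]
    constructor
    · rintro ⟨x, rfl⟩
      obtain ⟨⟨a, s⟩, hs⟩ := IsLocalization.surj q.primeCompl x
      refine ⟨a, s.1, s.2, ?_⟩
      rw [IsScalarTower.algebraMap_apply A (Localization.AtPrime q) K,
        IsScalarTower.algebraMap_apply A (Localization.AtPrime q) K, ← map_mul, hs]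
    · rintro ⟨a, s, hs, hz⟩
      refine ⟨IsLocalization.mk' (Localization.AtPrime q) a (⟨s, hs⟩ : q.primeCompl), ?_⟩
      have hs0 : algebraMap A K s ≠ 0 := by
        intro h0
        have : s = 0 := (map_eq_zero_iff _ (IsFractionRing.injective A K)).1 h0
        exact hs (this ▸ q.zero_mem)
      apply mul_right_cancel₀ hs0
      rw [hz, IsScalarTower.algebraMap_apply A (Localization.AtPrime q) K,
        IsScalarTower.algebraMap_apply A (Localization.AtPrime q) K, ← map_mul]
      congr 1
      exact IsLocalization.mk'_spec (Localization.AtPrime q) a (⟨s, hs⟩ : q.primeCompl)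
  · have ha' : algebraMap A (Localization.AtPrime q) a ≠ 0 := by
      intro h0
      exact ha (hinj (by rw [h0, map_zero]))
    rw [IsScalarTower.algebraMap_apply A (Localization.AtPrime q) K, h2 _ ha',
      IsLocalization.AtPrime.isUnit_to_map_iff (Localization.AtPrime q) q]
    rfl
  · rw [IsScalarTower.algebraMap_apply A (Localization.AtPrime q) K]
    exact h3 _ hϖ

/-- the valuation attached to a prime ideal which is locally principal -/
theorem Dvl_val {A : Type*} [CommRing A] [IsDomain A] [IsNoetherianRing A] [Algebra k A]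
    [Algebra A K] [IsScalarTower k A K] [IsFractionRing A K] (q : Ideal A) [q.IsPrime]
    {ϖ : A} (h0 : ϖ ≠ 0) (hq : ϖ ∈ q) (h : ∀ x ∈ q, ∃ s c : A, s ∉ q ∧ x * s = ϖ * c) :
    ∃ E : NVal k K, (∀ z : K, E.Int z ↔ ∃ a s : A, s ∉ q ∧
        z * algebraMap A K s = algebraMap A K a) ∧
      (∀ a : A, a ≠ 0 → (E.v (algebraMap A K a) = 0 ↔ a ∉ q)) ∧
      E.v (algebraMap A K ϖ) = 1 := by
  obtain ⟨h1, h2⟩ := Dvl_dvr q h0 hq h
  obtain ⟨E, e1, e2, e3⟩ := Dvl_loc (k := k) (K := K) q h1
  exact ⟨E, e1, e2, e3 ϖ ((IsDiscreteValuationRing.irreducible_iff_uniformizer _).2 h2)⟩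

theorem exists_val {C : Type*} [CommRing C] [IsDomain C] [IsNoetherianRing C] [Algebra k C]
    (φ : Polynomial C →+* K)
    (hk : ∀ c : k, φ (Polynomial.C (algebraMap k C c)) = algebraMap k K c)
    {p : C} (hp : Prime p) {F2 : Polynomial C} (h0 : φ F2 = 0)
    (hker : ∀ x, φ x = 0 → ∃ c : C, ¬ p ∣ c ∧ F2 ∣ Polynomial.C c * x)
    (hF : ∃ g, F2.coeff 0 = p * g ∧ ¬ p ∣ g)
    (hgen : ∀ z, ∃ x y, φ y ≠ 0 ∧ z * φ y = φ x) :
    ∃ E : NVal k K, φ Polynomial.X ≠ 0 ∧ E.v (φ Polynomial.X) = 1 ∧ (∀ x, E.Int (φ x)) ∧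
      (∀ x, ¬ p ∣ x.coeff 0 → φ x ≠ 0 ∧ E.v (φ x) = 0) ∧
      (∀ x, p ∣ x.coeff 0 → E.Ge 1 (φ x)) ∧
      ∀ z, E.Int z → ∃ x y, ¬ p ∣ y.coeff 0 ∧ z * φ y = φ x := by
  obtain ⟨g, hg, hpg⟩ := hF
  -- the prime ideal
  let P : Ideal (Polynomial C) := Ideal.comap Polynomial.constantCoeff (Ideal.span {p})
  have hPmem : ∀ x, x ∈ P ↔ p ∣ x.coeff 0 := by
    intro x
    rw [Ideal.mem_comap, Ideal.mem_span_singleton]
    rfl
  have hspan : (Ideal.span {p}).IsPrime := (Ideal.span_singleton_prime hp.ne_zero).2 hp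
  have hPp : P.IsPrime := Ideal.comap_isPrime _ _
  have hkP : RingHom.ker φ ≤ P := by
    intro x hx
    obtain ⟨c, hc, G, hG⟩ := hker x ((RingHom.mem_ker).1 hx)
    rw [hPmem]
    have h1 : c * x.coeff 0 = p * (g * G.coeff 0) := by
      have h2 := congrArg (fun y => Polynomial.coeff y 0) hG
      simp only [Polynomial.mul_coeff_zero, Polynomial.coeff_C_zero, hg] at h2
      rw [h2]
      ring
    have h2 : p ∣ c * x.coeff 0 := ⟨_, h1⟩
    exact (hp.dvd_or_dvd h2).resolve_left hc
  have hφX : φ Polynomial.X ≠ 0 := by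
    intro hX
    obtain ⟨c, hc, G, hG⟩ := hker _ hX
    have hF0 : F2.coeff 0 ≠ 0 := by
      rw [hg]
      refine mul_ne_zero hp.ne_zero ?_
      rintro rfl
      exact hpg (dvd_zero p)
    have h1 : F2.coeff 0 * G.coeff 0 = 0 := by
      have h2 := congrArg (fun y => Polynomial.coeff y 0) hG
      simp only [Polynomial.mul_coeff_zero, Polynomial.coeff_X_zero, mul_zero] at h2
      exact h2.symm
    have h2 : G.coeff 0 = 0 := (mul_eq_zero.1 h1).resolve_left hF0
    obtain ⟨G', rfl⟩ := Polynomial.X_dvd_iff.2 h2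
    have h3 : Polynomial.C c * Polynomial.X = F2 * G' * Polynomial.X := by rw [hG]; ring
    have h4 := mul_right_cancel₀ (Polynomial.X_ne_zero) h3
    have h5 := congrArg (fun y => Polynomial.coeff y 0) h4
    simp only [Polynomial.mul_coeff_zero, Polynomial.coeff_C_zero, hg] at h5
    exact hc ⟨g * G'.coeff 0, by rw [h5]; ring⟩
  let A := Polynomial C ⧸ RingHom.ker φ
  let mk : Polynomial C →+* A := Ideal.Quotient.mk (RingHom.ker φ)
  have hmks : Function.Surjective mk := Ideal.Quotient.mk_surjective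
  have : (RingHom.ker φ).IsPrime := RingHom.ker_isPrime φ
  have : IsDomain A := Ideal.Quotient.isDomain _
  have : IsNoetherianRing A := inferInstanceAs (IsNoetherianRing (Polynomial C ⧸ RingHom.ker φ))
  let _ : Algebra A K := (RingHom.kerLift φ).toAlgebra
  have hmk : ∀ x, algebraMap A K (mk x) = φ x := fun x => rfl
  have hinj : Function.Injective (algebraMap A K) := RingHom.kerLift_injective φ
  have : FaithfulSMul A K := (faithfulSMul_iff_algebraMap_injective A K).2 hinj
  have : IsFractionRing A K := by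
    refine IsFractionRing.of_field A K fun z => ?_
    obtain ⟨x, y, hy, hz⟩ := hgen z
    refine ⟨mk x, mk y, ?_⟩
    rw [hmk, hmk, ← hz, mul_div_cancel_right₀ _ hy]
  have : IsScalarTower k A K := IsScalarTower.of_algebraMap_eq (R := k) (S := A) (A := K)
    fun c => (hk c).symm
  let q : Ideal A := P.map mk
  have hqmem : ∀ x, mk x ∈ q ↔ p ∣ x.coeff 0 := by
    intro x
    rw [← hPmem]
    exact Ideal.mem_quotient_iff_mem hkP
  have : q.IsPrime := Ideal.map_isPrime_of_surjective hmks (by rwa [Ideal.mk_ker])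
  have hX0 : mk Polynomial.X ≠ 0 := by
    intro h
    apply hφX
    rw [← hmk, h, map_zero]
  obtain ⟨E, e1, e2, e3⟩ := Dvl_val (k := k) (K := K) q hX0
    ((hqmem _).2 (by rw [Polynomial.coeff_X_zero]; exact dvd_zero p)) (by
      intro y hy
      obtain ⟨x, rfl⟩ := hmks y
      obtain ⟨d, hd⟩ := (hqmem x).1 hy
      refine ⟨mk (Polynomial.C g), mk (x.divX * Polynomial.C g - Polynomial.C d * F2.divX),
        fun h => hpg ?_, ?_⟩
      · have := (hqmem _).1 h
        rwa [Polynomial.coeff_C_zero] at this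
      · have hF : mk F2 = 0 := by
          apply hinj
          rw [hmk, h0, map_zero]
        have h1 : x = x.divX * Polynomial.X + Polynomial.C p * Polynomial.C d := by
          rw [← Polynomial.C_mul, ← hd, Polynomial.divX_mul_X_add]
        have h2 : F2 = F2.divX * Polynomial.X + Polynomial.C p * Polynomial.C g := by
          rw [← Polynomial.C_mul, ← hg, Polynomial.divX_mul_X_add]
        have h3 : x * Polynomial.C g = Polynomial.X *
            (x.divX * Polynomial.C g - Polynomial.C d * F2.divX) + Polynomial.C d * F2 := by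
          linear_combination (Polynomial.C g) * h1 - (Polynomial.C d) * h2
        rw [← map_mul, h3, map_add, map_mul, map_mul mk (Polynomial.C d), hF, mul_zero, add_zero])
  refine ⟨E, hφX, e3, fun x => ?_, fun x hx => ?_, fun x hx => ?_, fun z hz => ?_⟩
  · exact (e1 _).2 ⟨mk x, 1, fun h => (inferInstance : q.IsPrime).ne_top
      ((Ideal.eq_top_iff_one q).2 h), by rw [map_one, mul_one, hmk]⟩
  · have h1 : mk x ∉ q := fun h => hx ((hqmem x).1 h)
    have h2 : mk x ≠ 0 := fun h => h1 (h ▸ q.zero_mem)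
    have h3 : φ x ≠ 0 := by
      intro h
      apply h2
      apply hinj
      rw [hmk, h, map_zero]
    exact ⟨h3, (e2 _ h2).2 h1⟩
  · by_cases h : φ x = 0
    · exact Or.inl h
    have h2 : mk x ≠ 0 := by
      intro h'
      apply h
      rw [← hmk, h', map_zero]
    right
    have h3 : E.v (φ x) ≠ 0 := fun h' => ((e2 _ h2).1 h') ((hqmem x).2 hx)
    have h4 : E.Int (φ x) := (e1 _).2 ⟨mk x, 1, fun h => (inferInstance : q.IsPrime).ne_top
      ((Ideal.eq_top_iff_one q).2 h), by rw [map_one, mul_one, hmk]⟩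
    have h5 := NVal.Ge.le h4 h
    omega
  · obtain ⟨a, s, hs, hz'⟩ := (e1 z).1 hz
    obtain ⟨x, rfl⟩ := hmks a
    obtain ⟨y, rfl⟩ := hmks s
    exact ⟨x, y, fun h => hs ((hqmem y).2 h), hz'⟩

end Pool.Agent.GAP
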