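import Pool.Agent.GAP.Ctx
import Pool.Agent.GAP.Dvl

/-!
# GAP, module COD: a prime divisor of `Y` above a prime divisor of `X`

Proof. Let `𝔭 = {a ∈ A | a = 0 ∨ 0 < v a}`, a prime ideal of `A`, `𝔭 ≤ P`, and the valuation ring of
`E` is `A_𝔭`. `𝔭 ≠ 0` (a uniformizer is `a / b`, `a ∈ 𝔭`). `B` is integral over `A`
(`isIntegral_B`), so there is a prime `q` of `B` over `𝔭`, and by going up one inside `orig`:
`Ideal.exists_ideal_over_prime_of_isIntegral` gives primes `q ≤ q'` with `q' ∩ A = P`; `q'` contains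
all `x_i^N` with `N 1`.. in `perp G` (classes of invariant monomials without constant term lie in
`P`), so all `x_i`, so `orig ≤ q'`, and `orig` is maximal. `q ≠ 0` as `𝔭 ≠ 0`.
Height one: let `q'' ≤ q` be a prime, `q'' ≠ 0`. It contains an invariant `≠ 0`
(`exists_mul_invariant`), so `q'' ∩ A ≠ 0`, `q'' ∩ A ≤ 𝔭`. Then `q'' ∩ A = 𝔭`: take
`a ∈ q'' ∩ A`, `a ≠ 0`, `v a = e ≥ 1`; for `b ∈ 𝔭` the element `b^e / a` is in the valuation ring, so
`b^e s = a c` with `s, c ∈ A`, `v s = 0`, so `s ∉ 𝔭`, `b^e s ∈ q''`, `b ∈ q''`. By incomparability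
(`Ideal.comap_lt_comap_of_integral_mem_sdiff`) `q'' = q`.
The localization `O' = B_q`: Noetherian local domain with the only primes `0` and its maximal ideal,
not a field; integrally closed: if `z ∈ L` is integral over `B_q`, then `s z` is integral over `B` for
some `s ∉ q`, so `s z ∈ B_orig ⊆ B_q` by `normal`, so `z ∈ B_q`. So `O'` is a discrete valuation ring
(`IsDiscreteValuationRing.TFAE`), and `nval_of_dvr` gives `E'`. Comparison: for `z ∈ K`, `z = a / b`
(`a, b ∈ A`): if `v z ≥ 0` take `b ∉ 𝔭`, then `b ∉ q`, so `v' z ≥ 0`; if `v z > 0` then `a ∈ 𝔭 ⊆ q`, so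
`v' z > 0`. So `v' = e v` on `K` with `e = v'(t)`, `v t = 1`.
-/

set_option linter.dupNamespace false

namespace Pool.Agent.GAP

universe u

variable {k : Type u} [Field k] {n : ℕ} {K L : Type*} [Field K] [Field L]
    [Algebra k K] [Algebra k L]

/-- `E'` is a prime divisor of `Y` through the origin with the prime ideal `q`, above `E`, with
ramification index `e`. -/
structure Above (X : Pre k n) [Algebra X.A K] [Algebra X.B L] [Algebra K L] (E : NVal k K)
    (E' : NVal k L) (q : Ideal X.B) (e : ℤ) : Prop where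
  prime : q.IsPrime
  le : q ≤ X.orig
  ne : q ≠ ⊥
  ht : ∀ q' : Ideal X.B, q'.IsPrime → q' ≤ q → q' = ⊥ ∨ q' = q
  int : ∀ b : X.B, E'.Int (algebraMap X.B L b)
  mem : ∀ b : X.B, b ∈ q ↔ b = 0 ∨ 0 < E'.v (algebraMap X.B L b)
  loc : ∀ z : L, E'.Int z → ∃ b s : X.B, s ∉ q ∧ z * algebraMap X.B L s = algebraMap X.B L b
  e_pos : 1 ≤ e
  comp : ∀ z : K, z ≠ 0 → E'.v (algebraMap K L z) = e * E.v z

/-- the localization at a prime of height one where the ring is normal -/
theorem Cod_dvr {B L : Type*} [CommRing B] [IsDomain B] [IsNoetherianRing B] [Field L]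
    [Algebra B L] [IsFractionRing B L] (q : Ideal B) [q.IsPrime] (hq0 : q ≠ ⊥)
    (hht : ∀ q' : Ideal B, q'.IsPrime → q' ≤ q → q' = ⊥ ∨ q' = q)
    (hX : ∀ z : L, IsIntegral B z →
      ∃ b s : B, s ∉ q ∧ z * algebraMap B L s = algebraMap B L b) :
    IsDiscreteValuationRing (Localization.AtPrime q) := by
  have hinj : Function.Injective (algebraMap B (Localization.AtPrime q)) :=
    IsLocalization.injective _ q.primeCompl_le_nonZeroDivisors
  have : IsNoetherianRing (Localization.AtPrime q) :=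
    IsLocalization.isNoetherianRing q.primeCompl _ inferInstance
  let _ : Algebra (Localization.AtPrime q) L :=
    IsLocalization.localizationAlgebraOfSubmonoidLe (Localization.AtPrime q) L q.primeCompl
      (nonZeroDivisors B) q.primeCompl_le_nonZeroDivisors
  have : IsScalarTower B (Localization.AtPrime q) L :=
    IsLocalization.localization_isScalarTower_of_submonoid_le (Localization.AtPrime q) L
      q.primeCompl (nonZeroDivisors B) q.primeCompl_le_nonZeroDivisors
  have : IsFractionRing (Localization.AtPrime q) L :=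
    IsFractionRing.isFractionRing_of_isDomain_of_isLocalization q.primeCompl
      (Localization.AtPrime q) L
  obtain ⟨b0, hb0, hb00⟩ := Submodule.exists_mem_ne_zero_of_ne_bot hq0
  have hmax : IsLocalRing.maximalIdeal (Localization.AtPrime q) ≠ ⊥ := by
    intro h
    have h1 : algebraMap B (Localization.AtPrime q) b0 ∈
        IsLocalRing.maximalIdeal (Localization.AtPrime q) := by
      rw [← Localization.AtPrime.map_eq_maximalIdeal]
      exact Ideal.mem_map_of_mem _ hb0
    rw [h, Ideal.mem_bot] at h1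
    exact hb00 (hinj (by rw [h1, map_zero]))
  have hnf : ¬ IsField (Localization.AtPrime q) := by
    rw [IsLocalRing.isField_iff_maximalIdeal_eq]
    exact hmax
  have hiff : IsDiscreteValuationRing (Localization.AtPrime q) ↔
      (IsIntegrallyClosed (Localization.AtPrime q) ∧
        ∃! P : Ideal (Localization.AtPrime q), P ≠ ⊥ ∧ P.IsPrime) :=
    (IsDiscreteValuationRing.TFAE (Localization.AtPrime q) hnf).out 0 3
  refine hiff.2 ⟨?_, ?_⟩
  · rw [isIntegrallyClosed_iff L]
    intro x hx
    obtain ⟨⟨s, hs⟩, hsx⟩ := IsIntegral.exists_multiple_integral_of_isLocalization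
      q.primeCompl x hx
    obtain ⟨b, s', hs', e⟩ := hX _ hsx
    have hss : s * s' ∈ q.primeCompl := Submonoid.mul_mem _ hs hs'
    have hss0 : algebraMap B L (s * s') ≠ 0 := by
      intro h0
      have : s * s' = 0 := (map_eq_zero_iff _ (IsFractionRing.injective B L)).1 h0
      exact hss (this ▸ q.zero_mem)
    refine ⟨IsLocalization.mk' (Localization.AtPrime q) b (⟨s * s', hss⟩ : q.primeCompl), ?_⟩
    apply mul_right_cancel₀ hss0
    have e' : x * algebraMap B L (s * s') = algebraMap B L b := by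
      rw [← e, map_mul]
      show _ = (s • x) * _
      rw [Algebra.smul_def]
      ring
    rw [e', IsScalarTower.algebraMap_apply B (Localization.AtPrime q) L,
      IsScalarTower.algebraMap_apply B (Localization.AtPrime q) L, ← map_mul]
    congr 1
    exact IsLocalization.mk'_spec (Localization.AtPrime q) b (⟨s * s', hss⟩ : q.primeCompl)
  · refine ⟨IsLocalRing.maximalIdeal (Localization.AtPrime q), ⟨hmax, inferInstance⟩, ?_⟩
    rintro P' ⟨hP0, hP'⟩
    have h1 : (P'.comap (algebraMap B (Localization.AtPrime q))).IsPrime := Ideal.comap_isPrime _ _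
    have h2 : P'.comap (algebraMap B (Localization.AtPrime q)) ≤ q := by
      intro x hx
      by_contra hxq
      have hu : IsUnit (algebraMap B (Localization.AtPrime q) x) :=
        IsLocalization.map_units _ (⟨x, hxq⟩ : q.primeCompl)
      exact hP'.ne_top (Ideal.eq_top_of_isUnit_mem _ hx hu)
    have h3 : Ideal.map (algebraMap B (Localization.AtPrime q))
        (P'.comap (algebraMap B (Localization.AtPrime q))) = P' :=
      IsLocalization.map_under q.primeCompl (Localization.AtPrime q) P'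
    rcases hht _ h1 h2 with h | h
    · rw [h, Ideal.map_bot] at h3
      exact absurd h3.symm hP0
    · rw [h, Localization.AtPrime.map_eq_maximalIdeal] at h3
      exact h3.symm

/-- abstract version -/
theorem Cod_abs {k A B K L : Type*} [Field k] [CommRing A] [IsDomain A] [CommRing B] [IsDomain B]
    [IsNoetherianRing B] [Algebra k A] [Algebra k B] [Algebra A B] [Algebra.IsIntegral A B]
    [Field K] [Field L] [Algebra k K] [Algebra k L] [Algebra A K] [Algebra B L] [Algebra K L]
    [IsScalarTower k A K] [IsFractionRing A K] [IsScalarTower k B L] [IsFractionRing B L]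
    (hcomp : ∀ a : A, algebraMap K L (algebraMap A K a) = algebraMap B L (algebraMap A B a))
    (P : Ideal A) [P.IsPrime] (O : Ideal B)
    (hO : ∀ q' : Ideal B, q'.IsPrime → q'.comap (algebraMap A B) = P → q' = O)
    (hinv : ∀ s : B, s ≠ 0 → ∃ (t : B) (a : A), a ≠ 0 ∧ algebraMap A B a = s * t)
    (hX : ∀ z : L, IsIntegral B z →
      ∃ b s : B, s ∉ O ∧ z * algebraMap B L s = algebraMap B L b)
    (E : NVal k K) (hE : IsDivisorOn E P) :
    ∃ (E' : NVal k L) (q : Ideal B) (e : ℤ), q.IsPrime ∧ q ≤ O ∧ q ≠ ⊥ ∧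
      (∀ q' : Ideal B, q'.IsPrime → q' ≤ q → q' = ⊥ ∨ q' = q) ∧
      (∀ b : B, E'.Int (algebraMap B L b)) ∧
      (∀ b : B, b ∈ q ↔ b = 0 ∨ 0 < E'.v (algebraMap B L b)) ∧
      (∀ z : L, E'.Int z → ∃ b s : B, s ∉ q ∧ z * algebraMap B L s = algebraMap B L b) ∧
      1 ≤ e ∧ ∀ z : K, z ≠ 0 → E'.v (algebraMap K L z) = e * E.v z := by
  have hAK : Function.Injective (algebraMap A K) := IsFractionRing.injective A K
  have hBL : Function.Injective (algebraMap B L) := IsFractionRing.injective B L
  have hKL : Function.Injective (algebraMap K L) := (algebraMap K L).injective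
  have hAB : Function.Injective (algebraMap A B) := by
    intro a b hab
    apply hAK
    apply hKL
    rw [hcomp, hcomp, hab]
  obtain ⟨hE1, hE2, hE3⟩ := hE
  have hK0 : ∀ a : A, a ≠ 0 → algebraMap A K a ≠ 0 := fun a ha =>
    (map_ne_zero_iff _ hAK).2 ha
  have hL0 : ∀ b : B, b ≠ 0 → algebraMap B L b ≠ 0 := fun a ha =>
    (map_ne_zero_iff _ hBL).2 ha
  -- the prime ideal of `A`
  let p : Ideal A :=
    { carrier := {a | E.Ge 1 (algebraMap A K a)}
      zero_mem' := by
        show E.Ge 1 (algebraMap A K 0)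
        rw [map_zero]
        exact NVal.Ge.zero 1
      add_mem' := by
        intro a b ha hb
        show E.Ge 1 (algebraMap A K (a + b))
        rw [map_add]
        exact NVal.Ge.add ha hb
      smul_mem' := by
        intro c a ha
        show E.Ge 1 (algebraMap A K (c * a))
        rw [map_mul]
        have := NVal.Ge.mul (hE1 c) ha
        rwa [zero_add] at this }
  have hpm : ∀ a : A, a ∈ p ↔ a = 0 ∨ 1 ≤ E.v (algebraMap A K a) := by
    intro a
    show (algebraMap A K a = 0 ∨ _) ↔ _
    rw [map_eq_zero_iff _ hAK]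
  have hpn : ∀ a : A, a ∉ p ↔ a ≠ 0 ∧ E.v (algebraMap A K a) = 0 := by
    intro a
    rw [hpm, not_or]
    refine and_congr_right fun ha => ?_
    have := NVal.Ge.le (hE1 a) (hK0 a ha)
    omega
  have hpp : p.IsPrime := by
    constructor
    · intro h
      have : (1 : A) ∈ p := h ▸ Submodule.mem_top
      rcases (hpm 1).1 this with h | h
      · exact one_ne_zero h
      · rw [map_one, E.v_one] at h
        omega
    · intro a b hab
      by_contra hcon
      rw [not_or, hpn, hpn] at hcon
      obtain ⟨⟨ha, hva⟩, hb, hvb⟩ := hcon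
      rcases (hpm _).1 hab with h | h
      · exact (mul_ne_zero ha hb) h
      · rw [map_mul, E.v_mul _ _ (hK0 a ha) (hK0 b hb), hva, hvb] at h
        omega
  have hpP : p ≤ P := by
    intro a ha
    by_contra haP
    have h1 := hE2 a haP
    rcases (hpm a).1 ha with h | h
    · rw [h] at haP
      exact haP P.zero_mem
    · omega
  -- going up
  obtain ⟨q, -, hqp, hqc⟩ := Ideal.exists_ideal_over_prime_of_isIntegral p (⊥ : Ideal B) (by
    intro a ha
    rw [Ideal.mem_comap, Ideal.mem_bot] at ha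
    have : a = 0 := hAB (by rw [ha, map_zero])
    rw [this]
    exact p.zero_mem)
  obtain ⟨q', hqq', hq'p, hq'c⟩ := Ideal.exists_ideal_over_prime_of_isIntegral P q (by
    rw [hqc]; exact hpP)
  have hqO : q ≤ O := by
    rw [← hO q' hq'p hq'c]
    exact hqq'
  have hqa : ∀ a : A, algebraMap A B a ∈ q ↔ a ∈ p := by
    intro a
    rw [← hqc, Ideal.mem_comap]
  -- an element of value one
  obtain ⟨t, ht0, ht1⟩ := E.surj
  obtain ⟨at', bt, hbt0, hbtv, hbt⟩ := hE3 t (Or.inr (by omega))
  have hat0 : at' ≠ 0 := by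
    rintro rfl
    rw [map_zero] at hbt
    exact (mul_ne_zero ht0 (hK0 bt hbt0)) hbt
  have hatv : E.v (algebraMap A K at') = 1 := by
    rw [← hbt, E.v_mul _ _ ht0 (hK0 bt hbt0), ht1, hbtv]
    omega
  have hatp : at' ∈ p := (hpm _).2 (Or.inr (by omega))
  have hq0 : q ≠ ⊥ := by
    intro h
    have h1 := (hqa at').2 hatp
    rw [h, Ideal.mem_bot] at h1
    exact hat0 (hAB (by rw [h1, map_zero]))
  have hht : ∀ q' : Ideal B, q'.IsPrime → q' ≤ q → q' = ⊥ ∨ q' = q := by
    intro q2 hq2 hle
    by_cases h0 : q2 = ⊥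
    · exact Or.inl h0
    right
    obtain ⟨s, hs, hs0⟩ := Submodule.exists_mem_ne_zero_of_ne_bot h0
    obtain ⟨t', a, ha0, ha⟩ := hinv s hs0
    have haq : algebraMap A B a ∈ q2 := by
      rw [ha]
      exact q2.mul_mem_right t' hs
    have hap : a ∈ p := (hqa a).1 (hle haq)
    have hav : 1 ≤ E.v (algebraMap A K a) := ((hpm a).1 hap).resolve_left ha0
    have hsub : ∀ b ∈ p, algebraMap A B b ∈ q2 := by
      intro b hb
      by_cases hb0 : b = 0
      · rw [hb0, map_zero]
        exact q2.zero_mem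
      have hbv : 1 ≤ E.v (algebraMap A K b) := ((hpm b).1 hb).resolve_left hb0
      obtain ⟨c, s', hs'0, hs'v, hcs⟩ := hE3
        ((algebraMap A K b) ^ (E.v (algebraMap A K a)).toNat / algebraMap A K a) (by
          right
          rw [E.v_div _ _ (pow_ne_zero _ (hK0 b hb0)) (hK0 a ha0), E.v_pow _ (hK0 b hb0),
            Int.toNat_of_nonneg (by omega)]
          nlinarith)
      have hcs' : b ^ (E.v (algebraMap A K a)).toNat * s' = a * c := by
        apply hAK
        rw [map_mul, map_mul, map_pow, ← hcs]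
        have := hK0 a ha0
        field_simp
      have hs'p : s' ∉ p := (hpn s').2 ⟨hs'0, hs'v⟩
      have hs'q : algebraMap A B s' ∉ q2 := fun h => hs'p ((hqa s').1 (hle h))
      have h1 : algebraMap A B b ^ (E.v (algebraMap A K a)).toNat * algebraMap A B s' ∈ q2 := by
        rw [← map_pow, ← map_mul, hcs', map_mul]
        exact q2.mul_mem_right _ haq
      exact hq2.mem_of_pow_mem _ ((hq2.mem_or_mem h1).resolve_right hs'q)
    by_contra hne
    obtain ⟨x, hx, hx2⟩ : ∃ x ∈ q, x ∉ q2 := by
      by_contra hall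
      push Not at hall
      exact hne (le_antisymm hle hall)
    have hlt := Ideal.comap_lt_comap_of_integral_mem_sdiff (R := A) hle (x := x) ⟨hx, hx2⟩
      (Algebra.IsIntegral.isIntegral x)
    rw [hqc] at hlt
    exact absurd hlt (not_lt_of_ge fun b hb => hsub b hb)
  have hXq : ∀ z : L, IsIntegral B z →
      ∃ b s : B, s ∉ q ∧ z * algebraMap B L s = algebraMap B L b := by
    intro z hz
    obtain ⟨b, s, hs, e⟩ := hX z hz
    exact ⟨b, s, fun h => hs (hqO h), e⟩
  obtain ⟨E', e1, e2, -⟩ := Dvl_loc (k := k) (K := L) q (Cod_dvr (L := L) q hq0 hht hXq)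
  have hint : ∀ b : B, E'.Int (algebraMap B L b) := fun b =>
    (e1 _).2 ⟨b, 1, fun h => hqp.ne_top ((Ideal.eq_top_iff_one q).2 h), by rw [map_one, mul_one]⟩
  have hmem : ∀ b : B, b ∈ q ↔ b = 0 ∨ 0 < E'.v (algebraMap B L b) := by
    intro b
    by_cases hb : b = 0
    · rw [hb]
      simp
    have h1 := NVal.Ge.le (hint b) (hL0 b hb)
    have h2 := e2 b hb
    constructor
    · intro h
      right
      by_contra h3
      exact (h2.1 (by omega)) h
    · rintro (h | h)
      · exact absurd h hb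
      · by_contra h3
        have := h2.2 h3
        omega
  have hv0 : ∀ a : A, a ∉ p → E'.v (algebraMap K L (algebraMap A K a)) = 0 := by
    intro a ha
    have ha0 : a ≠ 0 := ((hpn a).1 ha).1
    rw [hcomp]
    refine (e2 _ ?_).2 fun h => ha ((hqa a).1 h)
    exact (map_ne_zero_iff _ hAB).2 ha0
  have hnn : ∀ z : K, z ≠ 0 → 0 ≤ E.v z → 0 ≤ E'.v (algebraMap K L z) := by
    intro z hz0 hz
    obtain ⟨a, s, hs0, hsv, hzs⟩ := hE3 z (Or.inr hz)
    have hsp : s ∉ p := (hpn s).2 ⟨hs0, hsv⟩
    have ha0 : a ≠ 0 := by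
      rintro rfl
      rw [map_zero] at hzs
      exact (mul_ne_zero hz0 (hK0 s hs0)) hzs
    have h1 : E'.v (algebraMap K L z) + E'.v (algebraMap K L (algebraMap A K s)) =
        E'.v (algebraMap K L (algebraMap A K a)) := by
      rw [← hzs, map_mul, E'.v_mul _ _ ((map_ne_zero_iff _ hKL).2 hz0)
        ((map_ne_zero_iff _ hKL).2 (hK0 s hs0))]
    rw [hv0 s hsp, hcomp] at h1
    have h2 := NVal.Ge.le (hint (algebraMap A B a)) (hL0 _ ((map_ne_zero_iff _ hAB).2 ha0))
    omega
  have hzz : ∀ z : K, z ≠ 0 → E.v z = 0 → E'.v (algebraMap K L z) = 0 := by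
    intro z hz0 hz
    have h1 := hnn z hz0 (by omega)
    have h2 := hnn z⁻¹ (inv_ne_zero hz0) (by rw [E.v_inv]; omega)
    rw [map_inv₀, E'.v_inv] at h2
    omega
  refine ⟨E', q, E'.v (algebraMap K L t), hqp, hqO, hq0, hht, hint, hmem,
    fun z hz => (e1 z).1 hz, ?_, ?_⟩
  · have hbtp : bt ∉ p := (hpn bt).2 ⟨hbt0, hbtv⟩
    have h1 : E'.v (algebraMap K L t) + E'.v (algebraMap K L (algebraMap A K bt)) =
        E'.v (algebraMap K L (algebraMap A K at')) := by
      rw [← hbt, map_mul, E'.v_mul _ _ ((map_ne_zero_iff _ hKL).2 ht0)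
        ((map_ne_zero_iff _ hKL).2 (hK0 bt hbt0))]
    rw [hv0 bt hbtp, hcomp] at h1
    have h2 := ((hmem (algebraMap A B at')).1 ((hqa at').2 hatp)).resolve_left
      ((map_ne_zero_iff _ hAB).2 hat0)
    omega
  · intro z hz
    have htz : t ^ (E.v z) ≠ 0 := zpow_ne_zero _ ht0
    have h1 : E.v (z / t ^ (E.v z)) = 0 := by
      rw [E.v_div _ _ hz htz, E.v_zpow _ ht0, ht1]
      ring
    have h2 := hzz _ (div_ne_zero hz htz) h1
    rw [map_div₀, map_zpow₀, E'.v_div _ _ ((map_ne_zero_iff _ hKL).2 hz)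
      (zpow_ne_zero _ ((map_ne_zero_iff _ hKL).2 ht0)),
      E'.v_zpow _ ((map_ne_zero_iff _ hKL).2 ht0)] at h2
    linarith

theorem Cod_noeth (X : Pre k n) : IsNoetherianRing X.B :=
  inferInstanceAs (IsNoetherianRing (MvPolynomial (Fin n) k ⧸ Ideal.span {X.f}))

/-- the only prime over `P` is the ideal of the origin -/
theorem Cod_orig (X : Pre k n) (q' : Ideal X.B) (hq' : q'.IsPrime)
    (h : q'.comap (algebraMap X.A X.B) = X.P) : q' = X.orig := by
  have hfin := X.fin
  obtain ⟨N, hN, hNm⟩ := perp_finIdx X.G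
  have hx : ∀ i, X.x i ∈ q' := by
    intro i
    have hmem : X.cl (MvPolynomial.monomial (Finsupp.single i N) 1) ∈ X.A := by
      refine X.monomial_mem _ _ ?_
      have := hNm (fun j => if j = i then 1 else 0)
      convert this using 1
      funext j
      simp only [Finsupp.single_apply, Pi.smul_apply]
      by_cases hj : j = i
      · subst hj; simp
      · rw [if_neg (fun h => hj h.symm), if_neg hj]; simp
    have hpow : X.cl (MvPolynomial.monomial (Finsupp.single i N) 1) = X.x i ^ N := by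
      rw [Pre.x, ← map_pow, MvPolynomial.X_pow_eq_monomial]
    have hxi : X.x i ∈ X.orig := Ideal.subset_span (Set.mem_range_self i)
    have h1 : (⟨X.cl (MvPolynomial.monomial (Finsupp.single i N) 1), hmem⟩ : X.A) ∈ X.P := by
      show X.cl (MvPolynomial.monomial (Finsupp.single i N) 1) ∈ X.orig
      rw [hpow]
      exact Ideal.pow_mem_of_mem _ hxi N hN
    rw [← h, Ideal.mem_comap] at h1
    have h2 : X.x i ^ N ∈ q' := by
      rw [← hpow]
      exact h1
    exact hq'.mem_of_pow_mem N h2
  have hle : X.orig ≤ q' := by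
    unfold Pre.orig
    rw [Ideal.span_le]
    rintro _ ⟨i, rfl⟩
    exact hx i
  refine le_antisymm (fun b hb => ?_) hle
  obtain ⟨p, rfl⟩ := X.cl_surjective b
  by_contra hbo
  rw [X.mem_orig] at hbo
  have h1 : X.cl (p - MvPolynomial.C (MvPolynomial.constantCoeff p)) ∈ q' := by
    apply hle
    rw [X.mem_orig]
    simp
  rw [map_sub] at h1
  have h2 : X.cl (MvPolynomial.C (MvPolynomial.constantCoeff p)) ∈ q' := by
    have := q'.sub_mem hb h1
    rwa [sub_sub_cancel] at this
  have hu : IsUnit (X.cl (MvPolynomial.C (MvPolynomial.constantCoeff p))) :=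
    ((IsUnit.mk0 _ hbo).map MvPolynomial.C).map X.cl
  exact hq'.ne_top (Ideal.eq_top_of_isUnit_mem _ h2 hu)

theorem exists_above {X : HQ k n} [Algebra X.A K] [Algebra X.B L] [Algebra K L]
    (h : Ctx X.toPre K L) (hX : ∀ z : L, IsIntegral X.B z →
      ∃ b s : X.B, s ∉ X.orig ∧ z * algebraMap X.B L s = algebraMap X.B L b)
    (E : NVal k K) (hE : IsDivisorOn E X.P) :
    ∃ (E' : NVal k L) (q : Ideal X.B) (e : ℤ), Above X.toPre E E' q e := by
  have := h.towerK
  have := h.fracK
  have := h.towerL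
  have := h.fracL
  have := Cod_noeth X.toPre
  have := X.toPre.isIntegral_B
  obtain ⟨E', q, e, h1, h2, h3, h4, h5, h6, h7, h8, h9⟩ := Cod_abs (k := k) (A := X.A)
    (B := X.B) (K := K) (L := L) (fun a => h.comp a) X.P X.orig
    (fun q' hq' hc => Cod_orig X.toPre q' hq' hc) (fun s hs => by
      obtain ⟨t, ht1, ht2, -⟩ := X.toPre.exists_mul_invariant hs
      exact ⟨t, ⟨s * t, ht1⟩, fun h0 => ht2 (congrArg Subtype.val h0), rfl⟩) hX E hE
  exact ⟨E', q, e, ⟨h1, h2, h3, h4, h5, h6, h7, h8, h9⟩⟩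

end Pool.Agent.GAP
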