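import Pool.Agent.GAP.Tbs

/-!
# GAP, module TBS2: the rational forms on `K`

Proofs. `wedge_mon`: `dlog χ(m_a) = ∑_j (m_a)_j β_j` (`dlog_mon`), expand the wedge
(`MultilinearMap.map_sum`): a sum over maps `σ : Fin d → Fin (d+1)` of integers times
`ιMulti (β ∘ σ)`; if `σ` is not injective the term is `0`
(`AlternatingMap.map_eq_zero_of_not_injective`); if it is injective, it misses exactly one `l` and
`β ∘ σ` is a permutation of `β ∘ l.succAbove` (`AlternatingMap.map_perm`), so the term is an integer
times `± ev(F_l) θ` by `wedge_theta`; integers have value `≥ 0` (they come from `k`).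
`theta_ne`: `exteriorPower.ιMulti_family_linearIndependent_field` or a functional.
-/

set_option linter.dupNamespace false

namespace Pool.Agent.GAP

open AddMonoidAlgebra

variable {k K : Type*} [Field k] [Field K] [Algebra k K] {d : ℕ} (T : TorData k K d)

private theorem perm_of_inj (σ : Fin d → Fin (d + 1)) (hσ : Function.Injective σ) :
    ∃ (l : Fin (d + 1)) (π : Equiv.Perm (Fin d)), ∀ a, σ a = l.succAbove (π a) := by
  have hns : ¬ Function.Surjective σ := by
    intro h
    have := Fintype.card_le_of_surjective σ h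
    simp at this
  rw [Function.Surjective] at hns
  push Not at hns
  obtain ⟨l, hl⟩ := hns
  have h1 : ∀ a, ∃ b, l.succAbove b = σ a := fun a => Fin.exists_succAbove_eq (hl a)
  choose g hg using h1
  have hgi : Function.Injective g := by
    intro a b hab
    apply hσ
    rw [← hg a, ← hg b, hab]
  exact ⟨l, Equiv.ofBijective g (Finite.injective_iff_bijective.1 hgi), fun a => (hg a).symm⟩

private theorem int_cast_int (E : NVal k K) (z : ℤ) : E.Int (z : K) := by
  have h : E.Int (algebraMap k K (z : k)) := NVal.Int.alg (z : k)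
  rwa [map_intCast] at h

theorem wedge_mon [CharZero k] (h0 : T.ev T.F = 0) {i : Fin (d + 1)}
    (hi : T.ev (T.FD i) ≠ 0) (E : NVal k K) {r : ℤ} (hr : ∀ l, E.Ge r (T.ev (T.FD l)))
    (m : Fin d → T.M) :
    ∃ c : K, E.Ge r c ∧ exteriorPower.ιMulti K d
      (fun a => (T.mon (m a))⁻¹ • KaehlerDifferential.D k K (T.mon (m a))) = c • T.θ i := by
  classical
  have h1 : (fun a => (T.mon (m a))⁻¹ • KaehlerDifferential.D k K (T.mon (m a))) =
      fun a => ∑ j, (((m a : Fin (d + 1) → ℤ) j : ℤ) : K) • T.β j := by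
    funext a
    exact dlog_mon T (m a)
  have h2 : exteriorPower.ιMulti K d
      (fun a => ∑ j, (((m a : Fin (d + 1) → ℤ) j : ℤ) : K) • T.β j) =
      ∑ σ : Fin d → Fin (d + 1), (∏ a, (((m a : Fin (d + 1) → ℤ) (σ a) : ℤ) : K)) •
        exteriorPower.ιMulti K d (fun a => T.β (σ a)) := by
    have h3 := (exteriorPower.ιMulti K d (M := Ω[K⁄k])).toMultilinearMap.map_sum
      (fun (a : Fin d) (j : Fin (d + 1)) => (((m a : Fin (d + 1) → ℤ) j : ℤ) : K) • T.β j)
    refine h3.trans (Finset.sum_congr rfl fun σ _ => ?_)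
    exact (exteriorPower.ιMulti K d (M := Ω[K⁄k])).toMultilinearMap.map_smul_univ _ _
  have h4 : ∀ σ : Fin d → Fin (d + 1), ∃ c : K, E.Ge r c ∧
      (∏ a, (((m a : Fin (d + 1) → ℤ) (σ a) : ℤ) : K)) •
        exteriorPower.ιMulti K d (fun a => T.β (σ a)) = c • T.θ i := by
    intro σ
    by_cases hσ : Function.Injective σ
    · obtain ⟨l, π, hπ⟩ := perm_of_inj σ hσ
      obtain ⟨ε, hε, hw⟩ := wedge_theta T h0 hi l
      have h5 : exteriorPower.ιMulti K d (fun a => T.β (σ a)) =
          Equiv.Perm.sign π • exteriorPower.ιMulti K d (fun a => T.β (l.succAbove a)) := by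
        have h6 := (exteriorPower.ιMulti K d (M := Ω[K⁄k])).map_perm
          (fun a => T.β (l.succAbove a)) π
        rw [← h6]
        congr 1
        funext a
        simp only [Function.comp_apply]
        rw [hπ a]
      rw [h5, hw]
      have hεi : E.Int ε := by
        rcases hε with rfl | rfl
        · exact NVal.Int.one
        · exact NVal.Int.one.neg
      have hprod : E.Int (∏ a, (((m a : Fin (d + 1) → ℤ) (σ a) : ℤ) : K)) := by
        have := int_cast_int E (∏ a, ((m a : Fin (d + 1) → ℤ) (σ a)))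
        rwa [Int.cast_prod] at this
      have hge : E.Ge r (ε * T.ev (T.FD l)) := by
        have := NVal.Ge.mul hεi (hr l)
        rwa [zero_add] at this
      have hge2 : E.Ge r ((∏ a, (((m a : Fin (d + 1) → ℤ) (σ a) : ℤ) : K)) *
          (ε * T.ev (T.FD l))) := by
        have := NVal.Ge.mul hprod hge
        rwa [zero_add] at this
      rcases Int.units_eq_one_or (Equiv.Perm.sign π) with hs | hs
      · refine ⟨_, hge2, ?_⟩
        rw [hs, one_smul, smul_smul]
      · refine ⟨_, hge2.neg, ?_⟩
        rw [hs, Units.neg_smul, one_smul, smul_neg, smul_smul]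
        exact (neg_smul _ _).symm
    · refine ⟨0, NVal.Ge.zero r, ?_⟩
      rw [AlternatingMap.map_eq_zero_of_not_injective, smul_zero, zero_smul]
      intro hh
      exact hσ (Function.Injective.of_comp (f := T.β) hh)
  choose c hc hc2 using h4
  refine ⟨∑ σ, c σ, NVal.Ge.sum _ _ fun σ _ => hc σ, ?_⟩
  rw [h1, h2, Finset.sum_smul]
  exact Finset.sum_congr rfl fun σ _ => hc2 σ

private theorem iMulti_ne_zero {V : Type*} [AddCommGroup V] [Module K V] {v : Fin d → V}
    (hv : LinearIndependent K v) : exteriorPower.ιMulti K d v ≠ 0 := by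
  intro h
  have h1 := exteriorPower.ιMulti_family_linearIndependent_field (K := K) (n := d) hv
  have hs : (Finset.univ : Finset (Fin d)) ∈ Set.powersetCard (Fin d) d := by
    rw [Set.powersetCard.mem_iff]
    simp
  have h2 := h1.ne_zero (⟨Finset.univ, hs⟩ : Set.powersetCard (Fin d) d)
  apply h2
  rw [exteriorPower.ιMulti_family]
  set σ := Set.powersetCard.ofFinEmbEquiv.symm (⟨Finset.univ, hs⟩ : Set.powersetCard (Fin d) d)
    with hσ
  have hb : Function.Bijective σ := Finite.injective_iff_bijective.1 σ.injective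
  have h3 := (exteriorPower.ιMulti K d (M := V)).map_perm v (Equiv.ofBijective σ hb)
  rw [h, smul_zero] at h3
  exact h3

theorem theta_ne {i : Fin (d + 1)} (hT : T.OK) (hi : T.ev (T.FD i) ≠ 0) : T.θ i ≠ 0 := by
  unfold TorData.θ
  exact smul_ne_zero (inv_ne_zero hi) (iMulti_ne_zero (hT.indep i hi))

/-- The differentials are generated by the `β_j`, `j ≠ i`. Proof: every `z ∈ K` is
`ev a / ev b`, so `D z` is in the span of the `D χ(m)`, so in the span of the `β_j`
(`dlog_mon`), and `β_i` is in the span of the others by `relation`. -/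
theorem span_beta [CharZero k] (hT : T.OK) {i : Fin (d + 1)} (hi : T.ev (T.FD i) ≠ 0) :
    Submodule.span K (Set.range (fun a : Fin d => T.β (i.succAbove a))) = ⊤ := by
  set S := Submodule.span K (Set.range (fun a : Fin d => T.β (i.succAbove a))) with hS
  have h0 : T.ev T.F = 0 := (hT.ker T.F).2 dvd_rfl
  have hβ' : ∀ a : Fin d, T.β (i.succAbove a) ∈ S := fun a =>
    Submodule.subset_span ⟨a, rfl⟩
  have hβi : T.β i ∈ S := by
    have h1 := relation T h0
    rw [Fin.sum_univ_succAbove _ i] at h1
    have h2 : T.ev (T.FD i) • T.β i =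
        -∑ a : Fin d, T.ev (T.FD (i.succAbove a)) • T.β (i.succAbove a) :=
      eq_neg_of_add_eq_zero_left h1
    have h3 : T.ev (T.FD i) • T.β i ∈ S := by
      rw [h2]
      exact S.neg_mem (S.sum_mem fun a _ => S.smul_mem _ (hβ' a))
    have h4 := S.smul_mem (T.ev (T.FD i))⁻¹ h3
    rwa [smul_smul, inv_mul_cancel₀ hi, one_smul] at h4
  have hβ : ∀ j, T.β j ∈ S := by
    intro j
    by_cases hj : j = i
    · rw [hj]
      exact hβi
    · obtain ⟨a, ha⟩ := Fin.exists_succAbove_eq hj
      rw [← ha]
      exact hβ' a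
  have hmon : ∀ m : T.M, KaehlerDifferential.D k K (T.mon m) ∈ S := by
    intro m
    have h1 : (T.mon m)⁻¹ • KaehlerDifferential.D k K (T.mon m) ∈ S := by
      rw [dlog_mon]
      exact S.sum_mem fun j _ => S.smul_mem _ (hβ j)
    have h2 := S.smul_mem (T.mon m) h1
    rwa [smul_smul, mul_inv_cancel₀ (T.mon_ne m), one_smul] at h2
  have hev : ∀ a : AddMonoidAlgebra k T.M, KaehlerDifferential.D k K (T.ev a) ∈ S := by
    intro a
    induction a using AddMonoidAlgebra.induction_linear with
    | zero => rw [map_zero, map_zero]; exact S.zero_mem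
    | add x y hx hy => rw [map_add, map_add]; exact S.add_mem hx hy
    | single m c =>
      rw [T.ev_single, Derivation.map_smul]
      have := S.smul_mem (algebraMap k K c) (hmon m)
      rwa [algebraMap_smul] at this
  rw [eq_top_iff, ← KaehlerDifferential.span_range_derivation, Submodule.span_le]
  rintro _ ⟨z, rfl⟩
  obtain ⟨a, b, hb, hz⟩ := hT.gen z
  have h1 : z • KaehlerDifferential.D k K (T.ev b) + T.ev b • KaehlerDifferential.D k K z =
      KaehlerDifferential.D k K (T.ev a) := by
    rw [← hz, Derivation.leibniz]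
  have h2 : T.ev b • KaehlerDifferential.D k K z ∈ S := by
    have h3 : T.ev b • KaehlerDifferential.D k K z =
        KaehlerDifferential.D k K (T.ev a) - z • KaehlerDifferential.D k K (T.ev b) := by
      rw [← h1]; abel
    rw [h3]
    exact S.sub_mem (hev a) (S.smul_mem _ (hev b))
  have h4 := S.smul_mem (T.ev b)⁻¹ h2
  rwa [smul_smul, inv_mul_cancel₀ hb, one_smul] at h4

private noncomputable def bas [CharZero k] (hT : T.OK) {i : Fin (d + 1)}
    (hi : T.ev (T.FD i) ≠ 0) : Module.Basis (Fin d) K (Ω[K⁄k]) :=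
  Module.Basis.mk (hT.indep i hi) (span_beta T hT hi).ge

theorem finrank_eq [CharZero k] (hT : T.OK) : Module.finrank K (Ω[K⁄k]) = d := by
  obtain ⟨i, hi⟩ := hT.ne
  rw [Module.finrank_eq_card_basis (bas T hT hi), Fintype.card_fin]

/-- The rational `d`-forms are the multiples of `θ`. Proof: `Ω` is free with the basis
`β_j`, `j ≠ i`; the `d`-th exterior power is spanned by the wedges, each of which is a multiple of
the wedge of the basis (`Basis` and `AlternatingMap.eq_smul_basis_det`, or `exteriorPower.finrank_eq`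
and `finrank_eq_one_iff_of_nonzero'`). -/
theorem forms_eq [CharZero k] (hT : T.OK) {i : Fin (d + 1)} (hi : T.ev (T.FD i) ≠ 0)
    (ω : ⋀[K]^d (Ω[K⁄k])) : ∃ c : K, ω = c • T.θ i := by
  have : Module.Finite K (Ω[K⁄k]) := Module.Finite.of_basis (bas T hT hi)
  have : Module.Free K (Ω[K⁄k]) := Module.Free.of_basis (bas T hT hi)
  have h1 : Module.finrank K (⋀[K]^d (Ω[K⁄k])) = 1 := by
    rw [exteriorPower.finrank_eq, finrank_eq T hT, Nat.choose_self]
  obtain ⟨c, hc⟩ := (finrank_eq_one_iff_of_nonzero' (T.θ i) (theta_ne T hT hi)).1 h1 ω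
  exact ⟨c, hc.symm⟩

end Pool.Agent.GAP
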