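import Pool.Agent.GAP.Str2
import Pool.Agent.GAP.Tbs2

/-!
# GAP, module CTX: the function fields of `Y` and `X = Y / G`, abstractly

Proofs.
`mono_mem`: for `m ∈ perp G` and `N = q L` (`q` with `q ℤ^n ⊆ perp G`, `L` large) `m + N 1` and `N 1`
are in `perp G ∩ ℕ^n`; the classes of these monomials are in `A` (`monomial_mem`); `z` is their
quotient.
-/

set_option linter.dupNamespace false

namespace Pool.Agent.GAP

open MvPolynomial

universe u

/-- `K` is the function field of `X = Y / G`, `L ⊇ K` the function field of `Y`. -/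
structure Ctx {k : Type u} [Field k] {n : ℕ} (X : Pre k n) (K L : Type*) [Field K] [Field L]
    [Algebra k K] [Algebra k L] [Algebra X.A K] [Algebra X.B L] [Algebra K L] : Prop where
  towerK : IsScalarTower k X.A K
  fracK : IsFractionRing X.A K
  towerL : IsScalarTower k X.B L
  fracL : IsFractionRing X.B L
  towerKL : IsScalarTower k K L
  comp : ∀ a : X.A, algebraMap K L (algebraMap X.A K a) = algebraMap X.B L (a : X.B)

variable {k : Type u} [Field k] {n : ℕ} (X : Pre k n) {K : Type*} (L : Type*) [Field K] [Field L]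
    [Algebra k K] [Algebra k L] [Algebra X.A K] [Algebra X.B L] [Algebra K L]

/-- The function `x_i` in the function field of `Y`. -/
noncomputable def Pre.xL (i : Fin n) : L := algebraMap X.B L (X.x i)

/-- The Laurent monomial `x^m` in the function field of `Y`. -/
noncomputable def Pre.mono (m : Fin n → ℤ) : L := ∏ i, X.xL L i ^ m i

variable {L}

theorem xL_ne (h : Ctx X K L) (i : Fin n) : X.xL L i ≠ 0 := by
  have := h.fracL
  unfold Pre.xL
  intro h0
  rw [← map_zero (algebraMap X.B L)] at h0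
  exact X.x_ne i (IsFractionRing.injective X.B L h0)

theorem mono_ne (h : Ctx X K L) (m : Fin n → ℤ) : X.mono L m ≠ 0 := by
  unfold Pre.mono
  exact Finset.prod_ne_zero_iff.2 (fun i _ => zpow_ne_zero _ (xL_ne X h i))

theorem mono_add (h : Ctx X K L) (m m' : Fin n → ℤ) :
    X.mono L (m + m') = X.mono L m * X.mono L m' := by
  unfold Pre.mono
  rw [← Finset.prod_mul_distrib]
  exact Finset.prod_congr rfl (fun i _ => zpow_add₀ (xL_ne X h i) _ _)

omit [Algebra k L] in
/-- The monomials with exponents in `ℕ^n`. -/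
theorem mono_nat_aux (m : Fin n →₀ ℕ) :
    X.mono L (fun i => (m i : ℤ)) = algebraMap X.B L (X.cl (monomial m 1)) := by
  unfold Pre.mono Pre.xL
  rw [MvPolynomial.monomial_eq, MvPolynomial.C_1, one_mul, Finsupp.prod_fintype _ _ (fun i => pow_zero _),
    map_prod, map_prod]
  refine Finset.prod_congr rfl (fun i _ => ?_)
  rw [map_pow, map_pow, zpow_natCast, X.cl_X]

theorem mono_mem (h : Ctx X K L) {m : Fin n → ℤ} (hm : m ∈ perp X.G) :
    ∃ z : K, algebraMap K L z = X.mono L m := by
  have := X.fin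
  obtain ⟨q, hq, hall⟩ := perp_finIdx X.G
  set N : ℕ := q * ∑ i, (m i).natAbs with hN
  have hv : (fun _ : Fin n => (N : ℤ)) ∈ perp X.G := by
    have h1 := hall (fun _ => ((∑ i, (m i).natAbs : ℕ) : ℤ))
    convert h1 using 1
    funext i
    rw [Pi.smul_apply, hN, nsmul_eq_mul]
    push_cast
    ring
  have hle : ∀ i, 0 ≤ m i + N := by
    intro i
    have h1 : (m i).natAbs ≤ ∑ i, (m i).natAbs :=
      Finset.single_le_sum (f := fun i => (m i).natAbs) (fun _ _ => Nat.zero_le _) (Finset.mem_univ i)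
    have h2 : ∑ i, (m i).natAbs ≤ N := by
      rw [hN]
      exact Nat.le_mul_of_pos_left _ hq
    omega
  let a : Fin n →₀ ℕ := Finsupp.equivFunOnFinite.symm (fun i => (m i + N).toNat)
  let b : Fin n →₀ ℕ := Finsupp.equivFunOnFinite.symm (fun _ => N)
  have ha : (fun i => (a i : ℤ)) = m + (fun _ => (N : ℤ)) := by
    funext i
    show (((m i + N).toNat : ℕ) : ℤ) = m i + N
    exact Int.toNat_of_nonneg (hle i)
  have hb : (fun i => (b i : ℤ)) = fun _ => (N : ℤ) := by
    funext i
    rfl
  have ha' := X.monomial_mem a 1 (by rw [ha]; exact (perp X.G).add_mem hm hv)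
  have hb' := X.monomial_mem b 1 (by rw [hb]; exact hv)
  refine ⟨algebraMap X.A K ⟨_, ha'⟩ / algebraMap X.A K ⟨_, hb'⟩, ?_⟩
  rw [map_div₀, h.comp, h.comp]
  simp only
  rw [← mono_nat_aux, ← mono_nat_aux, ha, hb, mono_add X h]
  exact mul_div_cancel_right₀ _ (mono_ne X h _)

theorem mono_nat (h : Ctx X K L) (m : Fin n →₀ ℕ) :
    X.mono L (fun i => (m i : ℤ)) = algebraMap X.B L (X.cl (monomial m 1)) :=
  mono_nat_aux X m

end Pool.Agent.GAP
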