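import Pool.Agent.GAP.Germ

/-!
# GAP (MP_21ca32_ag): the definitions used in the proof

The same objects as in `Germ.lean`, with the coordinate ring and the function fields of the
hyperquotient as definitions which are not unfolded.
-/

set_option linter.dupNamespace false

namespace Pool.Agent.GAP

open MvPolynomial

universe u v

section Valuations

variable {k K : Type*} [Field k] [Field K] [Algebra k K]

/-- The lattice of `E` in the rational `d`-forms: the additive group generated by the forms
`a dg_1 ∧ ... ∧ dg_d` with `a, g_1, ..., g_d` in the valuation ring. -/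
noncomputable def NVal.lat (E : NVal k K) (d : ℕ) : AddSubgroup (⋀[K]^d (Ω[K⁄k])) :=
  AddSubgroup.closure {ω | ∃ (a : K) (g : Fin d → K), E.Int a ∧ (∀ i, E.Int (g i)) ∧
    ω = a • exteriorPower.ιMulti K d (fun i => KaehlerDifferential.D k K (g i))}

/-- The order of the rational `d`-form `θ` along `E`: the supremum of the integers `-v(s)` over all
`s ≠ 0` such that `s θ` lies in the lattice of `E`. -/
noncomputable def NVal.ordForm (E : NVal k K) {d : ℕ} (θ : ⋀[K]^d (Ω[K⁄k])) : EReal :=
  ⨆ s : {s : K // s ≠ 0 ∧ s • θ ∈ E.lat d}, (((-(E.v s.1) : ℤ) : ℝ) : EReal)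

end Valuations

section Germs

variable {k A K : Type*} [Field k] [CommRing A] [IsDomain A] [Algebra k A] [Field K] [Algebra k K]
  [Algebra A K]

/-- Canonical data of the germ of `Spec A` at `P` (of dimension `d`): a rational `d`-form `θ ≠ 0`,
an integer `m > 0` and a rational function `h ≠ 0` with `m div(θ) = div(h)` on the germ; they exist
if and only if the canonical divisor is `ℚ`-Cartier at `P`. -/
structure CanData (k K : Type*) {A : Type*} [Field k] [CommRing A] [IsDomain A] [Algebra k A]
    [Field K] [Algebra k K] [Algebra A K] (P : Ideal A) (d : ℕ) where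
  θ : ⋀[K]^d (Ω[K⁄k])
  m : ℕ
  h : K
  θ_ne : θ ≠ 0
  m_pos : 0 < m
  h_ne : h ≠ 0
  ord : ∀ E : NVal k K, IsDivisorOn E P → E.ordForm θ = (((E.v h : ℝ) / m : ℝ) : EReal)

/-- The log discrepancy `1 + ord_E(θ) - ord_E(h) / m`. -/
noncomputable def CanData.logDisc {P : Ideal A} {d : ℕ} (D : CanData k K P d) (E : NVal k K) :
    EReal :=
  1 + E.ordForm D.θ - (((E.v D.h : ℝ) / D.m : ℝ) : EReal)

/-- The minimal log discrepancy of the germ of `Spec A` at `P`. -/
noncomputable def CanData.mld {P : Ideal A} {d : ℕ} (D : CanData k K P d) : EReal :=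
  ⨅ E : {E : NVal k K // IsDivisorOver E P}, D.logDisc E.1

end Germs

section Hyperquotients

variable {k : Type u} [Field k] {n : ℕ}

/-- An integral hypersurface `Y = {f = 0}` through the origin of affine `n`-space, not a coordinate
hyperplane, with a finite group `G` of diagonal matrices such that `f` is semi-invariant. -/
structure Pre (k : Type u) [Field k] (n : ℕ) where
  f : MvPolynomial (Fin n) k
  G : Subgroup (Fin n → kˣ)
  fin : Finite G
  irr : Irreducible f
  zero : constantCoeff f = 0
  nvar : ∀ i, ¬ (X i ∣ f)
  semi : ∀ g ∈ G, ∃ c : k, scale g f = C c * f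

namespace Pre

variable (X : Pre k n)

instance primeSpan : (Ideal.span {X.f}).IsPrime :=
  (Ideal.span_singleton_prime X.irr.ne_zero).2 X.irr.prime

/-- The coordinate ring of `Y`. -/
def B : Type u := MvPolynomial (Fin n) k ⧸ Ideal.span {X.f}

noncomputable instance : CommRing X.B :=
  inferInstanceAs (CommRing (MvPolynomial (Fin n) k ⧸ Ideal.span {X.f}))

noncomputable instance : Algebra k X.B :=
  inferInstanceAs (Algebra k (MvPolynomial (Fin n) k ⧸ Ideal.span {X.f}))

instance : IsDomain X.B :=
  inferInstanceAs (IsDomain (MvPolynomial (Fin n) k ⧸ Ideal.span {X.f}))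

/-- The class of a polynomial in the coordinate ring of `Y`. -/
noncomputable def cl : MvPolynomial (Fin n) k →ₐ[k] X.B := Ideal.Quotient.mkₐ k (Ideal.span {X.f})

/-- The function `x_i` on `Y`. -/
noncomputable def x (i : Fin n) : X.B := X.cl (MvPolynomial.X i)

/-- The ideal of the origin in `Y`. -/
noncomputable def orig : Ideal X.B := Ideal.span (Set.range X.x)

theorem span_le_comap (g : Fin n → kˣ) (hg : g ∈ X.G) :
    Ideal.span {X.f} ≤ (Ideal.span {X.f}).comap (scale g) := by
  rw [Ideal.span_singleton_le_iff_mem, Ideal.mem_comap]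
  obtain ⟨c, hc⟩ := X.semi g hg
  rw [hc]
  exact Ideal.mul_mem_left _ _ (Ideal.mem_span_singleton_self _)

/-- The action of `g ∈ G` on the functions on `Y`. -/
noncomputable def act (g : Fin n → kˣ) (hg : g ∈ X.G) : X.B →ₐ[k] X.B :=
  Ideal.quotientMapₐ (Ideal.span {X.f}) (scale g) (X.span_le_comap g hg)

/-- The ring of invariants: the coordinate ring of `X = Y / G`. -/
noncomputable def A : Subalgebra k X.B where
  carrier := {b | ∀ (g : Fin n → kˣ) (hg : g ∈ X.G), X.act g hg b = b}
  mul_mem' := by
    intro a b ha hb g hg
    rw [map_mul, ha g hg, hb g hg]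
  add_mem' := by
    intro a b ha hb g hg
    rw [map_add, ha g hg, hb g hg]
  algebraMap_mem' := by
    intro c g hg
    exact AlgHom.commutes _ c

/-- The point `P` of `X = Y / G`: the image of the origin. -/
noncomputable def P : Ideal X.A := X.orig.comap X.A.val

/-- The function field of `X = Y / G`. -/
def K : Type u := FractionRing X.A

noncomputable instance : Field X.K := inferInstanceAs (Field (FractionRing X.A))

noncomputable instance : Algebra X.A X.K := inferInstanceAs (Algebra X.A (FractionRing X.A))

noncomputable instance : Algebra k X.K := inferInstanceAs (Algebra k (FractionRing X.A))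

instance : IsFractionRing X.A X.K := inferInstanceAs (IsFractionRing X.A (FractionRing X.A))

instance : IsScalarTower k X.A X.K := inferInstanceAs (IsScalarTower k X.A (FractionRing X.A))

/-- The function field of `Y`. -/
def L : Type u := FractionRing X.B

noncomputable instance : Field X.L := inferInstanceAs (Field (FractionRing X.B))

noncomputable instance : Algebra X.B X.L := inferInstanceAs (Algebra X.B (FractionRing X.B))

noncomputable instance : Algebra k X.L := inferInstanceAs (Algebra k (FractionRing X.B))

instance : IsFractionRing X.B X.L := inferInstanceAs (IsFractionRing X.B (FractionRing X.B))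

instance : IsScalarTower k X.B X.L := inferInstanceAs (IsScalarTower k X.B (FractionRing X.B))

end Pre

/-- **Nondegenerate hyperquotient singularities** `X = Y / G ∋ P`: `Y` is normal at the origin, `G`
acts freely in codimension one on `Y` near the origin, and `f` is nondegenerate. -/
structure HQ (k : Type u) [Field k] (n : ℕ) extends Pre k n where
  nondeg : Nondeg f
  /-- `Y` is normal at the origin. -/
  normal : ∀ z : toPre.L, IsIntegral toPre.B z →
    ∃ b s : toPre.B, s ∉ toPre.orig ∧
      z * algebraMap toPre.B toPre.L s = algebraMap toPre.B toPre.L b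
  /-- No prime divisor of `Y` through the origin consists of fixed points of some `g ≠ 1`. -/
  free : ∀ q : Ideal toPre.B, q.IsPrime → q ≤ toPre.orig → q ≠ ⊥ →
    (∀ q' : Ideal toPre.B, q'.IsPrime → q' ≤ q → q' = ⊥ ∨ q' = q) →
    ∀ g ∈ G, g ≠ 1 → ∃ i, g i ≠ 1 ∧ toPre.x i ∉ q

/-- The set of minimal log discrepancies of the nondegenerate hyperquotient singularities of
dimension `n - 1`. -/
def mldSet (n : ℕ) : Set EReal :=
  {r | ∃ (k : Type u) (_ : Field k) (_ : IsAlgClosed k) (_ : CharZero k) (X : HQ k n)
    (K : Type v) (_ : Field K) (_ : Algebra k K) (_ : Algebra X.A K) (_ : IsScalarTower k X.A K)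
    (_ : IsFractionRing X.A K)
    (D : CanData k K X.P (Module.finrank K (Ω[K⁄k]))), r = D.mld}

end Hyperquotients

end Pool.Agent.GAP
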