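import Pool.Agent.GAP.Tof2

/-!
# GAP, module IDP: independence of the differentials

Proofs. `indep_L`: let `∂_i f` have nonzero class `φ` in `B`. For `j ≠ i` the derivation
`δ_j = (∂_i f) ∂_j - (∂_j f) ∂_i` of `k[x]` maps `f` to `0` and so `(f)` into `(f)`; it induces a
`k`-derivation `B → L`, which extends to the fraction field `L` (quotient rule), so an `L`-linear map
`Ω[L⁄k] → L` with `D x_l ↦ δ_jl φ` for `l ≠ i`. Hence the `D x_l`, `l ≠ i`, are independent.
`map_beta`: `χ(e_j) ↦ x_j^q` in `L`.
`torOf_indep`: the `K`-linear map `Ω[K⁄k] → Ω[L⁄k]` (`KaehlerDifferential.map k k K L`) maps `β_j`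
to `x_j⁻¹ D x_j`, and the images of the `β_j`, `j ≠ i`, are independent over `L`, so over `K`.
`wedge_L_ne`: the wedge of independent vectors is not `0`
(`exteriorPower.ιMulti_family_linearIndependent_field`).
-/

set_option linter.dupNamespace false

namespace Pool.Agent.GAP

open MvPolynomial

universe u

variable {k : Type u} [Field k] {d : ℕ} {X : Pre k (d + 1)} {K L : Type*} [Field K] [Field L]
    [Algebra k K] [Algebra k L] [Algebra X.A K] [Algebra X.B L] [Algebra K L]

/-- The derivation `(∂_i f) ∂_j - (∂_j f) ∂_i` of the polynomial ring. -/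
private noncomputable def der0 (X : Pre k (d + 1)) (i j : Fin (d + 1)) :
    Derivation k (MvPolynomial (Fin (d + 1)) k) (MvPolynomial (Fin (d + 1)) k) :=
  pderiv i X.f • pderiv j - pderiv j X.f • pderiv i

private lemma der0_apply (X : Pre k (d + 1)) (i j : Fin (d + 1))
    (p : MvPolynomial (Fin (d + 1)) k) :
    der0 X i j p = pderiv i X.f * pderiv j p - pderiv j X.f * pderiv i p := rfl

private lemma cl_eq_zero (X : Pre k (d + 1)) (p : MvPolynomial (Fin (d + 1)) k) :
    X.cl p = 0 ↔ X.f ∣ p := by
  rw [← Ideal.mem_span_singleton]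
  exact Ideal.Quotient.eq_zero_iff_mem

private lemma cl_surj (X : Pre k (d + 1)) : Function.Surjective X.cl :=
  Ideal.Quotient.mk_surjective

private lemma der0_cl (X : Pre k (d + 1)) (i j : Fin (d + 1))
    (p : MvPolynomial (Fin (d + 1)) k) (hp : X.cl p = 0) : X.cl (der0 X i j p) = 0 := by
  rw [cl_eq_zero] at hp ⊢
  obtain ⟨g, rfl⟩ := hp
  rw [Derivation.leibniz, der0_apply X i j X.f, mul_comm (pderiv j X.f), sub_self, smul_zero,
    add_zero, smul_eq_mul]
  exact dvd_mul_right _ _

/-- The linear functional on the differentials of `L` given by `δ_j`. -/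
private lemma exists_fun (h : Ctx X K L) (i j : Fin (d + 1)) :
    ∃ Λ : Ω[L⁄k] →ₗ[L] L, ∀ p : MvPolynomial (Fin (d + 1)) k,
      Λ (KaehlerDifferential.D k L (algebraMap X.B L (X.cl p))) =
        algebraMap X.B L (X.cl (pderiv i X.f * pderiv j p - pderiv j X.f * pderiv i p)) := by
  have := h.towerL
  have := h.fracL
  have : Algebra.FormallyEtale X.B L :=
    Algebra.FormallyEtale.of_isLocalization (nonZeroDivisors X.B)
  have hb := KaehlerDifferential.isBaseChange_of_formallyEtale k X.B L
  let δ : Derivation k X.B X.B := Derivation.liftOfSurjective (cl_surj X) (der0_cl X i j)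
  refine ⟨hb.lift ((Algebra.linearMap X.B L) ∘ₗ δ.liftKaehlerDifferential), ?_⟩
  intro p
  have h1 : KaehlerDifferential.D k L (algebraMap X.B L (X.cl p)) =
      KaehlerDifferential.map k k X.B L (KaehlerDifferential.D k X.B (X.cl p)) :=
    (KaehlerDifferential.map_D k k X.B L (X.cl p)).symm
  rw [h1, hb.lift_eq, LinearMap.comp_apply, Derivation.liftKaehlerDifferential_comp_D,
    Algebra.linearMap_apply]
  have h2 : δ (X.cl p) = X.cl (der0 X i j p) :=
    Derivation.liftOfSurjective_apply (cl_surj X) (der0_cl X i j) p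
  rw [h2, der0_apply]

theorem indep_L (h : Ctx X K L) {i : Fin (d + 1)} (hi : X.cl (pderiv i X.f) ≠ 0) :
    LinearIndependent L
      (fun a : Fin d => KaehlerDifferential.D k L (X.xL L (i.succAbove a))) := by
  have := h.fracL
  rw [Fintype.linearIndependent_iff]
  intro g hg a
  obtain ⟨Λ, hΛ⟩ := exists_fun h i (i.succAbove a)
  have h1 := congrArg Λ hg
  rw [map_sum, map_zero, Finset.sum_eq_single a] at h1
  · rw [map_smul] at h1
    have h2 : Λ (KaehlerDifferential.D k L (X.xL L (i.succAbove a))) =
        algebraMap X.B L (X.cl (pderiv i X.f)) := by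
      refine (hΛ (MvPolynomial.X (i.succAbove a))).trans ?_
      rw [pderiv_X_self, pderiv_X_of_ne (Fin.succAbove_ne i a), mul_one, mul_zero, sub_zero]
    rw [h2, smul_eq_mul] at h1
    rcases mul_eq_zero.1 h1 with h3 | h3
    · exact h3
    · exact absurd ((IsFractionRing.injective X.B L) (h3.trans (map_zero _).symm)) hi
  · intro b _ hb
    rw [map_smul]
    have h2 : Λ (KaehlerDifferential.D k L (X.xL L (i.succAbove b))) = 0 := by
      refine (hΛ (MvPolynomial.X (i.succAbove b))).trans ?_
      have h3 : i.succAbove b ≠ i.succAbove a := fun h4 => hb (Fin.succAbove_right_injective h4)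
      rw [pderiv_X_of_ne h3, pderiv_X_of_ne (Fin.succAbove_ne i b), mul_zero, mul_zero, sub_zero,
        map_zero, map_zero]
    rw [h2, smul_zero]
  · intro h2
    exact absurd (Finset.mem_univ a) h2

private lemma indep_L' (h : Ctx X K L) {i : Fin (d + 1)} (hi : X.cl (pderiv i X.f) ≠ 0) :
    LinearIndependent L (fun a : Fin d => (X.xL L (i.succAbove a))⁻¹ •
        KaehlerDifferential.D k L (X.xL L (i.succAbove a))) := by
  have h1 := (indep_L h hi).units_smul
    (fun a => (Units.mk0 (X.xL L (i.succAbove a)) (xL_ne X h _))⁻¹)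
  exact h1

theorem wedge_L_ne (h : Ctx X K L) {i : Fin (d + 1)} (hi : X.cl (pderiv i X.f) ≠ 0) :
    exteriorPower.ιMulti L d
      (fun a : Fin d => (X.xL L (i.succAbove a))⁻¹ •
        KaehlerDifferential.D k L (X.xL L (i.succAbove a))) ≠ 0 := by
  have h1 := exteriorPower.ιMulti_family_linearIndependent_field (n := d) (indep_L' h hi)
  have h2 := h1.ne_zero (Set.powersetCard.ofFinEmbEquiv (RelEmbedding.refl _))
  unfold exteriorPower.ιMulti_family at h2
  rw [Equiv.symm_apply_apply] at h2
  exact h2

variable [IsScalarTower k K L] {T : TorData k K d}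

theorem map_beta [CharZero k] (h : Ctx X K L) (hT : TorOf X L T) (j : Fin (d + 1)) :
    KaehlerDifferential.map k k K L (T.β j) =
      (X.xL L j)⁻¹ • KaehlerDifferential.D k L (X.xL L j) := by
  have hx : X.xL L j ≠ 0 := xL_ne X h j
  have hq : (T.q : L) ≠ 0 := by
    have hL : CharZero L := charZero_of_injective_algebraMap (algebraMap k L).injective
    exact Nat.cast_ne_zero.2 T.q_pos.ne'
  have h1 : algebraMap K L (T.mon (T.e j)) = X.xL L j ^ T.q := by
    rw [hT.mon, Pre.mono, Finset.prod_eq_single j]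
    · rw [T.e_eq, if_pos rfl, zpow_natCast]
    · intro b _ hb
      rw [T.e_eq, if_neg hb, zpow_zero]
    · intro h2
      exact absurd (Finset.mem_univ j) h2
  unfold TorData.β
  rw [map_smul, map_smul, KaehlerDifferential.map_D, h1, Derivation.leibniz_pow]
  rw [← algebraMap_smul L ((T.q : K)⁻¹), ← algebraMap_smul L ((T.mon (T.e j))⁻¹), map_inv₀,
    map_inv₀, h1, map_natCast, ← Nat.cast_smul_eq_nsmul L, smul_smul, smul_smul, smul_smul]
  congr 1
  have h3 : X.xL L j ^ T.q = X.xL L j ^ (T.q - 1) * X.xL L j := by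
    rw [← pow_succ, Nat.sub_add_cancel T.q_pos]
  rw [h3]
  field_simp

theorem torOf_indep [CharZero k] (h : Ctx X K L) (hT : TorOf X L T) (i : Fin (d + 1))
    (hi : T.ev (T.FD i) ≠ 0) :
    LinearIndependent K (fun a : Fin d => T.β (i.succAbove a)) := by
  have hi' : X.cl (pderiv i X.f) ≠ 0 := by
    intro h0
    have h1 := ev_FD h hT i
    rw [h0, map_zero, mul_zero] at h1
    exact hi ((algebraMap K L).injective (h1.trans (map_zero _).symm))
  have h1 := Fintype.linearIndependent_iff.1 (indep_L' h hi')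
  rw [Fintype.linearIndependent_iff]
  intro g hg a
  have h2 := congrArg (KaehlerDifferential.map k k K L) hg
  rw [map_sum, map_zero] at h2
  have h3 : ∑ b : Fin d, algebraMap K L (g b) • ((X.xL L (i.succAbove b))⁻¹ •
        KaehlerDifferential.D k L (X.xL L (i.succAbove b))) = 0 := by
    rw [← h2]
    refine Finset.sum_congr rfl fun b _ => ?_
    rw [map_smul, map_beta h hT, algebraMap_smul]
  exact (algebraMap K L).injective ((h1 _ h3 a).trans (map_zero _).symm)

end Pool.Agent.GAP
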