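import Pool.Agent.GAP.Jac

/-!
# GAP, module JAC2: the lattice at a prime divisor of `Y`

By `lo_eq_of_adjoin` (with `s = {x_i}`: by `loc` every integral element is `b / s`, and `B` is
generated by the `x_i`), `E'.lo` is generated over the valuation ring by `D x_1, ..., D x_(d+1)`;
`0 = D(f(x)) = ∑ (∂_j f) D x_j` and `∂_l f` is a unit (`v' = 0` by `mem`), so it is generated by the
`D x_j`, `j ≠ l`. Apply `lat_of_generators`.
-/

set_option linter.dupNamespace false

namespace Pool.Agent.GAP

open MvPolynomial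

universe u

theorem D_aeval {k L : Type*} [Field k] [Field L] [Algebra k L] {n : ℕ} (x : Fin n → L)
    (p : MvPolynomial (Fin n) k) :
    KaehlerDifferential.D k L (aeval x p) =
      ∑ j, aeval x (pderiv j p) • KaehlerDifferential.D k L (x j) := by
  induction p using MvPolynomial.induction_on with
  | C a =>
    rw [aeval_C, Derivation.map_algebraMap]
    simp
  | add p q hp hq =>
    simp only [map_add, hp, hq, add_smul, Finset.sum_add_distrib]
  | mul_X p i hp =>
    rw [map_mul, Derivation.leibniz, hp, aeval_X, Finset.smul_sum]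
    simp only [Derivation.leibniz, smul_eq_mul, map_add, map_mul, aeval_X, add_smul,
      Finset.sum_add_distrib, mul_smul]
    congr 1
    rw [Finset.sum_eq_single i]
    · rw [pderiv_X_self, map_one, one_smul]
    · intro j _ hj
      rw [pderiv_X_of_ne hj.symm, map_zero, zero_smul, smul_zero]
    · intro h0
      exact absurd (Finset.mem_univ i) h0

variable {k : Type u} [Field k] {d : ℕ} {K L : Type*} [Field K] [Field L]
    [Algebra k K] [Algebra k L]

variable {X : Pre k (d + 1)} [Algebra X.A K] [Algebra X.B L] [Algebra K L]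

theorem lat_le (h : Ctx X K L) {E : NVal k K} {E' : NVal k L}
    {q : Ideal X.B} {e : ℤ} (hA : Above X E E' q e) {l : Fin (d + 1)}
    (hl : X.cl (pderiv l X.f) ∉ q) {ω : ⋀[L]^d (Ω[L⁄k])} (hω : ω ∈ E'.lat d) :
    ∃ c : L, E'.Int c ∧ ω = c • exteriorPower.ιMulti L d
      (fun a => KaehlerDifferential.D k L (X.xL L (l.succAbove a))) := by
  have hfrac := h.fracL
  have htower := h.towerL
  have hinjL : Function.Injective (algebraMap X.B L) := IsFractionRing.injective X.B L
  have hsurj : Function.Surjective X.cl := Ideal.Quotient.mk_surjective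
  have hclf : X.cl X.f = 0 := Ideal.Quotient.eq_zero_iff_mem.2 (Ideal.mem_span_singleton_self _)
  have hunit : ∀ s : X.B, s ∉ q → s ≠ 0 ∧ E'.v (algebraMap X.B L s) = 0 := by
    intro s hs
    have h1 : s ≠ 0 := fun h0 => hs (h0 ▸ q.zero_mem)
    refine ⟨h1, ?_⟩
    have h2 := (hA.int s).resolve_left ((map_ne_zero_iff _ hinjL).2 h1)
    have h3 : ¬ (0 < E'.v (algebraMap X.B L s)) := fun h0 => hs ((hA.mem s).2 (Or.inr h0))
    omega
  -- evaluation
  have hev : ∀ p, algebraMap X.B L (X.cl p) = aeval (X.xL L) p := by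
    intro p
    have : (IsScalarTower.toAlgHom k X.B L).comp X.cl = aeval (X.xL L) := by
      apply MvPolynomial.algHom_ext
      intro i
      rw [aeval_X]
      rfl
    rw [← this]
    rfl
  have hadj : ∀ b : X.B, algebraMap X.B L b ∈ Algebra.adjoin k (Set.range (X.xL L)) := by
    intro b
    obtain ⟨p, rfl⟩ := hsurj b
    rw [hev, Algebra.adjoin_range_eq_range_aeval]
    exact ⟨p, rfl⟩
  have hlo := lo_eq_of_adjoin E' (s := Set.range (X.xL L)) (by
      rintro _ ⟨i, rfl⟩
      exact hA.int _) (by
      intro z hz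
      obtain ⟨b, s, hs, hbs⟩ := hA.loc z hz
      exact ⟨_, hadj b, _, hadj s, (map_ne_zero_iff _ hinjL).2 (hunit s hs).1, (hunit s hs).2,
        hbs⟩)
  -- the relation
  have hrel : ∑ j, aeval (X.xL L) (pderiv j X.f) • KaehlerDifferential.D k L (X.xL L j) = 0 := by
    rw [← D_aeval, ← hev, hclf, map_zero, map_zero]
  set u : L := aeval (X.xL L) (pderiv l X.f) with hu
  have hu0 : u ≠ 0 := by
    rw [hu, ← hev]
    exact (map_ne_zero_iff _ hinjL).2 (hunit _ hl).1
  have huv : E'.v u = 0 := by
    rw [hu, ← hev]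
    exact (hunit _ hl).2
  have hui : E'.Int u⁻¹ := by
    right
    rw [E'.v_inv, huv, neg_zero]
  have hpi : ∀ p : MvPolynomial (Fin (d + 1)) k, E'.Int (aeval (X.xL L) p) := by
    intro p
    rw [← hev]
    exact hA.int _
  rw [Fin.sum_univ_succAbove _ l, ← hu] at hrel
  have hDl : KaehlerDifferential.D k L (X.xL L l) = ∑ a : Fin d,
      (-(u⁻¹ * aeval (X.xL L) (pderiv (l.succAbove a) X.f))) •
        KaehlerDifferential.D k L (X.xL L (l.succAbove a)) := by
    have h1 := congrArg (fun w => u⁻¹ • w) (eq_neg_of_add_eq_zero_left hrel)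
    simp only [smul_smul, inv_mul_cancel₀ hu0, one_smul] at h1
    rw [h1, smul_neg, Finset.smul_sum, ← Finset.sum_neg_distrib]
    refine Finset.sum_congr rfl fun a _ => ?_
    rw [smul_smul, neg_smul]
  refine lat_of_generators E' _ ?_ hω
  intro η hη
  rw [hlo] at hη
  induction hη using AddSubgroup.closure_induction with
  | mem x hx =>
    obtain ⟨a, g, ha, ⟨i, rfl⟩, rfl⟩ := hx
    by_cases hi : i = l
    · subst hi
      refine ⟨fun b => a * (-(u⁻¹ * aeval (X.xL L) (pderiv (i.succAbove b) X.f))),
        fun b => ha.mul (hui.mul (hpi _)).neg, ?_⟩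
      rw [hDl, Finset.smul_sum]
      exact Finset.sum_congr rfl fun b _ => by rw [smul_smul]
    · obtain ⟨j, rfl⟩ := Fin.exists_succAbove_eq hi
      refine ⟨fun b => if b = j then a else 0, fun b => ?_, ?_⟩
      · beta_reduce
        by_cases hb : b = j
        · rw [if_pos hb]
          exact ha
        · rw [if_neg hb]
          exact Or.inl rfl
      · beta_reduce
        rw [Finset.sum_eq_single j]
        · rw [if_pos rfl]
        · intro b _ hb
          rw [if_neg hb, zero_smul]
        · intro h0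
          exact absurd (Finset.mem_univ j) h0
  | zero => exact ⟨0, fun _ => Or.inl rfl, by simp⟩
  | add x y _ _ ihx ihy =>
    obtain ⟨c, hc, rfl⟩ := ihx
    obtain ⟨c', hc', rfl⟩ := ihy
    refine ⟨c + c', fun i => (hc i).add (hc' i), ?_⟩
    rw [← Finset.sum_add_distrib]
    exact Finset.sum_congr rfl fun i _ => by rw [Pi.add_apply, add_smul]
  | neg x _ ihx =>
    obtain ⟨c, hc, rfl⟩ := ihx
    refine ⟨-c, fun i => (hc i).neg, ?_⟩
    rw [← Finset.sum_neg_distrib]
    exact Finset.sum_congr rfl fun i _ => by rw [Pi.neg_apply, neg_smul]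

end Pool.Agent.GAP
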