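import Pool.Agent.GAP.Unr

/-!
# GAP, module UNR2: the differentials of `Y` come from those of `X` in codimension one

Proof: see the header of `Unr.lean`.
-/

set_option linter.dupNamespace false

namespace Pool.Agent.GAP

open MvPolynomial

universe u

variable {k : Type u} [Field k] {n : ℕ} {K L : Type*} [Field K] [Field L]
    [Algebra k K] [Algebra k L]

variable {X : Pre k n} [Algebra X.A K] [Algebra X.B L] [Algebra K L]

private theorem unr2_adjoin (h : Ctx X K L) (b : X.B) :
    algebraMap X.B L b ∈ Algebra.adjoin k (Set.range (X.xL L)) := by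
  have := h.towerL
  obtain ⟨p, rfl⟩ := X.cl_surjective b
  have h1 : ((IsScalarTower.toAlgHom k X.B L).comp X.cl) = aeval (X.xL L) := by
    apply MvPolynomial.algHom_ext
    intro i
    rw [aeval_X]
    rfl
  have h2 : algebraMap X.B L (X.cl p) = aeval (X.xL L) p := by
    rw [← h1]
    rfl
  rw [h2, Algebra.adjoin_range_eq_range_aeval]
  exact ⟨p, rfl⟩

theorem lo_le [CharZero k] (h : Ctx X K L) {E : NVal k K} {E' : NVal k L} {q : Ideal X.B}
    {e : ℤ} (hA : Above X E E' q e)
    (hfree : ∀ m : Fin n → ℤ, ∃ u : Fin n → ℤ, (∀ i, X.x i ∈ q → u i = 0) ∧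
      m - u ∈ perp X.G) :
    E'.lo ≤ AddSubgroup.closure {ω | ∃ (a : L) (g : K), E'.Int a ∧ E.Int g ∧
      ω = a • KaehlerDifferential.D k L (algebraMap K L g)} := by
  classical
  have hfin : Finite X.G := X.fin
  have hchar : CharZero L := charZero_of_injective_algebraMap (algebraMap k L).injective
  rw [lo_eq_of_adjoin E' (s := Set.range (X.xL L)) ?_ ?_]
  · rw [AddSubgroup.closure_le]
    rintro ω ⟨a, g, ha, ⟨i, rfl⟩, rfl⟩
    -- decompose `x_i`
    obtain ⟨u, hu1, hu2⟩ := hfree (Pi.single i 1)
    obtain ⟨N, hN, hNu⟩ := perp_finIdx X.G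
    obtain ⟨g1, hg1⟩ := mono_mem X h hu2
    obtain ⟨g2, hg2⟩ := mono_mem X h (hNu u)
    set U : L := X.mono L u with hU
    have hU0 : U ≠ 0 := mono_ne X h u
    have hUv : E'.v U = 0 := unr_v_mono h hA hu1
    have hx : X.xL L i = U * algebraMap K L g1 := by
      have h1 : X.mono L (Pi.single i 1) = X.xL L i := by
        unfold Pre.mono
        rw [Finset.prod_eq_single i]
        · simp
        · intro j _ hj
          rw [Pi.single_eq_of_ne hj, zpow_zero]
        · intro hi
          exact absurd (Finset.mem_univ i) hi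
      rw [hg1, hU, ← mono_add X h, add_sub_cancel, h1]
    have hUN : U ^ N = algebraMap K L g2 := by
      rw [hg2, hU]
      clear hg2 hNu hN
      unfold Pre.mono
      rw [← Finset.prod_pow]
      refine Finset.prod_congr rfl fun i _ => ?_
      rw [Pi.smul_apply, nsmul_eq_mul, mul_comm, zpow_mul, zpow_natCast]
    have hxi : E'.Int (X.xL L i) := hA.int (X.x i)
    have hg1int : E'.Int (algebraMap K L g1) := by
      have h1 : algebraMap K L g1 = U⁻¹ * X.xL L i := by
        rw [hx, ← mul_assoc, inv_mul_cancel₀ hU0, one_mul]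
      rw [h1]
      exact NVal.Int.mul (Or.inr (by rw [E'.v_inv, hUv, neg_zero])) hxi
    have hg10 : g1 ≠ 0 := by
      rintro rfl
      rw [map_zero, mul_zero] at hx
      exact xL_ne X h i hx
    have hg1K : E.Int g1 := by
      right
      have h1 := hg1int.le (by
        intro h0
        rw [h0, mul_zero] at hx
        exact xL_ne X h i hx)
      rw [hA.comp g1 hg10] at h1
      have h2 := hA.e_pos
      by_contra h3
      push Not at h3
      nlinarith
    have hg20 : g2 ≠ 0 := by
      rintro rfl
      rw [map_zero] at hUN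
      exact pow_ne_zero _ hU0 hUN
    have hg2K : E.Int g2 := by
      right
      have h1 : E'.v (U ^ N) = 0 := by rw [E'.v_pow _ hU0, hUv, mul_zero]
      rw [hUN, hA.comp g2 hg20] at h1
      have h2 := hA.e_pos
      rcases mul_eq_zero.1 h1 with h3 | h3
      · omega
      · exact h3.ge
    have hNL : (N : L) ≠ 0 := Nat.cast_ne_zero.2 hN.ne'
    have hDU : KaehlerDifferential.D k L U =
        ((N : L)⁻¹ * (U ^ (N - 1))⁻¹) • KaehlerDifferential.D k L (algebraMap K L g2) := by
      rw [← hUN, Derivation.leibniz_pow, ← Nat.cast_smul_eq_nsmul L, smul_smul, smul_smul]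
      have h1 : (N : L)⁻¹ * (U ^ (N - 1))⁻¹ * (N : L) * U ^ (N - 1) = 1 := by
        have := pow_ne_zero (N - 1) hU0
        field_simp
      rw [h1, one_smul]
    have hD : a • KaehlerDifferential.D k L (X.xL L i) =
        (a * U) • KaehlerDifferential.D k L (algebraMap K L g1) +
        (a * algebraMap K L g1 * ((N : L)⁻¹ * (U ^ (N - 1))⁻¹)) •
          KaehlerDifferential.D k L (algebraMap K L g2) := by
      rw [hx, Derivation.leibniz, hDU]
      module
    rw [hD]
    refine AddSubgroup.add_mem _ (AddSubgroup.subset_closure ⟨_, g1, ?_, hg1K, rfl⟩)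
      (AddSubgroup.subset_closure ⟨_, g2, ?_, hg2K, rfl⟩)
    · exact ha.mul (Or.inr hUv.ge)
    · refine (ha.mul hg1int).mul (NVal.Int.mul ?_ ?_)
      · have h1 : ((N : L)⁻¹) = algebraMap k L ((N : k)⁻¹) := by
          rw [map_inv₀, map_natCast]
        rw [h1]
        exact NVal.Int.alg _
      · right
        rw [E'.v_inv, E'.v_pow _ hU0, hUv, mul_zero, neg_zero]
  · rintro z ⟨i, rfl⟩
    exact hA.int (X.x i)
  · intro z hz
    obtain ⟨b, s, hs, hbs⟩ := hA.loc z hz
    refine ⟨algebraMap X.B L b, unr2_adjoin h b, algebraMap X.B L s, unr2_adjoin h s, ?_,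
      unr_v hA hs, hbs⟩
    exact unr_ne h fun h0 => hs (by rw [h0]; exact q.zero_mem)

end Pool.Agent.GAP
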