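import Pool.Agent.GAP.Phi
import Pool.Agent.GAP.Unr2
import Pool.Agent.GAP.Jac2
import Pool.Agent.GAP.Idp

/-!
# GAP, module DSC: the order of `θ` along the prime divisors of the germ of `X`

Proof. Take `E'`, `q`, `e` from `exists_above`. By `X.free` for `q` and `free_perp` with
`I = {i | x_i ∉ q}` the hypothesis `hfree` of UNR holds, so `e = 1`, `v' = v` on `K`. Let
`ν = v'(mono (m0 - 1))`; `v hh = v'(mono (q (m0 - 1))) = q ν`. Claim: for `s ≠ 0`:
`s θ ∈ E.lat ↔ -ν ≤ v s`; then `ordForm_eq`.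
Let `θ_L = Φ θ = (image of ev FD_i)⁻¹ ⋀_{a ≠ i} dlog x_a` (`map_beta`), nonzero (`wedge_L_ne`;
`cl(∂_i f) ≠ 0` by `ev_FD`). Take `l` from `exists_pderiv`; let
`ω = ⋀_{a ≠ l} D x_a = ∏_{a ≠ l} x_a ⋀_{a≠l} dlog x_a = ± ∏_{a≠l} x_a (image of ev FD_l) θ_L
= ± cl(∂_l f) mono(1 - m0) θ_L` (`wedge_theta`, `Phi_ιMulti`, `Phi_smul`, `ev_FD`), where
`v'(cl(∂_l f)) = 0`.
(→) `s θ ∈ E.lat` gives `s θ_L ∈ E'.lat` (`Phi_lat`), so `s θ_L = c ω`, `c` integral (`lat_le`), and
`v s = v' s ≥ v'(mono(1 - m0)) = -ν`.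
(←) `ω ∈ closure {a Φ(λ)}` by `lo_le` and `wedge_closure`; each `λ = c θ` (`forms_eq`), so
`± cl(∂_l f) mono(1 - m0) = ∑ a_i c_i` with `a_i` integral, `c_i θ ∈ E.lat`; the left side has value
`-ν`, so some `i` has `a_i c_i ≠ 0`, `v'(a_i c_i) ≤ -ν`, so `v c_i ≤ -ν ≤ v s`, and
`s θ = (s / c_i) (c_i θ) ∈ E.lat` (`lat_smul`).
-/

set_option linter.dupNamespace false

namespace Pool.Agent.GAP

open MvPolynomial

universe u

variable {k : Type u} [Field k] {d : ℕ} {K L : Type*} [Field K] [Field L]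
    [Algebra k K] [Algebra k L]

omit [Algebra k L] in
private theorem dsc_mono_npow {n : ℕ} {X : Pre k n} [Algebra X.B L]
    (m : Fin n → ℤ) (q : ℕ) :
    X.mono L (fun j => (q : ℤ) * m j) = X.mono L m ^ q := by
  unfold Pre.mono
  rw [← Finset.prod_pow]
  refine Finset.prod_congr rfl fun i _ => ?_
  show X.xL L i ^ ((q : ℤ) * m i) = _
  rw [mul_comm, zpow_mul, zpow_natCast]

omit [Algebra k L] in
private theorem dsc_mono_neg {n : ℕ} {X : Pre k n} [Algebra X.B L]
    (m : Fin n → ℤ) :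
    X.mono L (fun j => -(m j)) = (X.mono L m)⁻¹ := by
  unfold Pre.mono
  rw [← Finset.prod_inv_distrib]
  refine Finset.prod_congr rfl fun i _ => ?_
  show X.xL L i ^ (-(m i)) = _
  rw [zpow_neg]

omit [Algebra k L] in
private theorem dsc_mono_one {n : ℕ} {X : Pre k n} [Algebra X.B L] :
    X.mono L (fun _ => 1) = ∏ j, X.xL L j := by
  unfold Pre.mono
  exact Finset.prod_congr rfl fun i _ => zpow_one _

/-- the forms `⋀ D x_a` and `θ`. -/
private theorem dsc_form [CharZero k] {X : HQ k (d + 1)} [Algebra X.A K]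
    [Algebra X.B L] [Algebra K L] [IsScalarTower k K L] (h : Ctx X.toPre K L) {T : TorData k K d}
    (hT : TorOf X.toPre L T) {i : Fin (d + 1)} (hi : T.ev (T.FD i) ≠ 0) (l : Fin (d + 1)) :
    ∃ ε : L, (ε = 1 ∨ ε = -1) ∧
      exteriorPower.ιMulti L d (fun a => KaehlerDifferential.D k L (X.xL L (l.succAbove a))) =
      (ε * X.mono L (fun j => -((T.m0 j : ℤ) - 1)) * algebraMap X.B L (X.cl (pderiv l X.f))) •
        Phi k K L d (T.θ i) := by
  have h0 : T.ev T.F = 0 := ev_F h hT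
  obtain ⟨ε, hε, hw⟩ := wedge_theta T h0 hi l
  refine ⟨algebraMap K L ε, ?_, ?_⟩
  · rcases hε with rfl | rfl
    · left; rw [map_one]
    · right; rw [map_neg, map_one]
  have h1 := congrArg (Phi k K L d) hw
  rw [Phi_smul, Phi_ιMulti, map_mul, ev_FD h hT l] at h1
  have h2 : (fun a => KaehlerDifferential.map k k K L (T.β (l.succAbove a))) =
      fun a => (X.xL L (l.succAbove a))⁻¹ •
        KaehlerDifferential.D k L (X.xL L (l.succAbove a)) := by
    funext a
    exact map_beta h hT _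
  rw [h2] at h1
  have h3 : exteriorPower.ιMulti L d
      (fun a => KaehlerDifferential.D k L (X.xL L (l.succAbove a))) =
      (∏ a, X.xL L (l.succAbove a)) • exteriorPower.ιMulti L d (fun a =>
        (X.xL L (l.succAbove a))⁻¹ • KaehlerDifferential.D k L (X.xL L (l.succAbove a))) := by
    rw [← AlternatingMap.map_smul_univ]
    congr 1
    funext a
    rw [smul_smul, mul_inv_cancel₀ (xL_ne X.toPre h _), one_smul]
  rw [h3, h1, smul_smul]
  congr 1
  have h4 : X.mono L (fun j => -((T.m0 j : ℤ) - 1)) =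
      X.xL L l * (∏ a, X.xL L (l.succAbove a)) * X.mono L T.nm0 := by
    rw [← Fin.prod_univ_succAbove (fun j => X.xL L j) l, ← dsc_mono_one,
      ← mono_add X.toPre h]
    congr 1
    funext j
    show -((T.m0 j : ℤ) - 1) = 1 + -(T.m0 j : ℤ)
    ring
  rw [h4]
  ring

theorem can_ord [IsAlgClosed k] [CharZero k] {X : HQ k (d + 1)} [Algebra X.A K] [Algebra X.B L]
    [Algebra K L] (h : Ctx X.toPre K L) (hX : ∀ z : L, IsIntegral X.B z →
      ∃ b s : X.B, s ∉ X.orig ∧ z * algebraMap X.B L s = algebraMap X.B L b)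
    {T : TorData k K d} (hT : TorOf X.toPre L T) (hOK : T.OK) {i : Fin (d + 1)}
    (hi : T.ev (T.FD i) ≠ 0) {hh : K}
    (hhh : algebraMap K L hh = X.mono L (fun j => (T.q : ℤ) * ((T.m0 j : ℤ) - 1)))
    (E : NVal k K) (hE : IsDivisorOn E X.P) :
    E.ordForm (T.θ i) = (((E.v hh : ℝ) / T.q : ℝ) : EReal) := by
  have tKL := h.towerKL
  have fL := h.fracL
  obtain ⟨E', q, e, hA⟩ := exists_above h hX E hE
  have hfinG : Finite X.G := X.fin
  have hfree : ∀ m : Fin (d + 1) → ℤ, ∃ u : Fin (d + 1) → ℤ, (∀ i, X.x i ∈ q → u i = 0) ∧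
      m - u ∈ perp X.G := by
    intro m
    obtain ⟨u, hu, hmu⟩ := free_perp X.G {i | X.x i ∉ q} (fun g hg hg1 => by
      obtain ⟨i, hi1, hi2⟩ := X.free q hA.prime hA.le hA.ne hA.ht g hg hg1
      exact ⟨i, hi2, hi1⟩) m
    exact ⟨u, fun i hi => hu i (fun h => h hi), hmu⟩
  have he : e = 1 := e_eq_one h hA hfree
  have hlo := lo_le h hA hfree
  obtain ⟨l, hl⟩ := exists_pderiv h hA
  have hv : ∀ z : K, z ≠ 0 → E'.v (algebraMap K L z) = E.v z := by
    intro z hz
    rw [hA.comp z hz, he, one_mul]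
  have hge : ∀ (r : ℤ) (z : K), E.Ge r z → E'.Ge r (algebraMap K L z) := by
    intro r z hz
    by_cases h0 : z = 0
    · left; rw [h0, map_zero]
    · right
      rw [hv z h0]
      exact hz.le h0
  have hint : ∀ z : K, E.Int z → E'.Int (algebraMap K L z) := fun z hz => hge 0 z hz
  -- the numbers
  set M : L := X.mono L (fun j => (T.m0 j : ℤ) - 1) with hM
  have hM0 : M ≠ 0 := mono_ne X.toPre h _
  set ν : ℤ := E'.v M with hν
  have hhM : algebraMap K L hh = M ^ T.q := by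
    rw [hhh, hM]
    exact dsc_mono_npow _ _
  have hh0 : hh ≠ 0 := by
    rintro rfl
    rw [map_zero] at hhM
    exact pow_ne_zero _ hM0 hhM.symm
  have hvh : E.v hh = T.q * ν := by
    rw [← hv hh hh0, hhM, E'.v_pow _ hM0]
  have hq0 : (T.q : ℝ) ≠ 0 := Nat.cast_ne_zero.2 T.q_pos.ne'
  have hcast : ((E.v hh : ℝ) / T.q : ℝ) = ((ν : ℤ) : ℝ) := by
    rw [hvh]
    push_cast
    field_simp
  rw [hcast]
  -- the forms
  obtain ⟨ε, hε, hform⟩ := dsc_form h hT hi l
  have hneg : X.mono L (fun j => -((T.m0 j : ℤ) - 1)) = M⁻¹ := by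
    rw [hM]
    exact dsc_mono_neg _
  rw [hneg] at hform
  set ω : ⋀[L]^d (Ω[L⁄k]) := exteriorPower.ιMulti L d
    (fun a => KaehlerDifferential.D k L (X.xL L (l.succAbove a))) with hω
  set θL : ⋀[L]^d (Ω[L⁄k]) := Phi k K L d (T.θ i) with hθL
  set κ : L := ε * M⁻¹ * algebraMap X.B L (X.cl (pderiv l X.f)) with hκ
  have hε0 : ε ≠ 0 ∧ E'.v ε = 0 := by
    rcases hε with rfl | rfl
    · exact ⟨one_ne_zero, E'.v_one⟩
    · exact ⟨neg_ne_zero.2 one_ne_zero, by rw [E'.v_neg, E'.v_one]⟩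
  have hcl0 : algebraMap X.B L (X.cl (pderiv l X.f)) ≠ 0 :=
    unr_ne h fun h0 => hl (by rw [h0]; exact q.zero_mem)
  have hκ0 : κ ≠ 0 := mul_ne_zero (mul_ne_zero hε0.1 (inv_ne_zero hM0)) hcl0
  have hκv : E'.v κ = -ν := by
    rw [hκ, E'.v_mul _ _ (mul_ne_zero hε0.1 (inv_ne_zero hM0)) hcl0,
      E'.v_mul _ _ hε0.1 (inv_ne_zero hM0), hε0.2, E'.v_inv, unr_v hA hl, zero_add, add_zero]
  have hθ0 : θL ≠ 0 := by
    have hcli : X.cl (pderiv i X.f) ≠ 0 := by
      intro h0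
      apply hi
      have h1 := ev_FD h hT i
      rw [h0, map_zero, mul_zero] at h1
      exact (map_eq_zero (algebraMap K L)).1 h1
    have h2 : (fun a => KaehlerDifferential.map k k K L (T.β (i.succAbove a))) =
        fun a => (X.xL L (i.succAbove a))⁻¹ •
          KaehlerDifferential.D k L (X.xL L (i.succAbove a)) := by
      funext a
      exact map_beta h hT _
    rw [hθL]
    unfold TorData.θ
    rw [Phi_smul, Phi_ιMulti, h2]
    refine smul_ne_zero ?_ (wedge_L_ne h hcli)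
    rw [map_inv₀]
    exact inv_ne_zero ((map_ne_zero (algebraMap K L)).2 hi)
  apply ordForm_eq
  intro s hs
  have hs' : algebraMap K L s ≠ 0 := (map_ne_zero (algebraMap K L)).2 hs
  constructor
  · intro hmem
    have h1 := Phi_lat (E' := E') hint hmem
    rw [Phi_smul] at h1
    obtain ⟨c, hc, hc2⟩ := lat_le h hA hl h1
    have h2 : algebraMap K L s • θL = (c * κ) • θL := by
      rw [hθL, hc2, ← hω, hform, smul_smul]
    have h3 : algebraMap K L s = c * κ := smul_left_injective L hθ0 h2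
    have hc0 : c ≠ 0 := by
      rintro rfl
      rw [zero_mul] at h3
      exact hs' h3
    have h4 : E.v s = E'.v c + -ν := by
      rw [← hv s hs, h3, E'.v_mul _ _ hc0 hκ0, hκv]
    have h5 := hc.le hc0
    omega
  · intro hle
    by_contra hmem
    have h1 : ∀ c : K, c • T.θ i ∈ E.lat d → E.Ge (E.v s + 1) c := by
      intro c hc
      by_cases hc0 : c = 0
      · exact Or.inl hc0
      right
      by_contra hlt
      push Not at hlt
      apply hmem
      have h2 : s • T.θ i = (s / c) • (c • T.θ i) := by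
        rw [smul_smul, div_mul_cancel₀ _ hc0]
      rw [h2]
      apply lat_smul E _ hc
      right
      rw [E.v_div _ _ hs hc0]
      omega
    have h3 : ω ∈ AddSubgroup.closure {ω | ∃ (a : L) (l : ⋀[K]^d (Ω[K⁄k])),
        E'.Int a ∧ l ∈ E.lat d ∧ ω = a • Phi k K L d l} := by
      apply wedge_closure hint
      intro a
      exact hlo (D_mem_lo E' (hA.int (X.x (l.succAbove a))))
    have h4 : ∃ z : L, E'.Ge (E.v s + 1) z ∧ ω = z • θL := by
      refine AddSubgroup.closure_induction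
        (p := fun x _ => ∃ z : L, E'.Ge (E.v s + 1) z ∧ x = z • θL) ?_ ?_ ?_ ?_ h3
      · rintro x ⟨a, lam, ha, hlam, rfl⟩
        obtain ⟨c, rfl⟩ := forms_eq T hOK hi lam
        refine ⟨a * algebraMap K L c, ?_, ?_⟩
        · have := NVal.Ge.mul ha (hge _ c (h1 c hlam))
          rwa [zero_add] at this
        · rw [Phi_smul, smul_smul]
      · exact ⟨0, NVal.Ge.zero _, by rw [zero_smul]⟩
      · rintro x y _ _ ⟨z, hz, rfl⟩ ⟨z', hz', rfl⟩
        exact ⟨z + z', hz.add hz', by rw [add_smul]⟩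
      · rintro x _ ⟨z, hz, rfl⟩
        exact ⟨-z, hz.neg, (neg_smul z θL).symm⟩
    obtain ⟨z, hz, hz2⟩ := h4
    have h5 : κ • θL = z • θL := by rw [← hz2, hform]
    have h6 : κ = z := smul_left_injective L hθ0 h5
    rw [← h6] at hz
    have h7 := hz.le hκ0
    rw [hκv] at h7
    omega

end Pool.Agent.GAP
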