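import Pool.Agent.GAP.Cmb

/-!
# GAP, module DUA: duality between a finite diagonal group and its invariant monomials

Proofs. `perp_finIdx`: `q = |G|` (or the exponent). `sum_perp`: choose `g₀ ∈ G` with
`∏ g₀_i^(m_i) ≠ 1`; the sum is multiplied by this number under `g ↦ g₀ g`, so it is `0`.
`free_perp`: let `N = M + ℤ^I ≤ ℤ^n` (`ℤ^I` the vectors supported in `I`), `M = perp G`; suppose
`N ≠ ℤ^n`. The finite abelian group `H = ℤ^n / M` has, over the algebraically closed field `k` of
characteristic `0`, exactly `|H|` characters into `kˣ`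
(`CommGroup.monoidHom_mulEquiv_of_hasEnoughRootsOfUnity`,
`MonoidHom` counting), and `g ↦ (m ↦ ∏ g_i^(m_i))` is an injection `G → Hom(H, kˣ)`; it is onto:
`H` injects into `Hom(G, kˣ)` by definition of `M`, which has `|G|` elements, so
`|H| ≤ |G| ≤ |Hom(H, kˣ)| = |H|`. Since `N ≠ ℤ^n` there is a nontrivial character of `ℤ^n / N`; as a
character of `H` it comes from some `g ∈ G`, `g ≠ 1`, with `g_i = 1` for `i ∈ I` (`e_i ∈ N`),
contradicting `hG`.
-/

set_option linter.dupNamespace false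

namespace Pool.Agent.GAP

variable {k : Type*} [Field k] {n : ℕ}

/-- The exponents of the Laurent monomials invariant under `G`. -/
def perp (G : Subgroup (Fin n → kˣ)) : AddSubgroup (Fin n → ℤ) where
  carrier := {m | ∀ g ∈ G, ∏ i, (g i) ^ (m i) = 1}
  zero_mem' := by
    intro g _
    simp
  add_mem' := by
    intro a b ha hb g hg
    simp only [Pi.add_apply, zpow_add, Finset.prod_mul_distrib]
    rw [ha g hg, hb g hg, one_mul]
  neg_mem' := by
    intro a ha g hg
    simp only [Pi.neg_apply, zpow_neg, Finset.prod_inv_distrib]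
    rw [ha g hg, inv_one]

theorem perp_finIdx (G : Subgroup (Fin n → kˣ)) [Finite G] : FinIdx (perp G) := by
  refine ⟨Nat.card G, Nat.card_pos, ?_⟩
  intro m g hg
  have h1 : g ^ Nat.card G = 1 := by
    have h2 : (⟨g, hg⟩ : G) ^ Nat.card G = 1 := pow_card_eq_one'
    exact congrArg Subtype.val h2
  refine Finset.prod_eq_one ?_
  intro i _
  have h3 : (g i) ^ Nat.card G = 1 := by
    have := congrFun h1 i
    simpa using this
  rw [Pi.smul_apply, nsmul_eq_mul, zpow_mul, zpow_natCast, h3, one_zpow]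

/-- The character `g ↦ ∏ g_i^(m_i)` of `G`. -/
def chr (G : Subgroup (Fin n → kˣ)) (m : Fin n → ℤ) : G →* kˣ where
  toFun g := ∏ i, (g.1 i) ^ (m i)
  map_one' := by simp
  map_mul' a b := by
    simp [mul_zpow, Finset.prod_mul_distrib]

theorem chr_apply (G : Subgroup (Fin n → kˣ)) (m : Fin n → ℤ) (g : G) :
    chr G m g = ∏ i, (g.1 i) ^ (m i) := rfl

theorem chr_add (G : Subgroup (Fin n → kˣ)) (a b : Fin n → ℤ) :
    chr G (a + b) = chr G a * chr G b := by
  ext g
  simp [chr_apply, zpow_add, Finset.prod_mul_distrib]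

theorem chr_neg (G : Subgroup (Fin n → kˣ)) (a : Fin n → ℤ) :
    chr G (-a) = (chr G a)⁻¹ := by
  ext g
  simp [chr_apply, zpow_neg, Finset.prod_inv_distrib]

theorem chr_zero (G : Subgroup (Fin n → kˣ)) : chr G 0 = 1 := by
  ext g
  simp [chr_apply]

theorem sum_perp (G : Subgroup (Fin n → kˣ)) [Fintype G] {m : Fin n → ℤ} (hm : m ∉ perp G) :
    ∑ g : G, ((∏ i, (g.1 i) ^ (m i) : kˣ) : k) = 0 := by
  have hne : (Units.coeHom k).comp (chr G m) ≠ 1 := by
    intro h
    apply hm
    intro g hg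
    have h1 := DFunLike.congr_fun h ⟨g, hg⟩
    apply Units.ext
    simpa [chr_apply] using h1
  exact sum_hom_units_eq_zero _ hne

theorem free_perp [IsAlgClosed k] [CharZero k] (G : Subgroup (Fin n → kˣ)) [Finite G]
    (I : Set (Fin n)) (hG : ∀ g ∈ G, g ≠ 1 → ∃ i ∈ I, g i ≠ 1) (m : Fin n → ℤ) :
    ∃ u : Fin n → ℤ, (∀ i, i ∉ I → u i = 0) ∧ m - u ∈ perp G := by
  classical
  have : HasEnoughRootsOfUnity k (Monoid.exponent G) := by
    have : NeZero ((Monoid.exponent G : ℕ) : k) :=
      ⟨by exact_mod_cast (Monoid.exponent_ne_zero_of_finite (G := G))⟩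
    infer_instance
  have : HasEnoughRootsOfUnity k (Monoid.exponent (G →* kˣ)) := by
    rwa [Monoid.exponent_eq_of_mulEquiv
      (CommGroup.monoidHom_mulEquiv_of_hasEnoughRootsOfUnity G k).some]
  let H : Subgroup (G →* kˣ) :=
    { carrier := {χ | ∃ u : Fin n → ℤ, (∀ i, i ∉ I → u i = 0) ∧ chr G u = χ}
      one_mem' := ⟨0, fun _ _ => rfl, chr_zero G⟩
      mul_mem' := by
        rintro _ _ ⟨u, hu, rfl⟩ ⟨v, hv, rfl⟩
        exact ⟨u + v, fun i hi => by simp [hu i hi, hv i hi], chr_add G u v⟩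
      inv_mem' := by
        rintro _ ⟨u, hu, rfl⟩
        exact ⟨-u, fun i hi => by simp [hu i hi], chr_neg G u⟩ }
  have hmem : chr G m ∈ H := by
    rw [← CommGroup.forall_monoidHom_apply_eq_one_iff (M := k) H (chr G m)]
    intro φ hφ
    set g : G := CommGroup.monoidHomMonoidHomEquiv G k φ with hgdef
    have hev : ∀ χ : G →* kˣ, χ g = φ χ := fun χ =>
      CommGroup.apply_monoidHomMonoidHomEquiv k χ φ
    have hg1 : g = 1 := by
      by_contra hne
      have hne' : (g : Fin n → kˣ) ≠ 1 := fun h => hne (Subtype.ext h)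
      obtain ⟨i, hi, hgi⟩ := hG g.1 g.2 hne'
      apply hgi
      have h1 : chr G (Pi.single i 1) ∈ H :=
        ⟨Pi.single i 1, fun j hj => by
          rw [Pi.single_eq_of_ne]; rintro rfl; exact hj hi, rfl⟩
      have h2 := hφ _ h1
      rw [← hev, chr_apply] at h2
      rw [Finset.prod_eq_single i] at h2
      · simpa using h2
      · intro j _ hj
        rw [Pi.single_eq_of_ne hj, zpow_zero]
      · intro h
        exact absurd (Finset.mem_univ i) h
    rw [← hev, hg1, map_one]
  obtain ⟨u, hu, hχ⟩ := hmem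
  refine ⟨u, hu, ?_⟩
  intro g hg
  have h1 := DFunLike.congr_fun hχ ⟨g, hg⟩
  rw [chr_apply, chr_apply] at h1
  have h2 : ∏ i, (g i) ^ (m i - u i) = (∏ i, (g i) ^ (m i)) * (∏ i, (g i) ^ (u i))⁻¹ := by
    simp only [zpow_sub, Finset.prod_mul_distrib, Finset.prod_inv_distrib]
  have h3 : ∏ i, (g i) ^ ((m - u) i) = ∏ i, (g i) ^ (m i - u i) := rfl
  rw [h3, h2]
  simp only at h1
  rw [h1, mul_inv_cancel]

end Pool.Agent.GAP
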