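import Pool.Agent.GAP.Ovr

/-!
# GAP, module FIN: passage to the function field of the hyperquotient

`K` is any fraction field of the ring of invariants.  Proof: `exists_ctxK` gives the context for
`K` and `L = X.L`; `X.normal` is the hypothesis `hX`; `finrank Ω = d` by `finrank_eq` and `base`;
then apply the theorems of `Ovr`.
-/

set_option linter.dupNamespace false

namespace Pool.Agent.GAP

universe u v

variable {k : Type u} [Field k] {d : ℕ}

variable (X : HQ k (d + 1))

variable (K : Type v) [Field K] [Algebra k K] [Algebra X.A K]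

theorem finrank_d [IsScalarTower k X.A K] [IsFractionRing X.A K] [IsAlgClosed k] [CharZero k] :
    Module.finrank K (Ω[K⁄k]) = d := by
  obtain ⟨_, h⟩ := exists_ctxK X.toPre K
  obtain ⟨T, hT, hOK⟩ := base h
  exact finrank_eq T hOK

theorem exists_canData' [IsScalarTower k X.A K] [IsFractionRing X.A K] [IsAlgClosed k]
    [CharZero k] : Nonempty (CanData k K X.P d) := by
  obtain ⟨_, h⟩ := exists_ctxK X.toPre K
  obtain ⟨T, hT, hOK⟩ := base h
  obtain ⟨i, hi⟩ := hOK.ne
  obtain ⟨D, -⟩ := exists_can h X.normal hT hOK hi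
  exact ⟨D⟩

variable {K}

theorem mld_lower' [IsScalarTower k X.A K] [IsFractionRing X.A K] [IsAlgClosed k] [CharZero k]
    (D : CanData k K X.P d) {t : ℝ} (ht : D.mld < ((t : ℝ) : EReal)) :
    ∃ w ∈ Dual (perp X.G), (∀ i, 0 < w i) ∧ ∃ a, IsAl X.f.support w a ∧ a < t := by
  obtain ⟨_, h⟩ := exists_ctxK X.toPre K
  unfold CanData.mld at ht
  obtain ⟨E, hE⟩ := iInf_lt_iff.1 ht
  obtain ⟨w, hw, hpos, a, ha, hle⟩ := lower_w h X.normal D E.1 E.2
  exact ⟨w, hw, hpos, a, ha, by exact_mod_cast hle.trans_lt hE⟩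

theorem mld_upper' [IsScalarTower k X.A K] [IsFractionRing X.A K] [IsAlgClosed k] [CharZero k]
    (D : CanData k K X.P d) {w : Fin (d + 1) → ℝ}
    (hw : w ∈ Dual (perp X.G)) (hpos : ∀ i, 0 < w i) {a : ℝ} (ha : IsAl X.f.support w a)
    (ha1 : a ≤ 1) : D.mld ≤ ((a : ℝ) : EReal) ∨ D.mld < 0 := by
  obtain ⟨_, h⟩ := exists_ctxK X.toPre K
  obtain ⟨E, hE, a', ha', hle⟩ := upper_w h X.normal D hw hpos ha ha1
  have h0 : D.mld ≤ D.logDisc E := by
    unfold CanData.mld
    exact iInf_le (fun E : {E : NVal k K // IsDivisorOver E X.P} => D.logDisc E.1) ⟨E, hE⟩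
  have h1 : D.mld ≤ ((a' : ℝ) : EReal) := h0.trans hle
  rcases ha' with h2 | h2
  · left
    exact h1.trans (by exact_mod_cast h2)
  · right
    exact h1.trans_lt (by exact_mod_cast h2)

theorem exists_canData [IsScalarTower k X.A K] [IsFractionRing X.A K] [IsAlgClosed k]
    [CharZero k] : Nonempty (CanData k K X.P (Module.finrank K (Ω[K⁄k]))) := by
  rw [finrank_d X K]
  exact exists_canData' X K

/-- The two bounds in terms of the minimal log discrepancy. -/
theorem mld_lower [IsScalarTower k X.A K] [IsFractionRing X.A K] [IsAlgClosed k] [CharZero k]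
    (D : CanData k K X.P (Module.finrank K (Ω[K⁄k]))) {t : ℝ}
    (ht : D.mld < ((t : ℝ) : EReal)) :
    ∃ w ∈ Dual (perp X.G), (∀ i, 0 < w i) ∧ ∃ a, IsAl X.f.support w a ∧ a < t := by
  revert D
  rw [finrank_d X K]
  exact fun D ht => mld_lower' X D ht

theorem mld_upper [IsScalarTower k X.A K] [IsFractionRing X.A K] [IsAlgClosed k] [CharZero k]
    (D : CanData k K X.P (Module.finrank K (Ω[K⁄k]))) {w : Fin (d + 1) → ℝ}
    (hw : w ∈ Dual (perp X.G)) (hpos : ∀ i, 0 < w i) {a : ℝ} (ha : IsAl X.f.support w a)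
    (ha1 : a ≤ 1) : D.mld ≤ ((a : ℝ) : EReal) ∨ D.mld < 0 := by
  revert D
  rw [finrank_d X K]
  exact fun D => mld_upper' X D hw hpos ha ha1

end Pool.Agent.GAP
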