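import Mathlib

/-!
# GAP (MP_21ca32_ag): the definitions used in the statement

Minimal log discrepancies of germs of affine varieties, in terms of discrete valuations and
derivations, and nondegenerate hyperquotient singularities.
-/

set_option linter.dupNamespace false

namespace Pool.Agent.GAP

open MvPolynomial

universe u v

section Valuations

variable {k K : Type*} [Field k] [Field K] [Algebra k K]

/-- A normalized discrete valuation of the field `K`, trivial on the subfield `k`.  Only the values
at nonzero elements matter; `v 0 = 0` is a dummy value. -/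
structure NVal (k K : Type*) [Field k] [Field K] [Algebra k K] where
  v : K → ℤ
  v_zero : v 0 = 0
  v_mul : ∀ x y, x ≠ 0 → y ≠ 0 → v (x * y) = v x + v y
  v_add : ∀ x y, x ≠ 0 → y ≠ 0 → x + y ≠ 0 → min (v x) (v y) ≤ v (x + y)
  surj : ∃ t, t ≠ 0 ∧ v t = 1
  triv : ∀ c : k, v (algebraMap k K c) = 0

/-- `x = 0` or `r ≤ v x`. -/
def NVal.Ge (E : NVal k K) (r : ℤ) (x : K) : Prop := x = 0 ∨ r ≤ E.v x

/-- `x` lies in the valuation ring of `E`. -/
def NVal.Int (E : NVal k K) (x : K) : Prop := E.Ge 0 x

/-- `K / k` a function field of dimension `d`, `δ` a basis of the derivations, `θ` the rational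
`d`-form with `θ(δ_1, ..., δ_d) = 1`, so `dg_1 ∧ ... ∧ dg_d = det (δ_i g_j) θ`.  The order of `θ`
along `E` is the supremum of the integers `-v(det (δ_i g_j))` over all `g_1, ..., g_d` in the
valuation ring of `E` with nonzero determinant: the `dg_1 ∧ ... ∧ dg_d` generate the `d`-forms over
the valuation ring. -/
noncomputable def NVal.ord (E : NVal k K) {d : ℕ} (δ : Fin d → Derivation k K K) : EReal :=
  ⨆ g : {g : Fin d → K // (∀ i, E.Int (g i)) ∧ (Matrix.of fun i j => δ i (g j)).det ≠ 0},
    (((-(E.v (Matrix.of fun i j => δ i (g.1 j)).det) : ℤ) : ℝ) : EReal)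

end Valuations

section Germs

variable {k A K : Type*} [Field k] [CommRing A] [Field K] [Algebra k K] [Algebra A K]

/-- `E` is a prime divisor on the germ of `Spec A` at `P`: the valuation ring of `E` is the
localization of `A` at a prime ideal contained in `P`. -/
def IsDivisorOn (E : NVal k K) (P : Ideal A) : Prop :=
  (∀ a : A, E.Int (algebraMap A K a)) ∧ (∀ a : A, a ∉ P → E.v (algebraMap A K a) = 0) ∧
  ∀ z : K, E.Int z → ∃ a b : A, b ≠ 0 ∧ E.v (algebraMap A K b) = 0 ∧
    z * algebraMap A K b = algebraMap A K a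

/-- `E` is a prime divisor over the germ of `Spec A` at `P` with centre `P`: its valuation ring
dominates the local ring `A_P` and is a localization of a finitely generated `k`-algebra. -/
def IsDivisorOver (E : NVal k K) (P : Ideal A) : Prop :=
  (∀ a : A, E.Int (algebraMap A K a)) ∧ (∀ a : A, a ∉ P → E.v (algebraMap A K a) = 0) ∧
  (∀ a ∈ P, a ≠ 0 → 0 < E.v (algebraMap A K a)) ∧
  ∃ s : Finset K, (∀ z ∈ s, E.Int z) ∧ ∀ z : K, E.Int z →
    ∃ a ∈ Algebra.adjoin k (s : Set K), ∃ b ∈ Algebra.adjoin k (s : Set K),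
      b ≠ 0 ∧ E.v b = 0 ∧ z * b = a

/-- Canonical data of the germ of `Spec A` at `P` (of dimension `d`, with function field `K`): a
rational `d`-form `θ ≠ 0`, given by a basis `δ` of the derivations (`θ(δ_1, ..., δ_d) = 1`), an
integer `m > 0` and a rational function `h ≠ 0` with `m div(θ) = div(h)` on the germ; they exist if
and only if the canonical divisor is `ℚ`-Cartier at `P`. -/
structure Canonical (k K : Type*) {A : Type*} [Field k] [CommRing A]
    [Field K] [Algebra k K] [Algebra A K] (P : Ideal A) (d : ℕ) where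
  δ : Fin d → Derivation k K K
  m : ℕ
  h : K
  basis : ∃ g : Fin d → K, (Matrix.of fun i j => δ i (g j)).det ≠ 0
  m_pos : 0 < m
  h_ne : h ≠ 0
  ord : ∀ E : NVal k K, IsDivisorOn E P → E.ord δ = (((E.v h : ℝ) / m : ℝ) : EReal)

/-- The log discrepancy `1 + ord_E(θ) - ord_E(h) / m`. -/
noncomputable def Canonical.logDisc {P : Ideal A} {d : ℕ} (D : Canonical k K P d)
    (E : NVal k K) : EReal :=
  1 + E.ord D.δ - (((E.v D.h : ℝ) / D.m : ℝ) : EReal)

/-- The minimal log discrepancy of the germ of `Spec A` at `P`. -/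
noncomputable def Canonical.mld {P : Ideal A} {d : ℕ} (D : Canonical k K P d) : EReal :=
  ⨅ E : {E : NVal k K // IsDivisorOver E P}, D.logDisc E.1

end Germs

section Hyperquotients

variable {k : Type u} [Field k] {n : ℕ}

/-- The substitution `x_i ↦ g_i x_i`. -/
noncomputable def scale (g : Fin n → kˣ) :
    MvPolynomial (Fin n) k →ₐ[k] MvPolynomial (Fin n) k :=
  aeval fun i => C (g i : k) * X i

open Classical in
/-- The initial form of `f` with respect to the weight `w`. -/
noncomputable def initForm (f : MvPolynomial (Fin n) k) (w : Fin n → ℝ) :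
    MvPolynomial (Fin n) k :=
  ∑ m ∈ f.support.filter (fun m => ∀ m' ∈ f.support, ∑ i, w i * m i ≤ ∑ i, w i * m' i),
    monomial m (coeff m f)

/-- `f` is nondegenerate with respect to its Newton polyhedron at the origin: for every positive
weight `w` the initial form of `f` has no singular zero in the torus. -/
def Nondeg (f : MvPolynomial (Fin n) k) : Prop :=
  ∀ w : Fin n → ℝ, (∀ i, 0 < w i) → ∀ y : Fin n → k, (∀ i, y i ≠ 0) →
    eval y (initForm f w) = 0 → ∃ j, eval y (pderiv j (initForm f w)) ≠ 0

/-- **Nondegenerate hyperquotient singularities** `X = Y / G ∋ P`: `B = k[x_1, ..., x_n] / (f)` is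
the coordinate ring of an integral hypersurface `Y` through the origin, not a coordinate hyperplane,
`π` is the restriction of polynomials to `Y`, `G` is a finite group of diagonal matrices, `f` is
semi-invariant and nondegenerate, `Y` is normal at the origin, and `G` acts freely in codimension
one on `Y` near the origin. -/
structure Hyperquotient (k : Type u) [Field k] (n : ℕ) (B : Type v) [CommRing B]
    [Algebra k B] where
  f : MvPolynomial (Fin n) k
  G : Subgroup (Fin n → kˣ)
  π : MvPolynomial (Fin n) k →ₐ[k] B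
  surj : Function.Surjective π
  ker : ∀ p, π p = 0 ↔ f ∣ p
  fin : Finite G
  irr : Irreducible f
  zero : constantCoeff f = 0
  nvar : ∀ i, ¬ (X i ∣ f)
  semi : ∀ g ∈ G, ∃ c : k, scale g f = C c * f
  nondeg : Nondeg f
  /-- `Y` is normal at the origin. -/
  normal : ∀ z : FractionRing B, IsIntegral B z →
    ∃ b s : B, s ∉ Ideal.span (Set.range fun i => π (X i)) ∧
      z * algebraMap B (FractionRing B) s = algebraMap B (FractionRing B) b
  /-- No prime divisor of `Y` through the origin consists of fixed points of some `g ≠ 1`. -/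
  free : ∀ q : Ideal B, q.IsPrime → q ≤ Ideal.span (Set.range fun i => π (X i)) → q ≠ ⊥ →
    (∀ q' : Ideal B, q'.IsPrime → q' ≤ q → q' = ⊥ ∨ q' = q) →
    ∀ g ∈ G, g ≠ 1 → ∃ i, g i ≠ 1 ∧ π (X i) ∉ q

variable {B : Type v} [CommRing B] [Algebra k B]

/-- `b` is invariant under `G` (as `f` is semi-invariant, `G` acts on `B`). -/
def Hyperquotient.Inv (Y : Hyperquotient k n B) (b : B) : Prop :=
  ∀ g ∈ Y.G, ∀ p, Y.π p = b → Y.π (scale g p) = b

theorem Hyperquotient.scale_congr (Y : Hyperquotient k n B) {g : Fin n → kˣ} (hg : g ∈ Y.G)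
    {p q : MvPolynomial (Fin n) k} (h : Y.π p = Y.π q) : Y.π (scale g p) = Y.π (scale g q) := by
  rw [← sub_eq_zero, ← map_sub] at h ⊢
  rw [← map_sub, Y.ker] at *
  obtain ⟨r, hr⟩ := h
  obtain ⟨c, hc⟩ := Y.semi g hg
  rw [hr, map_mul, hc]
  exact Dvd.intro (C c * scale g r) (by ring)

/-- The ring of invariants: the coordinate ring of `X = Y / G`. -/
def Hyperquotient.A (Y : Hyperquotient k n B) : Subalgebra k B where
  carrier := {b | Y.Inv b}
  mul_mem' := by
    intro a b ha hb g hg p hp
    obtain ⟨q, hq⟩ := Y.surj a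
    obtain ⟨r, hr⟩ := Y.surj b
    have h1 : Y.π p = Y.π (q * r) := by rw [hp, map_mul, hq, hr]
    rw [Y.scale_congr hg h1, map_mul, map_mul, ha g hg q hq, hb g hg r hr]
  add_mem' := by
    intro a b ha hb g hg p hp
    obtain ⟨q, hq⟩ := Y.surj a
    obtain ⟨r, hr⟩ := Y.surj b
    have h1 : Y.π p = Y.π (q + r) := by rw [hp, map_add, hq, hr]
    rw [Y.scale_congr hg h1, map_add, map_add, ha g hg q hq, hb g hg r hr]
  algebraMap_mem' := by
    intro c g hg p hp
    have h1 : Y.π p = Y.π (algebraMap k _ c) := by rw [hp, AlgHom.commutes]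
    rw [Y.scale_congr hg h1, AlgHom.commutes, AlgHom.commutes]

/-- The point `P` of `X = Y / G`: the image of the origin. -/
def Hyperquotient.P (Y : Hyperquotient k n B) : Ideal Y.A :=
  (Ideal.span (Set.range fun i => Y.π (X i))).comap Y.A.val

end Hyperquotients

end Pool.Agent.GAP
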