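import Pool.Agent.GAP.Dvl

/-!
# GAP, module HART: functions regular in codimension one on a normal germ

Proof. Suppose `z = a / b ∈ K` (`a, b ∈ A`, `b ≠ 0`) does not lie in `A_P`. Then `a ∉ b A_P`. In the
Noetherian ring `A_P / (b)` the element `a` is nonzero, so there is a prime `𝔭` of `A`, `𝔭 ≤ P`, and
`r ∈ A` such that `𝔭 A_P = {x | x r a ∈ b A_P}` (an associated prime of `A_P / (b)` which is the
annihilator of a multiple of `a`: `exists_le_isAssociatedPrime_of_isNoetherianRing`). Let
`c = r a`, `y = c / b ∈ K`, `O = A_𝔭` (a local Noetherian domain with fraction field `K`, maximal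
ideal `𝔪 = 𝔭 O`); `y ∉ O`, otherwise `s c ∈ b A_P` for some `s ∉ 𝔭`. `y 𝔪 ⊆ O`. If `y 𝔪 ⊆ 𝔪`, then `y`
is integral over `O` (`𝔪` is a faithful finitely generated module), so `s y` is integral over `A`
for some `s ∈ A ∖ 𝔭` (clear denominators in the equation), so by `hn` `s y ∈ A_P ⊆ O`, so `y ∈ O`:
contradiction. So `y 𝔪 = O`, `𝔪 = y⁻¹ O` is principal, not zero (`b ∈ 𝔭`, `b ≠ 0`), and `O` is a
discrete valuation ring. Let `E` be its normalized valuation (`nval_of_dvr`); it is a divisor on the
germ (`𝔭 ≤ P`). By hypothesis `z ∈ O`, so `y = r z ∈ O`: contradiction.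
-/

set_option linter.dupNamespace false

namespace Pool.Agent.GAP

/-- the submodule of the elements of `K` lying in the localization at `P` -/
def HartN {A : Type*} (K : Type*) [CommRing A] [Field K] [Algebra A K] (P : Ideal A) [P.IsPrime] :
    Submodule A K where
  carrier := {y | ∃ a s : A, s ∉ P ∧ y * algebraMap A K s = algebraMap A K a}
  zero_mem' := ⟨0, 1, fun h => (inferInstance : P.IsPrime).ne_top ((Ideal.eq_top_iff_one P).2 h),
    by simp⟩
  add_mem' := by
    rintro y1 y2 ⟨a1, s1, h1, e1⟩ ⟨a2, s2, h2, e2⟩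
    refine ⟨a1 * s2 + a2 * s1, s1 * s2, fun h => ?_, ?_⟩
    · rcases (inferInstance : P.IsPrime).mem_or_mem h with h | h
      · exact h1 h
      · exact h2 h
    · rw [map_add, map_mul, map_mul, map_mul, ← e1, ← e2]
      ring
  smul_mem' := by
    rintro c y ⟨a, s, h, e⟩
    refine ⟨c * a, s, h, ?_⟩
    rw [Algebra.smul_def, mul_assoc, e, map_mul]

theorem HartN_mem {A K : Type*} [CommRing A] [Field K] [Algebra A K] (P : Ideal A) [P.IsPrime]
    (y : K) : y ∈ HartN K P ↔ ∃ a s : A, s ∉ P ∧ y * algebraMap A K s = algebraMap A K a :=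
  Iff.rfl

/-- an associated prime of `K / A_P` -/
theorem Hart_ass {A K : Type*} [CommRing A] [IsNoetherianRing A] [Field K] [Algebra A K]
    (P : Ideal A) [P.IsPrime] {z : K} (hz : z ∉ HartN K P) :
    ∃ (r : A) (p : Ideal A), p.IsPrime ∧ ∀ t : A, t ∈ p ↔ t • (r • z) ∈ HartN K P := by
  let M := Submodule.span A {(HartN K P).mkQ z}
  let x : M := ⟨(HartN K P).mkQ z, Submodule.mem_span_singleton_self _⟩
  have hx : x ≠ 0 := by
    intro h
    apply hz
    have h1 : (HartN K P).mkQ z = 0 := congrArg Subtype.val h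
    rw [Submodule.mkQ_apply, Submodule.Quotient.mk_eq_zero] at h1
    exact h1
  obtain ⟨p, hp, -⟩ := exists_le_isAssociatedPrime_of_isNoetherianRing A x hx
  rw [isAssociatedPrime_iff] at hp
  obtain ⟨hp, y, hy⟩ := hp
  obtain ⟨r, hr⟩ := Submodule.mem_span_singleton.1 y.2
  refine ⟨r, p, hp, fun t => ?_⟩
  rw [hy, Submodule.mem_colon_singleton, Submodule.mem_bot, ← Submodule.Quotient.mk_eq_zero,
    ← Submodule.mkQ_apply, map_smul, map_smul, hr, ← Submodule.coe_smul]
  exact ⟨fun h => congrArg Subtype.val h, fun h => Subtype.ext h⟩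

theorem hartogs {k A K : Type*} [Field k] [CommRing A] [IsDomain A] [IsNoetherianRing A]
    [Algebra k A] [Field K] [Algebra k K] [Algebra A K] [IsScalarTower k A K] [IsFractionRing A K]
    (P : Ideal A) [P.IsPrime]
    (hn : ∀ z : K, IsIntegral A z → ∃ a s : A, s ∉ P ∧ z * algebraMap A K s = algebraMap A K a)
    {z : K} (hz : ∀ E : NVal k K, IsDivisorOn E P → E.Int z) :
    ∃ a s : A, s ∉ P ∧ z * algebraMap A K s = algebraMap A K a := by
  by_contra hcon
  rw [← HartN_mem] at hcon
  obtain ⟨r, p, hp, hpm⟩ := Hart_ass P hcon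
  set y : K := r • z with hy
  have hinj : Function.Injective (algebraMap A K) := IsFractionRing.injective A K
  have hyN : y ∉ HartN K P := by
    intro h
    have h1 : (1 : A) ∈ p := (hpm 1).2 (by rwa [one_smul])
    exact hp.ne_top ((Ideal.eq_top_iff_one p).2 h1)
  have hpP : ∀ t, t ∈ p → t ∈ P := by
    intro t ht
    by_contra htP
    obtain ⟨a, s, hs, e⟩ := (hpm t).1 ht
    apply hyN
    refine ⟨a, t * s, fun h => ?_, ?_⟩
    · rcases (inferInstance : P.IsPrime).mem_or_mem h with h | h
      · exact htP h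
      · exact hs h
    · rw [Algebra.smul_def] at e
      rw [map_mul, ← e]
      ring
  have hnp : ∀ t, t ∉ P → t ∉ p := fun t ht h => ht (hpP t h)
  have hy0 : y ≠ 0 := by
    intro h
    exact hyN (h ▸ (HartN K P).zero_mem)
  -- denominators: if `t y ∈ A` then `t ∈ p`
  have hden : ∀ t c : A, y * algebraMap A K t = algebraMap A K c → t ∈ p := by
    intro t c h
    rw [hpm, HartN_mem]
    refine ⟨c, 1, fun h => (inferInstance : P.IsPrime).ne_top ((Ideal.eq_top_iff_one P).2 h), ?_⟩
    rw [map_one, mul_one, Algebra.smul_def, mul_comm, h]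
  -- there is an element of `p` sent to a unit
  have hex : ∃ x0 ∈ p, ∃ c0 t0 : A, t0 ∉ p ∧ c0 ∉ p ∧
      (y * algebraMap A K x0) * algebraMap A K t0 = algebraMap A K c0 := by
    by_contra hno
    push Not at hno
    -- a common denominator
    have hfg : p.FG := IsNoetherian.noetherian p
    have hcd : ∃ t, t ∉ P ∧ ∀ x ∈ p, ∃ c ∈ p,
        (y * algebraMap A K t) * algebraMap A K x = algebraMap A K c := by
      obtain ⟨S, hS⟩ := hfg
      have h1 : ∀ T : Finset A, (∀ x ∈ T, x ∈ p) → ∃ t, t ∉ P ∧ ∀ x ∈ T, ∃ c ∈ p,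
          (y * algebraMap A K t) * algebraMap A K x = algebraMap A K c := by
        intro T
        classical
        induction T using Finset.induction_on with
        | empty =>
          intro _
          exact ⟨1, fun h => (inferInstance : P.IsPrime).ne_top ((Ideal.eq_top_iff_one P).2 h),
            fun x hx => absurd hx (Finset.notMem_empty x)⟩
        | insert b T hb ih =>
          intro hT
          obtain ⟨t, ht, hc⟩ := ih fun x hx => hT x (Finset.mem_insert_of_mem hx)
          have hbp := hT b (Finset.mem_insert_self b T)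
          obtain ⟨a, s, hs, e⟩ := (hpm b).1 hbp
          rw [Algebra.smul_def] at e
          have e' : (y * algebraMap A K b) * algebraMap A K s = algebraMap A K a := by
            rw [← e]; ring
          have hap : a ∈ p := by
            by_contra hap
            exact hno b hbp a s (hnp s hs) hap e'
          refine ⟨t * s, fun h => ?_, fun x hx => ?_⟩
          · rcases (inferInstance : P.IsPrime).mem_or_mem h with h | h
            · exact ht h
            · exact hs h
          · rcases Finset.mem_insert.1 hx with rfl | hx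
            · refine ⟨t * a, p.mul_mem_left t hap, ?_⟩
              rw [map_mul, map_mul, ← e']
              ring
            · obtain ⟨c, hcp, hc'⟩ := hc x hx
              refine ⟨s * c, p.mul_mem_left s hcp, ?_⟩
              rw [map_mul, map_mul, ← hc']
              ring
      obtain ⟨t, ht, hc⟩ := h1 S fun x hx => hS ▸ Submodule.subset_span hx
      refine ⟨t, ht, fun x hx => ?_⟩
      rw [← hS] at hx
      induction hx using Submodule.span_induction with
      | mem x hx => exact hc x hx
      | zero => exact ⟨0, p.zero_mem, by simp⟩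
      | add x1 x2 _ _ ih1 ih2 =>
        obtain ⟨c1, h1, e1⟩ := ih1
        obtain ⟨c2, h2, e2⟩ := ih2
        exact ⟨c1 + c2, p.add_mem h1 h2, by rw [map_add, map_add, mul_add, e1, e2]⟩
      | smul a x _ ih =>
        obtain ⟨c, h, e⟩ := ih
        refine ⟨a * c, p.mul_mem_left a h, ?_⟩
        rw [smul_eq_mul, map_mul, map_mul, ← e]
        ring
    obtain ⟨t, ht, hc⟩ := hcd
    -- `p ≠ 0`
    have hp0 : ∃ b ∈ p, b ≠ 0 := by
      obtain ⟨a, b, hb, hab⟩ := IsFractionRing.div_surjective (A := A) y
      have hb0 : algebraMap A K b ≠ 0 :=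
        (map_ne_zero_iff _ hinj).2 (nonZeroDivisors.ne_zero hb)
      refine ⟨b, hden b a ?_, nonZeroDivisors.ne_zero hb⟩
      rw [← hab, div_mul_cancel₀ _ hb0]
    obtain ⟨b, hbp, hb0⟩ := hp0
    let N : Submodule A K := Submodule.map (Algebra.linearMap A K) p
    have hN : N ≠ ⊥ := by
      intro h
      have : algebraMap A K b ∈ N := ⟨b, hbp, rfl⟩
      rw [h, Submodule.mem_bot] at this
      exact hb0 (hinj (by rw [this, map_zero]))
    have hint : IsIntegral A (y * algebraMap A K t) := by
      refine isIntegral_of_smul_mem_submodule N hN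
        (Submodule.FG.map _ (IsNoetherian.noetherian p)) _ ?_
      rintro _ ⟨x, hx, rfl⟩
      obtain ⟨c, hcp, e⟩ := hc x hx
      exact ⟨c, hcp, e.symm⟩
    obtain ⟨a, s, hs, e⟩ := hn _ hint
    apply hyN
    refine ⟨a, t * s, fun h => ?_, ?_⟩
    · rcases (inferInstance : P.IsPrime).mem_or_mem h with h | h
      · exact ht h
      · exact hs h
    · rw [map_mul, ← e]
      ring
  obtain ⟨x0, hx0, c0, t0, ht0, hc0, e0⟩ := hex
  have hx00 : x0 ≠ 0 := by
    rintro rfl
    apply hc0
    rw [map_zero, mul_zero, zero_mul] at e0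
    have : c0 = 0 := hinj (by rw [← e0, map_zero])
    rw [this]
    exact p.zero_mem
  obtain ⟨E, e1, e2, -⟩ := Dvl_val (k := k) (K := K) p hx00 hx0 (by
    intro x hx
    obtain ⟨c, s, hs, e⟩ := (hpm x).1 hx
    rw [Algebra.smul_def] at e
    refine ⟨s * c0, c * t0, fun h => ?_, ?_⟩
    · rcases hp.mem_or_mem h with h | h
      · exact hnp s hs h
      · exact hc0 h
    · apply hinj
      simp only [map_mul]
      rw [← e0, ← e]
      ring)
  have hdiv : IsDivisorOn E P := by
    refine ⟨fun a => ?_, fun a ha => ?_, fun w hw => ?_⟩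
    · exact (e1 _).2 ⟨a, 1, fun h => hp.ne_top ((Ideal.eq_top_iff_one p).2 h), by
        rw [map_one, mul_one]⟩
    · have ha0 : a ≠ 0 := by
        rintro rfl
        exact ha P.zero_mem
      exact (e2 a ha0).2 (hnp a ha)
    · obtain ⟨a, s, hs, e⟩ := (e1 w).1 hw
      have hs0 : s ≠ 0 := by
        rintro rfl
        exact hs p.zero_mem
      exact ⟨a, s, hs0, (e2 s hs0).2 hs, e⟩
  obtain ⟨c, t, ht, e⟩ := (e1 z).1 (hz E hdiv)
  apply ht
  apply hden t (r * c)
  rw [hy, Algebra.smul_def, map_mul, ← e]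
  ring

end Pool.Agent.GAP
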