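import Pool.Agent.GAP.Lat2

/-!
# GAP, module ORD: the order of a rational form
-/

set_option linter.dupNamespace false

namespace Pool.Agent.GAP

variable {k K : Type*} [Field k] [Field K] [Algebra k K] (E : NVal k K) {d : ℕ}

theorem le_ordForm {θ : ⋀[K]^d (Ω[K⁄k])} {s : K} (hs : s ≠ 0) (h : s • θ ∈ E.lat d) :
    (((-(E.v s) : ℤ) : ℝ) : EReal) ≤ E.ordForm θ :=
  le_iSup (fun s : {s : K // s ≠ 0 ∧ s • θ ∈ E.lat d} => (((-(E.v s.1) : ℤ) : ℝ) : EReal))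
    ⟨s, hs, h⟩

theorem ordForm_le {θ : ⋀[K]^d (Ω[K⁄k])} {j : ℤ}
    (h : ∀ s : K, s ≠ 0 → s • θ ∈ E.lat d → -(E.v s) ≤ j) :
    E.ordForm θ ≤ ((j : ℝ) : EReal) := by
  refine iSup_le fun s => ?_
  rw [EReal.coe_le_coe_iff, Int.cast_le]
  exact h s.1 s.2.1 s.2.2

theorem ordForm_eq {θ : ⋀[K]^d (Ω[K⁄k])} {j : ℤ}
    (h : ∀ s : K, s ≠ 0 → (s • θ ∈ E.lat d ↔ -j ≤ E.v s)) :
    E.ordForm θ = ((j : ℝ) : EReal) := by
  apply le_antisymm
  · refine ordForm_le E fun s hs hm => ?_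
    have := (h s hs).1 hm
    omega
  · obtain ⟨t, ht, hv⟩ := E.surj
    have e : E.v (t ^ (-j)) = -j := by
      rw [E.v_zpow t ht, hv, mul_one]
    have h1 := le_ordForm E (θ := θ) (zpow_ne_zero (-j) ht)
      ((h (t ^ (-j)) (zpow_ne_zero (-j) ht)).2 e.ge)
    rw [e, neg_neg] at h1
    exact h1

private theorem ordForm_smul_le (θ : ⋀[K]^d (Ω[K⁄k])) {ψ : K} (hψ : ψ ≠ 0) :
    E.ordForm (ψ • θ) ≤ (((E.v ψ : ℤ) : ℝ) : EReal) + E.ordForm θ := by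
  refine iSup_le fun s => ?_
  have hs := s.2.1
  have h2 : (s.1 * ψ) • θ ∈ E.lat d := by
    rw [mul_smul]
    exact s.2.2
  have h1 := le_ordForm E (mul_ne_zero hs hψ) h2
  have e : (((-(E.v s.1) : ℤ) : ℝ) : EReal) =
      (((E.v ψ : ℤ) : ℝ) : EReal) + (((-(E.v (s.1 * ψ)) : ℤ) : ℝ) : EReal) := by
    rw [← EReal.coe_add, ← Int.cast_add, E.v_mul _ _ hs hψ]
    congr 2
    ring
  rw [e]
  gcongr

/-- Proof: `s ↦ s ψ` is a bijection between the two index sets (`ψ ≠ 0`); the supremum is shifted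
by the real number `v ψ`. -/
theorem ordForm_smul (θ : ⋀[K]^d (Ω[K⁄k])) {ψ : K} (hψ : ψ ≠ 0) :
    E.ordForm (ψ • θ) = (((E.v ψ : ℤ) : ℝ) : EReal) + E.ordForm θ := by
  apply le_antisymm
  · exact ordForm_smul_le E θ hψ
  · have h1 := ordForm_smul_le E (ψ • θ) (inv_ne_zero hψ)
    rw [smul_smul, inv_mul_cancel₀ hψ, one_smul, E.v_inv] at h1
    have h2 : (((E.v ψ : ℤ) : ℝ) : EReal) + E.ordForm θ ≤
        (((E.v ψ : ℤ) : ℝ) : EReal) + ((((-(E.v ψ) : ℤ) : ℝ) : EReal) + E.ordForm (ψ • θ)) := by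
      gcongr
    refine h2.trans (le_of_eq ?_)
    rw [← add_assoc, ← EReal.coe_add, ← Int.cast_add, add_neg_cancel]
    simp

end Pool.Agent.GAP
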