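import Pool.Agent.GAP.Hart
import Pool.Agent.GAP.Ord

/-!
# GAP, module IND: independence of the canonical data

Proof. `D' .θ = ψ D.θ` with `ψ ≠ 0`. For `E` on the germ: `v(h')/m' = ord(θ') = v(ψ) + ord(θ) =
v(ψ) + v(h)/m` (`ordForm_smul`), so `z = ψ^(m m') h^(m') h'^(-m)` has `v_E z = 0`. By `hartogs` for
`z` and `z⁻¹`: `z s = a`, `z⁻¹ s' = a'` with `s, s' ∉ P`; then `a a' = s s'`, so `a, a' ∉ P` as `P` is
prime. For `E` over the germ: `v a = v s = 0`, so `v_E z = 0`, that is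
`v(ψ) = v(h')/m' - v(h)/m`, and `ordForm_smul` gives the claim.
-/

set_option linter.dupNamespace false

namespace Pool.Agent.GAP

private theorem Ind_v {k K : Type*} [Field k] [Field K] [Algebra k K] (E : NVal k K) {c h h' : K}
    (hc : c ≠ 0) (hh : h ≠ 0) (hh' : h' ≠ 0) (m m' : ℕ) :
    E.v (c ^ (m * m') * h ^ m' / h' ^ m) = m * m' * E.v c + m' * E.v h - m * E.v h' := by
  rw [E.v_div _ _ (mul_ne_zero (pow_ne_zero _ hc) (pow_ne_zero _ hh)) (pow_ne_zero _ hh'),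
    E.v_mul _ _ (pow_ne_zero _ hc) (pow_ne_zero _ hh), E.v_pow c hc, E.v_pow h hh,
    E.v_pow h' hh']
  push_cast
  ring

private theorem Ind_real {x y z : ℤ} {m m' : ℕ} (hm : 0 < m) (hm' : 0 < m') :
    (m * m' * x + m' * y - m * z : ℤ) = 0 ↔ (z : ℝ) / m' = x + (y : ℝ) / m := by
  have h1 : (m : ℝ) ≠ 0 := by exact_mod_cast hm.ne'
  have h2 : (m' : ℝ) ≠ 0 := by exact_mod_cast hm'.ne'
  have h3 : (m * m' * x + m' * y - m * z : ℤ) = 0 ↔
      ((m : ℝ) * m' * x + m' * y - m * z) = 0 := by exact_mod_cast Iff.rfl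
  rw [h3]
  constructor
  · intro h
    field_simp
    linarith
  · intro h
    field_simp at h
    linarith

theorem logDisc_eq {k A K : Type*} [Field k] [CommRing A] [IsDomain A] [IsNoetherianRing A]
    [Algebra k A] [Field K] [Algebra k K] [Algebra A K] [IsScalarTower k A K] [IsFractionRing A K]
    (P : Ideal A) [P.IsPrime] {d : ℕ}
    (hn : ∀ z : K, IsIntegral A z → ∃ a s : A, s ∉ P ∧ z * algebraMap A K s = algebraMap A K a)
    (D D' : CanData k K P d) (hD : ∃ c : K, D'.θ = c • D.θ) (E : NVal k K)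
    (hE : IsDivisorOver E P) : D'.logDisc E = D.logDisc E := by
  obtain ⟨c, hc⟩ := hD
  have hc0 : c ≠ 0 := by
    rintro rfl
    rw [zero_smul] at hc
    exact D'.θ_ne hc
  have hinj : Function.Injective (algebraMap A K) := IsFractionRing.injective A K
  set z : K := c ^ (D.m * D'.m) * D.h ^ D'.m / D'.h ^ D.m with hz
  have hz0 : z ≠ 0 := div_ne_zero (mul_ne_zero (pow_ne_zero _ hc0) (pow_ne_zero _ D.h_ne))
    (pow_ne_zero _ D'.h_ne)
  have hon : ∀ E : NVal k K, IsDivisorOn E P → E.v z = 0 := by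
    intro E hE
    have h1 := D'.ord E hE
    rw [hc, ordForm_smul E _ hc0, D.ord E hE, ← EReal.coe_add, EReal.coe_eq_coe_iff] at h1
    rw [hz, Ind_v E hc0 D.h_ne D'.h_ne, Ind_real D.m_pos D'.m_pos]
    exact h1.symm
  obtain ⟨a, s, hs, e⟩ := hartogs (k := k) P hn (z := z) fun E hE => Or.inr (hon E hE).ge
  obtain ⟨a', s', hs', e'⟩ := hartogs (k := k) P hn (z := z⁻¹) fun E hE => Or.inr (by
    rw [E.v_inv, hon E hE, neg_zero])
  have haa : a * a' = s * s' := by
    apply hinj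
    rw [map_mul, map_mul, ← e, ← e']
    field_simp
  have ha : a ∉ P := by
    intro h
    have h1 : s * s' ∈ P := haa ▸ P.mul_mem_right a' h
    rcases (inferInstance : P.IsPrime).mem_or_mem h1 with h2 | h2
    · exact hs h2
    · exact hs' h2
  have hs0 : algebraMap A K s ≠ 0 := by
    intro h
    apply hs
    have : s = 0 := hinj (by rw [h, map_zero])
    rw [this]
    exact P.zero_mem
  have hvz : E.v z = 0 := by
    have h1 := hE.2.1 a ha
    rw [← e, E.v_mul _ _ hz0 hs0, hE.2.1 s hs, add_zero] at h1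
    exact h1
  rw [hz, Ind_v E hc0 D.h_ne D'.h_ne, Ind_real D.m_pos D'.m_pos] at hvz
  unfold CanData.logDisc
  rw [hc, ordForm_smul E _ hc0, hvz, sub_eq_add_neg, sub_eq_add_neg, ← EReal.coe_neg,
    ← EReal.coe_neg, neg_add, EReal.coe_add]
  have h1 : (((E.v c : ℤ) : ℝ) : EReal) + ((-((E.v c : ℤ) : ℝ) : ℝ) : EReal) = 0 := by
    rw [← EReal.coe_add, add_neg_cancel, EReal.coe_zero]
  calc (1 : EReal) + ((((E.v c : ℤ) : ℝ) : EReal) + E.ordForm D.θ) +
      (((-((E.v c : ℤ) : ℝ) : ℝ) : EReal) + ((-((E.v D.h : ℝ) / D.m) : ℝ) : EReal))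
      = ((((E.v c : ℤ) : ℝ) : EReal) + ((-((E.v c : ℤ) : ℝ) : ℝ) : EReal)) +
        (1 + E.ordForm D.θ + ((-((E.v D.h : ℝ) / D.m) : ℝ) : EReal)) := by
          abel
    _ = _ := by rw [h1, zero_add]

end Pool.Agent.GAP
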