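import Pool.Agent.GAP.Lat

/-!
# GAP, module LAT2: logarithmic forms; lattices generated by `d` elements
-/

set_option linter.dupNamespace false

namespace Pool.Agent.GAP

variable {k K : Type*} [Field k] [Field K] [Algebra k K] (E : NVal k K)

theorem dlog_mul {x y : K} (hx : x ≠ 0) (hy : y ≠ 0) :
    (x * y)⁻¹ • KaehlerDifferential.D k K (x * y) =
      x⁻¹ • KaehlerDifferential.D k K x + y⁻¹ • KaehlerDifferential.D k K y := by
  rw [Derivation.leibniz, smul_add, smul_smul, smul_smul]
  have h1 : (x * y)⁻¹ * x = y⁻¹ := by field_simp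
  have h2 : (x * y)⁻¹ * y = x⁻¹ := by field_simp
  rw [h1, h2, add_comm]

theorem dlog_zpow {x : K} (hx : x ≠ 0) (n : ℤ) :
    (x ^ n)⁻¹ • KaehlerDifferential.D k K (x ^ n) =
      (n : K) • (x⁻¹ • KaehlerDifferential.D k K x) := by
  rw [Derivation.leibniz_zpow, ← Int.cast_smul_eq_zsmul K, smul_smul, smul_smul, smul_smul]
  congr 1
  rw [zpow_sub_one₀ hx]
  have : x ^ n ≠ 0 := zpow_ne_zero n hx
  field_simp

/-- Adding multiples of one entry to the other entries. -/
theorem alt_shear {K V W : Type*} [Field K] [AddCommGroup V] [Module K V] [AddCommGroup W]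
    [Module K W] {d : ℕ} (φ : V [⋀^Fin d]→ₗ[K] W) (β : Fin d → V) (c : Fin d → K) (j : Fin d)
    (s : Finset (Fin d)) (hj : j ∉ s) :
    φ (fun i => if i ∈ s then β i + c i • β j else β i) = φ β := by
  classical
  induction s using Finset.induction_on with
  | empty => simp
  | insert a s ha ih =>
    have hjs : j ∉ s := fun h => hj (Finset.mem_insert_of_mem h)
    have hja : a ≠ j := fun h => hj (by rw [h]; exact Finset.mem_insert_self _ _)
    set g : Fin d → V := fun i => if i ∈ s then β i + c i • β j else β i with hg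
    have h1 : (fun i => if i ∈ insert a s then β i + c i • β j else β i) =
        Function.update g a (g a + c a • g j) := by
      funext i
      by_cases hia : i = a
      · subst hia
        rw [Function.update_self, if_pos (Finset.mem_insert_self _ _)]
        simp [hg, ha, hjs]
      · rw [Function.update_of_ne hia]
        simp [hg, hia]
    rw [h1, φ.map_update_add, φ.map_update_smul, Function.update_eq_self,
      φ.map_update_self g hja, smul_zero, add_zero]
    exact ih hjs

/-- Logarithmic forms have at most a simple pole. Proof: let `t` be a uniformizer,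
`y_i = u_i t^(a_i)` with `v(u_i) = 0`; `dlog y_i = dlog u_i + a_i dlog t`. Expand the wedge
(`MultilinearMap.map_add_univ`, or induction on the number of places): the terms with two or more
factors `dlog t` vanish, the others are in `t^(-1) lat`, because `dlog u_i ∈ lo` and
`t dlog t = D t ∈ lo`. (An alternative without expansion: if all `a_i = 0` it is `wedge_mem`.
Otherwise take `j` with `|a_j| ≠ 0`; write `dlog y_i = dlog (y_i^(a_j) y_j^(-a_i)) / a_j +
(a_i / a_j) dlog y_j` for `i ≠ j`, the second term disappears in the wedge as `dlog y_j` is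
already there, and `y_i^(a_j) y_j^(-a_i)` is a unit; integers `≠ 0` are units, characteristic 0.)
-/
theorem logwedge_mem [CharZero k] {d : ℕ} {y : Fin d → K} (hy : ∀ i, y i ≠ 0) {s : K}
    (hs : 1 ≤ E.v s) :
    s • exteriorPower.ιMulti K d (fun i => (y i)⁻¹ • KaehlerDifferential.D k K (y i)) ∈
      E.lat d := by
  classical
  obtain ⟨t, ht0, ht1⟩ := E.surj
  have hs0 : E.Int s := Or.inr (by omega)
  by_cases hall : ∀ i, E.v (y i) = 0
  · exact lat_smul E hs0 (wedge_mem E fun i => dlog_mem E (hy i) (hall i))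
  push Not at hall
  obtain ⟨j, hj⟩ := hall
  -- the entry `j`
  have hsj : s • ((y j)⁻¹ • KaehlerDifferential.D k K (y j)) ∈ E.lo := by
    set u : K := y j * t ^ (-E.v (y j)) with hu
    have hu0 : u ≠ 0 := mul_ne_zero (hy j) (zpow_ne_zero _ ht0)
    have hvu : E.v u = 0 := by
      rw [hu, E.v_mul _ _ (hy j) (zpow_ne_zero _ ht0), E.v_zpow _ ht0, ht1]
      ring
    have h1 : y j = u * t ^ (E.v (y j)) := by
      rw [hu, mul_assoc, ← zpow_add₀ ht0]
      simp
    have h2 : (y j)⁻¹ • KaehlerDifferential.D k K (y j) =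
        u⁻¹ • KaehlerDifferential.D k K u + ((E.v (y j) : ℤ) : K) •
          (t⁻¹ • KaehlerDifferential.D k K t) := by
      conv_lhs => rw [h1]
      rw [dlog_mul hu0 (zpow_ne_zero _ ht0), dlog_zpow ht0]
    rw [h2, smul_add]
    refine add_mem (lo_smul E hs0 (dlog_mem E hu0 hvu)) ?_
    refine AddSubgroup.subset_closure ⟨s * ((E.v (y j) : ℤ) : K) * t⁻¹, t, ?_,
      Or.inr (by omega), by rw [smul_smul, smul_smul]⟩
    have h3 : E.Ge 1 s := Or.inr hs
    have h4 : E.Ge 0 ((E.v (y j) : ℤ) : K) := by
      have : E.Int (algebraMap k K ((E.v (y j) : ℤ) : k)) := NVal.Int.alg _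
      rwa [map_intCast] at this
    have h5 : E.Ge (-1) t⁻¹ := Or.inr (by rw [E.v_inv, ht1])
    have h6 := (h3.mul h4).mul h5
    exact h6.mono (by norm_num)
  -- the other entries
  have haj : ((E.v (y j) : ℤ) : K) ≠ 0 := by
    have h1 : algebraMap k K ((E.v (y j) : ℤ) : k) ≠ 0 := by
      rw [Ne, map_eq_zero]
      exact_mod_cast hj
    rwa [map_intCast] at h1
  have haji : E.Int (((E.v (y j) : ℤ) : K)⁻¹) := by
    have h1 : E.Int (algebraMap k K (((E.v (y j) : ℤ) : k)⁻¹)) := NVal.Int.alg _
    rwa [map_inv₀, map_intCast] at h1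
  set a : Fin d → K := fun i => ((E.v (y i) : ℤ) : K) with ha
  set β : Fin d → Ω[K⁄k] := fun i => (y i)⁻¹ • KaehlerDifferential.D k K (y i) with hβ
  have hz : ∀ i, β i + (-(a i) * (a j)⁻¹) • β j ∈ E.lo := by
    intro i
    set z : K := y i ^ (E.v (y j)) * y j ^ (-E.v (y i)) with hz
    have hp1 : y i ^ (E.v (y j)) ≠ 0 := zpow_ne_zero _ (hy i)
    have hp2 : y j ^ (-E.v (y i)) ≠ 0 := zpow_ne_zero _ (hy j)
    have hz0 : z ≠ 0 := mul_ne_zero hp1 hp2
    have hvz : E.v z = 0 := by
      rw [hz, E.v_mul _ _ hp1 hp2, E.v_zpow _ (hy i), E.v_zpow _ (hy j)]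
      ring
    have h1 : z⁻¹ • KaehlerDifferential.D k K z = (a j) • β i + (-(a i)) • β j := by
      rw [hz, dlog_mul hp1 hp2, dlog_zpow (hy i), dlog_zpow (hy j)]
      simp only [ha, hβ, Int.cast_neg]
    have h2 : β i + (-(a i) * (a j)⁻¹) • β j =
        (a j)⁻¹ • (z⁻¹ • KaehlerDifferential.D k K z) := by
      rw [h1, smul_add, smul_smul (a j)⁻¹ (a j), smul_smul (a j)⁻¹ (-(a i)), inv_mul_cancel₀ haj,
        one_smul, mul_comm (a j)⁻¹]
    rw [h2]
    exact lo_smul E haji (dlog_mem E hz0 hvz)
  have hsh := alt_shear (exteriorPower.ιMulti K d) β (fun i => -(a i) * (a j)⁻¹) j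
    (Finset.univ.erase j) (Finset.notMem_erase j _)
  rw [← hsh]
  set g : Fin d → Ω[K⁄k] := fun i => if i ∈ Finset.univ.erase j then
    β i + (-(a i) * (a j)⁻¹) • β j else β i with hg
  have hgj : g j = β j := by simp [hg]
  have h3 : s • exteriorPower.ιMulti K d g =
      exteriorPower.ιMulti K d (Function.update g j (s • g j)) := by
    rw [(exteriorPower.ιMulti K d).map_update_smul, Function.update_eq_self]
  rw [h3]
  refine wedge_mem E ?_
  intro i
  by_cases hij : i = j
  · subst hij
    rw [Function.update_self, hgj]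
    exact hsj
  · rw [Function.update_of_ne hij]
    have h4 : g i = β i + (-(a i) * (a j)⁻¹) • β j := by simp [hg, hij]
    rw [h4]
    exact hz i

/-- If `lo` is generated over the valuation ring by `d` elements `γ_1, ..., γ_d`, then every
element of the lattice is an integral multiple of `γ_1 ∧ ... ∧ γ_d`. (Multilinear expansion: the
coefficient is a determinant.) -/
theorem lat_of_generators {d : ℕ} (γ : Fin d → Ω[K⁄k])
    (h : ∀ ω ∈ E.lo, ∃ c : Fin d → K, (∀ i, E.Int (c i)) ∧ ω = ∑ i, c i • γ i)
    {ω : ⋀[K]^d (Ω[K⁄k])} (hω : ω ∈ E.lat d) :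
    ∃ c : K, E.Int c ∧ ω = c • exteriorPower.ιMulti K d γ := by
  classical
  refine AddSubgroup.closure_induction
    (p := fun x _ => ∃ c : K, E.Int c ∧ x = c • exteriorPower.ιMulti K d γ) ?_ ?_ ?_ ?_ hω
  · rintro x ⟨a, g, ha, hg, rfl⟩
    choose c hc hcg using fun i => h _ (D_mem_lo E (hg i))
    have h1 : ∀ r : Fin d → Fin d, ∃ ε : K, E.Int ε ∧
        exteriorPower.ιMulti K d (fun i => γ (r i)) = ε • exteriorPower.ιMulti K d γ := by
      intro r
      by_cases hr : Function.Injective r
      · let σ : Equiv.Perm (Fin d) := Equiv.ofBijective r (Finite.injective_iff_bijective.1 hr)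
        have h2 : (fun i => γ (r i)) = γ ∘ σ := rfl
        rw [h2, (exteriorPower.ιMulti K d).map_perm]
        rcases Int.units_eq_one_or (Equiv.Perm.sign σ) with hs | hs
        · exact ⟨1, NVal.Int.one, by rw [hs, one_smul, one_smul]⟩
        · refine ⟨-1, NVal.Int.one.neg, ?_⟩
          rw [hs]
          have h9 := neg_smul (1 : K) (exteriorPower.ιMulti K d γ)
          rw [one_smul] at h9
          simp only [Units.smul_def, Units.val_neg, Units.val_one, neg_smul, one_smul]
          exact h9.symm
      · refine ⟨0, NVal.Int.zero, ?_⟩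
        rw [zero_smul]
        refine (exteriorPower.ιMulti K d).map_eq_zero_of_not_injective _ ?_
        intro h2
        apply hr
        intro i j hij
        apply h2
        simp only [hij]
    choose ε hε hεγ using h1
    have h3 : exteriorPower.ιMulti K d (fun i => KaehlerDifferential.D k K (g i)) =
        (∑ r : Fin d → Fin d, (∏ i, c i (r i)) * ε r) • exteriorPower.ιMulti K d γ := by
      have h4 : (fun i => KaehlerDifferential.D k K (g i)) = fun i => ∑ j, c i j • γ j :=
        funext hcg
      rw [h4]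
      have h5 := (exteriorPower.ιMulti K d (M := Ω[K⁄k])).toMultilinearMap.map_sum
        (fun (i : Fin d) (j : Fin d) => c i j • γ j)
      have h6 : exteriorPower.ιMulti K d (fun i => ∑ j, c i j • γ j) =
          ∑ r : Fin d → Fin d, exteriorPower.ιMulti K d (fun i => c i (r i) • γ (r i)) := h5
      rw [h6, Finset.sum_smul]
      refine Finset.sum_congr rfl ?_
      intro r _
      rw [AlternatingMap.map_smul_univ, hεγ, smul_smul]
    refine ⟨a * ∑ r : Fin d → Fin d, (∏ i, c i (r i)) * ε r, ?_, ?_⟩
    · refine ha.mul (NVal.Int.sum _ _ ?_)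
      intro r _
      refine NVal.Int.mul ?_ (hε r)
      have h2 : ∀ t : Finset (Fin d), E.Int (∏ i ∈ t, c i (r i)) := by
        intro t
        induction t using Finset.induction_on with
        | empty => rw [Finset.prod_empty]; exact NVal.Int.one
        | insert j t hj ih => rw [Finset.prod_insert hj]; exact (hc j (r j)).mul ih
      exact h2 _
    · rw [h3, smul_smul]
  · exact ⟨0, NVal.Int.zero, by rw [zero_smul]⟩
  · rintro x y _ _ ⟨c, hc, rfl⟩ ⟨e, he, rfl⟩
    exact ⟨c + e, hc.add he, by rw [add_smul]⟩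
  · rintro x _ ⟨c, hc, rfl⟩
    exact ⟨-c, hc.neg, (neg_smul c _).symm⟩

end Pool.Agent.GAP
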