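import Pool.Agent.GAP.Cod
import Pool.Agent.GAP.Lat2

/-!
# GAP, module JAC: the Jacobian criterion at a prime divisor of `Y`

Suppose all `∂_l f` lie in `q`. Let `C = B / q`, `κ` its fraction field, `t` a transcendence basis of
`C` among the classes of the `x_i`. Then `#t < d` (`card_lt`), so there is a nonzero combination
`δ = ∑ c_l ∂_l` (with values in `κ`) killing the elements of `t` and a uniformizer; it kills `q`, and
therefore everything (`deriv_zero`), a contradiction.
-/

set_option linter.dupNamespace false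

namespace Pool.Agent.GAP

open MvPolynomial

universe u

/-- A derivation which kills enough elements is zero. -/
theorem deriv_zero {R C κ : Type*} [CommRing R] [CommRing C] [IsDomain C]
    [Field κ] [CharZero κ] (ψ : R →+* C) (ι : C →+* κ) (hι : Function.Injective ι) (δ : R → κ)
    (hadd : ∀ p q, δ (p + q) = δ p + δ q)
    (hmul : ∀ p q, δ (p * q) = ι (ψ p) * δ q + ι (ψ q) * δ p)
    (hker : ∀ p, ψ p = 0 → δ p = 0) (S : Subring C) (hS : ∀ s ∈ S, ∃ z, ψ z = s ∧ δ z = 0)
    (p : R) (hp : IsAlgebraic S (ψ p)) : δ p = 0 := by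
  have h0 : δ 0 = 0 := by
    have := hadd 0 0
    rw [add_zero] at this
    simpa using this
  have h1 : δ 1 = 0 := by
    have := hmul 1 1
    rw [mul_one, map_one, map_one, one_mul] at this
    simpa using this
  have hsum : ∀ (s : Finset ℕ) (g : ℕ → R), δ (∑ i ∈ s, g i) = ∑ i ∈ s, δ (g i) := by
    intro s g
    classical
    induction s using Finset.induction_on with
    | empty => simp [h0]
    | insert a s ha ih => rw [Finset.sum_insert ha, Finset.sum_insert ha, hadd, ih]
  have hpow : ∀ n : ℕ, δ (p ^ n) = (n : κ) * ι (ψ p) ^ (n - 1) * δ p := by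
    intro n
    induction n with
    | zero => simp [h1]
    | succ n ih =>
      rw [pow_succ, hmul, ih]
      rcases n with _ | n
      · simp
      · simp only [map_pow, Nat.add_sub_cancel, Nat.cast_add, Nat.cast_one]
        ring
  -- the key computation
  have key : ∀ P : Polynomial S, Polynomial.aeval (ψ p) P = 0 →
      ι (Polynomial.aeval (ψ p) (Polynomial.derivative P)) * δ p = 0 := by
    intro P hP
    choose z hz1 hz2 using fun i => hS (P.coeff i) (P.coeff i).2
    have e1 : ψ (∑ i ∈ Finset.range (P.natDegree + 1), z i * p ^ i) = 0 := by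
      rw [map_sum, ← hP, Polynomial.aeval_eq_sum_range]
      refine Finset.sum_congr rfl fun i _ => ?_
      rw [map_mul, map_pow, hz1]
      rfl
    have e2 := hker _ e1
    rw [hsum] at e2
    have e3 : ∀ i ∈ Finset.range (P.natDegree + 1), δ (z i * p ^ i) =
        ι ((P.coeff i : C) * ((i : C) * ψ p ^ (i - 1))) * δ p := by
      intro i _
      rw [hmul, hz2, hz1, mul_zero, add_zero, hpow]
      simp only [map_mul, map_pow, map_natCast]
      ring
    rw [Finset.sum_congr rfl e3, ← Finset.sum_mul, ← map_sum] at e2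
    rw [← e2, Polynomial.derivative_apply, Polynomial.sum_over_range _ (by simp), map_sum]
    congr 2
    refine Finset.sum_congr rfl fun i _ => ?_
    rw [map_mul, map_pow, Polynomial.aeval_C, Polynomial.aeval_X, map_mul, map_natCast, mul_assoc]
    rfl
  have main : ∀ (n : ℕ) (P : Polynomial S), P.natDegree ≤ n → P ≠ 0 →
      Polynomial.aeval (ψ p) P = 0 → δ p = 0 := by
    intro n
    have : CharZero C := by
      refine ⟨fun a b hab => ?_⟩
      have := congrArg ι hab
      rw [map_natCast, map_natCast] at this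
      exact_mod_cast this
    have : CharZero S := by
      refine ⟨fun a b hab => ?_⟩
      have := congrArg (Subtype.val : S → C) hab
      simpa using this
    induction n with
    | zero =>
      intro P h1 h2 h3
      exfalso
      rw [Polynomial.eq_C_of_natDegree_eq_zero (Nat.le_zero.1 h1), Polynomial.aeval_C] at h3
      apply h2
      rw [Polynomial.eq_C_of_natDegree_eq_zero (Nat.le_zero.1 h1)]
      have : P.coeff 0 = 0 := Subtype.ext h3
      rw [this, map_zero]
    | succ n ih =>
      intro P h1 h2 h3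
      by_cases h4 : Polynomial.derivative P = 0
      · have h5 := Polynomial.derivative_eq_zero.1 h4
        exact ih P (by omega) h2 h3
      · rcases mul_eq_zero.1 (key P h3) with h5 | h5
        · have h6 : Polynomial.aeval (ψ p) (Polynomial.derivative P) = 0 := by
            apply hι
            rw [h5, map_zero]
          refine ih _ ?_ h4 h6
          have := Polynomial.natDegree_derivative_le P
          omega
        · exact h5
  obtain ⟨P, hP1, hP2⟩ := hp
  exact main _ P le_rfl hP1 hP2

/-- A quotient of a `d`-dimensional domain by a nonzero prime has smaller dimension. -/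
theorem card_lt {k : Type*} [Field k] {B C : Type*} [CommRing B] [IsDomain B] [Algebra k B]
    [CommRing C] [IsDomain C] [Algebra k C] {d : ℕ}
    (x : Fin (d + 1) → B) (hx : Algebra.adjoin k (Set.range x) = ⊤)
    (f : MvPolynomial (Fin (d + 1)) k) (hf0 : f ≠ 0) (hf : aeval x f = 0) (π : B →ₐ[k] C)
    (b : B) (hb : b ≠ 0) (hb' : π b = 0) {t : Set C} (J : t → Fin (d + 1))
    (hJ : ∀ i, π (x (J i)) = i) (ht : AlgebraicIndependent k (Subtype.val : t → C)) :
    Nat.card t < d := by
  classical
  have hinj : Function.Injective J := by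
    intro i j hij
    apply Subtype.ext
    rw [← hJ i, ← hJ j, hij]
  have : Finite t := Finite.of_injective J hinj
  have : Algebra.IsAlgebraic (Algebra.adjoin k (Set.range x)) B := by
    refine ⟨fun b => ?_⟩
    exact isAlgebraic_algebraMap (⟨b, by rw [hx]; trivial⟩ : Algebra.adjoin k (Set.range x))
  -- the transcendence degree of `B` is at most `d`
  have h1 : Algebra.trdeg k B ≤ d := by
    by_contra hlt
    have h2 : ((d + 1 : ℕ) : Cardinal) ≤ Algebra.trdeg k B := by
      have := Order.succ_le_of_lt (not_le.1 hlt)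
      rwa [Cardinal.succ_natCast, ← Nat.cast_add_one] at this
    have h3 := Algebra.IsAlgebraic.isTranscendenceBasis_of_lift_le_trdeg_of_finite k x
      (by simpa using h2)
    exact hf0 (h3.1.eq_zero_of_aeval_eq_zero f hf)
  by_contra hge
  rw [not_lt] at hge
  have h4 : AlgebraicIndependent k (fun i : t => x (J i)) := by
    apply AlgebraicIndependent.of_comp π
    convert ht using 1
    funext i
    exact hJ i
  have h5 : IsTranscendenceBasis k (fun i : t => x (J i)) := by
    apply h4.isTranscendenceBasis_of_lift_trdeg_le_of_finite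
    have h6 : (d : Cardinal) ≤ Cardinal.mk t := by
      rw [← Nat.cast_card (α := t)]
      exact_mod_cast hge
    calc Cardinal.lift.{_} (Algebra.trdeg k B) ≤ Cardinal.lift.{_} ((d : ℕ) : Cardinal) :=
          Cardinal.lift_le.2 h1
      _ = Cardinal.lift.{_} ((d : ℕ) : Cardinal) := by simp
      _ ≤ _ := Cardinal.lift_le.2 h6
  have h7 := h5.isAlgebraic
  obtain ⟨P, hP1, hP2⟩ := h7.isAlgebraic b
  have h8 := Ideal.exists_coeff_ne_zero_mem_comap_of_root_mem hb (I := RingHom.ker π.toRingHom)
    (by exact hb') hP1 (by exact hP2)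
  obtain ⟨i, hi1, hi2⟩ := h8
  set a := P.coeff i with ha
  have ha2 : (a : B) ∈ (aeval (R := k) (fun i : t => x (J i))).range := by
    rw [← Algebra.adjoin_range_eq_range_aeval]
    exact a.2
  obtain ⟨F, hF⟩ := ha2
  have h9 : π (a : B) = 0 := hi2
  rw [← hF] at h9
  have h10 : aeval (Subtype.val : t → C) F = 0 := by
    rw [← h9]
    change _ = π (aeval (fun i : t => x (J i)) F)
    rw [← AlgHom.comp_apply, comp_aeval]
    congr 2
    funext i
    exact (hJ i).symm
  have h11 := ht.eq_zero_of_aeval_eq_zero F h10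
  apply hi1
  apply Subtype.ext
  rw [← hF, h11, map_zero]
  rfl

variable {k : Type u} [Field k] {d : ℕ} {K L : Type*} [Field K] [Field L]
    [Algebra k K] [Algebra k L]

variable {X : Pre k (d + 1)} [Algebra X.A K] [Algebra X.B L] [Algebra K L]

theorem exists_pderiv [CharZero k] [IsAlgClosed k] (h : Ctx X K L) {E : NVal k K} {E' : NVal k L}
    {q : Ideal X.B} {e : ℤ} (hA : Above X E E' q e) : ∃ l, X.cl (pderiv l X.f) ∉ q := by
  classical
  by_contra hcon
  push Not at hcon
  have hprime := hA.prime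
  have hfrac := h.fracL
  have hinjL : Function.Injective (algebraMap X.B L) := IsFractionRing.injective X.B L
  -- the residue ring and its fraction field
  let C := X.B ⧸ q
  let κ := FractionRing C
  let π : X.B →ₐ[k] C := Ideal.Quotient.mkₐ k q
  have hπ : ∀ b, π b = 0 ↔ b ∈ q := fun b => Ideal.Quotient.eq_zero_iff_mem
  have hchar : CharZero κ := charZero_of_injective_algebraMap (algebraMap k κ).injective
  let ι : C →+* κ := algebraMap C κ
  have hι : Function.Injective ι := IsFractionRing.injective C κ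
  let ψ : MvPolynomial (Fin (d + 1)) k →+* C := π.toRingHom.comp X.cl.toRingHom
  have hψ : ∀ p, ψ p = π (X.cl p) := fun p => rfl
  have hclf : X.cl X.f = 0 := Ideal.Quotient.eq_zero_iff_mem.2 (Ideal.mem_span_singleton_self _)
  -- a uniformizer
  have hsurj : Function.Surjective X.cl := Ideal.Quotient.mk_surjective
  have hunit : ∀ s : X.B, s ∉ q → s ≠ 0 ∧ E'.v (algebraMap X.B L s) = 0 := by
    intro s hs
    have h1 : s ≠ 0 := fun h0 => hs (h0 ▸ q.zero_mem)
    refine ⟨h1, ?_⟩
    have h2 := (hA.int s).resolve_left ((map_ne_zero_iff _ hinjL).2 h1)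
    have h3 : ¬ (0 < E'.v (algebraMap X.B L s)) := fun h0 => hs ((hA.mem s).2 (Or.inr h0))
    omega
  obtain ⟨p0, hp0, hp0v⟩ : ∃ p0, X.cl p0 ∈ q ∧ E'.v (algebraMap X.B L (X.cl p0)) = 1 := by
    obtain ⟨t0, ht0, ht0v⟩ := E'.surj
    obtain ⟨b, s, hs, hbs⟩ := hA.loc t0 (Or.inr (by omega))
    obtain ⟨hs0, hsv⟩ := hunit s hs
    have h1 : E'.v (algebraMap X.B L b) = 1 := by
      rw [← hbs, E'.v_mul _ _ ht0 ((map_ne_zero_iff _ hinjL).2 hs0), ht0v, hsv, add_zero]
    obtain ⟨p0, rfl⟩ := hsurj b
    exact ⟨p0, (hA.mem _).2 (Or.inr (by omega)), h1⟩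
  -- elements of `q`
  have hq : ∀ p, X.cl p ∈ q → ∃ s p' g, X.cl s ∉ q ∧ s * p = p' * p0 + g * X.f := by
    intro p hp
    have hp00 : algebraMap X.B L (X.cl p0) ≠ 0 := by
      intro h0
      rw [h0, E'.v_zero] at hp0v
      omega
    have hz : E'.Int (algebraMap X.B L (X.cl p) / algebraMap X.B L (X.cl p0)) := by
      by_cases h1 : algebraMap X.B L (X.cl p) = 0
      · left
        rw [h1, zero_div]
      · right
        rw [E'.v_div _ _ h1 hp00, hp0v]
        have h2 := ((hA.mem _).1 hp).resolve_left (fun h0 => h1 (by rw [h0, map_zero]))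
        omega
    obtain ⟨b, s', hs', hbs⟩ := hA.loc _ hz
    obtain ⟨s, rfl⟩ := hsurj s'
    obtain ⟨p', rfl⟩ := hsurj b
    have h3 : X.cl (s * p - p' * p0) = 0 := by
      apply hinjL
      rw [map_sub, map_mul, map_mul, map_sub, map_mul, map_mul, map_zero, ← hbs]
      field_simp
      ring
    have h4 : X.f ∣ s * p - p' * p0 :=
      Ideal.mem_span_singleton.1 (Ideal.Quotient.eq_zero_iff_mem.1 h3)
    obtain ⟨g, hg⟩ := h4
    exact ⟨s, p', g, hs', by linear_combination hg⟩
  -- a transcendence basis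
  have hclaeval : X.cl = aeval X.x := by
    apply MvPolynomial.algHom_ext
    intro i
    rw [aeval_X]
    rfl
  have hgenB : Algebra.adjoin k (Set.range X.x) = ⊤ := by
    rw [Algebra.adjoin_range_eq_range_aeval, ← hclaeval]
    exact (AlgHom.range_eq_top _).2 hsurj
  have hgenC : Algebra.adjoin k (Set.range fun i => π (X.x i)) = ⊤ := by
    rw [show (fun i => π (X.x i)) = π ∘ X.x from rfl, Set.range_comp, ← AlgHom.map_adjoin, hgenB,
      Algebra.map_top]
    exact (AlgHom.range_eq_top _).2 Ideal.Quotient.mk_surjective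
  obtain ⟨t, ht1, ht2⟩ : ∃ t ⊆ Set.range (fun i => π (X.x i)),
      IsTranscendenceBasis k (Subtype.val : t → C) := by
    have : Algebra.IsAlgebraic (Algebra.adjoin k (Set.range fun i => π (X.x i))) C := by
      refine ⟨fun b => ?_⟩
      exact isAlgebraic_algebraMap
        (⟨b, by rw [hgenC]; trivial⟩ : Algebra.adjoin k (Set.range fun i => π (X.x i)))
    exact exists_isTranscendenceBasis_subset _
  choose J hJ using fun i : t => ht1 i.2
  have hcard : Nat.card t < d := by
    obtain ⟨b, hb, hb0⟩ := Submodule.exists_mem_ne_zero_of_ne_bot hA.ne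
    refine card_lt X.x hgenB X.f X.irr.ne_zero ?_ π b hb0 ((hπ b).2 hb) J hJ ht2.1
    rw [← hclaeval, hclf]
  have : Finite t := by
    refine Finite.of_injective J fun i j hij => Subtype.ext ?_
    rw [← hJ i, ← hJ j, hij]
  -- the derivation
  obtain ⟨c, hc0, hc1, hc2⟩ : ∃ c : Fin (d + 1) → κ, c ≠ 0 ∧ (∀ i : t, c (J i) = 0) ∧
      ∑ l, c l * ι (ψ (pderiv l p0)) = 0 := by
    have : Fintype t := Fintype.ofFinite t
    let F : (Fin (d + 1) → κ) →ₗ[κ] (t → κ) × κ :=
      (LinearMap.pi fun i : t => LinearMap.proj (J i)).prod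
        (∑ l, ι (ψ (pderiv l p0)) • LinearMap.proj l)
    have hF : LinearMap.ker F ≠ ⊥ := by
      apply LinearMap.ker_ne_bot_of_finrank_lt
      rw [Module.finrank_prod, Module.finrank_fintype_fun_eq_card, Module.finrank_fin_fun,
        Module.finrank_self, ← Nat.card_eq_fintype_card]
      omega
    obtain ⟨c, hc, hc0⟩ := Submodule.exists_mem_ne_zero_of_ne_bot hF
    rw [LinearMap.mem_ker] at hc
    refine ⟨c, hc0, fun i => congrFun (congrArg Prod.fst hc) i, ?_⟩
    have h2 := congrArg Prod.snd hc
    have h3 : (∑ l, ι (ψ (pderiv l p0)) • (LinearMap.proj l :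
        (Fin (d + 1) → κ) →ₗ[κ] κ)) c = 0 := h2
    rw [LinearMap.sum_apply] at h3
    rw [← h3]
    refine Finset.sum_congr rfl fun l _ => ?_
    rw [LinearMap.smul_apply, LinearMap.proj_apply, smul_eq_mul, mul_comm]
  let δ : MvPolynomial (Fin (d + 1)) k → κ := fun p => ∑ l, c l * ι (ψ (pderiv l p))
  have hadd : ∀ p q, δ (p + q) = δ p + δ q := by
    intro p q
    simp only [δ, map_add, mul_add, Finset.sum_add_distrib]
  have hmul : ∀ p q, δ (p * q) = ι (ψ p) * δ q + ι (ψ q) * δ p := by
    intro p q
    simp only [δ, Derivation.leibniz, smul_eq_mul, map_add, map_mul, mul_add,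
      Finset.sum_add_distrib, Finset.mul_sum]
    congr 1 <;> exact Finset.sum_congr rfl fun l _ => by ring
  have hf : δ X.f = 0 := by
    refine Finset.sum_eq_zero fun l _ => ?_
    rw [hψ, (hπ _).2 (hcon l), map_zero, mul_zero]
  have hψf : ψ X.f = 0 := by rw [hψ, hclf, map_zero]
  have hψp0 : ψ p0 = 0 := by rw [hψ, (hπ _).2 hp0]
  have hker : ∀ p, ψ p = 0 → δ p = 0 := by
    intro p hp
    obtain ⟨s, p', g, hs, he⟩ := hq p ((hπ _).1 hp)
    have h1 := congrArg δ he
    rw [hadd, hmul, hmul, hmul, hf, hψf, hp, hψp0, show δ p0 = 0 from hc2] at h1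
    simp only [map_zero, zero_mul, mul_zero, add_zero] at h1
    refine (mul_eq_zero.1 h1).resolve_left ?_
    intro h2
    apply hs
    rw [← hπ, ← hψ]
    apply hι
    rw [h2, map_zero]
  let S : Subring C := (Algebra.adjoin k t).toSubring
  have hδC : ∀ a : k, δ (MvPolynomial.C a) = 0 := by
    intro a
    simp [δ]
  have hδX : ∀ l, δ (MvPolynomial.X l) = c l := by
    intro l
    simp only [δ]
    rw [Finset.sum_eq_single l]
    · rw [pderiv_X_self, map_one, map_one, mul_one]
    · intro j _ hj
      rw [pderiv_X_of_ne hj.symm, map_zero, map_zero, mul_zero]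
    · intro h0
      exact absurd (Finset.mem_univ l) h0
  have hS : ∀ s ∈ S, ∃ z, ψ z = s ∧ δ z = 0 := by
    intro s hs
    have hs' : s ∈ Algebra.adjoin k t := hs
    induction hs' using Algebra.adjoin_induction with
    | mem x hx =>
      refine ⟨MvPolynomial.X (J ⟨x, hx⟩), ?_, ?_⟩
      · rw [hψ]
        exact hJ ⟨x, hx⟩
      · rw [hδX, hc1]
    | algebraMap r => exact ⟨MvPolynomial.C r, by rw [hψ]; exact (π.comp X.cl).commutes r, hδC r⟩
    | add x y hx hy ihx ihy =>
      obtain ⟨z, hz1, hz2⟩ := ihx hx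
      obtain ⟨w, hw1, hw2⟩ := ihy hy
      exact ⟨z + w, by rw [map_add, hz1, hw1], by rw [hadd, hz2, hw2, add_zero]⟩
    | mul x y hx hy ihx ihy =>
      obtain ⟨z, hz1, hz2⟩ := ihx hx
      obtain ⟨w, hw1, hw2⟩ := ihy hy
      exact ⟨z * w, by rw [map_mul, hz1, hw1], by rw [hmul, hz2, hw2, mul_zero, mul_zero, add_zero]⟩
  apply hc0
  funext l
  rw [← hδX l]
  refine deriv_zero ψ ι hι δ hadd hmul hker S hS _ ?_
  have h1 := ht2.isAlgebraic
  rw [Subtype.range_coe] at h1
  exact h1.isAlgebraic _

end Pool.Agent.GAP
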