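import Pool.Agent.GAP.Tof2

/-!
# GAP, module KER: the kernel of the evaluation of Laurent polynomials

Proof. `←` is `ev_F`. `→`: let `R = AddMonoidAlgebra k (Fin (d+1) → ℤ)` (a domain) and consider
`a ∈ k[M]` as an element of `R` (`mapDomain` of the inclusion, injective). Let `N` be so large that
`single (N 1) 1 * a` has only nonnegative exponents: it is the image of a polynomial `p` under
`MvPolynomial (Fin (d+1)) k → R`. The class of `p` in `B ⊆ L` is `mono (N 1)` times the image of
`ev a = 0` (`ev_mono`), so `f ∣ p`, `p = f g`. In `R`: `f = single m0 1 * F` and so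
`a = F * (single (m0 - N 1) 1 * g) = F * g'`, `g' ∈ R`. Write `g' = g₁ + g₂` with `g₁` the part with
exponents in `M` and `g₂` the rest. `F g₁` and `a` have their exponents in `M`, those of `F g₂` are all
outside `M` (`M + (ℤ^n ∖ M) ⊆ ℤ^n ∖ M`), so `F g₂ = 0` and `a = F g₁`. (One need not know `g₂ = 0`.)
-/

set_option linter.dupNamespace false

namespace Pool.Agent.GAP

open MvPolynomial

universe u

variable {k : Type u} [Field k] {d : ℕ} {X : Pre k (d + 1)} {K L : Type*} [Field K] [Field L]
    [Algebra k K] [Algebra k L] [Algebra X.A K] [Algebra X.B L] [Algebra K L] {T : TorData k K d}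

open Classical in
private noncomputable def Phi (T : TorData k K d) (s : Fin (d + 1) → ℤ) :
    MvPolynomial (Fin (d + 1)) k →ₗ[k] AddMonoidAlgebra k T.M :=
  (MvPolynomial.basisMonomials (Fin (d + 1)) k).constr k
    (fun u => if h : (fun i => (u i : ℤ) + s i) ∈ T.M then
      AddMonoidAlgebra.single ⟨_, h⟩ 1 else 0)

private theorem Phi_monomial (T : TorData k K d) (s : Fin (d + 1) → ℤ)
    (u : Fin (d + 1) →₀ ℕ) (c : k) (h : (fun i => (u i : ℤ) + s i) ∈ T.M) :
    Phi T s (monomial u c) = AddMonoidAlgebra.single ⟨_, h⟩ c := by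
  have h1 : (monomial u c : MvPolynomial (Fin (d + 1)) k) =
      c • MvPolynomial.basisMonomials (Fin (d + 1)) k u := by
    rw [MvPolynomial.coe_basisMonomials, smul_monomial, smul_eq_mul, mul_one]
  rw [h1, map_smul, Phi, Module.Basis.constr_basis, dif_pos h, AddMonoidAlgebra.smul_single,
    smul_eq_mul, mul_one]

private theorem Phi_monomial' (T : TorData k K d) (s : Fin (d + 1) → ℤ)
    (u : Fin (d + 1) →₀ ℕ) (c : k) (h : (fun i => (u i : ℤ) + s i) ∉ T.M) :
    Phi T s (monomial u c) = 0 := by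
  have h1 : (monomial u c : MvPolynomial (Fin (d + 1)) k) =
      c • MvPolynomial.basisMonomials (Fin (d + 1)) k u := by
    rw [MvPolynomial.coe_basisMonomials, smul_monomial, smul_eq_mul, mul_one]
  rw [h1, map_smul, Phi, Module.Basis.constr_basis, dif_neg h, smul_zero]

private theorem Phi_mul (T : TorData k K d) (s : Fin (d + 1) → ℤ) {m : Fin (d + 1) →₀ ℕ}
    (hm : m ∈ T.f.support) (c : k) (g : MvPolynomial (Fin (d + 1)) k) :
    Phi T s (monomial m c * g) =
      AddMonoidAlgebra.single (T.δ m) c * Phi T (fun i => s i + T.m0 i) g := by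
  induction g using MvPolynomial.induction_on' with
  | add p q hp hq => rw [mul_add, map_add, map_add, hp, hq, mul_add]
  | monomial u a =>
    rw [monomial_mul]
    have key : (fun i => (((m + u) i : ℕ) : ℤ) + s i) =
        (T.δ m : Fin (d + 1) → ℤ) + fun i => (u i : ℤ) + (s i + T.m0 i) := by
      funext i
      rw [Pi.add_apply, T.δ_eq m hm i, Finsupp.add_apply]
      push_cast
      ring
    by_cases h : (fun i => (u i : ℤ) + (s i + T.m0 i)) ∈ T.M
    · have h2 : (fun i => (((m + u) i : ℕ) : ℤ) + s i) ∈ T.M := by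
        rw [key]
        exact T.M.add_mem (T.δ m).2 h
      rw [Phi_monomial T s _ _ h2, Phi_monomial T _ _ _ h, AddMonoidAlgebra.single_mul_single]
      congr 1
      exact Subtype.ext key
    · have h2 : (fun i => (((m + u) i : ℕ) : ℤ) + s i) ∉ T.M := by
        intro h3
        apply h
        rw [key] at h3
        exact (T.M.add_mem_cancel_left (T.δ m).2).1 h3
      rw [Phi_monomial' T s _ _ h2, Phi_monomial' T _ _ _ h, mul_zero]

private theorem Phi_f_mul (T : TorData k K d) (s : Fin (d + 1) → ℤ)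
    (g : MvPolynomial (Fin (d + 1)) k) :
    Phi T s (T.f * g) = T.F * Phi T (fun i => s i + T.m0 i) g := by
  conv_lhs => rw [MvPolynomial.as_sum T.f]
  rw [Finset.sum_mul, map_sum, TorData.F, Finset.sum_mul]
  exact Finset.sum_congr rfl fun m hm => Phi_mul T s hm _ g

theorem torOf_ker (h : Ctx X K L) (hT : TorOf X L T) (a : AddMonoidAlgebra k T.M) :
    T.ev a = 0 ↔ T.F ∣ a := by
  classical
  constructor
  swap
  · rintro ⟨g, rfl⟩
    rw [map_mul, ev_F h hT, zero_mul]
  intro ha
  obtain ⟨N, hN⟩ : ∃ N : ℤ, ∀ m ∈ a.coeff.support, ∀ i, 0 ≤ (m : Fin (d + 1) → ℤ) i + N := by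
    obtain ⟨N, hN⟩ := (Finset.image (fun p : T.M × Fin (d + 1) => -(p.1 : Fin (d + 1) → ℤ) p.2)
      (a.coeff.support ×ˢ Finset.univ)).bddAbove
    refine ⟨N, fun m hm i => ?_⟩
    have := hN (Finset.mem_coe.2 (Finset.mem_image.2 ⟨(m, i),
      Finset.mem_product.2 ⟨hm, Finset.mem_univ _⟩, rfl⟩))
    simp only at this
    omega
  set ex : T.M → (Fin (d + 1) →₀ ℕ) := fun m =>
    Finsupp.equivFunOnFinite.symm fun i => ((m : Fin (d + 1) → ℤ) i + N).toNat with hex
  have hexi : ∀ m ∈ a.coeff.support, ∀ i, ((ex m i : ℕ) : ℤ) = (m : Fin (d + 1) → ℤ) i + N := by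
    intro m hm i
    rw [hex]
    simp only [Finsupp.equivFunOnFinite_symm_apply_apply]
    rw [Int.toNat_of_nonneg (hN m hm i)]
  set p : MvPolynomial (Fin (d + 1)) k :=
    ∑ m ∈ a.coeff.support, monomial (ex m) (a.coeff m) with hp
  have hB := h.towerL
  have hfr := h.fracL
  have hcl : algebraMap X.B L (X.cl p) = 0 := by
    have h1 : ∀ m ∈ a.coeff.support, algebraMap X.B L (X.cl (monomial (ex m) (a.coeff m))) =
        X.mono L (fun _ => N) * (algebraMap k L (a.coeff m) * X.mono L m) := by
      intro m hm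
      have h2 : (monomial (ex m) (a.coeff m) : MvPolynomial (Fin (d + 1)) k) =
          a.coeff m • monomial (ex m) 1 := by
        rw [smul_monomial, smul_eq_mul, mul_one]
      have h3 : (fun i => ((ex m i : ℕ) : ℤ)) = (fun _ => N) + (m : Fin (d + 1) → ℤ) := by
        funext i
        rw [hexi m hm i, Pi.add_apply, add_comm]
      rw [h2, map_smul, Algebra.smul_def, map_mul, ← IsScalarTower.algebraMap_apply,
        ← mono_nat (K := K) X h, h3, mono_add (K := K) X h]
      ring
    rw [hp, map_sum, map_sum, Finset.sum_congr rfl h1, ← Finset.mul_sum, ← ev_mono h hT, ha,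
      map_zero, mul_zero]
  have hcl0 : X.cl p = 0 := by
    apply IsFractionRing.injective X.B L
    rw [hcl, map_zero]
  have hdvd : X.f ∣ p := by
    have h1 : p ∈ Ideal.span {X.f} := by
      rw [← Ideal.Quotient.eq_zero_iff_mem]
      exact hcl0
    exact Ideal.mem_span_singleton.1 h1
  obtain ⟨g, hg⟩ := hdvd
  have hPhi : Phi T (fun _ => -N) p = a := by
    rw [hp, map_sum]
    conv_rhs => rw [← AddMonoidAlgebra.sum_coeff_single a]
    refine Finset.sum_congr rfl fun m hm => ?_
    have h3 : (fun i => ((ex m i : ℕ) : ℤ) + -N) = (m : Fin (d + 1) → ℤ) := by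
      funext i
      rw [hexi m hm i]
      ring
    have h4 : (fun i => ((ex m i : ℕ) : ℤ) + -N) ∈ T.M := by
      rw [h3]
      exact m.2
    rw [Phi_monomial T _ _ _ h4]
    congr 1
    exact Subtype.ext h3
  refine ⟨Phi T (fun i => -N + T.m0 i) g, ?_⟩
  rw [← Phi_f_mul, hT.f_eq, ← hg, hPhi]

end Pool.Agent.GAP
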