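import Pool.Agent.GAP.Bas

/-!
# GAP, module KPH: the kernel of the polynomial chart
-/

set_option linter.dupNamespace false

namespace Pool.Agent.GAP

open AddMonoidAlgebra

variable {k K : Type*} [Field k] [Field K] [Algebra k K] {d : ℕ}

variable {T : TorData k K d} {w : T.M →+ ℤ} (H : Chart T w)

namespace Chart

/-- The element of `M` with given coordinates. -/
def mb (s : ℤ) (e : Fin d → ℤ) : T.M := s • H.b0 + ∑ j, e j • H.b j

theorem w_mb (s : ℤ) (e : Fin d → ℤ) : w (H.mb s e) = s := by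
  simp [mb, H.w0, H.wb]

theorem c_mb (s : ℤ) (e : Fin d → ℤ) : H.c (H.mb s e) = e := by
  funext i
  simp [mb, H.c0, H.cb, Finset.sum_apply, Pi.single_apply]

theorem mb_coords (m : T.M) : H.mb (w m) (H.c m) = m := (H.eq m).symm

theorem mb_add (s s' : ℤ) (e e' : Fin d → ℤ) :
    H.mb (s + s') (e + e') = H.mb s e + H.mb s' e' := by
  simp only [mb, add_smul, Pi.add_apply, Finset.sum_add_distrib]
  abel

theorem mb_inj {s s' : ℤ} {e e' : Fin d → ℤ} : H.mb s e = H.mb s' e' ↔ s = s' ∧ e = e' := by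
  constructor
  · intro h
    refine ⟨?_, ?_⟩
    · rw [← H.w_mb s e, h, H.w_mb]
    · rw [← H.c_mb s e, h, H.c_mb]
  · rintro ⟨rfl, rfl⟩
    rfl

/-- The substitution `X ↦ χ(b0)`, `X_j ↦ χ(b_j)` in the Laurent polynomials. -/
noncomputable def ψ : Polynomial (MvPolynomial (Fin d) k) →+* AddMonoidAlgebra k T.M :=
  Polynomial.eval₂RingHom (MvPolynomial.aeval (fun j => single (H.b j) (1 : k))).toRingHom
    (single H.b0 1)

theorem ψ_monomial (s : ℕ) (e : Fin d →₀ ℕ) (c : k) :
    H.ψ (Polynomial.monomial s (MvPolynomial.monomial e c)) =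
      single (H.mb s (fun j => (e j : ℤ))) c := by
  unfold ψ
  rw [Polynomial.coe_eval₂RingHom, Polynomial.eval₂_monomial]
  show MvPolynomial.aeval (fun j => single (H.b j) (1 : k)) (MvPolynomial.monomial e c) * _ = _
  rw [MvPolynomial.aeval_monomial, Finsupp.prod_fintype _ _ (fun i => pow_zero _)]
  simp only [AddMonoidAlgebra.single_pow, one_pow, AddMonoidAlgebra.prod_single,
    Finset.prod_const_one]
  rw [AddMonoidAlgebra.coe_algebraMap, Function.comp_apply, Algebra.algebraMap_self,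
    RingHom.id_apply, AddMonoidAlgebra.single_mul_single, AddMonoidAlgebra.single_mul_single,
    mul_one, mul_one]
  congr 1
  simp only [mb, zero_add, natCast_zsmul]
  exact add_comm _ _

theorem ψ_coeff (x : Polynomial (MvPolynomial (Fin d) k)) (s : ℕ) (e : Fin d →₀ ℕ) :
    (H.ψ x).coeff (H.mb s (fun j => (e j : ℤ))) = (x.coeff s).coeff e := by
  classical
  induction x using Polynomial.induction_on' with
  | add x y hx hy =>
    rw [map_add, AddMonoidAlgebra.coeff_add, Finsupp.add_apply, hx, hy, Polynomial.coeff_add,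
      MvPolynomial.coeff_add]
  | monomial n a =>
    induction a using MvPolynomial.induction_on' with
    | add x y hx hy =>
      rw [map_add, map_add, AddMonoidAlgebra.coeff_add, Finsupp.add_apply, hx, hy,
        Polynomial.coeff_add, MvPolynomial.coeff_add]
    | monomial e' c =>
      rw [ψ_monomial, AddMonoidAlgebra.coeff_single, Finsupp.single_apply,
        Polynomial.coeff_monomial]
      by_cases h1 : n = s
      · subst h1
        rw [if_pos rfl, MvPolynomial.coeff_monomial]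
        by_cases h2 : e' = e
        · subst h2
          rw [if_pos rfl, if_pos rfl]
        · rw [if_neg h2, if_neg]
          intro h3
          apply h2
          ext j
          exact Nat.cast_injective (R := ℤ) (congrFun (H.mb_inj.1 h3).2 j)
      · rw [if_neg h1, MvPolynomial.coeff_zero, if_neg]
        intro h3
        exact h1 (Nat.cast_injective (R := ℤ) (H.mb_inj.1 h3).1)

theorem ψ_eq_zero {x : Polynomial (MvPolynomial (Fin d) k)} (h : H.ψ x = 0) : x = 0 := by
  ext s e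
  rw [← H.ψ_coeff, h]
  rfl

theorem ψ_injective : Function.Injective H.ψ :=
  (injective_iff_map_eq_zero H.ψ).2 fun _ h => H.ψ_eq_zero h

theorem ψ_shift (g : AddMonoidAlgebra k T.M) : ∃ N0 : ℕ, ∀ N : ℕ, N0 ≤ N →
    ∃ g2, single (H.mb N (fun _ => (N : ℤ))) 1 * g = H.ψ g2 := by
  induction g using AddMonoidAlgebra.induction_linear with
  | zero => exact ⟨0, fun N _ => ⟨0, by rw [mul_zero, map_zero]⟩⟩
  | add x y hx hy =>
    obtain ⟨N1, h1⟩ := hx
    obtain ⟨N2, h2⟩ := hy
    refine ⟨max N1 N2, fun N hN => ?_⟩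
    obtain ⟨g1, hg1⟩ := h1 N (le_trans (le_max_left _ _) hN)
    obtain ⟨g2, hg2⟩ := h2 N (le_trans (le_max_right _ _) hN)
    exact ⟨g1 + g2, by rw [mul_add, hg1, hg2, map_add]⟩
  | single m c =>
    refine ⟨(w m).natAbs + ∑ j, (H.c m j).natAbs, fun N hN => ?_⟩
    refine ⟨Polynomial.monomial (N + w m).toNat (MvPolynomial.monomial
      (Finsupp.equivFunOnFinite.symm fun j => (N + H.c m j).toNat) c), ?_⟩
    rw [ψ_monomial, AddMonoidAlgebra.single_mul_single, one_mul]
    congr 1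
    conv_lhs => rw [← H.mb_coords m, ← mb_add]
    rw [mb_inj]
    refine ⟨?_, ?_⟩
    · rw [Int.toNat_of_nonneg]
      omega
    · funext j
      have h1 := Finset.single_le_sum (f := fun j => (H.c m j).natAbs)
        (fun _ _ => Nat.zero_le _) (Finset.mem_univ j)
      simp only [Pi.add_apply, Finsupp.equivFunOnFinite_symm_apply_apply] at h1 ⊢
      rw [Int.toNat_of_nonneg]
      omega

theorem φ_apply (x : Polynomial (MvPolynomial (Fin d) k)) : H.φ x = T.ev (H.ψ x) := by
  have h : H.φ = (T.ev : AddMonoidAlgebra k T.M →+* K).comp H.ψ := by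
    apply Polynomial.ringHom_ext'
    · apply MvPolynomial.ringHom_ext
      · intro c
        simp [φ, ψ]
        rw [T.ev_single, T.mon_zero, Algebra.smul_def, mul_one]
      · intro j
        simp [φ, ψ, TorData.ev_single]
    · simp [φ, ψ, TorData.ev_single]
  rw [h]
  rfl

theorem ex_eq {a : Fin d → ℤ} {m : Fin (d + 1) →₀ ℕ} (ha : ∀ j, 0 ≤ a j + H.c (T.δ m) j)
    (j : Fin d) : ((H.ex a m j : ℕ) : ℤ) = a j + H.c (T.δ m) j :=
  Int.toNat_of_nonneg (ha j)

/-- The polynomial chart: `F_2` is a monomial times `F`. -/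
theorem ψ_F2 {r : ℤ} (hr : T.IsMin w r) {a : Fin d → ℤ}
    (ha : ∀ m ∈ T.f.support, ∀ j, 0 ≤ a j + H.c (T.δ m) j) :
    H.ψ (H.F2 r a) = single (H.mb (-r) a) 1 * T.F := by
  unfold F2 TorData.F
  rw [map_sum, Finset.mul_sum]
  refine Finset.sum_congr rfl fun m hm => ?_
  rw [ψ_monomial, AddMonoidAlgebra.single_mul_single, one_mul]
  congr 1
  conv_rhs => rw [← H.mb_coords (T.δ m), ← mb_add]
  rw [mb_inj]
  refine ⟨?_, ?_⟩
  · rw [Int.toNat_of_nonneg (by have := hr.2 m hm; omega)]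
    ring
  · funext j
    exact H.ex_eq (ha m hm) j

/-- Different exponents of the same weight give different exponents of `H_0`. -/
theorem ex_injOn {a : Fin d → ℤ} (ha : ∀ m ∈ T.f.support, ∀ j, 0 ≤ a j + H.c (T.δ m) j)
    {m m' : Fin (d + 1) →₀ ℕ} (hm : m ∈ T.f.support) (hm' : m' ∈ T.f.support)
    (hw : w (T.δ m) = w (T.δ m')) (h : H.ex a m = H.ex a m') : m = m' := by
  have h1 : T.δ m = T.δ m' := by
    rw [← H.mb_coords (T.δ m), ← H.mb_coords (T.δ m'), mb_inj]
    refine ⟨hw, funext fun j => ?_⟩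
    have h2 := H.ex_eq (ha m hm) j
    have h3 := H.ex_eq (ha m' hm') j
    rw [h] at h2
    linarith
  ext i
  have h2 := T.δ_eq m hm i
  have h3 := T.δ_eq m' hm' i
  rw [h1, h3] at h2
  omega

theorem coeff_H0 {r : ℤ} {a : Fin d → ℤ}
    (ha : ∀ m ∈ T.f.support, ∀ j, 0 ≤ a j + H.c (T.δ m) j) {m : Fin (d + 1) →₀ ℕ}
    (hm : m ∈ T.f.support) (hw : w (T.δ m) = r) :
    (H.H0 r a).coeff (H.ex a m) = MvPolynomial.coeff m T.f := by
  classical
  unfold H0
  rw [MvPolynomial.coeff_sum, Finset.sum_eq_single m]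
  · rw [MvPolynomial.coeff_monomial, if_pos rfl]
  · intro m' hm' hne
    rw [Finset.mem_filter] at hm'
    rw [MvPolynomial.coeff_monomial, if_neg]
    intro h
    exact hne (H.ex_injOn ha hm'.1 hm (hm'.2.trans hw.symm) h)
  · intro h
    exact absurd (Finset.mem_filter.2 ⟨hm, hw⟩) h

theorem H0_ne {r : ℤ} (hr : T.IsMin w r) {a : Fin d → ℤ}
    (ha : ∀ m ∈ T.f.support, ∀ j, 0 ≤ a j + H.c (T.δ m) j) : H.H0 r a ≠ 0 := by
  obtain ⟨m, hm, hw⟩ := hr.1
  intro h
  have h1 := H.coeff_H0 ha hm hw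
  rw [h, MvPolynomial.coeff_zero] at h1
  exact (MvPolynomial.mem_support_iff.1 hm) h1.symm

end Chart

/-- The kernel of `φ`. Proof. Let `ψ : (k[X_j])[X] → k[M]`, `X^s y^e ↦ single (s b0 + ∑ e_j b_j) 1`; it
is injective (different monomials go to different monomials) and `φ = ev ∘ ψ`. With the shift
`s_F = -r b0 + ∑ a_j b_j ∈ M`: `ψ F_2 = single s_F 1 * F`, so `φ F_2 = 0` and if `φ x = 0` then
`F ∣ ψ x`, `ψ x = F g`. For `N` large `single (N b0 + ∑ N b_j) 1 * g = ψ g_2`, so
`ψ (X^N' y^(e) x) = ψ (F_2 g_2)` for suitable exponents `N'`, `e ≥ 0` (if the shifts have the wrong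
sign enlarge `N`), so `X^N' y^e x = F_2 g_2`. Since `X` is prime and does not divide `F_2`
(its coefficient `H0` is not zero: distinct `m` have distinct exponents `ex a m`, because
`m` is determined by `δ m`), `X^N'` divides `g_2`, and `y^e x = F_2 g_3`. -/
theorem ker_phi (hT : T.OK) {r : ℤ} (hr : T.IsMin w r) {a : Fin d → ℤ}
    (ha : ∀ m ∈ T.f.support, ∀ j, 0 ≤ a j + H.c (T.δ m) j) :
    H.φ (H.F2 r a) = 0 ∧ ∀ x, H.φ x = 0 →
      ∃ e : Fin d →₀ ℕ, H.F2 r a ∣ Polynomial.C (MvPolynomial.monomial e 1) * x := by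
  refine ⟨?_, fun x hx => ?_⟩
  · rw [H.φ_apply, H.ψ_F2 hr ha, map_mul, (hT.ker T.F).2 dvd_rfl, mul_zero]
  · rw [H.φ_apply] at hx
    obtain ⟨g, hg⟩ := (hT.ker _).1 hx
    obtain ⟨N0, hN0⟩ := H.ψ_shift g
    let N : ℕ := N0 + r.natAbs + ∑ j, (a j).natAbs
    obtain ⟨g2, hg2⟩ := hN0 N (by omega)
    have hNr : 0 ≤ (N : ℤ) - r := by omega
    have hNa : ∀ j, 0 ≤ (N : ℤ) + a j := by
      intro j
      have h1 := Finset.single_le_sum (f := fun j => (a j).natAbs)
        (fun _ _ => Nat.zero_le _) (Finset.mem_univ j)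
      omega
    let e : Fin d →₀ ℕ := Finsupp.equivFunOnFinite.symm fun j => (N + a j).toNat
    have h1 : Polynomial.monomial ((N : ℤ) - r).toNat (MvPolynomial.monomial e (1 : k)) * x =
        H.F2 r a * g2 := by
      apply H.ψ_injective
      rw [map_mul, map_mul, H.ψ_F2 hr ha, H.ψ_monomial, hg, ← hg2]
      have h2 : H.mb (((N : ℤ) - r).toNat : ℤ) (fun j => ((e j : ℕ) : ℤ)) =
          H.mb (-r) a + H.mb N (fun _ => (N : ℤ)) := by
        rw [← H.mb_add, H.mb_inj]
        refine ⟨?_, ?_⟩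
        · rw [Int.toNat_of_nonneg hNr]
          ring
        · funext j
          show (((N + a j).toNat : ℕ) : ℤ) = a j + N
          rw [Int.toNat_of_nonneg (hNa j)]
          ring
      rw [h2]
      have h3 : (single (H.mb (-r) a + H.mb N (fun _ => (N : ℤ))) (1 : k)) =
          single (H.mb (-r) a) 1 * single (H.mb N (fun _ => (N : ℤ))) 1 := by
        rw [AddMonoidAlgebra.single_mul_single, one_mul]
      rw [h3]
      ring
    have h4 : Polynomial.monomial ((N : ℤ) - r).toNat (MvPolynomial.monomial e (1 : k)) =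
        Polynomial.X ^ ((N : ℤ) - r).toNat * Polynomial.C (MvPolynomial.monomial e (1 : k)) := by
      rw [Polynomial.X_pow_mul, Polynomial.C_mul_X_pow_eq_monomial]
    rw [h4, mul_assoc] at h1
    have h5 : ¬ Polynomial.X ∣ H.F2 r a := by
      rw [Polynomial.X_dvd_iff, coeff_F2 H hr a]
      exact H.H0_ne hr ha
    have h6 : Polynomial.X ^ ((N : ℤ) - r).toNat ∣ g2 :=
      Polynomial.prime_X.pow_dvd_of_dvd_mul_left _ h5 (Dvd.intro _ h1)
    obtain ⟨g3, hg3⟩ := h6
    refine ⟨e, g3, ?_⟩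
    have h7 : Polynomial.X ^ ((N : ℤ) - r).toNat *
        (Polynomial.C (MvPolynomial.monomial e (1 : k)) * x) =
        Polynomial.X ^ ((N : ℤ) - r).toNat * (H.F2 r a * g3) := by
      rw [h1, hg3]
      ring
    exact mul_left_cancel₀ (pow_ne_zero _ Polynomial.X_ne_zero) h7

end Pool.Agent.GAP
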