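import Pool.Agent.GAP.Nv

/-!
# GAP, module LAT: the lattice of a prime divisor in the rational `d`-forms
-/

set_option linter.dupNamespace false

namespace Pool.Agent.GAP

variable {k K : Type*} [Field k] [Field K] [Algebra k K] (E : NVal k K)

/-- The additive group generated by the differentials `a dg` with `a`, `g` in the valuation
ring. -/
noncomputable def NVal.lo : AddSubgroup (Ω[K⁄k]) :=
  AddSubgroup.closure {ω | ∃ a g : K, E.Int a ∧ E.Int g ∧ ω = a • KaehlerDifferential.D k K g}

/-- Closure induction. -/
theorem lo_smul {a : K} (ha : E.Int a) {ω : Ω[K⁄k]} (hω : ω ∈ E.lo) : a • ω ∈ E.lo := by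
  refine AddSubgroup.closure_induction (p := fun x _ => a • x ∈ E.lo) ?_ ?_ ?_ ?_ hω
  · rintro x ⟨b, g, hb, hg, rfl⟩
    exact AddSubgroup.subset_closure ⟨a * b, g, ha.mul hb, hg, by rw [smul_smul]⟩
  · rw [smul_zero]
    exact zero_mem _
  · intro x y _ _ hx hy
    rw [smul_add]
    exact add_mem hx hy
  · intro x _ hx
    rw [smul_neg]
    exact neg_mem hx

/-- Closure induction. -/
theorem lat_smul {d : ℕ} {a : K} (ha : E.Int a) {ω : ⋀[K]^d (Ω[K⁄k])} (hω : ω ∈ E.lat d) :
    a • ω ∈ E.lat d := by
  refine AddSubgroup.closure_induction (p := fun x _ => a • x ∈ E.lat d) ?_ ?_ ?_ ?_ hω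
  · rintro x ⟨b, g, hb, hg, rfl⟩
    exact AddSubgroup.subset_closure ⟨a * b, g, ha.mul hb, hg, by rw [smul_smul]⟩
  · rw [smul_zero]
    exact zero_mem _
  · intro x y _ _ hx hy
    rw [smul_add]
    exact add_mem hx hy
  · intro x _ hx
    rw [smul_neg]
    exact neg_mem hx

theorem D_mem_lo {g : K} (hg : E.Int g) : KaehlerDifferential.D k K g ∈ E.lo := by
  exact AddSubgroup.subset_closure ⟨1, g, NVal.Int.one, hg, by rw [one_smul]⟩

/-- The wedge of elements of `lo` lies in the lattice. Proof: multilinearity; show by induction on
`m ≤ d` (or on a finset of places) that `ιMulti α` is in `lat` if the places in the finset are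
arbitrary elements of `lo` and the others are of the form `a • D g`; in one place use
`AddSubgroup.closure_induction`. -/
theorem wedge_mem {d : ℕ} {α : Fin d → Ω[K⁄k]} (hα : ∀ i, α i ∈ E.lo) :
    exteriorPower.ιMulti K d α ∈ E.lat d := by
  classical
  have key : ∀ s : Finset (Fin d), ∀ α : Fin d → Ω[K⁄k], (∀ i, α i ∈ E.lo) →
      (∀ i, i ∉ s → ∃ a g : K, E.Int a ∧ E.Int g ∧ α i = a • KaehlerDifferential.D k K g) →
      exteriorPower.ιMulti K d α ∈ E.lat d := by
    intro s
    induction s using Finset.induction_on with
    | empty =>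
      intro α _ h
      choose a g ha hg hag using fun i => h i (Finset.notMem_empty i)
      have h1 : α = fun i => a i • KaehlerDifferential.D k K (g i) := funext hag
      rw [h1]
      rw [AlternatingMap.map_smul_univ]
      refine AddSubgroup.subset_closure ⟨∏ i, a i, g, ?_, hg, rfl⟩
      have h2 : ∀ t : Finset (Fin d), E.Int (∏ i ∈ t, a i) := by
        intro t
        induction t using Finset.induction_on with
        | empty => rw [Finset.prod_empty]; exact NVal.Int.one
        | insert j t hj ih => rw [Finset.prod_insert hj]; exact (ha j).mul ih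
      exact h2 _
    | insert j s hj ih =>
      intro α hα h
      have h1 : ∀ ω ∈ E.lo, exteriorPower.ιMulti K d (Function.update α j ω) ∈ E.lat d := by
        intro ω hω
        refine AddSubgroup.closure_induction
          (p := fun x _ => exteriorPower.ιMulti K d (Function.update α j x) ∈ E.lat d)
          ?_ ?_ ?_ ?_ hω
        · rintro x ⟨a, g, ha, hg, rfl⟩
          apply ih
          · intro i
            by_cases hij : i = j
            · subst hij
              rw [Function.update_self]
              exact AddSubgroup.subset_closure ⟨a, g, ha, hg, rfl⟩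
            · rw [Function.update_of_ne hij]
              exact hα i
          · intro i hi
            by_cases hij : i = j
            · subst hij
              rw [Function.update_self]
              exact ⟨a, g, ha, hg, rfl⟩
            · rw [Function.update_of_ne hij]
              exact h i (by simp [hij, hi])
        · rw [(exteriorPower.ιMulti K d).map_update_zero]
          exact zero_mem _
        · intro x y _ _ hx hy
          rw [(exteriorPower.ιMulti K d).map_update_add]
          exact add_mem hx hy
        · intro x _ hx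
          rw [(exteriorPower.ιMulti K d).map_update_neg]
          exact neg_mem hx
      have h2 := h1 (α j) (hα j)
      rwa [Function.update_eq_self] at h2
  exact key Finset.univ α hα (fun i hi => absurd (Finset.mem_univ i) hi)

theorem dlog_mem {u : K} (hu : u ≠ 0) (hv : E.v u = 0) :
    u⁻¹ • KaehlerDifferential.D k K u ∈ E.lo := by
  refine AddSubgroup.subset_closure ⟨u⁻¹, u, Or.inr ?_, Or.inr hv.ge, rfl⟩
  rw [E.v_inv, hv, neg_zero]

/-- `D` of an element of the `k`-algebra generated by a set, divided by a unit: if every integral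
`z` is `a / b` with `a, b ∈ k[s]`, `s` integral, `v b = 0`, then `lo` is generated by the `a • D g`,
`g ∈ s`, `a` integral. -/
theorem lo_eq_of_adjoin {s : Set K} (hs : ∀ z ∈ s, E.Int z)
    (h : ∀ z : K, E.Int z → ∃ a ∈ Algebra.adjoin k s, ∃ b ∈ Algebra.adjoin k s,
      b ≠ 0 ∧ E.v b = 0 ∧ z * b = a) :
    E.lo = AddSubgroup.closure {ω | ∃ a g : K, E.Int a ∧ g ∈ s ∧
      ω = a • KaehlerDifferential.D k K g} := by
  have hint : ∀ x ∈ Algebra.adjoin k s, E.Int x := by
    intro x hx
    induction hx using Algebra.adjoin_induction with
    | mem x hx => exact hs x hx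
    | algebraMap r => exact NVal.Int.alg r
    | add x y _ _ hx hy => exact hx.add hy
    | mul x y _ _ hx hy => exact hx.mul hy
  apply le_antisymm
  · have key : ∀ x ∈ Algebra.adjoin k s, ∀ b : K, E.Int b → b • KaehlerDifferential.D k K x ∈
        AddSubgroup.closure {ω | ∃ a g : K, E.Int a ∧ g ∈ s ∧
          ω = a • KaehlerDifferential.D k K g} := by
      intro x hx
      induction hx using Algebra.adjoin_induction with
      | mem x hx =>
        intro b hb
        exact AddSubgroup.subset_closure ⟨b, x, hb, hx, rfl⟩
      | algebraMap r =>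
        intro b _
        rw [Derivation.map_algebraMap, smul_zero]
        exact zero_mem _
      | add x y _ _ hx hy =>
        intro b hb
        rw [map_add, smul_add]
        exact add_mem (hx b hb) (hy b hb)
      | mul x y hxa hya hx hy =>
        intro b hb
        rw [Derivation.leibniz, smul_add, smul_smul, smul_smul]
        exact add_mem (hy _ (hb.mul (hint x hxa))) (hx _ (hb.mul (hint y hya)))
    refine (AddSubgroup.closure_le _).2 ?_
    rintro ω ⟨a, g, ha, hg, rfl⟩
    obtain ⟨x, hx, y, hy, hy0, hvy, hgxy⟩ := h g hg
    have h1 : KaehlerDifferential.D k K x =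
        g • KaehlerDifferential.D k K y + y • KaehlerDifferential.D k K g := by
      rw [← hgxy, Derivation.leibniz]
    have h2 : a • KaehlerDifferential.D k K g =
        (a * y⁻¹) • KaehlerDifferential.D k K x - (a * y⁻¹ * g) • KaehlerDifferential.D k K y := by
      rw [h1, smul_add, smul_smul, smul_smul, add_sub_cancel_left, mul_assoc,
        inv_mul_cancel₀ hy0, mul_one]
    have hyi : E.Int y⁻¹ := Or.inr (by rw [E.v_inv, hvy, neg_zero])
    rw [SetLike.mem_coe, h2]
    exact sub_mem (key x hx _ (ha.mul hyi)) (key y hy _ ((ha.mul hyi).mul hg))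
  · refine (AddSubgroup.closure_le _).2 ?_
    rintro ω ⟨a, g, ha, hg, rfl⟩
    exact AddSubgroup.subset_closure ⟨a, g, ha, hs g hg, rfl⟩

end Pool.Agent.GAP
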