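import Pool.Agent.GAP.Ndg

/-!
# GAP, module LOW: the lower bound for the order of `θ`

Let `E` be a valuation with `v(χ(e_j)) > 0` for all `j`. Then `w m = v(χ m)` is a homomorphism
`M → ℤ`; let `r = min w(δ m)` over the exponents of `f`.
Claim: some `l` has `ev(F_l) ≠ 0`, `v(ev F_l) = r`. All terms of `F_l` have value `≥ r` (the
coefficients are in `k`), so `Ge r (ev F_l)` for all `l`. Suppose `Ge (r+1) (ev F_l)` for all `l`.
Then, as the terms with `w(δ m) ≠ r` have value `≥ r + 1`, also `Ge (r+1) (ev (inFD l))`; and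
`ev F = 0` gives `Ge (r+1) (ev inF)`. By `ndg`, `1 = ev A ev inF + ∑ ev B_l ev inFD_l` with
`Ge (-r) (ev A)`, `Ge (-r) (ev B_l)`, so `Ge 1 1`, contradiction.
For this `l`: `ιMulti (β ∘ l.succAbove) = ± ev(F_l) θ` (`wedge_theta`), and for `s` with `v s = 1`
`s ιMulti (β ∘ l.succAbove) ∈ lat` by `logwedge_mem` (`β_j` is `1/q` times the logarithmic
differential of `χ(e_j)`; `1/q ∈ k`, use `lat_smul`). So `(s ev(F_l)) θ ∈ lat`, with
`v(s ev F_l) = 1 + r`, and `le_ordForm` gives the claim.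
-/

set_option linter.dupNamespace false
set_option autoImplicit false

namespace Pool.Agent.GAP

open AddMonoidAlgebra

variable {k K : Type*} [Field k] [Field K] [Algebra k K] {d : ℕ} (T : TorData k K d)

namespace Low

variable {T}

lemma ge_single (E : NVal k K) (w : T.M →+ ℤ) (hw : ∀ m, w m = E.v (T.mon m)) (u : T.M) (c : k)
    {s : ℤ} (hs : s ≤ w u) : E.Ge s (T.ev (AddMonoidAlgebra.single u c)) := by
  rw [T.ev_single, Algebra.smul_def]
  have h := NVal.Ge.mul (NVal.Int.alg (E := E) c) (NVal.Ge.self (E := E) (T.mon u))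
  rw [zero_add, ← hw] at h
  exact h.mono hs

lemma ge_sum (E : NVal k K) (w : T.M →+ ℤ) (hw : ∀ m, w m = E.v (T.mon m))
    (S : Finset (Fin (d + 1) →₀ ℕ)) (c : (Fin (d + 1) →₀ ℕ) → k) {s : ℤ}
    (hs : ∀ m ∈ S, s ≤ w (T.δ m)) :
    E.Ge s (T.ev (∑ m ∈ S, AddMonoidAlgebra.single (T.δ m) (c m))) := by
  rw [map_sum]
  exact NVal.Ge.sum _ _ (fun m hm => ge_single E w hw _ _ (hs m hm))

lemma ge_ev (E : NVal k K) (w : T.M →+ ℤ) (hw : ∀ m, w m = E.v (T.mon m))
    (a : AddMonoidAlgebra k T.M) {s : ℤ} (hs : ∀ u ∈ a.coeff.support, s ≤ w u) :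
    E.Ge s (T.ev a) := by
  unfold TorData.ev
  rw [AddMonoidAlgebra.lift_apply]
  refine NVal.Ge.sum _ _ (fun u hu => ?_)
  have h := ge_single (T := T) E w hw u (a.coeff u) (hs u hu)
  rw [T.ev_single] at h
  exact h

lemma ge_part (E : NVal k K) (w : T.M →+ ℤ) (hw : ∀ m, w m = E.v (T.mon m)) {r : ℤ}
    (hr : T.IsMin w r) (c : (Fin (d + 1) →₀ ℕ) → k)
    (h : E.Ge (r + 1) (T.ev (∑ m ∈ T.f.support, AddMonoidAlgebra.single (T.δ m) (c m)))) :
    E.Ge (r + 1) (T.ev (∑ m ∈ T.f.support.filter (fun m => w (T.δ m) = r),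
      AddMonoidAlgebra.single (T.δ m) (c m))) := by
  have h1 := Finset.sum_filter_add_sum_filter_not T.f.support (fun m => w (T.δ m) = r)
    (fun m => AddMonoidAlgebra.single (T.δ m) (c m))
  rw [← h1, map_add] at h
  have h2 : E.Ge (r + 1) (T.ev (∑ m ∈ T.f.support.filter (fun m => ¬ w (T.δ m) = r),
      AddMonoidAlgebra.single (T.δ m) (c m))) := by
    apply ge_sum E w hw
    intro m hm
    rw [Finset.mem_filter] at hm
    have := hr.2 m hm.1
    have := hm.2
    omega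
  have h3 := h.sub h2
  rwa [add_sub_cancel_right] at h3

end Low

open Low in
theorem lower [IsAlgClosed k] [CharZero k] (hnd : Nondeg T.f) (h0 : T.ev T.F = 0)
    {i : Fin (d + 1)} (hi : T.ev (T.FD i) ≠ 0) (E : NVal k K) (w : T.M →+ ℤ)
    (hw : ∀ m, w m = E.v (T.mon m)) (hpos : ∀ j, 0 < w (T.e j)) {r : ℤ} (hr : T.IsMin w r) :
    (((-1 - r : ℤ) : ℝ) : EReal) ≤ E.ordForm (T.θ i) := by
  obtain ⟨l, hl⟩ : ∃ l, ¬ E.Ge (r + 1) (T.ev (T.FD l)) := by
    by_contra hcon
    push Not at hcon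
    obtain ⟨A, B, hAB, hA, hB⟩ := ndg T hnd w hpos hr
    have h1 : E.Ge (r + 1) (T.ev (T.inF w r)) := by
      apply ge_part E w hw hr
      left
      exact h0
    have h2 : ∀ j, E.Ge (r + 1) (T.ev (T.inFD w r j)) := fun j => ge_part E w hw hr _ (hcon j)
    have h3 := congrArg T.ev hAB
    rw [map_add, map_mul, map_sum, map_one] at h3
    have h4 : E.Ge 1 (T.ev A * T.ev (T.inF w r) + ∑ j, T.ev (B j * T.inFD w r j)) := by
      apply NVal.Ge.add
      · have := NVal.Ge.mul (ge_ev E w hw A (s := -r) (fun u hu => (hA u hu).ge)) h1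
        have e : -r + (r + 1) = 1 := by ring
        rwa [e] at this
      · refine NVal.Ge.sum _ _ (fun j _ => ?_)
        rw [map_mul]
        have := NVal.Ge.mul (ge_ev E w hw (B j) (s := -r) (fun u hu => (hB j u hu).ge)) (h2 j)
        have e : -r + (r + 1) = 1 := by ring
        rwa [e] at this
    rw [h3] at h4
    have h5 := h4.le one_ne_zero
    rw [E.v_one] at h5
    omega
  have hl0 : T.ev (T.FD l) ≠ 0 := fun h => hl (Or.inl h)
  have hlv : E.v (T.ev (T.FD l)) = r := by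
    have h1 : E.v (T.ev (T.FD l)) < r + 1 := by
      by_contra h
      exact hl (Or.inr (not_lt.1 h))
    have h2 : E.Ge r (T.ev (T.FD l)) := ge_sum E w hw _ _ hr.2
    have h3 := h2.le hl0
    omega
  obtain ⟨ε, hε, hθ⟩ := wedge_theta T h0 hi l
  have hε0 : ε ≠ 0 := by rcases hε with rfl | rfl <;> norm_num
  have hεv : E.v ε = 0 := by
    rcases hε with rfl | rfl
    · exact E.v_one
    · rw [E.v_neg, E.v_one]
  obtain ⟨s, hs0, hs1⟩ := E.surj
  have hmem : (s * (ε * T.ev (T.FD l))) • T.θ i ∈ E.lat d := by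
    rw [mul_smul, ← hθ]
    have h1 : (exteriorPower.ιMulti K d (fun a => T.β (l.succAbove a)) : ⋀[K]^d (Ω[K⁄k]))
        = (∏ _a : Fin d, (T.q : K)⁻¹) • exteriorPower.ιMulti K d (fun a =>
          (T.mon (T.e (l.succAbove a)))⁻¹ • KaehlerDifferential.D k K (T.mon (T.e (l.succAbove a)))) := by
      exact (exteriorPower.ιMulti K d).toMultilinearMap.map_smul_univ (fun _ => (T.q : K)⁻¹) _
    rw [h1, smul_comm]
    apply lat_smul
    · have h2 : (∏ _a : Fin d, (T.q : K)⁻¹) = algebraMap k K (∏ _a : Fin d, (T.q : k)⁻¹) := by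
        rw [map_prod]
        refine Finset.prod_congr rfl (fun _ _ => ?_)
        rw [map_inv₀, map_natCast]
      rw [h2]
      exact NVal.Int.alg _
    · exact logwedge_mem E (fun a => T.mon_ne _) hs1.ge
  have h5 := le_ordForm E (mul_ne_zero hs0 (mul_ne_zero hε0 hl0)) hmem
  rw [E.v_mul _ _ hs0 (mul_ne_zero hε0 hl0), E.v_mul _ _ hε0 hl0, hs1, hεv, hlv] at h5
  have e : -(1 + (0 + r)) = -1 - r := by ring
  rwa [e] at h5

end Pool.Agent.GAP
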