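import Pool.Agent.GAP.Tbs2

/-!
# GAP, module NDG: nondegeneracy as an identity of Laurent polynomials

Proof. Let `w' = rw w > 0` (real weights) and `g = initForm f w'`. For exponents `m` of `f`:
`⟨w', m⟩ = ⟨w', m0⟩ + w(δ m)` (`rw_pairN`), so the exponents of `g` are the `m ∈ supp f` with
`w(δ m) = r`, and `g = ∑_{w(δ m) = r} c_m x^m`. By nondegeneracy the polynomials
`g, ∂_1 g, ..., ∂_(d+1) g` have no common zero `y ∈ k^(d+1)` with all `y_i ≠ 0`, so `∏ x_i` vanishes
on their zero set. By the Nullstellensatz (`MvPolynomial.vanishingIdeal_zeroLocus_eq_radical`)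
`(∏ x_i)^N = A g + ∑ B_j ∂_j g` in the polynomial ring for some `N`; multiplying with `∏ x_i` we may
write `(∏ x_i)^N = A g + ∑ B_j x_j ∂_j g` (new `A`, `B_j`, `N`; `∏ x_i ∂_j g = (∏_{i≠j} x_i) x_j ∂_j g`).
Map this to the Laurent polynomial ring `k[ℤ^(d+1)]` and divide by `x^(N 1)`; with
`g = x^m0 inF`, `x_j ∂_j g = x^m0 inFD_j` (images under `M ⊆ ℤ^(d+1)`) this gives
`1 = A' inF + ∑ B'_j inFD_j` with `A', B'_j ∈ k[ℤ^(d+1)]`. All exponents of `inF`, `inFD_j` lie in
`{u ∈ M | w u = r}`. Replace `A'`, `B'_j` by their parts supported in `{u ∈ M | w u = -r}`: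
the parts outside contribute only exponents outside `{u ∈ M | w u = 0}`, which must cancel, so the
identity remains true. (Concretely: the linear projection of `k[ℤ^(d+1)]` onto the exponents in
`{u ∈ M | w u = 0}` fixes `1` and sends `a * single s c` to (projection of `a` onto
`{u ∈ M | w u = -r}`) `* single s c` for `s ∈ M`, `w s = r`.)
-/

set_option linter.dupNamespace false

namespace Pool.Agent.GAP

open AddMonoidAlgebra

variable {k K : Type*} [Field k] [Field K] [Algebra k K] {d : ℕ} (T : TorData k K d)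

/-- exponents of monomials as integer vectors -/
private def hexp (d : ℕ) : (Fin (d + 1) →₀ ℕ) →+ (Fin (d + 1) → ℤ) where
  toFun m := fun i => (m i : ℤ)
  map_zero' := by funext i; simp
  map_add' := by intro m m'; funext i; simp

/-- the part with exponents in `M` of weight `τ` of a Laurent polynomial -/
private noncomputable def prt (w : T.M →+ ℤ) (τ : ℤ) (a : AddMonoidAlgebra k (Fin (d + 1) → ℤ)) :
    AddMonoidAlgebra k T.M :=
  .ofCoeff ((a.coeff.comapDomain (Subtype.val : T.M → _) Subtype.val_injective.injOn).filter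
    (fun u => w u = τ))

private theorem prt_zero (w : T.M →+ ℤ) (τ : ℤ) : prt T w τ 0 = 0 := by
  ext u
  simp [prt, Finsupp.filter_apply]

private theorem prt_add (w : T.M →+ ℤ) (τ : ℤ) (a b : AddMonoidAlgebra k (Fin (d + 1) → ℤ)) :
    prt T w τ (a + b) = prt T w τ a + prt T w τ b := by
  ext u
  simp only [prt, AddMonoidAlgebra.coeff_add, Finsupp.filter_apply, Finsupp.comapDomain_apply,
    Finsupp.add_apply]
  split_ifs <;> simp

private theorem prt_sum {κ : Type*} (w : T.M →+ ℤ) (τ : ℤ) (s : Finset κ)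
    (a : κ → AddMonoidAlgebra k (Fin (d + 1) → ℤ)) :
    prt T w τ (∑ i ∈ s, a i) = ∑ i ∈ s, prt T w τ (a i) := by
  classical
  induction s using Finset.induction_on with
  | empty => simp [prt_zero]
  | insert i s hi ih => rw [Finset.sum_insert hi, Finset.sum_insert hi, prt_add, ih]

private theorem prt_single (w : T.M →+ ℤ) {τ : ℤ} (u : T.M) (hu : w u = τ) (c : k) :
    prt T w τ (single (u : Fin (d + 1) → ℤ) c) = single u c := by
  classical
  ext v
  simp only [prt, AddMonoidAlgebra.coeff_single, Finsupp.filter_apply, Finsupp.comapDomain_apply,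
    Finsupp.single_apply]
  by_cases h : u = v
  · subst h
    simp [hu]
  · have : ¬ ((u : Fin (d + 1) → ℤ) = v) := fun h' => h (Subtype.ext h')
    simp [h, this]

private theorem prt_single_ne (w : T.M →+ ℤ) {τ : ℤ} (s : Fin (d + 1) → ℤ)
    (hs : ∀ u : T.M, (u : Fin (d + 1) → ℤ) = s → w u ≠ τ) (c : k) :
    prt T w τ (single s c) = 0 := by
  classical
  ext v
  simp only [prt, AddMonoidAlgebra.coeff_single, Finsupp.filter_apply, Finsupp.comapDomain_apply,
    Finsupp.single_apply, AddMonoidAlgebra.coeff_zero, Finsupp.coe_zero, Pi.zero_apply]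
  split_ifs with h1 h2
  · exact absurd h1 (hs v h2.symm)
  · rfl
  · rfl

private theorem prt_mul_single (w : T.M →+ ℤ) {r : ℤ} (t : T.M) (ht : w t = r) (c : k)
    (a : AddMonoidAlgebra k (Fin (d + 1) → ℤ)) :
    prt T w 0 (a * single (t : Fin (d + 1) → ℤ) c) = prt T w (-r) a * single t c := by
  induction a using AddMonoidAlgebra.induction_linear with
  | zero => rw [zero_mul, prt_zero, prt_zero, zero_mul]
  | add x y hx hy => rw [add_mul, prt_add, prt_add, add_mul, hx, hy]
  | single s b =>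
    rw [AddMonoidAlgebra.single_mul_single]
    by_cases h : ∃ u : T.M, (u : Fin (d + 1) → ℤ) = s ∧ w u = -r
    · obtain ⟨u, rfl, hu⟩ := h
      rw [prt_single T w u hu, AddMonoidAlgebra.single_mul_single, ← AddSubgroup.coe_add,
        prt_single T w (u + t) (by rw [map_add, hu, ht]; ring)]
    · push Not at h
      rw [prt_single_ne T w s h, zero_mul, prt_single_ne]
      intro u hu hw
      refine h (u - t) ?_ ?_
      · rw [AddSubgroup.coe_sub, hu]; abel
      · rw [map_sub, hw, ht]; ring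

private theorem prt_mul_sum (w : T.M →+ ℤ) {r : ℤ} (S : Finset (Fin (d + 1) →₀ ℕ))
    (hS : ∀ m ∈ S, w (T.δ m) = r) (c : (Fin (d + 1) →₀ ℕ) → k)
    (a b e : AddMonoidAlgebra k (Fin (d + 1) → ℤ)) :
    prt T w 0 (a * (b * (e * ∑ m ∈ S, single (T.δ m : Fin (d + 1) → ℤ) (c m)))) =
      prt T w (-r) (a * (b * e)) * ∑ m ∈ S, single (T.δ m) (c m) := by
  rw [← mul_assoc b, ← mul_assoc a, Finset.mul_sum, prt_sum, Finset.mul_sum]
  refine Finset.sum_congr rfl fun m hm => ?_
  rw [prt_mul_single T w (T.δ m) (hS m hm)]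

private theorem prt_support (w : T.M →+ ℤ) (τ : ℤ) (a : AddMonoidAlgebra k (Fin (d + 1) → ℤ))
    (u : T.M) (hu : u ∈ (prt T w τ a).coeff.support) : w u = τ := by
  unfold prt at hu
  rw [AddMonoidAlgebra.coeff_ofCoeff, Finsupp.support_filter, Finset.mem_filter] at hu
  exact hu.2

private theorem init_eq (w : T.M →+ ℤ) {r : ℤ} (hr : T.IsMin w r) :
    initForm T.f (T.rw w) = ∑ m ∈ T.f.support.filter (fun m => w (T.δ m) = r),
      MvPolynomial.monomial m (MvPolynomial.coeff m T.f) := by
  classical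
  unfold initForm
  refine Finset.sum_congr ?_ fun _ _ => rfl
  ext m
  rw [Finset.mem_filter, Finset.mem_filter]
  refine and_congr_right fun hm => ?_
  have key : ∀ m ∈ T.f.support, ∑ i, T.rw w i * m i = pairN (T.rw w) T.m0 + w (T.δ m) := by
    intro m hm
    exact rw_pairN T w hm
  constructor
  · intro h
    obtain ⟨⟨m1, hm1, hr1⟩, hr2⟩ := hr
    have h1 := h m1 hm1
    rw [key m hm, key m1 hm1, hr1] at h1
    have h2 : w (T.δ m) ≤ r := by
      have : (w (T.δ m) : ℝ) ≤ r := by linarith
      exact_mod_cast this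
    exact le_antisymm h2 (hr2 m hm)
  · intro h m' hm'
    rw [key m hm, key m' hm', h]
    have h1 := hr.2 m' hm'
    have : (r : ℝ) ≤ w (T.δ m') := by exact_mod_cast h1
    linarith

/-- the polynomial `x_1 ... x_(d+1)` -/
private noncomputable def eall (d : ℕ) : Fin (d + 1) →₀ ℕ := Finsupp.equivFunOnFinite.symm fun _ => 1

private theorem poly_id [IsAlgClosed k] [CharZero k] (hnd : Nondeg T.f) (w : T.M →+ ℤ)
    (hw : ∀ j, 0 < w (T.e j)) :
    ∃ (N : ℕ) (A : MvPolynomial (Fin (d + 1)) k) (B : Fin (d + 1) → MvPolynomial (Fin (d + 1)) k),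
      A * initForm T.f (T.rw w) +
        ∑ j, B j * (MvPolynomial.X j * MvPolynomial.pderiv j (initForm T.f (T.rw w))) =
        MvPolynomial.monomial (N • eall d) 1 := by
  set g := initForm T.f (T.rw w) with hg
  set P : MvPolynomial (Fin (d + 1)) k := MvPolynomial.monomial (eall d) 1 with hP
  have hpos : ∀ i, 0 < T.rw w i := by
    intro i
    unfold TorData.rw
    have h1 : (0 : ℝ) < w (T.e i) := by exact_mod_cast hw i
    have h2 : (0 : ℝ) < T.q := by exact_mod_cast T.q_pos
    positivity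
  have hmem : P ∈ (Ideal.span (insert g (Set.range fun j => MvPolynomial.pderiv j g))).radical := by
    rw [← MvPolynomial.vanishingIdeal_zeroLocus_eq_radical (K := k)]
    rw [MvPolynomial.mem_vanishingIdeal_iff]
    intro x hx
    rw [MvPolynomial.mem_zeroLocus_iff] at hx
    by_contra hne
    have hx0 : ∀ i, x i ≠ 0 := by
      intro i hi
      apply hne
      rw [hP, MvPolynomial.aeval_monomial, Finsupp.prod_fintype _ _ (by simp), map_one, one_mul]
      refine Finset.prod_eq_zero (Finset.mem_univ i) ?_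
      rw [hi]
      simp [eall]
    have hg0 : MvPolynomial.eval x g = 0 := by
      have := hx g (Ideal.subset_span (Set.mem_insert _ _))
      rwa [MvPolynomial.aeval_eq_eval] at this
    obtain ⟨j, hj⟩ := hnd (T.rw w) hpos x hx0 hg0
    have := hx (MvPolynomial.pderiv j g)
      (Ideal.subset_span (Set.mem_insert_of_mem _ (Set.mem_range_self j)))
    rw [MvPolynomial.aeval_eq_eval] at this
    exact hj this
  obtain ⟨N, hN⟩ := hmem
  rw [Ideal.mem_span_insert] at hN
  obtain ⟨A, z, hz, hA⟩ := hN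
  obtain ⟨c, hc⟩ := Submodule.mem_span_range_iff_exists_fun _ |>.1 hz
  have hQ : ∀ j, ∃ Q : MvPolynomial (Fin (d + 1)) k, P = Q * MvPolynomial.X j := by
    intro j
    refine ⟨MvPolynomial.monomial (eall d - Finsupp.single j 1) 1, ?_⟩
    rw [hP, MvPolynomial.X, MvPolynomial.monomial_mul, mul_one, tsub_add_cancel_of_le]
    rw [Finsupp.single_le_iff]
    simp [eall]
  choose Q hQ using hQ
  refine ⟨N + 1, P * A, fun j => c j * Q j, ?_⟩
  have h1 : P ^ (N + 1) = MvPolynomial.monomial ((N + 1) • eall d) 1 := by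
    rw [hP, MvPolynomial.monomial_pow, one_pow]
  rw [← h1, pow_succ, hA, ← hc, add_mul, Finset.sum_mul]
  congr 1
  · ring
  · refine Finset.sum_congr rfl fun j _ => ?_
    rw [smul_eq_mul]
    conv_rhs => rw [hQ j]
    ring

/-- the map to Laurent polynomials -/
private noncomputable def lau (k : Type*) [Field k] (d : ℕ) :
    MvPolynomial (Fin (d + 1)) k →+* AddMonoidAlgebra k (Fin (d + 1) → ℤ) :=
  AddMonoidAlgebra.mapDomainRingHom k (hexp d)

private theorem lau_monomial (m : Fin (d + 1) →₀ ℕ) (c : k) :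
    lau k d (MvPolynomial.monomial m c) = single (hexp d m) c := by
  rw [← MvPolynomial.single_eq_monomial]
  exact AddMonoidAlgebra.mapDomain_single

private theorem hexp_eq {m : Fin (d + 1) →₀ ℕ} (hm : m ∈ T.f.support) :
    hexp d m = hexp d T.m0 + (T.δ m : Fin (d + 1) → ℤ) := by
  funext i
  rw [Pi.add_apply, T.δ_eq m hm i]
  show (m i : ℤ) = (T.m0 i : ℤ) + ((m i : ℤ) - T.m0 i)
  ring

theorem ndg [IsAlgClosed k] [CharZero k] (hnd : Nondeg T.f) (w : T.M →+ ℤ)
    (hw : ∀ j, 0 < w (T.e j)) {r : ℤ} (hr : T.IsMin w r) :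
    ∃ (A : AddMonoidAlgebra k T.M) (B : Fin (d + 1) → AddMonoidAlgebra k T.M),
      A * T.inF w r + ∑ j, B j * T.inFD w r j = 1 ∧
      (∀ u ∈ A.coeff.support, w u = -r) ∧ ∀ j, ∀ u ∈ (B j).coeff.support, w u = -r := by
  classical
  obtain ⟨N, A, B, hAB⟩ := poly_id T hnd w hw
  rw [init_eq T w hr] at hAB
  have h1 := congrArg (lau k d) hAB
  rw [map_add, map_mul, map_sum, map_sum, lau_monomial] at h1
  set S := T.f.support.filter (fun m => w (T.δ m) = r) with hS
  have hSs : ∀ m ∈ S, m ∈ T.f.support := fun m hm => (Finset.mem_filter.1 hm).1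
  have hSw : ∀ m ∈ S, w (T.δ m) = r := fun m hm => (Finset.mem_filter.1 hm).2
  have e1 : ∑ m ∈ S, lau k d (MvPolynomial.monomial m (MvPolynomial.coeff m T.f)) =
      single (hexp d T.m0) 1 * ∑ m ∈ S, single (T.δ m : Fin (d + 1) → ℤ)
        (MvPolynomial.coeff m T.f) := by
    rw [Finset.mul_sum]
    refine Finset.sum_congr rfl fun m hm => ?_
    rw [lau_monomial, AddMonoidAlgebra.single_mul_single, one_mul, hexp_eq T (hSs m hm)]
  have e2 : ∀ j, lau k d (B j * (MvPolynomial.X j * MvPolynomial.pderiv j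
      (∑ m ∈ S, MvPolynomial.monomial m (MvPolynomial.coeff m T.f)))) =
      lau k d (B j) * (single (hexp d T.m0) 1 * ∑ m ∈ S, single (T.δ m : Fin (d + 1) → ℤ)
        ((m j : k) * MvPolynomial.coeff m T.f)) := by
    intro j
    have e3 : MvPolynomial.X j * MvPolynomial.pderiv j
        (∑ m ∈ S, MvPolynomial.monomial m (MvPolynomial.coeff m T.f)) =
        ∑ m ∈ S, MvPolynomial.monomial m ((m j : k) * MvPolynomial.coeff m T.f) := by
      rw [map_sum, Finset.mul_sum]
      refine Finset.sum_congr rfl fun m hm => ?_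
      rw [MvPolynomial.X_mul_pderiv_monomial, MvPolynomial.smul_monomial, nsmul_eq_mul]
    rw [map_mul, e3, map_sum]
    congr 1
    rw [Finset.mul_sum]
    refine Finset.sum_congr rfl fun m hm => ?_
    rw [lau_monomial, AddMonoidAlgebra.single_mul_single, one_mul, hexp_eq T (hSs m hm)]
  rw [e1, Finset.sum_congr rfl fun j _ => e2 j] at h1
  -- divide by the monomial on the right
  set D : AddMonoidAlgebra k (Fin (d + 1) → ℤ) := single (-(hexp d (N • eall d))) 1 with hD
  have h2 : D * single (hexp d (N • eall d)) (1 : k) = 1 := by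
    rw [hD, AddMonoidAlgebra.single_mul_single, neg_add_cancel, one_mul]
    rfl
  have h3 := congrArg (fun z => prt T w 0 (D * z)) h1
  rw [h2] at h3
  have h4 : prt T w 0 (1 : AddMonoidAlgebra k (Fin (d + 1) → ℤ)) = 1 := by
    have := prt_single T w (0 : T.M) (map_zero w) (1 : k)
    exact this
  rw [h4, mul_add, prt_add, Finset.mul_sum Finset.univ _ D, prt_sum] at h3
  refine ⟨prt T w (-r) (D * (lau k d A * single (hexp d T.m0) 1)),
    fun j => prt T w (-r) (D * (lau k d (B j) * single (hexp d T.m0) 1)), ?_,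
    fun u hu => prt_support T w _ _ u hu, fun j u hu => prt_support T w _ _ u hu⟩
  rw [← h3]
  unfold TorData.inF TorData.inFD
  congr 1
  · rw [prt_mul_sum T w S hSw]
  · refine Finset.sum_congr rfl fun j _ => ?_
    rw [prt_mul_sum T w S hSw]

end Pool.Agent.GAP
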