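import Pool.Agent.GAP.Ctx

/-!
# GAP, module NRM: the germ of `X = Y / G` is normal; the context of fraction fields

Proofs. `noeth`: invariants of a finite group in characteristic `0`: `|G|` is invertible in `k`, the
Reynolds operator `B → A` is `A`-linear, so `I B ∩ A = I` for ideals `I` of `A`, and `B` is Noetherian.
(Alternatively: `A` is generated by the classes of the invariant monomials of bounded degree.)
`normal_A`: let `z ∈ K` be integral over `A`. Its image in `L` is integral over `B`, so `z s = b` with
`s ∉ orig`; by `exists_mul_invariant` we may take `s ∈ A` (`s ∉ orig` is preserved). Then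
`b = z s ∈ B` is the image of an element of `K`, `z s = a₁ / a₂`, `b a₂ = a₁`, so `b` is invariant
(`act g b * a₂ = a₁ = b a₂`, domain), `b ∈ A`.
`exists_ctx`: `K = FractionRing A`, `L = FractionRing B`, `K → L` by `FractionRing.liftAlgebra` (or
`IsFractionRing.lift`).
-/

set_option linter.dupNamespace false

namespace Pool.Agent.GAP

universe u

variable {k : Type u} [Field k] {n : ℕ}

theorem noeth [CharZero k] (X : Pre k n) : IsNoetherianRing X.A := by
  have hft : Algebra.FiniteType k X.B :=
    Algebra.FiniteType.of_surjective X.cl X.cl_surjective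
  have hft' : Algebra.FiniteType X.A X.B := Algebra.FiniteType.of_restrictScalars_finiteType k X.A X.B
  have hint : Algebra.IsIntegral X.A X.B := X.isIntegral_B
  have hfin : Module.Finite X.A X.B := Algebra.IsIntegral.finite
  have h1 := fg_of_fg_of_fg k X.A X.B hft.out hfin.fg_top Subtype.val_injective
  have : Algebra.FiniteType k X.A := ⟨h1⟩
  exact Algebra.FiniteType.isNoetherianRing k X.A

theorem normal_A {X : Pre k n} {K L : Type*} [Field K] [Field L]
    [Algebra k K] [Algebra k L] [Algebra X.A K] [Algebra X.B L] [Algebra K L]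
    (h : Ctx X K L) (hX : ∀ z : L, IsIntegral X.B z →
      ∃ b s : X.B, s ∉ X.orig ∧ z * algebraMap X.B L s = algebraMap X.B L b)
    {z : K} (hz : IsIntegral X.A z) :
    ∃ a s : X.A, s ∉ X.P ∧ z * algebraMap X.A K s = algebraMap X.A K a := by
  have hfK := h.fracK
  have hfL := h.fracL
  have hcomp : (algebraMap K L).comp (algebraMap X.A K) =
      (algebraMap X.B L).comp (X.A.val : X.A →+* X.B) := RingHom.ext h.comp
  have hz' : IsIntegral X.B (algebraMap K L z) := by
    obtain ⟨p, hp, hpz⟩ := hz
    refine ⟨p.map (X.A.val : X.A →+* X.B), hp.map _, ?_⟩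
    rw [Polynomial.eval₂_map, ← hcomp, ← Polynomial.hom_eval₂, hpz, map_zero]
  obtain ⟨b, s, hs, hbs⟩ := hX _ hz'
  have hs0 : s ≠ 0 := by
    rintro rfl
    exact hs X.orig.zero_mem
  obtain ⟨t, ht, ht0, hto⟩ := X.exists_mul_invariant hs0
  -- `z` as a fraction
  obtain ⟨a1, a2, ha2, hza⟩ := IsFractionRing.div_surjective (A := X.A) z
  have ha2' : a2 ≠ 0 := nonZeroDivisors.ne_zero ha2
  have ha2K : algebraMap X.A K a2 ≠ 0 := fun h0 =>
    ha2' ((map_eq_zero_iff _ (IsFractionRing.injective X.A K)).1 h0)
  have hz2 : z * algebraMap X.A K a2 = algebraMap X.A K a1 := by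
    rw [← hza, div_mul_cancel₀ _ ha2K]
  have hz3 : algebraMap K L z * algebraMap X.B L (a2 : X.B) = algebraMap X.B L (a1 : X.B) := by
    rw [← h.comp, ← h.comp, ← map_mul, hz2]
  have hz4 : algebraMap K L z * algebraMap X.B L (s * t) = algebraMap X.B L (b * t) := by
    rw [map_mul, map_mul, ← mul_assoc, hbs]
  have hB : (b * t) * (a2 : X.B) = (s * t) * (a1 : X.B) := by
    apply IsFractionRing.injective X.B L
    rw [map_mul (algebraMap X.B L) (b * t), map_mul (algebraMap X.B L) (s * t), ← hz4, ← hz3]
    ring
  have hmem : b * t ∈ X.A := by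
    intro g hg
    have h1 := congrArg (X.act g hg) hB
    rw [map_mul (X.act g hg) (b * t), map_mul (X.act g hg) (s * t), a2.2 g hg, a1.2 g hg,
      ht g hg, ← hB] at h1
    exact mul_right_cancel₀ (fun h0 => ha2' (Subtype.ext h0)) h1
  refine ⟨⟨b * t, hmem⟩, ⟨s * t, ht⟩, fun hmemP => hto hs hmemP, ?_⟩
  apply (algebraMap K L).injective
  rw [map_mul, h.comp, h.comp]
  exact hz4

/-- The context for any fraction field `K` of `A`. -/
theorem exists_ctxK (X : Pre k n) (K : Type*) [Field K] [Algebra k K] [Algebra X.A K]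
    [IsScalarTower k X.A K] [IsFractionRing X.A K] : ∃ _ : Algebra K X.L, Ctx X K X.L := by
  have hinj : Function.Injective ((algebraMap X.B X.L).comp (X.A.val : X.A →+* X.B)) :=
    (IsFractionRing.injective X.B X.L).comp Subtype.val_injective
  refine ⟨(IsFractionRing.lift (K := K) hinj).toAlgebra, ?_⟩
  let _ : Algebra K X.L := (IsFractionRing.lift (K := K) hinj).toAlgebra
  have hc : ∀ a : X.A, algebraMap K X.L (algebraMap X.A K a) = algebraMap X.B X.L (a : X.B) :=
    fun a => IsFractionRing.lift_algebraMap hinj a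
  refine ⟨inferInstance, inferInstance, inferInstance, inferInstance, ?_, hc⟩
  refine IsScalarTower.of_algebraMap_eq (fun c => ?_)
  rw [IsScalarTower.algebraMap_apply k X.A K c, hc, IsScalarTower.algebraMap_apply k X.B X.L c]
  rfl

theorem exists_ctx (X : Pre k n) : ∃ _ : Algebra X.K X.L, Ctx X X.K X.L := by
  have hinj : Function.Injective ((algebraMap X.B X.L).comp (X.A.val : X.A →+* X.B)) :=
    (IsFractionRing.injective X.B X.L).comp Subtype.val_injective
  refine ⟨(IsFractionRing.lift (K := X.K) hinj).toAlgebra, ?_⟩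
  let _ : Algebra X.K X.L := (IsFractionRing.lift (K := X.K) hinj).toAlgebra
  have hc : ∀ a : X.A, algebraMap X.K X.L (algebraMap X.A X.K a) = algebraMap X.B X.L (a : X.B) :=
    fun a => IsFractionRing.lift_algebraMap hinj a
  refine ⟨inferInstance, inferInstance, inferInstance, inferInstance, ?_, hc⟩
  refine IsScalarTower.of_algebraMap_eq (fun c => ?_)
  rw [IsScalarTower.algebraMap_apply k X.A X.K c, hc, IsScalarTower.algebraMap_apply k X.B X.L c]
  rfl

end Pool.Agent.GAP
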