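import Pool.Agent.GAP.Defs

/-!
# GAP, module NV: elementary properties of normalized discrete valuations

`E.Ge r x` means `x = 0` or `r ≤ v x`.
-/

set_option linter.dupNamespace false

namespace Pool.Agent.GAP

variable {k K : Type*} [Field k] [Field K] [Algebra k K] (E : NVal k K)

namespace NVal

theorem v_one : E.v 1 = 0 := by
  have := E.triv 1
  rwa [map_one] at this

theorem v_neg (x : K) : E.v (-x) = E.v x := by
  by_cases hx : x = 0
  · simp [hx]
  · have h1 : E.v (-1) = 0 := by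
      have := E.triv (-1)
      rwa [map_neg, map_one] at this
    have := E.v_mul (-1) x (by norm_num) hx
    rw [h1, neg_one_mul] at this
    omega

theorem v_inv (x : K) : E.v x⁻¹ = -E.v x := by
  by_cases hx : x = 0
  · simp [hx, E.v_zero]
  · have := E.v_mul x x⁻¹ hx (inv_ne_zero hx)
    rw [mul_inv_cancel₀ hx, E.v_one] at this
    omega

theorem v_div (x y : K) (hx : x ≠ 0) (hy : y ≠ 0) : E.v (x / y) = E.v x - E.v y := by
  rw [div_eq_mul_inv, E.v_mul x _ hx (inv_ne_zero hy), E.v_inv]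
  ring

theorem v_pow (x : K) (hx : x ≠ 0) (n : ℕ) : E.v (x ^ n) = n * E.v x := by
  induction n with
  | zero => simp [E.v_one]
  | succ n ih =>
    rw [pow_succ, E.v_mul _ _ (pow_ne_zero n hx) hx, ih]
    push_cast
    ring

theorem v_zpow (x : K) (hx : x ≠ 0) (n : ℤ) : E.v (x ^ n) = n * E.v x := by
  obtain ⟨m, rfl | rfl⟩ := n.eq_nat_or_neg
  · rw [zpow_natCast, E.v_pow x hx]
  · rw [zpow_neg, E.v_inv, zpow_natCast, E.v_pow x hx]
    ring

theorem v_prod {ι : Type*} (s : Finset ι) (f : ι → K) (hf : ∀ i ∈ s, f i ≠ 0) :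
    E.v (∏ i ∈ s, f i) = ∑ i ∈ s, E.v (f i) := by
  classical
  induction s using Finset.induction_on with
  | empty => simp [E.v_one]
  | insert a s ha ih =>
    rw [Finset.prod_insert ha, Finset.sum_insert ha, E.v_mul _ _ (hf a (by simp))
      (Finset.prod_ne_zero_iff.2 fun i hi => hf i (by simp [hi])),
      ih fun i hi => hf i (by simp [hi])]

variable {E}

theorem Ge.zero (r : ℤ) : E.Ge r 0 := Or.inl rfl

theorem Ge.le {r x} (h : E.Ge r x) (hx : x ≠ 0) : r ≤ E.v x := h.resolve_left hx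

theorem Ge.mono {r s : ℤ} {x} (h : E.Ge r x) (hs : s ≤ r) : E.Ge s x :=
  h.imp id fun h => hs.trans h

theorem Ge.add {r : ℤ} {x y} (hx : E.Ge r x) (hy : E.Ge r y) : E.Ge r (x + y) := by
  by_cases h0 : x = 0
  · rw [h0, zero_add]; exact hy
  by_cases h1 : y = 0
  · rw [h1, add_zero]; exact hx
  by_cases h2 : x + y = 0
  · exact Or.inl h2
  · right
    have := E.v_add x y h0 h1 h2
    have := hx.le h0
    have := hy.le h1
    omega

theorem Ge.neg {r : ℤ} {x} (hx : E.Ge r x) : E.Ge r (-x) := by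
  rcases hx with rfl | h
  · left; simp
  · right; rwa [E.v_neg]

theorem Ge.sub {r : ℤ} {x y} (hx : E.Ge r x) (hy : E.Ge r y) : E.Ge r (x - y) := by
  rw [sub_eq_add_neg]; exact hx.add hy.neg

theorem Ge.mul {r s : ℤ} {x y} (hx : E.Ge r x) (hy : E.Ge s y) : E.Ge (r + s) (x * y) := by
  by_cases h0 : x = 0
  · left; rw [h0, zero_mul]
  by_cases h1 : y = 0
  · left; rw [h1, mul_zero]
  right
  rw [E.v_mul x y h0 h1]
  have := hx.le h0
  have := hy.le h1
  omega

theorem Ge.sum {ι : Type*} {r : ℤ} (s : Finset ι) (f : ι → K) (h : ∀ i ∈ s, E.Ge r (f i)) :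
    E.Ge r (∑ i ∈ s, f i) := by
  classical
  induction s using Finset.induction_on with
  | empty => left; simp
  | insert a s ha ih =>
    rw [Finset.sum_insert ha]
    exact (h a (by simp)).add (ih fun i hi => h i (by simp [hi]))

theorem Ge.self (x : K) : E.Ge (E.v x) x := Or.inr le_rfl

theorem Int.zero : E.Int 0 := Or.inl rfl

theorem Int.one : E.Int 1 := Or.inr (by rw [E.v_one])

theorem Int.alg (c : k) : E.Int (algebraMap k K c) := Or.inr (by rw [E.triv])

theorem Int.add {x y} (hx : E.Int x) (hy : E.Int y) : E.Int (x + y) := Ge.add hx hy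

theorem Int.neg {x} (hx : E.Int x) : E.Int (-x) := Ge.neg hx

theorem Int.sub {x y} (hx : E.Int x) (hy : E.Int y) : E.Int (x - y) := Ge.sub hx hy

theorem Int.mul {x y} (hx : E.Int x) (hy : E.Int y) : E.Int (x * y) := by
  have := Ge.mul hx hy
  exact this

theorem Int.sum {ι : Type*} (s : Finset ι) (f : ι → K) (h : ∀ i ∈ s, E.Int (f i)) :
    E.Int (∑ i ∈ s, f i) := Ge.sum s f h

theorem Int.pow {x} (hx : E.Int x) (n : ℕ) : E.Int (x ^ n) := by
  induction n with
  | zero => rw [pow_zero]; exact Int.one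
  | succ n ih => rw [pow_succ]; exact ih.mul hx

/-- If one value is strictly smaller than the other, it is the value of the sum. -/
theorem v_add_eq {x y : K} (hx : x ≠ 0) (hy : E.Ge (E.v x + 1) y) :
    x + y ≠ 0 ∧ E.v (x + y) = E.v x := by
  by_cases h1 : y = 0
  · rw [h1, add_zero]; exact ⟨hx, rfl⟩
  have h2 := hy.le h1
  have h3 : x + y ≠ 0 := by
    intro h
    have : y = -x := by linear_combination h
    rw [this, E.v_neg] at h2
    omega
  refine ⟨h3, ?_⟩
  have h4 := E.v_add x y hx h1 h3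
  have h5 := E.v_add (x + y) (-y) h3 (neg_ne_zero.2 h1) (by rw [add_neg_cancel_right]; exact hx)
  rw [add_neg_cancel_right, E.v_neg] at h5
  omega

end NVal

end Pool.Agent.GAP
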