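import Pool.Agent.GAP.Nv

/-!
# GAP, module OFD: the normalized valuation of a discrete valuation ring

Fix an irreducible `ϖ` of `O`; every `z ≠ 0` in `K` is `u ϖ^e` with a unit `u` and a unique `e : ℤ`:
put `v z = e` (`addVal a - addVal b` for `z = a / b`, `IsDiscreteValuationRing.addVal`; or use
`IsDedekindDomain.HeightOneSpectrum.valuation`). Nonzero elements of `k` are units of `O`.
-/

set_option linter.dupNamespace false

namespace Pool.Agent.GAP

variable {k K : Type*} [Field k] [Field K] [Algebra k K]

open IsDiscreteValuationRing in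
theorem nval_of_dvr {O : Type*} [CommRing O] [IsDomain O] [IsDiscreteValuationRing O]
    [Algebra k O] [Algebra O K] [IsScalarTower k O K] [IsFractionRing O K] :
    ∃ E : NVal k K, (∀ z : K, E.Int z ↔ ∃ a : O, algebraMap O K a = z) ∧
      (∀ a : O, a ≠ 0 → (E.v (algebraMap O K a) = 0 ↔ IsUnit a)) ∧
      ∀ ϖ : O, Irreducible ϖ → E.v (algebraMap O K ϖ) = 1 := by
  set V := (maximalIdeal O).valuation K with hV
  have hone : ∀ a : O, IsUnit a → V (algebraMap O K a) = 1 := by
    intro a ha
    rw [hV, IsDedekindDomain.HeightOneSpectrum.valuation_eq_one_iff_notMem]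
    intro h
    exact (IsLocalRing.mem_maximalIdeal a).1 h ha
  have hne : ∀ x : K, x ≠ 0 → V x ≠ 0 := fun x hx => (V.ne_zero_iff).2 hx
  let E : NVal k K :=
    { v := fun z => -WithZero.log (V z)
      v_zero := by simp
      v_mul := by
        intro x y hx hy
        rw [map_mul, WithZero.log_mul (hne x hx) (hne y hy)]
        ring
      v_add := by
        intro x y hx hy hxy
        have h1 := V.map_add x y
        rcases le_max_iff.1 h1 with h2 | h2
        · have h3 := (WithZero.log_le_log (hne _ hxy) (hne x hx)).2 h2
          exact (min_le_left _ _).trans (neg_le_neg h3)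
        · have h3 := (WithZero.log_le_log (hne _ hxy) (hne y hy)).2 h2
          exact (min_le_right _ _).trans (neg_le_neg h3)
      surj := by
        obtain ⟨π, hπ⟩ := IsDedekindDomain.HeightOneSpectrum.valuation_exists_uniformizer K
          (maximalIdeal O)
        refine ⟨π, ?_, ?_⟩
        · rintro rfl
          rw [map_zero] at hπ
          exact WithZero.zero_ne_coe hπ
        · show -WithZero.log (V π) = 1
          rw [hV, hπ]
          rfl
      triv := by
        intro c
        by_cases hc : c = 0
        · rw [hc, map_zero, map_zero]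
          simp
        · rw [IsScalarTower.algebraMap_apply k O K,
            hone _ ((IsUnit.mk0 c hc).map (algebraMap k O))]
          simp }
  have hE : ∀ z, E.v z = -WithZero.log (V z) := fun z => rfl
  refine ⟨E, fun z => ⟨fun h => ?_, ?_⟩, fun a ha => ⟨fun h => ?_, fun h => ?_⟩, fun ϖ hϖ => ?_⟩
  · rcases h with h | h
    · exact ⟨0, by rw [h, map_zero]⟩
    · by_cases hz : z = 0
      · exact ⟨0, by rw [hz, map_zero]⟩
      apply exists_lift_of_le_one
      rw [hE] at h
      have h2 : WithZero.log (V z) ≤ WithZero.log 1 := by
        rw [WithZero.log_one]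
        omega
      exact (WithZero.log_le_log (hne z hz) one_ne_zero).1 h2
  · rintro ⟨a, rfl⟩
    by_cases ha : algebraMap O K a = 0
    · exact Or.inl ha
    · right
      rw [hE]
      have h1 : V (algebraMap O K a) ≤ 1 :=
        IsDedekindDomain.HeightOneSpectrum.valuation_le_one _ _
      have h2 := (WithZero.log_le_log (hne _ ha) one_ne_zero).2 h1
      rw [WithZero.log_one] at h2
      omega
  · rw [hE] at h
    have ha' : algebraMap O K a ≠ 0 := by
      intro h0
      exact ha ((map_eq_zero_iff _ (IsFractionRing.injective O K)).1 h0)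
    have h1 : V (algebraMap O K a) = 1 := by
      have h2 : WithZero.log (V (algebraMap O K a)) = 0 := by omega
      rw [← WithZero.exp_log (hne _ ha'), h2, WithZero.exp_zero]
    rw [hV, IsDedekindDomain.HeightOneSpectrum.valuation_eq_one_iff_notMem] at h1
    by_contra h3
    exact h1 ((IsLocalRing.mem_maximalIdeal a).2 h3)
  · rw [hE, hone a h]
    simp
  · rw [hE, hV, IsDedekindDomain.HeightOneSpectrum.valuation_of_algebraMap,
      IsDedekindDomain.HeightOneSpectrum.intValuation_singleton _ hϖ.ne_zero
        ((irreducible_iff_uniformizer ϖ).1 hϖ)]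
    rfl

end Pool.Agent.GAP
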