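import Pool.Agent.GAP.Cmb

/-!
# GAP, module TRP: reduction to tropical weights

Proof of `exists_tropical`. Let `m ∈ S` minimize `⟨w, ·⟩` on `S`. If another element of `S` has the
same value we are done with `w' = w`. Otherwise `m ≠ 0` (`0 ∉ S`), take `j` with `m_j ≥ 1`. Some
element of `S` has `j`-th coordinate `0 < m_j`. Among all `m' ∈ S` with `m'_j < m_j` take the one
(call it `m'`) with the smallest ratio `(⟨w, m'⟩ - ⟨w, m⟩) / (m_j - m'_j)`. Let
`D = ⟨w, m' - m⟩ > 0`, an integer because `m' - m ∈ M`, so `D ≥ 1`, and `q = m_j - m'_j`,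
`1 ≤ q ≤ m_j`. Put `w' = q w + D e_j`. It is in `Dual M` (`e_j` pairs integrally with `ℤ^n`) and
positive. For `m'' ∈ S`: `⟨w', m''⟩ - ⟨w', m⟩ = q ⟨w, m'' - m⟩ + D (m''_j - m_j)`, which is `≥ 0`:
clear if `m''_j ≥ m_j`; otherwise `⟨w, m'' - m⟩ / (m_j - m''_j) ≥ D / q` by the choice of `m'`; and
`= 0` for `m'' = m'`. So the minimum of `w'` on `S` is attained at `m` and `m' ≠ m`, and
`α(w') = ∑ w'_i - ⟨w', m⟩ = q α(w) + D - D m_j = q α(w) - D (m_j - 1) ≤ q α(w) - (q - 1)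
≤ α(w)` because `D ≥ 1`, `m_j ≥ q` and `(q - 1)(α(w) - 1) ≤ 0`.
-/

set_option linter.dupNamespace false

namespace Pool.Agent.GAP

variable {n : ℕ}

private lemma trp_pair_add (q D : ℝ) (w : Fin n → ℝ) (j : Fin n) (m : Fin n → ℤ) :
    pair (fun i => q * w i + D * (if i = j then 1 else 0)) m = q * pair w m + D * m j := by
  unfold pair
  rw [Finset.mul_sum]
  have h : D * (m j : ℝ) = ∑ i, D * (if i = j then 1 else 0) * (m i : ℝ) := by
    rw [Finset.sum_eq_single j]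
    · rw [if_pos rfl, mul_one]
    · intro i _ hi
      rw [if_neg hi, mul_zero, zero_mul]
    · intro h
      exact absurd (Finset.mem_univ j) h
  rw [h, ← Finset.sum_add_distrib]
  exact Finset.sum_congr rfl fun i _ => by ring

private lemma trp_pairN_add (q D : ℝ) (w : Fin n → ℝ) (j : Fin n) (m : Fin n →₀ ℕ) :
    pairN (fun i => q * w i + D * (if i = j then 1 else 0)) m = q * pairN w m + D * m j := by
  unfold pairN
  rw [Finset.mul_sum]
  have h : D * (m j : ℝ) = ∑ i, D * (if i = j then 1 else 0) * (m i : ℝ) := by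
    rw [Finset.sum_eq_single j]
    · rw [if_pos rfl, mul_one]
    · intro i _ hi
      rw [if_neg hi, mul_zero, zero_mul]
    · intro h
      exact absurd (Finset.mem_univ j) h
  rw [h, ← Finset.sum_add_distrib]
  exact Finset.sum_congr rfl fun i _ => by ring

private lemma trp_sum_add (q D : ℝ) (w : Fin n → ℝ) (j : Fin n) :
    ∑ i, (q * w i + D * (if i = j then 1 else 0)) = q * ∑ i, w i + D := by
  rw [Finset.sum_add_distrib, ← Finset.mul_sum, ← Finset.mul_sum, Finset.sum_ite_eq' Finset.univ j,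
    if_pos (Finset.mem_univ j), mul_one]

private lemma trp_diff (w : Fin n → ℝ) (m m' : Fin n →₀ ℕ) :
    pair w (fun i => (m i : ℤ) - m' i) = pairN w m - pairN w m' := by
  unfold pair pairN
  rw [← Finset.sum_sub_distrib]
  refine Finset.sum_congr rfl fun i _ => ?_
  push_cast
  ring

theorem exists_tropical (M : AddSubgroup (Fin n → ℤ)) (S : Finset (Fin n →₀ ℕ))
    (hS : S.Nonempty) (hdiff : ∀ m ∈ S, ∀ m' ∈ S, (fun i => (m i : ℤ) - m' i) ∈ M)
    (h0 : (0 : Fin n →₀ ℕ) ∉ S) (hvar : ∀ j, ∃ m ∈ S, m j = 0) {w : Fin n → ℝ}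
    (hw : w ∈ Dual M) (hpos : ∀ i, 0 < w i) {a : ℝ} (ha : IsAl S w a) (ha1 : a ≤ 1) :
    ∃ w' ∈ Dual M, (∀ i, 0 < w' i) ∧ ∃ a', IsAl S w' a' ∧ a' ≤ a ∧
      ∃ m ∈ S, ∃ m' ∈ S, m ≠ m' ∧ a' = ∑ i, w' i - pairN w' m ∧
        a' = ∑ i, w' i - pairN w' m' := by
  classical
  obtain ⟨⟨m, hm, ham⟩, hmax⟩ := id ha
  by_cases hA : ∃ m' ∈ S, m' ≠ m ∧ pairN w m' = pairN w m
  · obtain ⟨m', hm', hne, heq⟩ := hA
    exact ⟨w, hw, hpos, a, ha, le_rfl, m, hm, m', hm', hne.symm, ham, by rw [heq]; exact ham⟩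
  push Not at hA
  have hlt : ∀ m' ∈ S, m' ≠ m → pairN w m < pairN w m' := by
    intro m' hm' hne
    have h1 := hmax m' hm'
    rw [ham] at h1
    exact lt_of_le_of_ne (by linarith) (hA m' hm' hne).symm
  obtain ⟨j, hj⟩ : ∃ j, m j ≠ 0 := by
    by_contra h1
    push Not at h1
    have h2 : m = 0 := Finsupp.ext h1
    rw [h2] at hm
    exact h0 hm
  have hT : (S.filter fun m' => m' j < m j).Nonempty := by
    obtain ⟨m', hm', h1⟩ := hvar j
    exact ⟨m', Finset.mem_filter.2 ⟨hm', by omega⟩⟩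
  obtain ⟨m', hm'T, hmin⟩ := (S.filter fun m' => m' j < m j).exists_min_image
    (fun m'' => (pairN w m'' - pairN w m) / ((m j : ℝ) - m'' j)) hT
  obtain ⟨hm', hm'j⟩ := Finset.mem_filter.1 hm'T
  have hne : m' ≠ m := by
    rintro rfl
    exact lt_irrefl _ hm'j
  obtain ⟨z, hz⟩ := hw _ (hdiff m' hm' m hm)
  rw [trp_diff] at hz
  have hDpos : 0 < pairN w m' - pairN w m := sub_pos.2 (hlt m' hm' hne)
  have hz1 : 1 ≤ z := by
    have h1 : (0 : ℝ) < z := hz ▸ hDpos
    exact_mod_cast h1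
  have hD1 : (1 : ℝ) ≤ pairN w m' - pairN w m := by
    rw [hz]
    exact_mod_cast hz1
  set D : ℝ := pairN w m' - pairN w m with hD
  have hqr : (0 : ℝ) < (m j : ℝ) - m' j := sub_pos.2 (by exact_mod_cast hm'j)
  set q : ℝ := (m j : ℝ) - m' j with hq
  have hq1 : (1 : ℝ) ≤ q := by
    have h1 : ((m' j + 1 : ℕ) : ℝ) ≤ m j := by exact_mod_cast hm'j
    push_cast at h1
    rw [hq]
    linarith
  set w' : Fin n → ℝ := fun i => q * w i + D * (if i = j then 1 else 0) with hw'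
  have hP : ∀ μ : Fin n →₀ ℕ, pairN w' μ = q * pairN w μ + D * μ j := fun μ =>
    trp_pairN_add q D w j μ
  have hsum : ∑ i, w' i = q * ∑ i, w i + D := trp_sum_add q D w j
  have hmin' : ∀ m'' ∈ S, pairN w' m ≤ pairN w' m'' := by
    intro m'' hm''
    rw [hP, hP]
    have h3 : 0 ≤ pairN w m'' - pairN w m := by
      have h1 := hmax m'' hm''
      rw [ham] at h1
      linarith
    by_cases h1 : m j ≤ m'' j
    · have h2 : (m j : ℝ) ≤ m'' j := by exact_mod_cast h1
      nlinarith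
    · have h2 : m'' j < m j := not_le.1 h1
      have h4 := hmin m'' (Finset.mem_filter.2 ⟨hm'', h2⟩)
      have h5 : (0 : ℝ) < (m j : ℝ) - m'' j := sub_pos.2 (by exact_mod_cast h2)
      rw [div_le_div_iff₀ hqr h5] at h4
      nlinarith
  have hw'm : pairN w' m' = pairN w' m := by
    rw [hP, hP]
    have h1 : pairN w m' = pairN w m + D := by rw [hD]; ring
    have h2 : (m j : ℝ) = m' j + q := by rw [hq]; ring
    rw [h1, h2]
    ring
  refine ⟨w', ?_, ?_, ∑ i, w' i - pairN w' m, ⟨⟨m, hm, rfl⟩, fun m'' hm'' => ?_⟩, ?_,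
    m, hm, m', hm', hne.symm, rfl, by rw [hw'm]⟩
  · intro μ hμ
    obtain ⟨y, hy⟩ := hw μ hμ
    refine ⟨((m j : ℤ) - m' j) * y + z * μ j, ?_⟩
    rw [hw', trp_pair_add, hy, hz, hq]
    push_cast
    ring
  · intro i
    have h1 : 0 < q * w i := mul_pos hqr (hpos i)
    have h2 : 0 ≤ D * (if i = j then 1 else 0) := by
      split_ifs
      · linarith
      · simp
    exact add_pos_of_pos_of_nonneg h1 h2
  · have := hmin' m'' hm''
    linarith
  · rw [hsum, hP, ham]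
    have h1 : ∑ i, w i - pairN w m ≤ 1 := ham ▸ ha1
    have h2 : q ≤ m j := by
      rw [hq]
      have : (0 : ℝ) ≤ m' j := Nat.cast_nonneg _
      linarith
    nlinarith [mul_nonneg (sub_nonneg.2 hq1) (sub_nonneg.2 h1),
      mul_nonneg (sub_nonneg.2 hD1) (sub_nonneg.2 (hq1.trans h2))]

/-- Primitive weights. Proof: `w` defines a homomorphism `M → ℤ`, `m ↦ ⟨w, m⟩`; it is nonzero
(`n ≥ 1`, `M ∋ q e_1`, `w_1 > 0`), so its image is `c ℤ` with `c ≥ 1`; take `w' = w / c`. -/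
theorem exists_primitive (M : AddSubgroup (Fin n → ℤ)) (hM : FinIdx M) (hn : 0 < n)
    {w : Fin n → ℝ} (hw : w ∈ Dual M) (hpos : ∀ i, 0 < w i) :
    ∃ c : ℕ, 0 < c ∧ (fun i => w i / c) ∈ Dual M ∧
      ∃ m ∈ M, pair (fun i => w i / c) m = 1 := by
  classical
  have hadd : ∀ m m' : Fin n → ℤ, pair w (m - m') = pair w m - pair w m' := by
    intro m m'
    unfold pair
    rw [← Finset.sum_sub_distrib]
    refine Finset.sum_congr rfl fun i _ => ?_
    rw [Pi.sub_apply]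
    push_cast
    ring
  have hsmul : ∀ (k : ℤ) (m : Fin n → ℤ), pair w (k • m) = k * pair w m := by
    intro k m
    unfold pair
    rw [Finset.mul_sum]
    refine Finset.sum_congr rfl fun i _ => ?_
    rw [Pi.smul_apply, smul_eq_mul]
    push_cast
    ring
  have hdiv : ∀ (c : ℕ) (m : Fin n → ℤ), pair (fun i => w i / c) m = pair w m / c := by
    intro c m
    unfold pair
    rw [Finset.sum_div]
    exact Finset.sum_congr rfl fun i _ => by ring
  have hex : ∃ d : ℕ, 0 < d ∧ ∃ m ∈ M, pair w m = d := by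
    obtain ⟨q, hq, hqM⟩ := hM
    have h1 := hqM (Pi.single ⟨0, hn⟩ 1)
    obtain ⟨z, hz⟩ := hw _ h1
    have h2 : pair w (q • (Pi.single (⟨0, hn⟩ : Fin n) (1 : ℤ))) = q * w ⟨0, hn⟩ := by
      unfold pair
      rw [Finset.sum_eq_single (⟨0, hn⟩ : Fin n)]
      · simp [mul_comm]
      · intro i _ hi
        simp [hi]
      · intro h
        exact absurd (Finset.mem_univ _) h
    have h3 : (0 : ℝ) < z := by
      rw [← hz, h2]
      exact mul_pos (by exact_mod_cast hq) (hpos _)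
    have h4 : 0 < z := by exact_mod_cast h3
    refine ⟨z.toNat, by omega, _, h1, ?_⟩
    rw [hz]
    have h5 : ((z.toNat : ℕ) : ℤ) = z := Int.toNat_of_nonneg h4.le
    exact_mod_cast h5.symm
  obtain ⟨hc, m₀, hm₀, hcm⟩ := Nat.find_spec hex
  set c := Nat.find hex with hcdef
  have hc' : (c : ℝ) ≠ 0 := by exact_mod_cast hc.ne'
  refine ⟨c, hc, fun m hm => ?_, m₀, hm₀, by rw [hdiv, hcm, div_self hc']⟩
  obtain ⟨z, hz⟩ := hw m hm
  have h1 : z % (c : ℤ) = 0 := by
    by_contra h2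
    have h3 : 0 ≤ z % (c : ℤ) := Int.emod_nonneg _ (by exact_mod_cast hc.ne')
    have h4 : z % (c : ℤ) < c := Int.emod_lt_of_pos _ (by exact_mod_cast hc)
    have h5 : (z % (c : ℤ)).toNat < c := by omega
    refine Nat.find_min hex h5 ⟨by omega, m - (z / c) • m₀,
      M.sub_mem hm (M.zsmul_mem hm₀ _), ?_⟩
    rw [hadd, hsmul, hz, hcm]
    have h6 : (((z % (c : ℤ)).toNat : ℕ) : ℤ) = z - (z / c) * c := by
      rw [Int.toNat_of_nonneg h3, Int.emod_def]
      ring
    have h7 : (((z % (c : ℤ)).toNat : ℕ) : ℝ) = ((z - (z / c) * c : ℤ) : ℝ) := by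
      exact_mod_cast h6
    rw [h7]
    push_cast
    ring
  refine ⟨z / c, ?_⟩
  rw [hdiv, hz, div_eq_iff hc']
  have h2 := Int.emod_add_mul_ediv z c
  rw [h1, zero_add] at h2
  have h3 : (z : ℝ) = ((c * (z / c) : ℤ) : ℝ) := by exact_mod_cast h2.symm
  rw [h3, Int.cast_mul, Int.cast_natCast, mul_comm]

end Pool.Agent.GAP
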