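import Pool.Agent.GAP.Pfa
import Pool.Agent.GAP.Kph
import Pool.Agent.GAP.Dvl

/-!
# GAP, module UPP: the upper bound

Proof. Take a chart, a shift `a`, the prime `p` (`exists_factor`), and `E` from `exists_val` with
`C = MvPolynomial (Fin d) k`, `φ = H.φ`, `F2 = H.F2 r a` (`ker_phi`: the monomial `y^e` is not
divisible by `p` because `p` divides no variable; `gen_poly`; `coeff_F2`). `t = χ(b0)`,
`y_j = χ(b_j)`: `v t = 1`, `v y_j = 0` (`p ∤ X_j`), so `v(χ m) = w m` for all `m` (chart `eq`).
Finite generation: `s = {t, y_1, ..., y_d}`, `φ(C[X])` is in `Algebra.adjoin k s`.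
The lattice: by `lo_eq_of_adjoin`, `E.lo` is generated over the valuation ring by
`D t, D y_1, ..., D y_d`. For `x ∈ C[X]`: `D (φ x) = φ(x') D t + ∑_j φ(∂_j x) D y_j`
(`x'` the derivative in `X`, `∂_j` applied to the coefficients; check on `X`, `X_j`, products). For
`x = F2`: `0 = φ(F2') D t + ∑_j φ(∂_j F2) D y_j`, and `(∂_j F2)(0) = ∂_j H0`, which for one `j = j0` is
not divisible by `p`: `φ(∂_j0 F2)` is a unit, so `D y_j0` is an integral combination of `D t` and
`D y_j`, `j ≠ j0`. So `lo` is generated by the `d` elements `γ = (D t, D y_j (j ≠ j0))`, and by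
`lat_of_generators` every element of the lattice is `c γ_1 ∧ ... ∧ γ_d`, `c` integral. Now
`γ_1 ∧ ... ∧ γ_d = t ∏_{j≠j0} y_j (dlog t ∧ ⋀ dlog y_j)` and by `wedge_mon`
(`Ge r (ev F_l)` because every term has value `≥ r`) this is `c' θ` with `Ge (1 + r) c'`. If
`s θ ∈ lat` with `s ≠ 0`, then `s = c c'` (`θ ≠ 0`), so `v s ≥ 1 + r`. `ordForm_le`.
-/

set_option linter.dupNamespace false

namespace Pool.Agent.GAP

variable {k K : Type*} [Field k] [Field K] [Algebra k K] {d : ℕ}

private theorem D_aeval (y : Fin d → K) (c : MvPolynomial (Fin d) k) :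
    KaehlerDifferential.D k K (MvPolynomial.aeval y c) =
      ∑ j, MvPolynomial.aeval y (MvPolynomial.pderiv j c) • KaehlerDifferential.D k K (y j) := by
  classical
  induction c using MvPolynomial.induction_on with
  | C a => simp
  | add p q hp hq =>
    rw [map_add, map_add, hp, hq, ← Finset.sum_add_distrib]
    refine Finset.sum_congr rfl fun j _ => ?_
    rw [map_add, map_add, add_smul]
  | mul_X p i hp =>
    rw [map_mul, MvPolynomial.aeval_X, Derivation.leibniz, hp, Finset.smul_sum]
    have h1 : ∀ j, MvPolynomial.aeval y (MvPolynomial.pderiv j (p * MvPolynomial.X i)) •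
        KaehlerDifferential.D k K (y j) =
        (if j = i then MvPolynomial.aeval y p • KaehlerDifferential.D k K (y i) else 0) +
          y i • MvPolynomial.aeval y (MvPolynomial.pderiv j p) •
            KaehlerDifferential.D k K (y j) := by
      intro j
      rw [Derivation.leibniz, smul_eq_mul, smul_eq_mul, MvPolynomial.pderiv_X, map_add, map_mul,
        map_mul, MvPolynomial.aeval_X, add_smul, smul_smul]
      congr 1
      by_cases hji : j = i
      · subst hji
        simp
      · rw [Pi.single_eq_of_ne (Ne.symm hji), map_zero, mul_zero, zero_smul, if_neg hji]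
    simp only [h1, Finset.sum_add_distrib, Finset.sum_ite_eq', Finset.mem_univ, if_true]

/-- the partial derivatives of the coefficients -/
private noncomputable def dco (j : Fin d) :
    Polynomial (MvPolynomial (Fin d) k) →ₗ[k] Polynomial (MvPolynomial (Fin d) k) :=
  Polynomial.lsum fun n =>
    ((Polynomial.monomial n).restrictScalars k).comp
      (MvPolynomial.pderiv j : Derivation k _ _).toLinearMap

private theorem dco_monomial (j : Fin d) (n : ℕ) (c : MvPolynomial (Fin d) k) :
    dco j (Polynomial.monomial n c) = Polynomial.monomial n (MvPolynomial.pderiv j c) := by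
  unfold dco
  rw [Polynomial.lsum_apply, Polynomial.sum_monomial_index]
  · rfl
  · rw [map_zero]

private theorem dco_coeff (j : Fin d) (x : Polynomial (MvPolynomial (Fin d) k)) (n : ℕ) :
    (dco j x).coeff n = MvPolynomial.pderiv j (x.coeff n) := by
  induction x using Polynomial.induction_on' with
  | add x y hx hy => rw [map_add, Polynomial.coeff_add, hx, hy, Polynomial.coeff_add, map_add]
  | monomial m c =>
    rw [dco_monomial, Polynomial.coeff_monomial, Polynomial.coeff_monomial]
    split_ifs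
    · rfl
    · rw [map_zero]

section

variable {T : TorData k K d} {w : T.M →+ ℤ}

private theorem φ_monomial (H : Chart T w) (n : ℕ) (c : MvPolynomial (Fin d) k) :
    H.φ (Polynomial.monomial n c) =
      MvPolynomial.aeval (fun j => T.mon (H.b j)) c * T.mon H.b0 ^ n := by
  unfold Chart.φ
  rw [Polynomial.coe_eval₂RingHom, Polynomial.eval₂_monomial]
  rfl

private theorem D_φ (H : Chart T w) (x : Polynomial (MvPolynomial (Fin d) k)) :
    KaehlerDifferential.D k K (H.φ x) =
      H.φ (Polynomial.derivative x) • KaehlerDifferential.D k K (T.mon H.b0) +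
        ∑ j, H.φ (dco j x) • KaehlerDifferential.D k K (T.mon (H.b j)) := by
  induction x using Polynomial.induction_on' with
  | add x y hx hy =>
    rw [map_add, map_add, hx, hy]
    simp only [map_add, add_smul, Finset.sum_add_distrib]
    abel
  | monomial n c =>
    rw [φ_monomial, Derivation.leibniz, Derivation.leibniz_pow, D_aeval, Finset.smul_sum,
      Polynomial.derivative_monomial, φ_monomial]
    congr 1
    · rw [map_mul, map_natCast, ← Nat.cast_smul_eq_nsmul K, smul_smul, smul_smul]
    · refine Finset.sum_congr rfl fun j _ => ?_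
      rw [dco_monomial, φ_monomial, smul_smul, mul_comm]

private theorem φ_mem (H : Chart T w) (x : Polynomial (MvPolynomial (Fin d) k)) {s : Set K}
    (h0 : T.mon H.b0 ∈ s) (h : ∀ j, T.mon (H.b j) ∈ s) : H.φ x ∈ Algebra.adjoin k s := by
  induction x using Polynomial.induction_on' with
  | add x y hx hy =>
    rw [map_add]
    exact add_mem hx hy
  | monomial n c =>
    rw [φ_monomial]
    refine mul_mem ?_ (pow_mem (Algebra.subset_adjoin h0) n)
    induction c using MvPolynomial.induction_on with
    | C a =>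
      rw [MvPolynomial.aeval_C]
      exact Subalgebra.algebraMap_mem _ a
    | add p q hp hq =>
      rw [map_add]
      exact add_mem hp hq
    | mul_X p i hp =>
      rw [map_mul, MvPolynomial.aeval_X]
      exact mul_mem hp (Algebra.subset_adjoin (h i))

end

private theorem not_dvd_monomial {p : MvPolynomial (Fin d) k} (hp : Prime p)
    (hpX : ∀ j, ¬ p ∣ MvPolynomial.X j) (e : Fin d →₀ ℕ) :
    ¬ p ∣ MvPolynomial.monomial e 1 := by
  rw [MvPolynomial.monomial_eq, map_one, one_mul, Finsupp.prod]
  intro h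
  obtain ⟨j, -, hj⟩ := (hp.dvd_finsetProd_iff _).1 h
  exact hpX j (hp.dvd_of_dvd_pow hj)

theorem upper [IsAlgClosed k] [CharZero k] {T : TorData k K d} (hT : T.OK) (hnd : Nondeg T.f)
    {w : T.M →+ ℤ} (hpos : ∀ j, 0 < w (T.e j)) (hs : ∃ m, w m = 1) {r : ℤ} (hr : T.IsMin w r)
    (htrop : ∃ m ∈ T.f.support, ∃ m' ∈ T.f.support, m ≠ m' ∧ w (T.δ m) = r ∧ w (T.δ m') = r)
    {i : Fin (d + 1)} (hi : T.ev (T.FD i) ≠ 0) :
    ∃ E : NVal k K, (∀ m, E.v (T.mon m) = w m) ∧
      E.ordForm (T.θ i) ≤ (((-1 - r : ℤ) : ℝ) : EReal) ∧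
      ∃ s : Finset K, (∀ z ∈ s, E.Int z) ∧ ∀ z : K, E.Int z →
        ∃ a ∈ Algebra.adjoin k (s : Set K), ∃ b ∈ Algebra.adjoin k (s : Set K),
          b ≠ 0 ∧ E.v b = 0 ∧ z * b = a := by
  classical
  obtain ⟨H⟩ := exists_chart T w hs
  obtain ⟨a, ha⟩ := exists_shift T H
  obtain ⟨p, hp, hpX, ⟨g, hg, hpg⟩, j0, hj0⟩ := exists_factor hnd hpos H hr ha htrop
  obtain ⟨hk0, hk1⟩ := ker_phi H hT hr ha
  obtain ⟨E, hX0, hX1, hInt, hunit, -, hall⟩ := exists_val (k := k) H.φ
    (fun c => by
      unfold Chart.φ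
      simp) hp hk0
    (fun x hx => by
      obtain ⟨e, he⟩ := hk1 x hx
      exact ⟨_, not_dvd_monomial hp hpX e, he⟩)
    ⟨g, (coeff_F2 H hr a).trans hg, hpg⟩ (gen_poly H hT)
  have hφX : H.φ Polynomial.X = T.mon H.b0 := by
    unfold Chart.φ
    simp
  have hφy : ∀ j, H.φ (Polynomial.C (MvPolynomial.X j)) = T.mon (H.b j) := by
    intro j
    unfold Chart.φ
    simp
  have hvt : E.v (T.mon H.b0) = 1 := hφX ▸ hX1
  have hvy : ∀ j, E.v (T.mon (H.b j)) = 0 := by
    intro j
    rw [← hφy]
    exact (hunit _ (by rw [Polynomial.coeff_C_zero]; exact hpX j)).2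
  -- the values of the monomials
  have hv : ∀ m, E.v (T.mon m) = w m := by
    let V : T.M →+ ℤ := AddMonoidHom.mk' (fun m => E.v (T.mon m)) fun m m' => by
      rw [T.mon_add, E.v_mul _ _ (T.mon_ne _) (T.mon_ne _)]
    intro m
    have h1 : V m = w m * V H.b0 + ∑ j, H.c m j * V (H.b j) := by
      conv_lhs => rw [H.eq m]
      rw [map_add, map_zsmul, map_sum, smul_eq_mul]
      congr 1
      exact Finset.sum_congr rfl fun j _ => by rw [map_zsmul, smul_eq_mul]
    have h2 : V H.b0 = 1 := hvt
    have h3 : ∀ j, V (H.b j) = 0 := hvy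
    simp only [h2, h3, mul_one, mul_zero, Finset.sum_const_zero, add_zero] at h1
    exact h1
  -- generators
  let s : Finset K := insert (T.mon H.b0) (Finset.univ.image fun j => T.mon (H.b j))
  have hst : T.mon H.b0 ∈ (s : Set K) := by
    simp [s]
  have hsy : ∀ j, T.mon (H.b j) ∈ (s : Set K) := by
    intro j
    simp [s]
  have hsint : ∀ z ∈ s, E.Int z := by
    intro z hz
    rcases Finset.mem_insert.1 hz with rfl | hz
    · exact Or.inr (by rw [hvt]; norm_num)
    · obtain ⟨j, -, rfl⟩ := Finset.mem_image.1 hz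
      exact Or.inr (by rw [hvy])
  have hfin : ∀ z : K, E.Int z →
      ∃ a ∈ Algebra.adjoin k (s : Set K), ∃ b ∈ Algebra.adjoin k (s : Set K),
        b ≠ 0 ∧ E.v b = 0 ∧ z * b = a := by
    intro z hz
    obtain ⟨x, y, hy, hxy⟩ := hall z hz
    exact ⟨H.φ x, φ_mem H x hst hsy, H.φ y, φ_mem H y hst hsy, (hunit y hy).1, (hunit y hy).2,
      hxy⟩
  refine ⟨E, hv, ?_, s, hsint, hfin⟩
  -- the lattice of differentials
  let U : K := H.φ (dco j0 (H.F2 r a))
  have hU : U ≠ 0 ∧ E.v U = 0 := hunit _ (by rw [dco_coeff, coeff_F2 H hr a]; exact hj0)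
  have hUinv : E.Int U⁻¹ := Or.inr (by rw [E.v_inv, hU.2]; norm_num)
  let mm : Fin d → T.M := fun j => if j = j0 then H.b0 else H.b j
  let γ : Fin d → Ω[K⁄k] := fun j => KaehlerDifferential.D k K (T.mon (mm j))
  have hγ0 : γ j0 = KaehlerDifferential.D k K (T.mon H.b0) := by
    simp only [γ, mm, if_true]
  have hγj : ∀ j, j ≠ j0 → γ j = KaehlerDifferential.D k K (T.mon (H.b j)) := by
    intro j hj
    simp only [γ, mm, if_neg hj]
  have hrel : U • KaehlerDifferential.D k K (T.mon (H.b j0)) =
      -(H.φ (Polynomial.derivative (H.F2 r a)) • γ j0 +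
        ∑ j ∈ Finset.univ.erase j0, H.φ (dco j (H.F2 r a)) • γ j) := by
    have h1 := D_φ H (H.F2 r a)
    rw [hk0, map_zero, ← Finset.add_sum_erase _ _ (Finset.mem_univ j0)] at h1
    have h2 : ∑ j ∈ Finset.univ.erase j0, H.φ (dco j (H.F2 r a)) • γ j =
        ∑ j ∈ Finset.univ.erase j0, H.φ (dco j (H.F2 r a)) •
          KaehlerDifferential.D k K (T.mon (H.b j)) :=
      Finset.sum_congr rfl fun j hj => by rw [hγj j (Finset.ne_of_mem_erase hj)]
    rw [h2, hγ0]
    rw [eq_neg_iff_add_eq_zero]
    rw [eq_comm] at h1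
    rw [← h1]
    abel
  have hgen : ∀ ω ∈ E.lo, ∃ c : Fin d → K, (∀ i, E.Int (c i)) ∧ ω = ∑ i, c i • γ i := by
    intro ω hω
    rw [lo_eq_of_adjoin E (s := (s : Set K)) (fun z hz => hsint z (Finset.mem_coe.1 hz)) hfin] at hω
    induction hω using AddSubgroup.closure_induction with
    | mem ω h =>
      obtain ⟨a', z, ha', hz, rfl⟩ := h
      have hsingle : ∀ j, ∃ c : Fin d → K, (∀ i, E.Int (c i)) ∧ a' • γ j = ∑ i, c i • γ i := by
        intro j
        refine ⟨Pi.single j a', fun i => ?_, ?_⟩
        · by_cases hij : i = j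
          · subst hij
            rw [Pi.single_eq_same]
            exact ha'
          · rw [Pi.single_eq_of_ne hij]
            exact NVal.Int.zero
        · rw [Finset.sum_eq_single j, Pi.single_eq_same]
          · intro i _ hij
            rw [Pi.single_eq_of_ne hij, zero_smul]
          · intro h
            exact absurd (Finset.mem_univ j) h
      rcases Finset.mem_insert.1 (Finset.mem_coe.1 hz) with rfl | hz
      · rw [← hγ0]
        exact hsingle j0
      · obtain ⟨j, -, rfl⟩ := Finset.mem_image.1 hz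
        by_cases hj : j = j0
        · subst hj
          refine ⟨fun i => if i = j then -(a' * U⁻¹ * H.φ (Polynomial.derivative (H.F2 r a)))
            else -(a' * U⁻¹ * H.φ (dco i (H.F2 r a))), fun i => ?_, ?_⟩
          · dsimp only
            split_ifs
            · exact ((ha'.mul hUinv).mul (hInt _)).neg
            · exact ((ha'.mul hUinv).mul (hInt _)).neg
          · have h1 : KaehlerDifferential.D k K (T.mon (H.b j)) =
                U⁻¹ • U • KaehlerDifferential.D k K (T.mon (H.b j)) := by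
              rw [smul_smul, inv_mul_cancel₀ hU.1, one_smul]
            rw [h1, hrel, ← Finset.add_sum_erase _ _ (Finset.mem_univ j), smul_neg, smul_add,
              Finset.smul_sum, smul_neg, smul_add, Finset.smul_sum, neg_add]
            beta_reduce
            rw [if_pos rfl]
            congr 1
            · rw [neg_smul, smul_smul, smul_smul, mul_assoc]
            · rw [← Finset.sum_neg_distrib]
              refine Finset.sum_congr rfl fun i hi' => ?_
              rw [if_neg (Finset.ne_of_mem_erase hi'), neg_smul, smul_smul, smul_smul, mul_assoc]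
        · rw [← hγj j hj]
          exact hsingle j
    | zero => exact ⟨0, fun i => NVal.Int.zero, by simp⟩
    | add x y _ _ hx hy =>
      obtain ⟨c, hc, rfl⟩ := hx
      obtain ⟨c', hc', rfl⟩ := hy
      refine ⟨c + c', fun i => (hc i).add (hc' i), ?_⟩
      simp only [Pi.add_apply, add_smul, Finset.sum_add_distrib]
    | neg x _ hx =>
      obtain ⟨c, hc, rfl⟩ := hx
      refine ⟨-c, fun i => (hc i).neg, ?_⟩
      simp only [Pi.neg_apply, neg_smul, Finset.sum_neg_distrib]
  -- the form
  have hFD : ∀ l, E.Ge r (T.ev (T.FD l)) := by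
    intro l
    unfold TorData.FD
    rw [map_sum]
    refine NVal.Ge.sum _ _ fun m hm => ?_
    rw [T.ev_single, Algebra.smul_def]
    have h1 : E.Ge r (T.mon (T.δ m)) := Or.inr (by rw [hv]; exact hr.2 m hm)
    have h2 := NVal.Ge.mul (NVal.Int.alg (E := E) ((m l : k) * MvPolynomial.coeff m T.f)) h1
    rwa [zero_add] at h2
  obtain ⟨c1, hc1, hw1⟩ := wedge_mon T ((hT.ker _).2 dvd_rfl) hi E hFD mm
  have hγw : exteriorPower.ιMulti K d γ = ((∏ j, T.mon (mm j)) * c1) • T.θ i := by
    rw [mul_smul, ← hw1, ← AlternatingMap.map_smul_univ]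
    congr 1
    funext j
    rw [smul_smul, mul_inv_cancel₀ (T.mon_ne _), one_smul]
  have hprod : E.v (∏ j, T.mon (mm j)) = 1 := by
    rw [E.v_prod _ _ fun j _ => T.mon_ne _, Finset.sum_eq_single j0]
    · rw [hv]
      simp only [mm, if_true]
      exact H.w0
    · intro j _ hj
      rw [hv]
      simp only [mm, if_neg hj]
      exact H.wb j
    · intro h
      exact absurd (Finset.mem_univ j0) h
  refine ordForm_le E fun z hz hzl => ?_
  obtain ⟨c, hc, hcω⟩ := lat_of_generators E γ hgen hzl
  rw [hγw, smul_smul] at hcω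
  have hz2 : z = c * ((∏ j, T.mon (mm j)) * c1) :=
    smul_left_injective K (theta_ne T hT hi) hcω
  have h1 : E.Ge 1 (∏ j, T.mon (mm j)) := Or.inr hprod.ge
  have h2 := (NVal.Ge.mul hc (NVal.Ge.mul h1 hc1)).le (hz2 ▸ hz)
  rw [← hz2] at h2
  omega

end Pool.Agent.GAP
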