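import Pool.Agent.GAP.Low
import Pool.Agent.GAP.Upp
import Pool.Agent.GAP.Dsc
import Pool.Agent.GAP.Ker
import Pool.Agent.GAP.Nrm
import Pool.Agent.GAP.Ind
import Pool.Agent.GAP.Trp

/-!
# GAP, module OVR: log discrepancies over the germ and weights

`base`: with `T` (`exists_torOf`, `OK` from `torOf_ker`, `torOf_gen`, `torOf_ne`, `torOf_indep`), `i`
with `ev(FD i) ≠ 0`, `hh = mon (q (m0 - 1))`: the canonical data `(θ i, q, hh)` (`can_ord`,
`theta_ne`). All other canonical data of the germ have the same log discrepancies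
(`logDisc_eq`, `normal_A`, `noeth`, `forms_eq`), and `finrank Ω = d` (`finrank_eq`).

`lower_w`. `w m = v(mon m)` is a homomorphism `M → ℤ`. For `m ∈ M ∩ ℕ^n`, `m ≠ 0`: `mon m` is (the image
of) the class of an invariant monomial in `P`, not `0`, so `w m > 0`; in particular `w(e_j) > 0`. Let
`w' = rw w`; then `w' ∈ Dual (perp G)` (`rw_pair`), positive. `r = min w(δ m)`. `α = max (∑ w'_i -
⟨w', m⟩) = ∑ w'_i - ⟨w', m0⟩ - r` (`rw_pairN`). And `logDisc = 1 + ordForm θ - v(hh)/q ≥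
1 + (-1 - r) - (⟨w', m0⟩ - ∑ w'_i) = α` (`lower`).

`upper_w`. By `exists_tropical` (the hypotheses: `0 ∉ S` as `f(0) = 0`; `∃ m, m_j = 0` as `X_j ∤ f`)
there is a tropical `w'` with `α(w') ≤ α(w)`. By `exists_primitive` divide by `c`: `w'' = w' / c`,
`α(w'') = α(w') / c`. The homomorphism `M → ℤ`, `m ↦ ⟨w'', m⟩`, is onto, positive on `e_j`, has the
real weights `w''`. `upper` gives `E`; it is a divisor over `P`: elements of `A` are classes of
polynomials `p` with exponents in `perp G` (`exists_lift`), so `E.Int`, and `v > 0` or zero if `p(0) = 0`;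
for `a ∉ P` the constant coefficient is not `0`, so `v a = 0` (`v_add_eq`). As above
`logDisc ≤ α(w'') `, which is `≤ α(w') ≤ a` if `α(w') ≥ 0` and `< 0` otherwise.
-/

set_option linter.dupNamespace false

namespace Pool.Agent.GAP

open MvPolynomial

universe u

variable {k : Type u} [Field k] {d : ℕ} {K L : Type*} [Field K] [Field L]
    [Algebra k K] [Algebra k L]

variable {X : HQ k (d + 1)}

variable [Algebra X.A K] [Algebra X.B L] [Algebra K L]

theorem base [IsAlgClosed k] [CharZero k] (h : Ctx X.toPre K L) :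
    ∃ T : TorData k K d, TorOf X.toPre L T ∧ T.OK := by
  have := h.towerKL
  obtain ⟨T, hT⟩ := exists_torOf h
  exact ⟨T, hT, ⟨torOf_ker h hT, torOf_gen h hT, torOf_ne h hT, torOf_indep h hT⟩⟩

theorem exists_can [IsAlgClosed k] [CharZero k] (h : Ctx X.toPre K L)
    (hX : ∀ z : L, IsIntegral X.B z →
      ∃ b s : X.B, s ∉ X.orig ∧ z * algebraMap X.B L s = algebraMap X.B L b)
    {T : TorData k K d} (hT : TorOf X.toPre L T) (hOK : T.OK) {i : Fin (d + 1)}
    (hi : T.ev (T.FD i) ≠ 0) :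
    ∃ D : CanData k K X.P d, D.θ = T.θ i ∧ D.m = T.q ∧
      algebraMap K L D.h = X.mono L (fun j => (T.q : ℤ) * ((T.m0 j : ℤ) - 1)) := by
  have hm : (fun j => (T.q : ℤ) * ((T.m0 j : ℤ) - 1)) ∈ T.M := by
    have := T.all (fun j => (T.m0 j : ℤ) - 1)
    convert this using 1
    funext j
    simp
  have hmon := hT.mon ⟨_, hm⟩
  refine ⟨⟨T.θ i, T.q, T.mon ⟨_, hm⟩, theta_ne T hOK hi, T.q_pos, T.mon_ne _, ?_⟩, rfl, rfl, hmon⟩
  intro E hE
  exact can_ord h hX hT hOK hi hmon E hE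

theorem can_indep [IsAlgClosed k] [CharZero k] (h : Ctx X.toPre K L)
    (hX : ∀ z : L, IsIntegral X.B z →
      ∃ b s : X.B, s ∉ X.orig ∧ z * algebraMap X.B L s = algebraMap X.B L b)
    (D D' : CanData k K X.P d) (E : NVal k K) (hE : IsDivisorOver E X.P) :
    D'.logDisc E = D.logDisc E := by
  have := h.towerK
  have := h.fracK
  have := noeth X.toPre
  obtain ⟨T, hT, hOK⟩ := base h
  obtain ⟨i, hi⟩ := hOK.ne
  obtain ⟨c, hc⟩ := forms_eq T hOK hi D.θ
  obtain ⟨c', hc'⟩ := forms_eq T hOK hi D'.θ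
  refine logDisc_eq X.P (fun z hz => normal_A h hX hz) D D' ?_ E hE
  have hc0 : c ≠ 0 := by
    rintro rfl
    exact D.θ_ne (by rw [hc, zero_smul])
  refine ⟨c' / c, ?_⟩
  rw [hc', hc, smul_smul, div_mul_cancel₀ _ hc0]


section aux

variable {T : TorData k K d}

theorem rw_dual (hT : TorOf X.toPre L T) (w : T.M →+ ℤ) : T.rw w ∈ Dual (perp X.G) := by
  intro m hm
  refine ⟨w ⟨m, (hT.M_eq m).2 hm⟩, ?_⟩
  rw [rw_pair T w ⟨m, (hT.M_eq m).2 hm⟩]

theorem exists_isMin (T : TorData k K d) (w : T.M →+ ℤ) : ∃ r, T.IsMin w r := by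
  obtain ⟨m, hm, h⟩ := T.f.support.exists_min_image (fun m => w (T.δ m)) ⟨_, T.m0_mem⟩
  exact ⟨_, ⟨m, hm, rfl⟩, h⟩

theorem isAl_of_isMin (hT : TorOf X.toPre L T) {w : T.M →+ ℤ} {r : ℤ} (hr : T.IsMin w r) :
    IsAl X.f.support (T.rw w) (∑ i, T.rw w i - pairN (T.rw w) T.m0 - r) := by
  have hf := hT.f_eq
  obtain ⟨⟨m, hm, hmr⟩, h⟩ := hr
  refine ⟨⟨m, hf ▸ hm, ?_⟩, ?_⟩
  · rw [rw_pairN T w hm, hmr]
    ring
  · intro m' hm'
    rw [← hf] at hm'
    rw [rw_pairN T w hm']
    have : (r : ℝ) ≤ w (T.δ m') := by exact_mod_cast h m' hm'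
    linarith

theorem v_hh (h : Ctx X.toPre K L) (hT : TorOf X.toPre L T) {E : NVal k K} {w : T.M →+ ℤ}
    (hw : ∀ m, E.v (T.mon m) = w m) {hh : K}
    (hhh : algebraMap K L hh = X.mono L (fun j => (T.q : ℤ) * ((T.m0 j : ℤ) - 1))) :
    (E.v hh : ℝ) / T.q = pairN (T.rw w) T.m0 - ∑ i, T.rw w i := by
  have hm : (fun j => (T.q : ℤ) * ((T.m0 j : ℤ) - 1)) ∈ T.M := by
    have := T.all (fun j => (T.m0 j : ℤ) - 1)
    convert this using 1
    funext j
    simp
  have hmon := hT.mon ⟨_, hm⟩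
  have heq : hh = T.mon ⟨_, hm⟩ := (algebraMap K L).injective (by rw [hhh, hmon])
  rw [heq, hw, rw_pair T w]
  have hq : (T.q : ℝ) ≠ 0 := by
    have := T.q_pos
    positivity
  rw [div_eq_iff hq]
  unfold pair pairN
  push_cast
  rw [← Finset.sum_sub_distrib, Finset.sum_mul]
  refine Finset.sum_congr rfl fun i _ => ?_
  ring

theorem exists_hom (hT : TorOf X.toPre L T) {w : Fin (d + 1) → ℝ} (hw : w ∈ Dual (perp X.G)) :
    ∃ φ : T.M →+ ℤ, (∀ m : T.M, (φ m : ℝ) = pair w m) ∧ T.rw φ = w := by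
  have h1 : ∀ m : T.M, ∃ z : ℤ, pair w m = z := fun m => hw _ ((hT.M_eq _).1 m.2)
  choose φ hφ using h1
  refine ⟨AddMonoidHom.mk' φ ?_, ?_, ?_⟩
  · intro a b
    have h2 : (φ (a + b) : ℝ) = φ a + φ b := by
      rw [← hφ, ← hφ, ← hφ]
      unfold pair
      rw [← Finset.sum_add_distrib]
      refine Finset.sum_congr rfl fun i _ => ?_
      push_cast
      simp only [AddSubgroup.coe_add, Pi.add_apply]
      push_cast
      ring
    exact_mod_cast h2
  · intro m
    exact (hφ m).symm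
  · funext j
    unfold TorData.rw
    simp only [AddMonoidHom.mk'_apply]
    rw [← hφ]
    have hq : (T.q : ℝ) ≠ 0 := by
      have := T.q_pos
      positivity
    rw [div_eq_iff hq]
    unfold pair
    simp only [T.e_eq]
    rw [Finset.sum_eq_single j]
    · simp
    · intro i _ hi
      simp [hi]
    · simp

/-- An invariant monomial as an element of `A`. -/
theorem mon_nat (h : Ctx X.toPre K L) (hT : TorOf X.toPre L T) {m : Fin (d + 1) →₀ ℕ}
    (hm : (fun i => (m i : ℤ)) ∈ T.M) :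
    T.mon ⟨_, hm⟩ = algebraMap X.A K
      ⟨X.cl (monomial m 1), X.monomial_mem m 1 ((hT.M_eq _).1 hm)⟩ := by
  apply (algebraMap K L).injective
  rw [hT.mon, h.comp]
  exact mono_nat X.toPre h m


theorem v_e_pos (h : Ctx X.toPre K L) (hT : TorOf X.toPre L T) {E : NVal k K}
    (hE : IsDivisorOver E X.P) (j : Fin (d + 1)) : 0 < E.v (T.mon (T.e j)) := by
  have := h.fracK
  have hmem : (fun i => ((Finsupp.single j T.q) i : ℤ)) ∈ T.M := by
    have h1 := (T.e j).2
    convert h1 using 1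
    funext i
    rw [T.e_eq]
    by_cases hij : i = j
    · subst hij; simp
    · rw [if_neg hij, Finsupp.single_eq_of_ne hij]; simp
  have he : T.e j = ⟨_, hmem⟩ := by
    apply Subtype.ext
    funext i
    rw [T.e_eq]
    by_cases hij : i = j
    · subst hij; simp
    · simp only [if_neg hij, Finsupp.single_eq_of_ne hij]; simp
  have hne := T.mon_ne (T.e j)
  rw [he, mon_nat h hT hmem] at hne ⊢
  refine hE.2.2.1 _ ?_ ?_
  · change X.cl (monomial (Finsupp.single j T.q) 1) ∈ X.orig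
    rw [X.mem_orig, constantCoeff_monomial, if_neg]
    intro h0
    have := T.q_pos
    rw [Finsupp.single_eq_zero] at h0
    omega
  · intro h0
    rw [h0, map_zero] at hne
    exact hne rfl

/-- An element of `A` is a constant plus a sum of nontrivial invariant monomials. -/
theorem A_val [CharZero k] (h : Ctx X.toPre K L) (hT : TorOf X.toPre L T) {E : NVal k K}
    {w : T.M →+ ℤ} (hw : ∀ m, E.v (T.mon m) = w m) (hpos : ∀ j, 0 < T.rw w j) (a : X.A) :
    ∃ c : k, (c = 0 ↔ a ∈ X.P) ∧ E.Ge 1 (algebraMap X.A K a - algebraMap k K c) := by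
  classical
  have := h.towerL
  have := h.towerKL
  obtain ⟨p, hp, hpa⟩ := X.exists_lift a
  refine ⟨constantCoeff p, ?_, ?_⟩
  · rw [← X.mem_orig, hpa]
    rfl
  have hF : ∀ m : Fin (d + 1) →₀ ℕ, ∃ F : T.M, m ∈ p.support →
      (F : Fin (d + 1) → ℤ) = fun i => (m i : ℤ) := by
    intro m
    by_cases hm : m ∈ p.support
    · exact ⟨⟨_, (hT.M_eq _).2 (hp m hm)⟩, fun _ => rfl⟩
    · exact ⟨0, fun h => absurd h hm⟩
  choose F hF using hF
  have key : algebraMap X.A K a = ∑ m ∈ p.support, algebraMap k K (coeff m p) * T.mon (F m) := by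
    apply (algebraMap K L).injective
    rw [h.comp, ← hpa, map_sum]
    conv_lhs => rw [← support_sum_monomial_coeff p]
    rw [map_sum, map_sum]
    refine Finset.sum_congr rfl fun m hm => ?_
    rw [map_mul, ← IsScalarTower.algebraMap_apply, hT.mon, hF m hm, mono_nat X.toPre h m]
    have h1 : monomial m (coeff m p) = C (coeff m p) * monomial m (1 : k) := by
      rw [C_mul_monomial, mul_one]
    rw [h1, map_mul, map_mul]
    congr 1
    have h2 : X.cl (C (coeff m p)) = algebraMap k X.B (coeff m p) := AlgHom.commutes X.cl _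
    rw [h2, ← IsScalarTower.algebraMap_apply]
  have key2 : algebraMap X.A K a - algebraMap k K (constantCoeff p) =
      ∑ m ∈ p.support.erase 0, algebraMap k K (coeff m p) * T.mon (F m) := by
    rw [key]
    by_cases h0 : (0 : Fin (d + 1) →₀ ℕ) ∈ p.support
    · rw [← Finset.add_sum_erase _ _ h0]
      have hF0 : F 0 = 0 := by
        apply Subtype.ext
        rw [hF 0 h0]
        funext i
        simp
      rw [hF0, T.mon_zero, mul_one]
      have : coeff 0 p = constantCoeff p := rfl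
      rw [this]
      ring
    · rw [Finset.erase_eq_of_notMem h0]
      have : constantCoeff p = 0 := by
        rw [notMem_support_iff] at h0
        exact h0
      rw [this, map_zero, sub_zero]
  rw [key2]
  refine NVal.Ge.sum _ _ fun m hm => ?_
  obtain ⟨hm0, hm⟩ := Finset.mem_erase.1 hm
  have h1 : (0 : ℝ) < w (F m) := by
    rw [rw_pair T w, hF m hm]
    unfold pair
    have hex : ∃ i, m i ≠ 0 := by
      by_contra hcon
      push Not at hcon
      exact hm0 (Finsupp.ext hcon)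
    obtain ⟨i, hi⟩ := hex
    refine Finset.sum_pos' (fun j _ => ?_) ⟨i, Finset.mem_univ i, ?_⟩
    · have := (hpos j).le
      positivity
    · have := hpos i
      have h3 : (0 : ℝ) < ((m i : ℤ) : ℝ) := by
        have : 0 < m i := Nat.pos_of_ne_zero hi
        exact_mod_cast this
      positivity
  have h2 : 0 < w (F m) := by exact_mod_cast h1
  have h3 : E.Ge (0 + 1) (algebraMap k K (coeff m p) * T.mon (F m)) := by
    refine NVal.Ge.mul (NVal.Int.alg _) (Or.inr ?_)
    rw [hw]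
    omega
  simpa using h3

theorem over_of_val [CharZero k] (h : Ctx X.toPre K L) (hT : TorOf X.toPre L T) {E : NVal k K}
    {w : T.M →+ ℤ} (hw : ∀ m, E.v (T.mon m) = w m) (hpos : ∀ j, 0 < T.rw w j)
    (hfin : ∃ s : Finset K, (∀ z ∈ s, E.Int z) ∧ ∀ z : K, E.Int z →
        ∃ a ∈ Algebra.adjoin k (s : Set K), ∃ b ∈ Algebra.adjoin k (s : Set K),
          b ≠ 0 ∧ E.v b = 0 ∧ z * b = a) : IsDivisorOver E X.P := by
  have := h.fracK
  refine ⟨fun a => ?_, fun a ha => ?_, fun a ha ha0 => ?_, hfin⟩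
  · obtain ⟨c, -, hc⟩ := A_val h hT hw hpos a
    have h1 : algebraMap X.A K a = (algebraMap X.A K a - algebraMap k K c) + algebraMap k K c := by
      ring
    rw [h1]
    exact NVal.Int.add (NVal.Ge.mono hc (by norm_num)) (NVal.Int.alg c)
  · obtain ⟨c, hc0, hc⟩ := A_val h hT hw hpos a
    have hcne : algebraMap k K c ≠ 0 := by
      intro h0
      rw [map_eq_zero] at h0
      exact ha (hc0.1 h0)
    have h1 : algebraMap X.A K a = algebraMap k K c + (algebraMap X.A K a - algebraMap k K c) := by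
      ring
    have h2 := NVal.v_add_eq (E := E) hcne (y := algebraMap X.A K a - algebraMap k K c)
      (by rw [E.triv]; simpa using hc)
    rw [h1, h2.2, E.triv]
  · obtain ⟨c, hc0, hc⟩ := A_val h hT hw hpos a
    rw [hc0.2 ha, map_zero, sub_zero] at hc
    have hne : algebraMap X.A K a ≠ 0 := by
      intro h0
      exact ha0 ((IsFractionRing.injective X.A K) (by rw [h0, map_zero]))
    have := hc.le hne
    omega

end aux

theorem lower_w [IsAlgClosed k] [CharZero k] (h : Ctx X.toPre K L)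
    (hX : ∀ z : L, IsIntegral X.B z →
      ∃ b s : X.B, s ∉ X.orig ∧ z * algebraMap X.B L s = algebraMap X.B L b)
    (D : CanData k K X.P d) (E : NVal k K) (hE : IsDivisorOver E X.P) :
    ∃ w ∈ Dual (perp X.G), (∀ i, 0 < w i) ∧ ∃ a, IsAl X.f.support w a ∧
      ((a : ℝ) : EReal) ≤ D.logDisc E := by
  obtain ⟨T, hT, hOK⟩ := base h
  obtain ⟨i, hi⟩ := hOK.ne
  obtain ⟨D0, hθ, hm, hh⟩ := exists_can h hX hT hOK hi
  let w : T.M →+ ℤ := AddMonoidHom.mk' (fun m => E.v (T.mon m)) (by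
    intro a b
    rw [T.mon_add, E.v_mul _ _ (T.mon_ne _) (T.mon_ne _)])
  have hw : ∀ m, E.v (T.mon m) = w m := fun m => rfl
  have hwe : ∀ j, 0 < w (T.e j) := fun j => v_e_pos h hT hE j
  obtain ⟨r, hr⟩ := exists_isMin T w
  have hnd : Nondeg T.f := by rw [hT.f_eq]; exact X.nondeg
  have hlow := lower T hnd (ev_F h hT) hi E w (fun m => rfl) hwe hr
  refine ⟨T.rw w, rw_dual hT w, ?_, _, isAl_of_isMin hT hr, ?_⟩
  · intro j
    unfold TorData.rw
    have h1 := hwe j
    have h2 := T.q_pos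
    have h3 : (0 : ℝ) < w (T.e j) := by exact_mod_cast h1
    positivity
  · rw [can_indep h hX D0 D E hE]
    unfold CanData.logDisc
    rw [hθ, hm, v_hh h hT hw hh]
    have h1 : ((∑ i, T.rw w i - pairN (T.rw w) T.m0 - r : ℝ) : EReal) =
        1 + (((-1 - r : ℤ) : ℝ) : EReal) -
          ((pairN (T.rw w) T.m0 - ∑ i, T.rw w i : ℝ) : EReal) := by
      rw [← EReal.coe_one, ← EReal.coe_add, ← EReal.coe_sub]
      congr 1
      push_cast
      ring
    rw [h1]
    exact EReal.sub_le_sub (add_le_add le_rfl hlow) le_rfl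


theorem upper_w [IsAlgClosed k] [CharZero k] (h : Ctx X.toPre K L)
    (hX : ∀ z : L, IsIntegral X.B z →
      ∃ b s : X.B, s ∉ X.orig ∧ z * algebraMap X.B L s = algebraMap X.B L b)
    (D : CanData k K X.P d) {w : Fin (d + 1) → ℝ}
    (hw : w ∈ Dual (perp X.G)) (hpos : ∀ i, 0 < w i) {a : ℝ} (ha : IsAl X.f.support w a)
    (ha1 : a ≤ 1) :
    ∃ E : NVal k K, IsDivisorOver E X.P ∧ ∃ a' : ℝ, (a' ≤ a ∨ a' < 0) ∧
      D.logDisc E ≤ ((a' : ℝ) : EReal) := by
  have := X.fin
  obtain ⟨T, hT, hOK⟩ := base h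
  obtain ⟨i, hi⟩ := hOK.ne
  obtain ⟨D0, hθ, hm, hh⟩ := exists_can h hX hT hOK hi
  have hf := hT.f_eq
  have hmem : ∀ m ∈ X.f.support, ∀ i, (T.δ m : Fin (d + 1) → ℤ) i = (m i : ℤ) - T.m0 i :=
    fun m hm => T.δ_eq m (hf ▸ hm)
  obtain ⟨w1, hw1, hpos1, a1, ha1', hle, m, hm1, m', hm1', hne, e1, e2⟩ :=
    exists_tropical (perp X.G) X.f.support ⟨T.m0, hf ▸ T.m0_mem⟩ (by
      intro m hm m' hm'
      have h1 : (fun i => (m i : ℤ) - m' i) = ((T.δ m - T.δ m' : T.M) : Fin (d + 1) → ℤ) := by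
        funext i
        have h2 := hmem m hm i
        have h3 := hmem m' hm' i
        simp only [AddSubgroup.coe_sub, Pi.sub_apply]
        rw [h2, h3]
        ring
      rw [h1]
      exact (hT.M_eq _).1 (T.δ m - T.δ m').2) (by
      intro h0
      rw [mem_support_iff] at h0
      exact h0 X.zero) (by
      intro j
      by_contra hcon
      push Not at hcon
      refine X.nvar j ?_
      rw [X_dvd_iff_modMonomial_eq_zero]
      ext m
      rw [coeff_zero]
      by_cases hmj : Finsupp.single j 1 ≤ m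
      · exact coeff_modMonomial_of_le _ hmj
      · rw [coeff_modMonomial_of_not_le _ hmj]
        by_contra hne
        have h1 := hcon m (mem_support_iff.2 hne)
        apply hmj
        rw [Finsupp.single_le_iff]
        omega) hw hpos ha ha1
  obtain ⟨c, hc, hdual, m2, hm2, hone⟩ :=
    exists_primitive (perp X.G) (perp_finIdx X.G) (Nat.succ_pos d) hw1 hpos1
  obtain ⟨φ, hφ, hrw⟩ := exists_hom hT hdual
  have hc0 : (0 : ℝ) < c := by exact_mod_cast hc
  have hpos2 : ∀ j, 0 < T.rw φ j := by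
    intro j
    rw [hrw]
    have := hpos1 j
    positivity
  have hs : ∃ m, φ m = 1 :=
    ⟨⟨m2, (hT.M_eq _).2 hm2⟩, by exact_mod_cast (hφ ⟨m2, (hT.M_eq _).2 hm2⟩).trans hone⟩
  have hpe : ∀ j, 0 < φ (T.e j) := by
    intro j
    have h1 := hpos2 j
    unfold TorData.rw at h1
    have h2 : (0 : ℝ) < T.q := by exact_mod_cast T.q_pos
    have h3 : (0 : ℝ) < φ (T.e j) := by
      by_contra hcon
      push Not at hcon
      have := div_nonpos_of_nonpos_of_nonneg hcon h2.le
      linarith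
    exact_mod_cast h3
  obtain ⟨r, hr⟩ := exists_isMin T φ
  have hpairc : ∀ m : Fin (d + 1) →₀ ℕ, pairN (T.rw φ) m = pairN w1 m / c := by
    intro m
    rw [hrw]
    unfold pairN
    rw [Finset.sum_div]
    refine Finset.sum_congr rfl fun i _ => ?_
    ring
  have hmin : ∀ m ∈ X.f.support, a1 = ∑ i, w1 i - pairN w1 m → φ (T.δ m) = r := by
    intro m hm hma
    have hmf : m ∈ T.f.support := hf ▸ hm
    obtain ⟨⟨m3, hm3, hr3⟩, hr4⟩ := hr
    refine le_antisymm ?_ (hr4 m hmf)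
    rw [← hr3]
    have h1 := ha1'.2 m3 (hf ▸ hm3)
    have h2 : pairN w1 m ≤ pairN w1 m3 := by linarith
    have h3 : pairN (T.rw φ) m ≤ pairN (T.rw φ) m3 := by
      rw [hpairc, hpairc]
      exact div_le_div_of_nonneg_right h2 hc0.le
    rw [rw_pairN T φ hmf, rw_pairN T φ hm3] at h3
    have h4 : (φ (T.δ m) : ℝ) ≤ φ (T.δ m3) := by linarith
    exact_mod_cast h4
  have htrop : ∃ m ∈ T.f.support, ∃ m' ∈ T.f.support, m ≠ m' ∧ φ (T.δ m) = r ∧
      φ (T.δ m') = r :=
    ⟨m, hf ▸ hm1, m', hf ▸ hm1', hne, hmin m hm1 e1, hmin m' hm1' e2⟩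
  have hnd : Nondeg T.f := by rw [hf]; exact X.nondeg
  obtain ⟨E, hE, hord, hfin⟩ := upper hOK hnd hpe hs hr htrop hi
  have hover := over_of_val h hT hE hpos2 hfin
  have hal := isAl_of_isMin hT hr
  have hal2 : IsAl X.f.support (T.rw φ) (a1 / c) := by
    obtain ⟨⟨m3, hm3, he3⟩, h4⟩ := ha1'
    have hsum : ∑ i, T.rw φ i = (∑ i, w1 i) / c := by
      rw [hrw, Finset.sum_div]
    refine ⟨⟨m3, hm3, ?_⟩, ?_⟩
    · rw [hpairc, hsum, he3]
      ring
    · intro m hm
      rw [hpairc, hsum, ← sub_div]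
      exact div_le_div_of_nonneg_right (h4 m hm) hc0.le
  have heq := hal.unique hal2
  refine ⟨E, hover, a1 / c, ?_, ?_⟩
  · rcases le_or_gt 0 a1 with h0 | h0
    · left
      refine le_trans ?_ hle
      have h1c : (1 : ℝ) ≤ c := by exact_mod_cast hc
      exact div_le_self h0 h1c
    · right
      exact div_neg_of_neg_of_pos h0 hc0
  · rw [can_indep h hX D0 D E hover]
    unfold CanData.logDisc
    rw [hθ, hm, v_hh h hT hE hh, ← heq]
    have h1 : ((∑ i, T.rw φ i - pairN (T.rw φ) T.m0 - r : ℝ) : EReal) =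
        1 + (((-1 - r : ℤ) : ℝ) : EReal) -
          ((pairN (T.rw φ) T.m0 - ∑ i, T.rw φ i : ℝ) : EReal) := by
      rw [← EReal.coe_one, ← EReal.coe_add, ← EReal.coe_sub]
      congr 1
      push_cast
      ring
    rw [h1]
    exact EReal.sub_le_sub (add_le_add le_rfl hord) le_rfl

end Pool.Agent.GAP
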