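import Pool.Agent.GAP.Bas
import Pool.Agent.GAP.Ndg
import Pool.Agent.GAP.Kph

/-!
# GAP, module PFA: a simple prime factor of the initial polynomial

Proof. `H0 r a` has at least two different monomials (`htrop`; `m ↦ ex a m` is injective on the
exponents of weight `r`, because `δ m = r b0 + ∑ c(δ m)_j b_j` and `m = m0 + δ m`). If all its
irreducible factors were associated to variables, it would be a constant times a monomial. So (UFD)
it has a prime factor `p` not dividing any `X_j`. Let `κ = FractionRing (MvPolynomial (Fin d) k ⧸ (p))`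
and `ȳ_j ∈ κ`, `ȳ_j ≠ 0`, the image of `X_j`. Let `ρ : k[M] → κ` be the `k`-algebra homomorphism
`m ↦ ∏_j ȳ_j^(c m j)`. With `y^a = ∏ ȳ_j^(a_j)`: `y^a ρ(inF) = image of H0 = 0`. For `l`:
`m_l = m0_l + (δ m)_l = m0_l + r (b0)_l + ∑_j c(δ m)_j (b_j)_l` on the exponents of weight `r`, so
`ρ(inFD_l) = (m0_l + r (b0)_l) ρ(inF) + ∑_j (b_j)_l G_j`, `G_j = ∑_{w = r} c(δ m)_j c_m ȳ^(c(δ m))`.
And the image of `X_j ∂_j H0` is `∑ (a_j + c(δ m)_j) c_m ȳ^(a + c(δ m)) = y^a (a_j ρ(inF) + G_j)
= y^a G_j`. If `p` divided every `∂_j H0`, all `G_j`, hence all `ρ(inFD_l)` and `ρ(inF)`, would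
vanish, contradicting `ndg` (apply `ρ` to the identity). So some `∂_j H0` is not divisible by `p`;
write `H0 = p g`; if `p ∣ g` then `p ∣ ∂_j (p g)` (Leibniz) for all `j`: contradiction.
-/

set_option linter.dupNamespace false

namespace Pool.Agent.GAP

/-- A nonzero polynomial is a monomial or has a prime factor not dividing a variable. -/
private theorem monomial_or_prime {k : Type*} [Field k] {σ : Type*} [Finite σ]
    (P : MvPolynomial σ k) (hP : P ≠ 0) :
    (∃ (e : σ →₀ ℕ) (c : k), P = MvPolynomial.monomial e c) ∨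
      ∃ p : MvPolynomial σ k, Prime p ∧ (∀ j, ¬ p ∣ MvPolynomial.X j) ∧ p ∣ P := by
  induction P using WfDvdMonoid.induction_on_irreducible with
  | zero => exact absurd rfl hP
  | unit u hu =>
    obtain ⟨c, -, rfl⟩ := MvPolynomial.isUnit_iff_eq_C_of_isReduced.1 hu
    exact Or.inl ⟨0, c, rfl⟩
  | mul a i ha hi ih =>
    by_cases hj : ∃ j, i ∣ MvPolynomial.X j
    · obtain ⟨j, hj⟩ := hj
      rcases ih ha with ⟨e, c, rfl⟩ | ⟨p, hp, hpX, hpa⟩
      · left
        have h1 : Associated i (MvPolynomial.X j : MvPolynomial σ k) :=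
          hi.associated_of_dvd MvPolynomial.X_prime.irreducible hj
        obtain ⟨u, hu⟩ := h1.symm
        obtain ⟨c', -, hc'⟩ := MvPolynomial.isUnit_iff_eq_C_of_isReduced.1 u.isUnit
        refine ⟨Finsupp.single j 1 + e, c' * c, ?_⟩
        rw [← hu, hc', MvPolynomial.X, MvPolynomial.C_apply, MvPolynomial.monomial_mul,
          MvPolynomial.monomial_mul, add_zero, one_mul]
      · exact Or.inr ⟨p, hp, hpX, hpa.mul_left i⟩
    · push Not at hj
      exact Or.inr ⟨i, hi.prime, hj, Dvd.intro _ rfl⟩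

/-- The residue field of a prime element. -/
private theorem exists_residue.{v} {R : Type v} [CommRing R] {p : R} (hp : Prime p) :
    ∃ (κ : Type v) (_ : Field κ) (π : R →+* κ), ∀ x, π x = 0 ↔ p ∣ x := by
  have h1 : (Ideal.span {p}).IsPrime := (Ideal.span_singleton_prime hp.ne_zero).2 hp
  refine ⟨FractionRing (R ⧸ Ideal.span {p}), inferInstance,
    (algebraMap (R ⧸ Ideal.span {p}) (FractionRing (R ⧸ Ideal.span {p}))).comp
      (Ideal.Quotient.mk (Ideal.span {p})), fun x => ?_⟩
  rw [RingHom.comp_apply, IsFractionRing.to_map_eq_zero_iff, Ideal.Quotient.eq_zero_iff_mem,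
    Ideal.mem_span_singleton]

private theorem prod_zpow_add {κ : Type*} [Field κ] {d : ℕ} {y : Fin d → κ} (hy : ∀ j, y j ≠ 0)
    (u v : Fin d → ℤ) : ∏ j, y j ^ (u j + v j) = (∏ j, y j ^ u j) * ∏ j, y j ^ v j := by
  rw [← Finset.prod_mul_distrib]
  exact Finset.prod_congr rfl fun j _ => zpow_add₀ (hy j) _ _

variable {k K : Type*} [Field k] [Field K] [Algebra k K] {d : ℕ}

theorem exists_factor [IsAlgClosed k] [CharZero k] {T : TorData k K d} (hnd : Nondeg T.f)
    {w : T.M →+ ℤ} (hpos : ∀ j, 0 < w (T.e j)) (H : Chart T w) {r : ℤ} (hr : T.IsMin w r)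
    {a : Fin d → ℤ} (ha : ∀ m ∈ T.f.support, ∀ j, 0 ≤ a j + H.c (T.δ m) j)
    (htrop : ∃ m ∈ T.f.support, ∃ m' ∈ T.f.support, m ≠ m' ∧ w (T.δ m) = r ∧ w (T.δ m') = r) :
    ∃ p : MvPolynomial (Fin d) k, Prime p ∧ (∀ j, ¬ p ∣ MvPolynomial.X j) ∧
      (∃ g, H.H0 r a = p * g ∧ ¬ p ∣ g) ∧ ∃ j, ¬ p ∣ MvPolynomial.pderiv j (H.H0 r a) := by
  classical
  obtain ⟨p, hp, hpX, hpH⟩ : ∃ p : MvPolynomial (Fin d) k, Prime p ∧
      (∀ j, ¬ p ∣ MvPolynomial.X j) ∧ p ∣ H.H0 r a := by
    rcases monomial_or_prime (H.H0 r a) (H.H0_ne hr ha) with ⟨e, c, hec⟩ | h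
    · exfalso
      obtain ⟨m, hm, m', hm', hne, hw, hw'⟩ := htrop
      have h1 : ∀ n ∈ T.f.support, w (T.δ n) = r → e = H.ex a n := by
        intro n hn hwn
        by_contra h2
        have h3 := H.coeff_H0 ha hn hwn
        rw [hec, MvPolynomial.coeff_monomial, if_neg h2] at h3
        exact (MvPolynomial.mem_support_iff.1 hn) h3.symm
      exact hne (H.ex_injOn ha hm hm' (hw.trans hw'.symm)
        ((h1 m hm hw).symm.trans (h1 m' hm' hw')))
    · exact h
  refine ⟨p, hp, hpX, ?_⟩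
  have hj : ∃ j, ¬ p ∣ MvPolynomial.pderiv j (H.H0 r a) := by
    by_contra hcon
    push Not at hcon
    obtain ⟨κ, _, π, hπ⟩ := exists_residue hp
    let _ : Algebra k κ := (π.comp MvPolynomial.C).toAlgebra
    let y : Fin d → κ := fun j => π (MvPolynomial.X j)
    have hy : ∀ j, y j ≠ 0 := fun j h => hpX j ((hπ _).1 h)
    let Y : (Fin d → ℤ) → κ := fun u => ∏ j, y j ^ u j
    have hYadd : ∀ u v, Y (u + v) = Y u * Y v := fun u v => prod_zpow_add hy u v
    have hYne : ∀ u, Y u ≠ 0 := fun u =>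
      Finset.prod_ne_zero_iff.2 fun j _ => zpow_ne_zero _ (hy j)
    have hY0 : Y 0 = 1 := by
      simp [Y]
    let χ : Multiplicative T.M →* κ :=
      { toFun := fun m => Y (H.c (Multiplicative.toAdd m))
        map_one' := by
          show Y (H.c 0) = 1
          rw [map_zero, hY0]
        map_mul' := fun m m' => by
          show Y (H.c (Multiplicative.toAdd m + Multiplicative.toAdd m')) = _
          rw [map_add, hYadd] }
    let ρ : AddMonoidAlgebra k T.M →ₐ[k] κ := AddMonoidAlgebra.lift k κ T.M χ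
    have hρ : ∀ (m : T.M) (c : k), ρ (AddMonoidAlgebra.single m c) =
        π (MvPolynomial.C c) * Y (H.c m) := by
      intro m c
      show AddMonoidAlgebra.lift k κ T.M χ (AddMonoidAlgebra.single m c) = _
      rw [AddMonoidAlgebra.lift_single, Algebra.smul_def]
      rfl
    have hπm : ∀ (e : Fin d →₀ ℕ) (c : k), π (MvPolynomial.monomial e c) =
        π (MvPolynomial.C c) * Y (fun j => (e j : ℤ)) := by
      intro e c
      rw [MvPolynomial.monomial_eq, map_mul, Finsupp.prod_fintype _ _ (fun i => pow_zero _),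
        map_prod]
      congr 1
      refine Finset.prod_congr rfl fun j _ => ?_
      rw [map_pow, zpow_natCast]
    -- the terms
    let tm : (Fin (d + 1) →₀ ℕ) → κ := fun m =>
      π (MvPolynomial.C (MvPolynomial.coeff m T.f)) * Y (H.c (T.δ m))
    let s := T.f.support.filter (fun m => w (T.δ m) = r)
    have hs : ∀ m ∈ s, m ∈ T.f.support ∧ w (T.δ m) = r := fun m hm => by
      simpa [s] using hm
    have hex : ∀ m ∈ s, (fun j => ((H.ex a m j : ℕ) : ℤ)) = a + H.c (T.δ m) := by
      intro m hm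
      funext j
      exact H.ex_eq (ha m (hs m hm).1) j
    have hterm : ∀ m ∈ s, π (MvPolynomial.monomial (H.ex a m) (MvPolynomial.coeff m T.f)) =
        Y a * tm m := by
      intro m hm
      rw [hπm, hex m hm, hYadd]
      ring
    have hinF : ρ (T.inF w r) = ∑ m ∈ s, tm m := by
      unfold TorData.inF
      rw [map_sum]
      exact Finset.sum_congr rfl fun m _ => hρ _ _
    have hinF0 : ∑ m ∈ s, tm m = 0 := by
      have h1 : π (H.H0 r a) = Y a * ∑ m ∈ s, tm m := by
        unfold Chart.H0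
        rw [map_sum, Finset.mul_sum]
        exact Finset.sum_congr rfl fun m hm => hterm m hm
      rw [(hπ _).2 hpH] at h1
      exact (mul_eq_zero.1 h1.symm).resolve_left (hYne a)
    have hG : ∀ j, ∑ m ∈ s, ((H.c (T.δ m) j : ℤ) : κ) * tm m = 0 := by
      intro j
      have h1 : π (MvPolynomial.X j * MvPolynomial.pderiv j (H.H0 r a)) =
          Y a * (((a j : ℤ) : κ) * ∑ m ∈ s, tm m +
            ∑ m ∈ s, ((H.c (T.δ m) j : ℤ) : κ) * tm m) := by
        unfold Chart.H0
        rw [map_sum, Finset.mul_sum, map_sum, Finset.mul_sum, ← Finset.sum_add_distrib,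
          Finset.mul_sum]
        refine Finset.sum_congr rfl fun m hm => ?_
        rw [MvPolynomial.X_mul_pderiv_monomial, map_nsmul, hterm m hm, nsmul_eq_mul]
        have h2 : ((H.ex a m j : ℕ) : κ) = ((a j : ℤ) : κ) + ((H.c (T.δ m) j : ℤ) : κ) := by
          rw [← Int.cast_natCast, H.ex_eq (ha m (hs m hm).1) j, Int.cast_add]
        rw [h2]
        ring
      rw [map_mul, (hπ _).2 (hcon j), mul_zero, hinF0, mul_zero, zero_add] at h1
      exact (mul_eq_zero.1 h1.symm).resolve_left (hYne a)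
    have hFD : ∀ l, ρ (T.inFD w r l) = 0 := by
      intro l
      have h1 : ρ (T.inFD w r l) = ∑ m ∈ s, ((m l : ℕ) : κ) * tm m := by
        unfold TorData.inFD
        rw [map_sum]
        refine Finset.sum_congr rfl fun m _ => ?_
        rw [hρ, map_mul MvPolynomial.C, map_mul, map_natCast, map_natCast]
        ring
      have h2 : ∀ m ∈ s, ((m l : ℕ) : κ) =
          ((T.m0 l : ℕ) : κ) + (r : κ) * (((H.b0 : Fin (d + 1) → ℤ) l : ℤ) : κ) +
            ∑ j, (((H.b j : Fin (d + 1) → ℤ) l : ℤ) : κ) * ((H.c (T.δ m) j : ℤ) : κ) := by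
        intro m hm
        have h3 := T.δ_eq m (hs m hm).1 l
        have h4 := congrArg (fun z : T.M => (z : Fin (d + 1) → ℤ) l) (H.eq (T.δ m))
        simp only [AddSubgroup.coe_add, AddSubgroup.coe_zsmul, AddSubgroup.val_finsetSum,
          Pi.add_apply, Pi.smul_apply, Finset.sum_apply, smul_eq_mul, (hs m hm).2] at h4
        rw [h4] at h3
        have h5 : ((m l : ℕ) : ℤ) = T.m0 l + r * (H.b0 : Fin (d + 1) → ℤ) l +
            ∑ j, (H.b j : Fin (d + 1) → ℤ) l * H.c (T.δ m) j := by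
          have h6 : ∑ j, (H.b j : Fin (d + 1) → ℤ) l * H.c (T.δ m) j =
              ∑ j, H.c (T.δ m) j * (H.b j : Fin (d + 1) → ℤ) l :=
            Finset.sum_congr rfl fun j _ => mul_comm _ _
          rw [h6]
          linarith
        have h7 := congrArg (Int.cast : ℤ → κ) h5
        push_cast at h7
        exact h7
      rw [h1, Finset.sum_congr rfl fun m hm => by rw [h2 m hm]]
      simp only [add_mul, Finset.sum_add_distrib, ← Finset.mul_sum, hinF0, mul_zero, zero_add,
        Finset.sum_mul]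
      rw [Finset.sum_comm]
      refine Finset.sum_eq_zero fun j _ => ?_
      have h8 : ∑ m ∈ s, (((H.b j : Fin (d + 1) → ℤ) l : ℤ) : κ) *
          ((H.c (T.δ m) j : ℤ) : κ) * tm m =
          (((H.b j : Fin (d + 1) → ℤ) l : ℤ) : κ) *
            ∑ m ∈ s, ((H.c (T.δ m) j : ℤ) : κ) * tm m := by
        rw [Finset.mul_sum]
        exact Finset.sum_congr rfl fun m _ => mul_assoc _ _ _
      rw [h8, hG j, mul_zero]
    obtain ⟨A, B, hAB, -, -⟩ := ndg T hnd w hpos hr
    have h1 := congrArg ρ hAB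
    rw [map_add, map_mul, map_sum, hinF, hinF0, mul_zero, zero_add, map_one,
      Finset.sum_eq_zero (fun l _ => by rw [map_mul, hFD l, mul_zero])] at h1
    exact zero_ne_one h1
  refine ⟨?_, hj⟩
  obtain ⟨g, hg⟩ := hpH
  refine ⟨g, hg, fun hpg => ?_⟩
  obtain ⟨j, hj⟩ := hj
  apply hj
  rw [hg, Derivation.leibniz, smul_eq_mul, smul_eq_mul]
  exact dvd_add (Dvd.intro _ rfl) (hpg.mul_right _)

end Pool.Agent.GAP
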