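import Pool.Agent.GAP.Lat2

/-!
# GAP, module PHI: pulling back rational forms along a field extension

`exists_Phi`: the alternating `K`-multilinear map `α ↦ ιMulti L d (map ∘ α)`, where
`map = KaehlerDifferential.map k k K L : Ω[K⁄k] →ₗ[K] Ω[L⁄k]`, induces `Φ` by the universal property
(`exteriorPower.alternatingMapLinearEquiv`; restriction of scalars of `ιMulti L d` to `K`).
`Phi_lat`: `Φ` maps the generators of `E.lat` to generators of `E'.lat`.
`wedge_closure`: as in `wedge_mem`: expand multilinearly.
-/

set_option linter.dupNamespace false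

namespace Pool.Agent.GAP

variable {k K L : Type*} [Field k] [Field K] [Field L] [Algebra k K] [Algebra k L] [Algebra K L]
  [IsScalarTower k K L]

theorem exists_Phi (k K L : Type*) [Field k] [Field K] [Field L] [Algebra k K] [Algebra k L]
    [Algebra K L] [IsScalarTower k K L] (d : ℕ) :
    ∃ Φ : ⋀[K]^d (Ω[K⁄k]) →+ ⋀[L]^d (Ω[L⁄k]),
      (∀ α : Fin d → Ω[K⁄k], Φ (exteriorPower.ιMulti K d α) =
        exteriorPower.ιMulti L d (fun i => KaehlerDifferential.map k k K L (α i))) ∧
      ∀ (c : K) (ω : ⋀[K]^d (Ω[K⁄k])), Φ (c • ω) = algebraMap K L c • Φ ω := by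
  classical
  have hup : ∀ (inst : DecidableEq (Fin d)) (α : Fin d → Ω[K⁄k]) (i : Fin d) (x : Ω[K⁄k]),
      (fun a => KaehlerDifferential.map k k K L ((@Function.update _ _ inst α i x) a)) =
      @Function.update _ _ inst (fun a => KaehlerDifferential.map k k K L (α a)) i
        (KaehlerDifferential.map k k K L x) := by
    intro inst α i x
    funext a
    by_cases h : a = i
    · subst h
      rw [Function.update_self, Function.update_self]
    · rw [Function.update_of_ne h, Function.update_of_ne h]
  let f : Ω[K⁄k] [⋀^Fin d]→ₗ[K] ⋀[L]^d (Ω[L⁄k]) :=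
    { toFun := fun α => exteriorPower.ιMulti L d
        (fun i => KaehlerDifferential.map k k K L (α i))
      map_update_add' := by
        intro inst α i x y
        rw [hup, hup, hup, map_add, AlternatingMap.map_update_add]
      map_update_smul' := by
        intro inst α i c x
        rw [hup, hup, map_smul, ← algebraMap_smul L c (KaehlerDifferential.map k k K L x),
          AlternatingMap.map_update_smul, algebraMap_smul]
      map_eq_zero_of_eq' := by
        intro α i j hij hne
        exact AlternatingMap.map_eq_zero_of_eq _ _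
          (congrArg (KaehlerDifferential.map k k K L) hij) hne }
  refine ⟨(exteriorPower.alternatingMapLinearEquiv f).toAddMonoidHom, fun α => ?_,
    fun c ω => ?_⟩
  · exact exteriorPower.alternatingMapLinearEquiv_apply_ιMulti f α
  · show (exteriorPower.alternatingMapLinearEquiv f) (c • ω) =
      algebraMap K L c • (exteriorPower.alternatingMapLinearEquiv f) ω
    rw [map_smul, algebraMap_smul]

/-- The pull back of rational forms. -/
noncomputable def Phi (k K L : Type*) [Field k] [Field K] [Field L] [Algebra k K] [Algebra k L]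
    [Algebra K L] [IsScalarTower k K L] (d : ℕ) : ⋀[K]^d (Ω[K⁄k]) →+ ⋀[L]^d (Ω[L⁄k]) :=
  (exists_Phi k K L d).choose

theorem Phi_ιMulti {d : ℕ} (α : Fin d → Ω[K⁄k]) : Phi k K L d (exteriorPower.ιMulti K d α) =
    exteriorPower.ιMulti L d (fun i => KaehlerDifferential.map k k K L (α i)) :=
  (exists_Phi k K L d).choose_spec.1 α

theorem Phi_smul {d : ℕ} (c : K) (ω : ⋀[K]^d (Ω[K⁄k])) :
    Phi k K L d (c • ω) = algebraMap K L c • Phi k K L d ω :=
  (exists_Phi k K L d).choose_spec.2 c ω

theorem Phi_lat {d : ℕ} {E : NVal k K} {E' : NVal k L}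
    (hE : ∀ z : K, E.Int z → E'.Int (algebraMap K L z)) {ω : ⋀[K]^d (Ω[K⁄k])}
    (hω : ω ∈ E.lat d) : Phi k K L d ω ∈ E'.lat d := by
  unfold NVal.lat at hω ⊢
  induction hω using AddSubgroup.closure_induction with
  | mem x hx =>
    obtain ⟨a, g, ha, hg, rfl⟩ := hx
    rw [Phi_smul, Phi_ιMulti]
    apply AddSubgroup.subset_closure
    refine ⟨algebraMap K L a, fun i => algebraMap K L (g i), hE a ha, fun i => hE _ (hg i), ?_⟩
    simp only [KaehlerDifferential.map_D]
  | zero =>
    rw [map_zero]
    exact AddSubgroup.zero_mem _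
  | add x y _ _ hx hy =>
    rw [map_add]
    exact AddSubgroup.add_mem _ hx hy
  | neg x _ hx =>
    rw [map_neg]
    exact AddSubgroup.neg_mem _ hx

omit [IsScalarTower k K L] [Algebra k K] [Algebra k L] [Algebra K L] [Field k] [Field K] in
/-- multilinear maps and closures -/
private theorem multi_closure {M N : Type*} [AddCommGroup M] [AddCommGroup N] [Module L M]
    [Module L N] {d : ℕ} (f : MultilinearMap L (fun _ : Fin d => M) N) (S : Set M)
    (T : AddSubgroup N) (h : ∀ α : Fin d → M, (∀ i, α i ∈ S) → f α ∈ T) (s : Finset (Fin d)) :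
    ∀ α : Fin d → M, (∀ i ∈ s, α i ∈ AddSubgroup.closure S) → (∀ i ∉ s, α i ∈ S) → f α ∈ T := by
  classical
  induction s using Finset.induction_on with
  | empty =>
    intro α _ h2
    exact h α fun i => h2 i (Finset.notMem_empty i)
  | insert i0 s hi0 ih =>
    intro α h1 h2
    have h3 : ∀ x ∈ AddSubgroup.closure S, f (Function.update α i0 x) ∈ T := by
      intro x hx
      induction hx using AddSubgroup.closure_induction with
      | mem x hx =>
        apply ih
        · intro i hi
          have hne : i ≠ i0 := fun h => hi0 (h ▸ hi)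
          rw [Function.update_of_ne hne]
          exact h1 i (Finset.mem_insert_of_mem hi)
        · intro i hi
          by_cases hne : i = i0
          · subst hne
            rw [Function.update_self]
            exact hx
          · rw [Function.update_of_ne hne]
            apply h2
            rw [Finset.mem_insert, not_or]
            exact ⟨hne, hi⟩
      | zero =>
        rw [MultilinearMap.map_update_zero]
        exact T.zero_mem
      | add x y _ _ hx hy =>
        rw [MultilinearMap.map_update_add]
        exact T.add_mem hx hy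
      | neg x _ hx =>
        rw [MultilinearMap.map_update_neg]
        exact T.neg_mem hx
    have h4 := h3 (α i0) (h1 i0 (Finset.mem_insert_self i0 s))
    rwa [Function.update_eq_self] at h4

theorem wedge_closure {d : ℕ} {E : NVal k K} {E' : NVal k L}
    (hE : ∀ z : K, E.Int z → E'.Int (algebraMap K L z)) {α : Fin d → Ω[L⁄k]}
    (hα : ∀ i, α i ∈ AddSubgroup.closure {ω | ∃ (a : L) (g : K), E'.Int a ∧ E.Int g ∧
      ω = a • KaehlerDifferential.D k L (algebraMap K L g)}) :
    exteriorPower.ιMulti L d α ∈ AddSubgroup.closure {ω | ∃ (a : L) (l : ⋀[K]^d (Ω[K⁄k])),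
      E'.Int a ∧ l ∈ E.lat d ∧ ω = a • Phi k K L d l} := by
  refine multi_closure (exteriorPower.ιMulti L d).toMultilinearMap _ _ ?_ Finset.univ α
    (fun i _ => hα i) (fun i hi => absurd (Finset.mem_univ i) hi)
  intro β hβ
  choose a g ha hg hβ' using hβ
  have h1 : β = fun i => a i • KaehlerDifferential.D k L (algebraMap K L (g i)) := funext hβ'
  rw [h1, MultilinearMap.map_smul_univ]
  apply AddSubgroup.subset_closure
  refine ⟨∏ i, a i, exteriorPower.ιMulti K d (fun i => KaehlerDifferential.D k K (g i)), ?_, ?_, ?_⟩
  · have h2 : ∀ s : Finset (Fin d), E'.Int (∏ i ∈ s, a i) := by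
      intro s
      induction s using Finset.cons_induction with
      | empty => rw [Finset.prod_empty]; exact NVal.Int.one
      | cons i s hi ih =>
        rw [Finset.prod_cons]
        exact (ha i).mul ih
    exact h2 _
  · unfold NVal.lat
    apply AddSubgroup.subset_closure
    exact ⟨1, g, NVal.Int.one, hg, by rw [one_smul]⟩
  · rw [Phi_ιMulti]
    simp only [KaehlerDifferential.map_D]
    rfl

end Pool.Agent.GAP
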