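import Pool.Agent.GAP.Defs
import Pool.Agent.GAP.Dua

/-!
# GAP, module STR: the coordinate ring of `Y`

Proofs. `x_ne`: if `X_i ∈ (f)` then `f ∣ X_i`, both irreducible, so `X_i ∣ f`.
`mem_orig`: `orig` is generated by the classes of the `X_i`; `f` has constant coefficient `0`.
`exists_lift`: Reynolds operator: for `a = mk p ∈ A`, `|G| a = ∑_g act g a = mk (∑_g scale g p)`, and
`scale g (monomial m c) = (∏ g_i^(m_i)) monomial m c`; by `sum_perp` the average of the monomials with
exponent not in `perp G` vanishes.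
`exists_mul_invariant`: `t = ∏_{g ≠ 1} act g s`; `s t` is the norm (`act` is an action:
`scale g ∘ scale h = scale (g h)`, `scale 1 = id`); `orig` is stable under `act g`, and prime.
-/

set_option linter.dupNamespace false

namespace Pool.Agent.GAP

open MvPolynomial

universe u

variable {k : Type u} [Field k] {n : ℕ}

theorem mem_span_X_iff_zero (p : MvPolynomial (Fin n) k) :
    p ∈ Ideal.span (Set.range (MvPolynomial.X : Fin n → MvPolynomial (Fin n) k)) ↔
      constantCoeff p = 0 := by
  constructor
  · intro h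
    have h1 : Ideal.span (Set.range (MvPolynomial.X : Fin n → MvPolynomial (Fin n) k)) ≤
        RingHom.ker (constantCoeff : MvPolynomial (Fin n) k →+* k) := by
      rw [Ideal.span_le]
      rintro _ ⟨i, rfl⟩
      simp [RingHom.mem_ker]
    exact h1 h
  · intro h
    rw [p.as_sum]
    refine Ideal.sum_mem _ fun m hm => ?_
    have hm0 : m ≠ 0 := by
      rintro rfl
      rw [mem_support_iff] at hm
      exact hm h
    obtain ⟨i, hi⟩ : ∃ i, m i ≠ 0 := by
      by_contra hcon
      push Not at hcon
      exact hm0 (Finsupp.ext hcon)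
    have h2 : monomial m (coeff m p) =
        monomial (m - Finsupp.single i 1) (coeff m p) * MvPolynomial.X i := by
      rw [MvPolynomial.X, monomial_mul, mul_one]
      congr 1
      rw [tsub_add_cancel_of_le]
      rw [Finsupp.single_le_iff]
      exact Nat.one_le_iff_ne_zero.2 hi
    rw [h2]
    exact Ideal.mul_mem_left _ _ (Ideal.subset_span ⟨i, rfl⟩)

theorem constantCoeff_scale (g : Fin n → kˣ) (p : MvPolynomial (Fin n) k) :
    constantCoeff (scale g p) = constantCoeff p := by
  have h : (constantCoeff : MvPolynomial (Fin n) k →+* k).comp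
      (scale g : MvPolynomial (Fin n) k →+* MvPolynomial (Fin n) k) = constantCoeff := by
    apply MvPolynomial.ringHom_ext
    · intro r
      simp [scale]
    · intro i
      simp [scale]
  exact DFunLike.congr_fun h p

namespace Pre

variable (X : Pre k n)

theorem cl_surjective : Function.Surjective X.cl := Ideal.Quotient.mk_surjective

theorem cl_eq_zero (p : MvPolynomial (Fin n) k) : X.cl p = 0 ↔ X.f ∣ p := by
  rw [← Ideal.mem_span_singleton]
  exact Ideal.Quotient.eq_zero_iff_mem

theorem cl_X (i : Fin n) : X.cl (MvPolynomial.X i) = X.x i := rfl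

theorem x_ne (i : Fin n) : X.x i ≠ 0 := by
  rw [← cl_X, Ne, cl_eq_zero]
  intro h
  obtain ⟨c, hc⟩ := h
  have hX : Irreducible (MvPolynomial.X i : MvPolynomial (Fin n) k) :=
    (MvPolynomial.X_prime (i := i)).irreducible
  rcases hX.isUnit_or_isUnit hc with h1 | h1
  · exact X.irr.not_isUnit h1
  · apply X.nvar i
    obtain ⟨u, rfl⟩ := h1
    refine ⟨(u⁻¹ : (MvPolynomial (Fin n) k)ˣ), ?_⟩
    rw [hc, mul_assoc, Units.mul_inv, mul_one]

theorem mem_orig (p : MvPolynomial (Fin n) k) : X.cl p ∈ X.orig ↔ constantCoeff p = 0 := by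
  have h1 : X.orig = Ideal.map (X.cl : MvPolynomial (Fin n) k →+* X.B)
      (Ideal.span (Set.range (MvPolynomial.X : Fin n → MvPolynomial (Fin n) k))) := by
    rw [Ideal.map_span, ← Set.range_comp]
    rfl
  have h2 : X.cl p ∈ X.orig ↔
      p ∈ Ideal.span (Set.range (MvPolynomial.X : Fin n → MvPolynomial (Fin n) k)) := by
    constructor
    · intro h
      rw [h1] at h
      obtain ⟨q, hq, hqp⟩ := (Ideal.mem_map_iff_of_surjective
        (X.cl : MvPolynomial (Fin n) k →+* X.B) X.cl_surjective).1 h
      have h3 : X.cl (p - q) = 0 := by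
        rw [map_sub, sub_eq_zero]
        exact hqp.symm
      rw [cl_eq_zero] at h3
      obtain ⟨c, hc⟩ := h3
      have h4 : X.f ∈ Ideal.span (Set.range
          (MvPolynomial.X : Fin n → MvPolynomial (Fin n) k)) :=
        (mem_span_X_iff_zero _).2 X.zero
      have h5 : p = q + X.f * c := by rw [← hc]; ring
      rw [h5]
      exact Ideal.add_mem _ hq (Ideal.mul_mem_right _ _ h4)
    · intro h
      rw [h1]
      exact Ideal.mem_map_of_mem _ h
  rw [h2, mem_span_X_iff_zero]

theorem orig_prime : X.orig.IsPrime := by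
  refine ⟨?_, ?_⟩
  · intro h
    have h1 : X.cl 1 ∈ X.orig := by rw [h]; trivial
    rw [mem_orig] at h1
    simp at h1
  · intro a b hab
    obtain ⟨p, rfl⟩ := X.cl_surjective a
    obtain ⟨q, rfl⟩ := X.cl_surjective b
    rw [← map_mul, mem_orig, map_mul, mul_eq_zero] at hab
    rw [mem_orig, mem_orig]
    exact hab

instance P_prime : X.P.IsPrime := by
  have := X.orig_prime
  exact Ideal.comap_isPrime _ _

theorem act_cl (g : Fin n → kˣ) (hg : g ∈ X.G) (p : MvPolynomial (Fin n) k) :
    X.act g hg (X.cl p) = X.cl (scale g p) := rfl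

theorem act_mem_orig (g : Fin n → kˣ) (hg : g ∈ X.G) {b : X.B} :
    X.act g hg b ∈ X.orig ↔ b ∈ X.orig := by
  obtain ⟨p, rfl⟩ := X.cl_surjective b
  rw [act_cl, mem_orig, mem_orig, constantCoeff_scale]

theorem scale_monomial (g : Fin n → kˣ) (m : Fin n →₀ ℕ) (c : k) :
    scale g (monomial m c) = monomial m ((∏ i, (g i : k) ^ m i) * c) := by
  rw [scale, aeval_monomial, Finsupp.prod_fintype _ _ (by simp)]
  simp only [mul_pow, Finset.prod_mul_distrib]
  rw [monomial_eq, Finsupp.prod_fintype _ _ (by simp)]
  simp only [map_mul, map_prod, map_pow, MvPolynomial.algebraMap_eq]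
  ring

end Pre

end Pool.Agent.GAP
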