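import Pool.Agent.GAP.Str

/-!
# GAP, module STR2: invariants

Proofs.
`exists_lift`: Reynolds operator: for `a = mk p ∈ A`, `|G| a = ∑_g act g a = mk (∑_g scale g p)`, and
`scale g (monomial m c) = (∏ g_i^(m_i)) monomial m c`; by `sum_perp` the average of the monomials with
exponent not in `perp G` vanishes.
`exists_mul_invariant`: `t = ∏_{g ≠ 1} act g s`; `s t` is the norm (`act` is an action:
`scale g ∘ scale h = scale (g h)`, `scale 1 = id`); `orig` is stable under `act g`, and prime.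
`isIntegral_B`: `b` is a root of `∏_g (T - act g b)`, whose coefficients are invariant.
-/

set_option linter.dupNamespace false

namespace Pool.Agent.GAP

open MvPolynomial

universe u

variable {k : Type u} [Field k] {n : ℕ}

theorem Str2_coeff_scale (g : Fin n → kˣ) (p : MvPolynomial (Fin n) k) (m : Fin n →₀ ℕ) :
    coeff m (scale g p) = (∏ i, (g i : k) ^ m i) * coeff m p := by
  classical
  induction p using MvPolynomial.induction_on' with
  | monomial u a =>
    rw [Pre.scale_monomial, coeff_monomial, coeff_monomial]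
    split_ifs with h
    · rw [h]
    · rw [mul_zero]
  | add p q hp hq =>
    rw [map_add, coeff_add, coeff_add, hp, hq, mul_add]

theorem Str2_avg (G : Subgroup (Fin n → kˣ)) [Fintype G] {p p' : MvPolynomial (Fin n) k}
    (u : Fin n → ℤ)
    (h1 : ∀ m : Fin n →₀ ℕ, (fun i => (m i : ℤ) - u i) ∈ perp G → coeff m p' = coeff m p)
    (h2 : ∀ m : Fin n →₀ ℕ, (fun i => (m i : ℤ) - u i) ∉ perp G → coeff m p' = 0) :
    ∑ g : G, C (((∏ i, (g.1 i) ^ (-(u i)) : kˣ) : k)) * scale g.1 p =
      C (Fintype.card G : k) * p' := by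
  ext m
  rw [coeff_sum, coeff_C_mul]
  have key : ∀ g : G, coeff m (C (((∏ i, (g.1 i) ^ (-(u i)) : kˣ) : k)) * scale g.1 p) =
      ((∏ i, (g.1 i) ^ ((fun i => (m i : ℤ) - u i) i) : kˣ) : k) * coeff m p := by
    intro g
    rw [coeff_C_mul, Str2_coeff_scale, ← mul_assoc]
    congr 1
    have e : (∏ i, (g.1 i : k) ^ m i) = ((∏ i, (g.1 i) ^ (m i : ℤ) : kˣ) : k) := by
      push_cast
      simp
    rw [e, ← Units.val_mul, ← Finset.prod_mul_distrib]
    congr 1
    refine Finset.prod_congr rfl (fun i _ => ?_)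
    rw [← zpow_add]
    congr 1
    ring
  rw [Finset.sum_congr rfl (fun g _ => key g), ← Finset.sum_mul]
  by_cases hm : (fun i => (m i : ℤ) - u i) ∈ perp G
  · rw [h1 m hm]
    congr 1
    have : ∀ g : G, ((∏ i, (g.1 i) ^ ((fun i => (m i : ℤ) - u i) i) : kˣ) : k) = 1 := by
      intro g
      rw [hm g.1 g.2, Units.val_one]
    rw [Finset.sum_congr rfl (fun g _ => this g)]
    simp
  · rw [h2 m hm, sum_perp G hm, zero_mul, mul_zero]

namespace Pre

variable (X : Pre k n)

theorem Str2_card_ne [CharZero k] (G : Subgroup (Fin n → kˣ)) [Fintype G] :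
    (Fintype.card G : k) ≠ 0 := by
  exact_mod_cast Fintype.card_ne_zero

/-- The part of `p` with exponents in the class of `u` modulo `perp G`: if the classes of all
`scale g p` lie in an ideal `q`, then so does the class of this part. Proof: by `sum_perp`,
`|G| p_u = ∑_g (∏ g_i^(-u_i)) scale g p`. -/
theorem part_mem [CharZero k] (q : Ideal X.B) {p : MvPolynomial (Fin n) k}
    (hp : ∀ g ∈ X.G, X.cl (scale g p) ∈ q) (u : Fin n → ℤ) {p' : MvPolynomial (Fin n) k}
    (h1 : ∀ m, (fun i => (m i : ℤ) - u i) ∈ perp X.G → coeff m p' = coeff m p)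
    (h2 : ∀ m, (fun i => (m i : ℤ) - u i) ∉ perp X.G → coeff m p' = 0) : X.cl p' ∈ q := by
  have := X.fin
  have : Fintype X.G := Fintype.ofFinite _
  have h := congrArg X.cl (Str2_avg X.G u h1 h2)
  have h3 : X.cl (C (Fintype.card X.G : k) * p') ∈ q := by
    rw [← h, map_sum]
    refine Ideal.sum_mem _ (fun g _ => ?_)
    rw [map_mul]
    exact Ideal.mul_mem_left _ _ (hp g.1 g.2)
  have h4 : X.cl p' = X.cl (C ((Fintype.card X.G : k)⁻¹)) * X.cl (C (Fintype.card X.G : k) * p') := by
    rw [← map_mul, ← mul_assoc, ← C_mul, inv_mul_cancel₀ (Str2_card_ne X.G), C_1, one_mul]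
  rw [h4]
  exact Ideal.mul_mem_left _ _ h3

theorem exists_lift [CharZero k] (a : X.A) : ∃ p : MvPolynomial (Fin n) k,
    (∀ m ∈ p.support, (fun i => (m i : ℤ)) ∈ perp X.G) ∧ X.cl p = (a : X.B) := by
  classical
  have := X.fin
  have : Fintype X.G := Fintype.ofFinite _
  obtain ⟨p, hp⟩ := X.cl_surjective (a : X.B)
  set p' : MvPolynomial (Fin n) k :=
    ∑ m ∈ p.support.filter (fun m => (fun i => (m i : ℤ)) ∈ perp X.G), monomial m (coeff m p)
    with hp'
  have hc : ∀ m : Fin n →₀ ℕ, coeff m p' =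
      if (fun i => (m i : ℤ)) ∈ perp X.G then coeff m p else 0 := by
    intro m
    rw [hp', coeff_sum]
    simp only [coeff_monomial]
    rw [Finset.sum_ite_eq']
    simp only [Finset.mem_filter, mem_support_iff]
    split_ifs with h1 h2 h2
    · rfl
    · exact absurd h1.2 h2
    · by_contra hne
      exact h1 ⟨fun h => hne h.symm, h2⟩
    · rfl
  have hsub : ∀ m : Fin n →₀ ℕ, (fun i => (m i : ℤ) - (0 : Fin n → ℤ) i) =
      (fun i => (m i : ℤ)) := by
    intro m
    funext i
    simp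
  have havg := congrArg X.cl (Str2_avg X.G (p := p) (p' := p') 0
    (fun m hm => by
      rw [hsub] at hm
      rw [hc, if_pos hm])
    (fun m hm => by
      rw [hsub] at hm
      rw [hc, if_neg hm]))
  refine ⟨p', ?_, ?_⟩
  · intro m hm
    by_contra hne
    rw [mem_support_iff, hc, if_neg hne] at hm
    exact hm rfl
  · rw [map_sum, map_mul] at havg
    have h5 : ∀ g : X.G, X.cl (C (((∏ i, (g.1 i) ^ (-((0 : Fin n → ℤ) i)) : kˣ) : k)) * scale g.1 p)
        = (a : X.B) := by
      intro g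
      have h6 := a.2 g.1 g.2
      rw [← hp, act_cl] at h6
      have h7 : ((∏ i, (g.1 i) ^ (-((0 : Fin n → ℤ) i)) : kˣ) : k) = 1 := by simp
      rw [h7, C_1, one_mul, h6, hp]
    rw [Finset.sum_congr rfl (fun g _ => h5 g), Finset.sum_const, Finset.card_univ] at havg
    have h8 : X.cl (C (Fintype.card X.G : k)) = ((Fintype.card X.G : ℕ) : X.B) := by
      rw [map_natCast C, map_natCast]
    rw [h8, nsmul_eq_mul] at havg
    have h9 : ((Fintype.card X.G : ℕ) : X.B) ≠ 0 := by
      have h10 : X.cl (C (Fintype.card X.G : k)) = algebraMap k X.B (Fintype.card X.G : k) :=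
        X.cl.commutes _
      rw [← h8, h10]
      intro h0
      exact Str2_card_ne X.G ((map_eq_zero_iff _ (FaithfulSMul.algebraMap_injective k X.B)).1 h0)
    exact (mul_left_cancel₀ h9 havg).symm

/-- The class of an invariant monomial is in `A`. -/
theorem monomial_mem (m : Fin n →₀ ℕ) (c : k) (hm : (fun i => (m i : ℤ)) ∈ perp X.G) :
    X.cl (monomial m c) ∈ X.A := by
  intro g hg
  rw [act_cl, scale_monomial]
  have h1 : (∏ i, (g i : k) ^ m i) = 1 := by
    have h2 := hm g hg
    have h3 := congrArg Units.val h2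
    push_cast at h3
    simpa using h3
  rw [h1, one_mul]

theorem Str2_act_act (g h : Fin n → kˣ) (hg : g ∈ X.G) (hh : h ∈ X.G) (b : X.B) :
    X.act g hg (X.act h hh b) = X.act (g * h) (X.G.mul_mem hg hh) b := by
  obtain ⟨p, rfl⟩ := X.cl_surjective b
  rw [act_cl, act_cl, act_cl]
  congr 1
  ext m
  rw [Str2_coeff_scale, Str2_coeff_scale, Str2_coeff_scale, ← mul_assoc, ← Finset.prod_mul_distrib]
  congr 1
  refine Finset.prod_congr rfl (fun i _ => ?_)
  rw [Pi.mul_apply, Units.val_mul, mul_pow]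

theorem Str2_act_one (b : X.B) (h1 : (1 : Fin n → kˣ) ∈ X.G) : X.act 1 h1 b = b := by
  obtain ⟨p, rfl⟩ := X.cl_surjective b
  rw [act_cl]
  congr 1
  ext m
  rw [Str2_coeff_scale]
  simp

/-- the action of `G` on `B` -/
noncomputable def Str2_action : MulSemiringAction X.G X.B where
  smul g b := X.act g.1 g.2 b
  one_smul b := X.Str2_act_one b _
  mul_smul g h b := (X.Str2_act_act g.1 h.1 g.2 h.2 b).symm
  smul_zero g := map_zero (X.act g.1 g.2)
  smul_add g a b := map_add (X.act g.1 g.2) a b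
  smul_one g := map_one (X.act g.1 g.2)
  smul_mul g a b := map_mul (X.act g.1 g.2) a b

theorem exists_mul_invariant {s : X.B} (hs : s ≠ 0) :
    ∃ t : X.B, s * t ∈ X.A ∧ s * t ≠ 0 ∧ (s ∉ X.orig → s * t ∉ X.orig) := by
  classical
  have := X.fin
  have : Fintype X.G := Fintype.ofFinite _
  have hN : ∏ g : X.G, X.act g.1 g.2 s =
      s * ∏ g ∈ Finset.univ.erase (1 : X.G), X.act g.1 g.2 s := by
    rw [← Finset.mul_prod_erase Finset.univ (fun g : X.G => X.act g.1 g.2 s)
      (Finset.mem_univ (1 : X.G))]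
    congr 1
    exact X.Str2_act_one s _
  refine ⟨∏ g ∈ Finset.univ.erase (1 : X.G), X.act g.1 g.2 s, ?_⟩
  rw [← hN]
  refine ⟨?_, ?_, ?_⟩
  · intro h hh
    rw [map_prod]
    have h1 : ∀ g : X.G, X.act h hh (X.act g.1 g.2 s) =
        (fun g : X.G => X.act g.1 g.2 s) (Equiv.mulLeft (⟨h, hh⟩ : X.G) g) := by
      intro g
      exact X.Str2_act_act h g.1 hh g.2 s
    rw [Finset.prod_congr rfl (fun g _ => h1 g)]
    exact Equiv.prod_comp (Equiv.mulLeft (⟨h, hh⟩ : X.G)) (fun g : X.G => X.act g.1 g.2 s)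
  · rw [Finset.prod_ne_zero_iff]
    intro g _ h0
    apply hs
    have h1 := X.Str2_act_act (g.1)⁻¹ g.1 (X.G.inv_mem g.2) g.2 s
    rw [h0, map_zero] at h1
    have h2 : X.act ((g.1)⁻¹ * g.1) (X.G.mul_mem (X.G.inv_mem g.2) g.2) s = s := by
      have h3 : ∀ (w : Fin n → kˣ) (hw : w ∈ X.G), w = 1 → X.act w hw s = s := by
        rintro w hw rfl
        exact X.Str2_act_one s hw
      exact h3 _ _ (inv_mul_cancel _)
    exact (h1.trans h2).symm
  · intro hso hmem
    have := X.orig_prime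
    obtain ⟨g, _, hg⟩ := (Ideal.IsPrime.prod_mem_iff (p := X.orig)).1 hmem
    exact hso ((X.act_mem_orig g.1 g.2).1 hg)

theorem isIntegral_B : Algebra.IsIntegral X.A X.B := by
  have := X.fin
  letI := X.Str2_action
  have : Algebra.IsInvariant X.A X.B X.G :=
    ⟨fun b hb => ⟨⟨b, fun g hg => hb ⟨g, hg⟩⟩, rfl⟩⟩
  exact Algebra.IsInvariant.isIntegral X.A X.B X.G

end Pre

end Pool.Agent.GAP
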