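import Pool.Agent.GAP.Tor

/-!
# GAP, module TBS: basic facts on the toric data

Proofs. `rw_pair`: `q m = ∑ m_j e_j` in `M`, apply `w` and divide by `q`.
`dlog_mon`: `q m = ∑ m_j e_j`, so `q dlog χ(m) = dlog χ(q m) = ∑ m_j dlog χ(e_j) = q ∑ m_j β_j`
(`dlog` is additive on products, characteristic 0).
`relation`: `0 = D(ev F) = ∑_m c_m D(χ(δ m)) = ∑_m c_m χ(δ m) ∑_j (m_j - m0_j) β_j
= ∑_j ev(F_j) β_j - (ev F) ∑_j m0_j β_j`.
`wedge_theta`: `alt_rel` with `φ = ιMulti`, `F = ev ∘ FD`.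
`wedge_mon`: `dlog χ(m_a) = ∑_j (m_a)_j β_j`, expand the wedge (`MultilinearMap.map_sum`): a sum
over maps `σ : Fin d → Fin (d+1)` of integers times `ιMulti (β ∘ σ)`; if `σ` is not injective the
term is `0` (`AlternatingMap.map_eq_zero_of_not_injective`); if it is injective, it misses exactly
one `l` and `β ∘ σ` is a permutation of `β ∘ l.succAbove` (`AlternatingMap.map_perm`), so the term
is an integer times `± ev(F_l) θ` by `wedge_theta`; integers have value `≥ 0`.
-/

set_option linter.dupNamespace false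

namespace Pool.Agent.GAP

open AddMonoidAlgebra

variable {k K : Type*} [Field k] [Field K] [Algebra k K] {d : ℕ} (T : TorData k K d)

/-- `q m = ∑ m_j e_j` in `M`. -/
theorem tbs_qm (m : T.M) :
    T.q • m = ∑ j, ((m : Fin (d + 1) → ℤ) j) • T.e j := by
  apply Subtype.ext
  funext i
  rw [AddSubgroup.coe_nsmul, AddSubgroup.val_finsetSum]
  simp only [Pi.smul_apply, Finset.sum_apply, AddSubgroup.coe_zsmul]
  rw [Finset.sum_eq_single i]
  · rw [T.e_eq, if_pos rfl]
    simp only [nsmul_eq_mul, smul_eq_mul]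
    ring
  · intro j _ hj
    rw [T.e_eq, if_neg (fun h => hj h.symm), smul_zero]
  · intro h
    exact absurd (Finset.mem_univ i) h

theorem rw_pair (w : T.M →+ ℤ) (m : T.M) : (w m : ℝ) = pair (T.rw w) m := by
  have hq : (T.q : ℝ) ≠ 0 := by
    have := T.q_pos
    positivity
  have h := congrArg w (tbs_qm T m)
  rw [map_nsmul, map_sum] at h
  simp only [map_zsmul, smul_eq_mul, nsmul_eq_mul] at h
  have h1 : (T.q : ℝ) * (w m : ℝ) = ∑ j, (((m : Fin (d + 1) → ℤ) j : ℤ) : ℝ) * (w (T.e j) : ℝ) := by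
    have h2 := congrArg (fun z : ℤ => (z : ℝ)) h
    push_cast at h2
    exact h2
  unfold pair TorData.rw
  have h3 : ∑ j, ((w (T.e j) : ℝ) / T.q) * (((m : Fin (d + 1) → ℤ) j : ℤ) : ℝ) =
      (∑ j, (((m : Fin (d + 1) → ℤ) j : ℤ) : ℝ) * (w (T.e j) : ℝ)) / T.q := by
    rw [Finset.sum_div]
    exact Finset.sum_congr rfl fun j _ => by ring
  rw [h3, ← h1]
  field_simp

/-- For exponents of `f`: `⟨w, m⟩ = ⟨w, m0⟩ + w(δ m)`. -/
theorem rw_pairN (w : T.M →+ ℤ) {m : Fin (d + 1) →₀ ℕ} (hm : m ∈ T.f.support) :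
    pairN (T.rw w) m = pairN (T.rw w) T.m0 + w (T.δ m) := by
  rw [rw_pair]
  unfold pairN pair
  rw [← Finset.sum_add_distrib]
  refine Finset.sum_congr rfl fun i _ => ?_
  rw [T.δ_eq m hm i]
  push_cast
  ring

/-- The homomorphism `m ↦ dlog x^m`. -/
noncomputable def tbsDlog : T.M →+ Ω[K⁄k] :=
  AddMonoidHom.mk' (fun m => (T.mon m)⁻¹ • KaehlerDifferential.D k K (T.mon m)) (by
    intro a b
    rw [T.mon_add, Derivation.leibniz, smul_add, smul_smul, smul_smul, mul_inv]
    have ha := T.mon_ne a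
    have hb := T.mon_ne b
    have h1 : (T.mon a)⁻¹ * (T.mon b)⁻¹ * T.mon a = (T.mon b)⁻¹ := by
      field_simp
    have h2 : (T.mon a)⁻¹ * (T.mon b)⁻¹ * T.mon b = (T.mon a)⁻¹ := by
      field_simp
    rw [h1, h2, add_comm])

theorem tbsDlog_apply (m : T.M) :
    tbsDlog T m = (T.mon m)⁻¹ • KaehlerDifferential.D k K (T.mon m) := rfl

theorem dlog_mon [CharZero k] (m : T.M) :
    (T.mon m)⁻¹ • KaehlerDifferential.D k K (T.mon m) =
      ∑ j, (((m : Fin (d + 1) → ℤ) j : ℤ) : K) • T.β j := by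
  have : CharZero K := charZero_of_injective_algebraMap (algebraMap k K).injective
  have hq : (T.q : K) ≠ 0 := by
    have := T.q_pos
    exact Nat.cast_ne_zero.mpr this.ne'
  have h := congrArg (tbsDlog T) (tbs_qm T m)
  rw [map_nsmul, map_sum] at h
  simp only [map_zsmul] at h
  rw [← tbsDlog_apply]
  have h1 : (T.q : K) • tbsDlog T m =
      (T.q : K) • ∑ j, (((m : Fin (d + 1) → ℤ) j : ℤ) : K) • T.β j := by
    rw [Nat.cast_smul_eq_nsmul, h, Finset.smul_sum]
    refine Finset.sum_congr rfl fun j _ => ?_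
    have h2 : T.β j = (T.q : K)⁻¹ • tbsDlog T (T.e j) := rfl
    have h3 : (T.q : K) * (((m : Fin (d + 1) → ℤ) j : ℤ) : K) * (T.q : K)⁻¹ =
        (((m : Fin (d + 1) → ℤ) j : ℤ) : K) := by
      field_simp
    rw [h2, smul_smul, smul_smul, h3, Int.cast_smul_eq_zsmul]
  exact smul_right_injective _ hq h1

theorem tbs_evF : T.ev T.F =
    ∑ m ∈ T.f.support, algebraMap k K (MvPolynomial.coeff m T.f) * T.mon (T.δ m) := by
  unfold TorData.F
  rw [map_sum]
  exact Finset.sum_congr rfl fun m _ => by rw [T.ev_single, Algebra.smul_def]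

theorem tbs_evFD (j : Fin (d + 1)) : T.ev (T.FD j) =
    ∑ m ∈ T.f.support,
      (m j : K) * (algebraMap k K (MvPolynomial.coeff m T.f) * T.mon (T.δ m)) := by
  unfold TorData.FD
  rw [map_sum]
  refine Finset.sum_congr rfl fun m _ => ?_
  rw [T.ev_single, Algebra.smul_def, map_mul, map_natCast, mul_assoc]

theorem tbs_D_mon [CharZero k] (m : T.M) :
    KaehlerDifferential.D k K (T.mon m) =
      T.mon m • ∑ j, (((m : Fin (d + 1) → ℤ) j : ℤ) : K) • T.β j := by
  rw [← dlog_mon, smul_smul, mul_inv_cancel₀ (T.mon_ne m), one_smul]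

theorem relation [CharZero k] (h0 : T.ev T.F = 0) : ∑ j, T.ev (T.FD j) • T.β j = 0 := by
  have h1 : KaehlerDifferential.D k K (T.ev T.F) =
      ∑ m ∈ T.f.support, ∑ j : Fin (d + 1),
        (((m j : K) - (T.m0 j : K)) *
          (algebraMap k K (MvPolynomial.coeff m T.f) * T.mon (T.δ m))) • T.β j := by
    unfold TorData.F
    rw [map_sum, map_sum]
    refine Finset.sum_congr rfl fun m hm => ?_
    rw [T.ev_single, Derivation.map_smul, tbs_D_mon, algebra_compatible_smul K, smul_smul,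
      Finset.smul_sum]
    refine Finset.sum_congr rfl fun j _ => ?_
    rw [smul_smul, T.δ_eq m hm j]
    congr 1
    push_cast
    ring
  rw [h0, map_zero, Finset.sum_comm] at h1
  have h2 : ∀ j : Fin (d + 1), ∑ m ∈ T.f.support,
        (((m j : K) - (T.m0 j : K)) *
          (algebraMap k K (MvPolynomial.coeff m T.f) * T.mon (T.δ m))) • T.β j =
        T.ev (T.FD j) • T.β j := by
    intro j
    rw [← Finset.sum_smul]
    congr 1
    have h3 : ∑ m ∈ T.f.support, ((m j : K) - (T.m0 j : K)) *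
          (algebraMap k K (MvPolynomial.coeff m T.f) * T.mon (T.δ m)) =
        T.ev (T.FD j) - (T.m0 j : K) * T.ev T.F := by
      rw [tbs_evFD, tbs_evF, Finset.mul_sum, ← Finset.sum_sub_distrib]
      exact Finset.sum_congr rfl fun m _ => by ring
    rw [h3, h0, mul_zero, sub_zero]
  rw [Finset.sum_congr rfl fun j _ => h2 j] at h1
  exact h1.symm

theorem wedge_theta [CharZero k] (h0 : T.ev T.F = 0) {i : Fin (d + 1)}
    (hi : T.ev (T.FD i) ≠ 0) (l : Fin (d + 1)) :
    ∃ ε : K, (ε = 1 ∨ ε = -1) ∧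
      exteriorPower.ιMulti K d (fun a => T.β (l.succAbove a)) = (ε * T.ev (T.FD l)) • T.θ i := by
  obtain ⟨ε, hε, h⟩ := alt_rel (exteriorPower.ιMulti K d) T.β (fun j => T.ev (T.FD j))
    (relation T h0) i l
  refine ⟨ε, hε, ?_⟩
  have hεε : ε * ε = 1 := by
    rcases hε with h | h <;> rw [h] <;> ring
  unfold TorData.θ
  have h1 : (ε * T.ev (T.FD l)) • (T.ev (T.FD i))⁻¹ •
      exteriorPower.ιMulti K d (fun a => T.β (i.succAbove a)) =
      (ε * (T.ev (T.FD i))⁻¹) • (T.ev (T.FD l) •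
        exteriorPower.ιMulti K d (fun a => T.β (i.succAbove a))) := by
    rw [smul_smul, smul_smul]
    congr 1
    ring
  rw [h1, h, smul_smul, smul_smul]
  have h2 : ε * (T.ev (T.FD i))⁻¹ * ε * T.ev (T.FD i) = 1 := by
    calc ε * (T.ev (T.FD i))⁻¹ * ε * T.ev (T.FD i)
        = (ε * ε) * ((T.ev (T.FD i))⁻¹ * T.ev (T.FD i)) := by ring
      _ = 1 := by rw [hεε, inv_mul_cancel₀ hi, one_mul]
  rw [h2, one_smul]

end Pool.Agent.GAP
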