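import Pool.Agent.GAP.Ctx

/-!
# GAP, module TOF: the toric data of a hyperquotient

Proofs. `exists_torOf`: `f = X.f`, `M = perp G`, `q` from `perp_finIdx`, `m0` any exponent of `f`
(`f ≠ 0`), `δ m = m - m0` if this is in `M` and `0` otherwise; it is in `M` for exponents `m` of `f`,
because `scale g f = C c * f` gives `∏ g_i^(m_i) = c = ∏ g_i^(m0_i)` (`scale_monomial`, compare
coefficients); `e j = q e_j`; `χ m` the element of `K` with image `mono m` (`mono_mem`, choice); it is
multiplicative because `K → L` is injective.
`ev_mono`: both sides are `k`-linear in `a` and agree on `single m c`.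
`ev_F`: the image of `ev F` in `L` is `mono (-m0)` times the class of `f`, which is `0`.
`ev_FD`: the image of `ev (FD i)` is `mono (-m0) x_i` times the class of `∂_i f`:
`X_i ∂_i f = ∑ m_i c_m X^m`.
`ne`: some `∂_i f ≠ 0` (`f` is not constant, characteristic `0`), it has smaller degree in `X_i` than
`f`, so it is not divisible by `f`, and its class in `B` is not `0`.
`torOf_gen`: `z = a / b` with `a`, `b ∈ A`; by `exists_lift` `a` and `b` are classes of polynomials
with all exponents in `perp G`, i.e. values of `T.ev` (compare the images in `L`: `mono_nat`).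
-/

set_option linter.dupNamespace false

namespace Pool.Agent.GAP

open MvPolynomial

universe u

variable {k : Type u} [Field k] {d : ℕ} {X : Pre k (d + 1)} {K L : Type*} [Field K] [Field L]
    [Algebra k K] [Algebra k L] [Algebra X.A K] [Algebra X.B L] [Algebra K L]

/-- `T` is the toric data of `X`. -/
structure TorOf (X : Pre k (d + 1)) {K : Type*} (L : Type*) [Field K] [Field L]
    [Algebra k K] [Algebra X.B L] [Algebra K L] (T : TorData k K d) : Prop where
  f_eq : T.f = X.f
  M_eq : ∀ m, m ∈ T.M ↔ m ∈ perp X.G
  mon : ∀ m : T.M, algebraMap K L (T.mon m) = X.mono L m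

private theorem tof_coeff (g : Fin (d + 1) → kˣ) (p : MvPolynomial (Fin (d + 1)) k)
    (m : Fin (d + 1) →₀ ℕ) : coeff m (scale g p) = (∏ i, (g i : k) ^ m i) * coeff m p := by
  classical
  induction p using MvPolynomial.induction_on' with
  | monomial u a =>
    rw [Pre.scale_monomial, coeff_monomial, coeff_monomial]
    by_cases hu : u = m
    · rw [if_pos hu, if_pos hu, hu]
    · rw [if_neg hu, if_neg hu, mul_zero]
  | add p q hp hq => rw [map_add, coeff_add, coeff_add, hp, hq, mul_add]

private theorem tof_mem (X : Pre k (d + 1)) {m m0 : Fin (d + 1) →₀ ℕ} (hm : m ∈ X.f.support)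
    (hm0 : m0 ∈ X.f.support) : (fun i => (m i : ℤ) - m0 i) ∈ perp X.G := by
  intro g hg
  obtain ⟨c, hc⟩ := X.semi g hg
  have key : ∀ m ∈ X.f.support, (∏ i, (g i : k) ^ m i) = c := by
    intro m hm
    have h1 := congrArg (coeff m) hc
    rw [tof_coeff, coeff_C_mul] at h1
    exact mul_right_cancel₀ (mem_support_iff.1 hm) h1
  have h2 : (∏ i, (g i) ^ m i : kˣ) = ∏ i, (g i) ^ m0 i := by
    apply Units.ext
    push_cast
    rw [key m hm, key m0 hm0]
  simp only [zpow_sub, zpow_natCast, Finset.prod_mul_distrib, Finset.prod_inv_distrib]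
  rw [h2, mul_inv_cancel]

theorem exists_torOf [IsAlgClosed k] [CharZero k] (h : Ctx X K L) :
    ∃ T : TorData k K d, TorOf X L T := by
  classical
  have hfin : Finite X.G := X.fin
  obtain ⟨q, hq, hall⟩ := perp_finIdx X.G
  obtain ⟨m0, hm0⟩ := (MvPolynomial.support_nonempty).2 X.irr.ne_zero
  have hinj : Function.Injective (algebraMap K L) := (algebraMap K L).injective
  choose χ hχ using fun m : perp X.G => mono_mem (K := K) (L := L) X h m.2
  refine ⟨{
    f := X.f
    M := perp X.G
    q := q
    q_pos := hq
    all := hall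
    m0 := m0
    m0_mem := hm0
    δ := fun m => if hm : (fun i => (m i : ℤ) - m0 i) ∈ perp X.G then ⟨_, hm⟩ else 0
    δ_eq := by
      intro m hm i
      simp only [dif_pos (tof_mem X hm hm0)]
    e := fun j => ⟨q • Pi.single j 1, hall _⟩
    e_eq := by
      intro j i
      simp [Pi.single_apply]
    χ := {
      toFun := fun m => χ m.toAdd
      map_one' := by
        apply hinj
        refine (hχ _).trans ?_
        rw [(algebraMap K L).map_one]
        show X.mono L (0 : Fin (d + 1) → ℤ) = 1
        unfold Pre.mono
        simp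
      map_mul' := by
        intro a b
        apply hinj
        rw [(algebraMap K L).map_mul, hχ, hχ, hχ, ← mono_add X h]
        rfl } }, ?_, ?_, ?_⟩
  · rfl
  · intro m
    exact Iff.rfl
  · intro m
    exact hχ m

/-- The negative of the exponent `m0`, as a vector of integers. -/
def TorData.nm0 {K : Type*} [Field K] [Algebra k K] (T : TorData k K d) : Fin (d + 1) → ℤ :=
  fun i => -(T.m0 i : ℤ)

variable {T : TorData k K d}

theorem ev_mono (h : Ctx X K L) (hT : TorOf X L T) (a : AddMonoidAlgebra k T.M) :
    algebraMap K L (T.ev a) =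
      ∑ m ∈ a.coeff.support, algebraMap k L (a.coeff m) * X.mono L m := by
  have hK := h.towerKL
  unfold TorData.ev
  rw [AddMonoidAlgebra.lift_apply', Finsupp.sum, map_sum]
  refine Finset.sum_congr rfl fun m _ => ?_
  rw [map_mul, ← IsScalarTower.algebraMap_apply k K L, ← hT.mon m]
  rfl

end Pool.Agent.GAP
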