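import Pool.Agent.GAP.Tof

/-!
# GAP, module TOF2: `F`, its derivatives, generation of `K`

Proofs: see the header of `Tof.lean`.
-/

set_option linter.dupNamespace false

namespace Pool.Agent.GAP

open MvPolynomial

universe u

variable {k : Type u} [Field k] {d : ℕ} {X : Pre k (d + 1)} {K L : Type*} [Field K] [Field L]
    [Algebra k K] [Algebra k L] [Algebra X.A K] [Algebra X.B L] [Algebra K L]

variable {T : TorData k K d}

/-- the general formula -/
private theorem tof2_sum (h : Ctx X K L) (hT : TorOf X L T)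
    (g : (Fin (d + 1) →₀ ℕ) → k) :
    algebraMap K L (T.ev (∑ m ∈ T.f.support, AddMonoidAlgebra.single (T.δ m) (g m))) =
      X.mono L T.nm0 * algebraMap X.B L (X.cl (∑ m ∈ T.f.support, monomial m (g m))) := by
  have hK := h.towerKL
  have hL := h.towerL
  rw [map_sum, map_sum, map_sum, map_sum, Finset.mul_sum]
  refine Finset.sum_congr rfl fun m hm => ?_
  have e1 : (T.δ m : Fin (d + 1) → ℤ) = T.nm0 + fun i => (m i : ℤ) := by
    funext i
    rw [T.δ_eq m hm i]
    simp only [TorData.nm0, Pi.add_apply]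
    ring
  have e2 : X.cl (monomial m (g m)) = algebraMap k X.B (g m) * X.cl (monomial m 1) := by
    rw [show (monomial m (g m) : MvPolynomial (Fin (d + 1)) k) = algebraMap k _ (g m) * monomial m 1 by
      rw [MvPolynomial.algebraMap_eq, C_mul_monomial, mul_one], map_mul, AlgHom.commutes]
  rw [T.ev_single, Algebra.smul_def, map_mul, ← IsScalarTower.algebraMap_apply k K L, hT.mon (T.δ m), e1,
    mono_add X h, mono_nat X h, e2, map_mul, ← IsScalarTower.algebraMap_apply k X.B L]
  ring

theorem ev_F (h : Ctx X K L) (hT : TorOf X L T) : T.ev T.F = 0 := by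
  have h1 := tof2_sum h hT (fun m => MvPolynomial.coeff m T.f)
  rw [← MvPolynomial.as_sum T.f] at h1
  have h2 : X.cl T.f = 0 := by
    rw [hT.f_eq, X.cl_eq_zero]
  rw [h2, map_zero, mul_zero] at h1
  exact (map_eq_zero (algebraMap K L)).1 h1

private theorem tof2_euler (f : MvPolynomial (Fin (d + 1)) k) (i : Fin (d + 1)) :
    ∑ m ∈ f.support, monomial m ((m i : k) * MvPolynomial.coeff m f) =
      MvPolynomial.X i * pderiv i f := by
  conv_rhs => rw [MvPolynomial.as_sum f, map_sum, Finset.mul_sum]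
  refine Finset.sum_congr rfl fun m _ => ?_
  rw [X_mul_pderiv_monomial, nsmul_eq_mul, ← map_natCast (C : k →+* MvPolynomial (Fin (d + 1)) k),
    C_mul_monomial]

theorem ev_FD (h : Ctx X K L) (hT : TorOf X L T) (i : Fin (d + 1)) :
    algebraMap K L (T.ev (T.FD i)) =
      X.mono L T.nm0 * X.xL L i * algebraMap X.B L (X.cl (pderiv i X.f)) := by
  have h1 := tof2_sum h hT (fun m => (m i : k) * MvPolynomial.coeff m T.f)
  rw [tof2_euler, map_mul, map_mul, hT.f_eq] at h1
  unfold TorData.FD
  rw [hT.f_eq, h1, mul_assoc]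
  rfl

private theorem tof2_dvd {f : MvPolynomial (Fin (d + 1)) k} {i : Fin (d + 1)}
    (hf : f ≠ 0) (h0 : pderiv i f ≠ 0) : ¬ f ∣ pderiv i f := by
  rintro ⟨g, hg⟩
  have hg0 : g ≠ 0 := by
    rintro rfl
    rw [mul_zero] at hg
    exact h0 hg
  have h1 : (MvPolynomial.X i * pderiv i f).totalDegree ≤ f.totalDegree := by
    rw [← tof2_euler]
    refine totalDegree_finsetSum_le fun m hm => ?_
    exact (totalDegree_monomial_le m _).trans (le_totalDegree hm)
  rw [hg, totalDegree_mul_of_isDomain (MvPolynomial.X_ne_zero i) (mul_ne_zero hf hg0),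
    totalDegree_mul_of_isDomain hf hg0, totalDegree_X] at h1
  omega

theorem torOf_ne [CharZero k] (h : Ctx X K L) (hT : TorOf X L T) :
    ∃ i, T.ev (T.FD i) ≠ 0 := by
  have hfr := h.fracL
  have hf : X.f ≠ 0 := X.irr.ne_zero
  obtain ⟨m, hm⟩ := (MvPolynomial.support_nonempty).2 hf
  have hm0 : m ≠ 0 := by
    rintro rfl
    exact mem_support_iff.1 hm X.zero
  obtain ⟨i, hi⟩ : ∃ i, m i ≠ 0 := by
    by_contra hc
    push Not at hc
    exact hm0 (Finsupp.ext hc)
  have hd : pderiv i X.f ≠ 0 := by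
    intro h0
    have h1 := tof2_euler X.f i
    rw [h0, mul_zero] at h1
    have h2 := congrArg (MvPolynomial.coeff m) h1
    rw [coeff_sum, coeff_zero] at h2
    simp only [coeff_monomial] at h2
    rw [Finset.sum_ite_eq' X.f.support m, if_pos hm] at h2
    exact mul_ne_zero (Nat.cast_ne_zero.2 hi) (mem_support_iff.1 hm) h2
  refine ⟨i, fun h0 => ?_⟩
  have h1 := ev_FD h hT i
  rw [h0, map_zero] at h1
  have h2 : algebraMap X.B L (X.cl (pderiv i X.f)) ≠ 0 := by
    intro h3
    have h4 : X.cl (pderiv i X.f) = 0 :=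
      (IsFractionRing.injective X.B L) (by rw [h3, map_zero])
    rw [X.cl_eq_zero] at h4
    exact tof2_dvd hf hd h4
  exact mul_ne_zero (mul_ne_zero (mono_ne X h _) (xL_ne X h i)) h2 h1.symm

/-- the values of `ev` at the invariant polynomials -/
private theorem tof2_lift [CharZero k] (h : Ctx X K L) (hT : TorOf X L T) (a : X.A) :
    ∃ α, T.ev α = algebraMap X.A K a := by
  classical
  have hK := h.towerKL
  have hL := h.towerL
  obtain ⟨p, hp, hpa⟩ := X.exists_lift a
  refine ⟨∑ m ∈ p.support, AddMonoidAlgebra.single (if hm : (fun i => (m i : ℤ)) ∈ T.M then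
    (⟨_, hm⟩ : T.M) else 0) (MvPolynomial.coeff m p), ?_⟩
  apply (algebraMap K L).injective
  rw [h.comp a, ← hpa, map_sum, map_sum]
  conv_rhs => rw [MvPolynomial.as_sum p, map_sum, map_sum]
  refine Finset.sum_congr rfl fun m hm => ?_
  have hmM : (fun i => (m i : ℤ)) ∈ T.M := (hT.M_eq _).2 (hp m hm)
  have e2 : X.cl (monomial m (MvPolynomial.coeff m p)) =
      algebraMap k X.B (MvPolynomial.coeff m p) * X.cl (monomial m 1) := by
    rw [show (monomial m (MvPolynomial.coeff m p) : MvPolynomial (Fin (d + 1)) k) =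
      algebraMap k _ (MvPolynomial.coeff m p) * monomial m 1 by
      rw [MvPolynomial.algebraMap_eq, C_mul_monomial, mul_one], map_mul, AlgHom.commutes]
  rw [dif_pos hmM, T.ev_single, Algebra.smul_def, map_mul, ← IsScalarTower.algebraMap_apply k K L,
    hT.mon, e2, map_mul, ← IsScalarTower.algebraMap_apply k X.B L, mono_nat X h]

theorem torOf_gen [CharZero k] (h : Ctx X K L) (hT : TorOf X L T) (z : K) :
    ∃ a b, T.ev b ≠ 0 ∧ z * T.ev b = T.ev a := by
  have hfr := h.fracK
  obtain ⟨x, y, hy, rfl⟩ := IsFractionRing.div_surjective (A := X.A) z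
  obtain ⟨α, hα⟩ := tof2_lift h hT x
  obtain ⟨β, hβ⟩ := tof2_lift h hT y
  have hy0 : algebraMap X.A K y ≠ 0 := by
    intro h0
    have : y = 0 := (IsFractionRing.injective X.A K) (by rw [h0, map_zero])
    exact nonZeroDivisors.ne_zero hy this
  refine ⟨α, β, ?_, ?_⟩
  · rw [hβ]
    exact hy0
  · rw [hα, hβ, div_mul_cancel₀ _ hy0]

end Pool.Agent.GAP
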