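import Pool.Agent.GAP.Ord
import Pool.Agent.GAP.Alt
import Pool.Agent.GAP.Cmb

/-!
# GAP: toric data on the function field `K` of the hyperquotient

`M ⊆ ℤ^(d+1)` is the lattice of the invariant Laurent monomials, `χ m ∈ K` the monomial `x^m`,
`δ m = m - m0` for the exponents `m` of `f`, `e j = q e_j`.
-/

set_option linter.dupNamespace false

namespace Pool.Agent.GAP

open AddMonoidAlgebra

structure TorData (k K : Type*) [Field k] [Field K] [Algebra k K] (d : ℕ) where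
  f : MvPolynomial (Fin (d + 1)) k
  M : AddSubgroup (Fin (d + 1) → ℤ)
  q : ℕ
  q_pos : 0 < q
  all : ∀ m : Fin (d + 1) → ℤ, q • m ∈ M
  m0 : Fin (d + 1) →₀ ℕ
  m0_mem : m0 ∈ f.support
  δ : (Fin (d + 1) →₀ ℕ) → M
  δ_eq : ∀ m ∈ f.support, ∀ i, (δ m : Fin (d + 1) → ℤ) i = (m i : ℤ) - m0 i
  e : Fin (d + 1) → M
  e_eq : ∀ j i, (e j : Fin (d + 1) → ℤ) i = if i = j then (q : ℤ) else 0
  χ : Multiplicative M →* K

variable {k K : Type*} [Field k] [Field K] [Algebra k K] {d : ℕ}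

namespace TorData

variable (T : TorData k K d)

/-- The monomial `x^m` in `K`. -/
def mon (m : T.M) : K := T.χ (Multiplicative.ofAdd m)

/-- Evaluation of Laurent polynomials with exponents in `M` at the point `x`. -/
noncomputable def ev : AddMonoidAlgebra k T.M →ₐ[k] K := AddMonoidAlgebra.lift k K T.M T.χ

/-- `F = f / x^m0`. -/
noncomputable def F : AddMonoidAlgebra k T.M :=
  ∑ m ∈ T.f.support, AddMonoidAlgebra.single (T.δ m) (MvPolynomial.coeff m T.f)

/-- `F_j = x_j ∂_j f / x^m0`. -/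
noncomputable def FD (j : Fin (d + 1)) : AddMonoidAlgebra k T.M :=
  ∑ m ∈ T.f.support, AddMonoidAlgebra.single (T.δ m) ((m j : k) * MvPolynomial.coeff m T.f)

/-- `β_j = dlog x_j = (1/q) dlog x_j^q`. -/
noncomputable def β (j : Fin (d + 1)) : Ω[K⁄k] :=
  (q T : K)⁻¹ • (T.mon (T.e j))⁻¹ • KaehlerDifferential.D k K (T.mon (T.e j))

/-- The form `(∧_{j ≠ i} dlog x_j) / F_i`. -/
noncomputable def θ (i : Fin (d + 1)) : ⋀[K]^d (Ω[K⁄k]) :=
  (T.ev (T.FD i))⁻¹ • exteriorPower.ιMulti K d (fun a => T.β (i.succAbove a))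

/-- The part of `F` of weight `r`. -/
noncomputable def inF (w : T.M →+ ℤ) (r : ℤ) : AddMonoidAlgebra k T.M :=
  ∑ m ∈ T.f.support.filter (fun m => w (T.δ m) = r),
    AddMonoidAlgebra.single (T.δ m) (MvPolynomial.coeff m T.f)

/-- The part of `F_j` of weight `r`. -/
noncomputable def inFD (w : T.M →+ ℤ) (r : ℤ) (j : Fin (d + 1)) : AddMonoidAlgebra k T.M :=
  ∑ m ∈ T.f.support.filter (fun m => w (T.δ m) = r),
    AddMonoidAlgebra.single (T.δ m) ((m j : k) * MvPolynomial.coeff m T.f)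

/-- `r` is the minimum of `w` on the exponents of `F`. -/
def IsMin (w : T.M →+ ℤ) (r : ℤ) : Prop :=
  (∃ m ∈ T.f.support, w (T.δ m) = r) ∧ ∀ m ∈ T.f.support, r ≤ w (T.δ m)

/-- The real weights of a homomorphism `w : M → ℤ`. -/
noncomputable def rw (w : T.M →+ ℤ) : Fin (d + 1) → ℝ := fun j => (w (T.e j) : ℝ) / T.q

/-- What the toric data of a hyperquotient satisfy. -/
structure OK : Prop where
  ker : ∀ a, T.ev a = 0 ↔ T.F ∣ a
  gen : ∀ z : K, ∃ a b, T.ev b ≠ 0 ∧ z * T.ev b = T.ev a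
  ne : ∃ i, T.ev (T.FD i) ≠ 0
  indep : ∀ i, T.ev (T.FD i) ≠ 0 → LinearIndependent K (fun a : Fin d => T.β (i.succAbove a))

theorem mon_add (m m' : T.M) : T.mon (m + m') = T.mon m * T.mon m' := by
  unfold mon
  rw [ofAdd_add, map_mul]

theorem mon_zero : T.mon 0 = 1 := by
  unfold mon
  rw [ofAdd_zero, map_one]

theorem mon_ne (m : T.M) : T.mon m ≠ 0 := by
  intro h
  have h1 := T.mon_add m (-m)
  rw [add_neg_cancel, T.mon_zero, h, zero_mul] at h1
  exact one_ne_zero h1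

theorem ev_single (m : T.M) (c : k) : T.ev (AddMonoidAlgebra.single m c) = c • T.mon m := by
  unfold ev mon
  rw [AddMonoidAlgebra.lift_single]

end TorData

end Pool.Agent.GAP
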