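import Pool.Agent.GAP.Cod
import Pool.Agent.GAP.Lat2

/-!
# GAP, module UNR: the extension is unramified in codimension one

Let `I = {i | x_i ∉ q}`. By `free` every `g ∈ G`, `g ≠ 1`, has some `i ∈ I` with `g_i ≠ 1`, so by
`free_perp` (`hfree`) every `m ∈ ℤ^n` is `u + m'` with `u` supported in `I` (so `mono u` is a unit of
the valuation ring of `E'`: `v'(x_i) = 0` for `i ∈ I`) and `m' ∈ perp G`.

`e_eq_one`. Choose `c ∈ B` with `v' c = 1` (a uniformizer is `b / s`, `s ∉ q`). The ideals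
`q_g = {b | act g b ∈ q}`, `g ∈ G`, are primes. If `q_g ≠ q`, then `q_g ⊄ q` (`ht`, or: `act g`
has finite order and is an automorphism) : `q_g ≤ q` implies `q_g = q` by `ht` (`q_g ≠ ⊥`). So for each
`g` with `q_g ≠ q` there is `y_g ∈ q_g`, `y_g ∉ q`. Put `x = c ∏_{g, q_g ≠ q} y_g`: `v' x = 1` and
`act g x ∈ q` for all `g ∈ G` (if `q_g = q`: `c ∈ q = q_g`; otherwise `y_g ∈ q_g`). Write `x` as the
class of a polynomial `p` and `p = ∑ p_κ` over the classes `κ` of `ℤ^n` modulo `perp G` (finitely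
many occur). By `part_mem` the class of every `p_κ` is in `q`, i.e. `v' ≥ 1` or `= 0`. As
`v' x = 1` there is `κ` with `v'(p_κ) = 1`. All exponents of `p_κ` are in `u + perp G` with `u`
supported in `I`; so `cl p_κ = mono u * z`, `z = ∑ c_m mono (m - u)` the image of an element `z_0` of `K`
(`mono_mem`), and `1 = v'(z) = e v(z_0)`. So `e = 1`.

`lo_le`. By `loc` an integral element of `L` is `b / s`, so (quotient rule) `E'.lo` is generated by
the `a D(b)`, `b ∈ B`, `a` integral, and so by the `a D(cl monomial)`. For `m ∈ ℕ^n` write `m = u + m'`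
as above: `mono m = mono u * mono m'`, `mono m' = image of g ∈ K`, `v'(g) = v'(mono m) ≥ 0`, so
`E.Int g`. `D(mono m) = mono u D(g) + g D(mono u)`, and with `N > 0`, `N ℤ^n ⊆ perp G`:
`D(mono u) = (1/N) mono u (mono (N u))⁻¹ D(mono (N u))`, where `mono (N u)` is the image of an element
of `K` with value `0`.
-/

set_option linter.dupNamespace false

namespace Pool.Agent.GAP

open MvPolynomial

universe u

variable {k : Type u} [Field k] {n : ℕ} {K L : Type*} [Field K] [Field L]
    [Algebra k K] [Algebra k L]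

variable {X : Pre k n} [Algebra X.A K] [Algebra X.B L] [Algebra K L]

theorem unr_ne (h : Ctx X K L) {b : X.B} (hb : b ≠ 0) : algebraMap X.B L b ≠ 0 := by
  have := h.fracL
  intro h0
  exact hb (IsFractionRing.injective X.B L (by rw [h0, map_zero]))

theorem unr_v {E : NVal k K} {E' : NVal k L} {q : Ideal X.B}
    {e : ℤ} (hA : Above X E E' q e) {b : X.B} (hb : b ∉ q) :
    E'.v (algebraMap X.B L b) = 0 := by
  have h1 := mt (hA.mem b).2 hb
  push Not at h1
  rcases hA.int b with h2 | h2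
  · rw [h2, E'.v_zero]
  · exact le_antisymm h1.2 h2

theorem unr_v_mono (h : Ctx X K L) {E : NVal k K} {E' : NVal k L} {q : Ideal X.B}
    {e : ℤ} (hA : Above X E E' q e) {u : Fin n → ℤ} (hu : ∀ i, X.x i ∈ q → u i = 0) :
    E'.v (X.mono L u) = 0 := by
  unfold Pre.mono
  rw [NVal.v_prod _ _ _ fun i _ => zpow_ne_zero _ (xL_ne X h i)]
  refine Finset.sum_eq_zero fun i _ => ?_
  rw [NVal.v_zpow _ _ (xL_ne X h i)]
  by_cases hi : X.x i ∈ q
  · rw [hu i hi, zero_mul]
  · have h1 : E'.v (X.xL L i) = 0 := unr_v hA hi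
    rw [h1, mul_zero]

theorem unr_lift (h : Ctx X K L) {u : Fin n → ℤ} {p : MvPolynomial (Fin n) k}
    (hp : ∀ m ∈ p.support, (fun i => (m i : ℤ) - u i) ∈ perp X.G) :
    ∃ z : K, algebraMap X.B L (X.cl p) = X.mono L u * algebraMap K L z := by
  have := h.towerL
  have := h.towerKL
  have hB : ∀ (c : k) (b : X.B), algebraMap X.B L (c • b) = c • algebraMap X.B L b :=
    fun c b => map_smul (IsScalarTower.toAlgHom k X.B L) c b
  have hK : ∀ (c : k) (b : K), algebraMap K L (c • b) = c • algebraMap K L b :=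
    fun c b => map_smul (IsScalarTower.toAlgHom k K L) c b
  have h1 : ∀ m ∈ p.support, ∃ z : K, algebraMap X.B L (X.cl (monomial m (coeff m p))) =
      X.mono L u * algebraMap K L z := by
    intro m hm
    obtain ⟨z, hz⟩ := mono_mem X h (hp m hm)
    refine ⟨coeff m p • z, ?_⟩
    have h2 : monomial m (coeff m p) = coeff m p • monomial m (1 : k) := by
      rw [smul_monomial, smul_eq_mul, mul_one]
    have h3 : (fun i => (m i : ℤ)) = u + (fun i => (m i : ℤ) - u i) := by
      funext i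
      simp
    rw [h2, map_smul, hB, ← mono_nat X h m, h3, mono_add X h, hK, hz, mul_smul_comm]
  choose! z hz using h1
  refine ⟨∑ m ∈ p.support, z m, ?_⟩
  conv_lhs => rw [← support_sum_monomial_coeff p]
  rw [map_sum, map_sum, map_sum, Finset.mul_sum]
  exact Finset.sum_congr rfl hz

private theorem unr_act_inv (g : Fin n → kˣ) (hg : g ∈ X.G) (hg' : g⁻¹ ∈ X.G) (b : X.B) :
    X.act g hg (X.act g⁻¹ hg' b) = b := by
  obtain ⟨p, rfl⟩ := X.cl_surjective b
  rw [Pre.act_cl, Pre.act_cl]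
  congr 1
  have h1 : (scale g).comp (scale g⁻¹) = AlgHom.id k _ := by
    apply MvPolynomial.algHom_ext
    intro i
    simp only [AlgHom.comp_apply, scale, aeval_X, map_mul, AlgHom.id_apply, Pi.inv_apply]
    rw [← algebraMap_eq, AlgHom.commutes, algebraMap_eq, ← mul_assoc, ← C_mul]
    simp
  exact DFunLike.congr_fun h1 p

/-- an element of value `1` all of whose conjugates are in `q` -/
private theorem unr_exists (h : Ctx X K L) {E : NVal k K} {E' : NVal k L} {q : Ideal X.B}
    {e : ℤ} (hA : Above X E E' q e) :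
    ∃ x : X.B, x ≠ 0 ∧ E'.v (algebraMap X.B L x) = 1 ∧
      ∀ (g : Fin n → kˣ) (hg : g ∈ X.G), X.act g hg x ∈ q := by
  classical
  have := hA.prime
  have : Finite X.G := X.fin
  have : Fintype X.G := Fintype.ofFinite _
  obtain ⟨t, ht0, ht1⟩ := E'.surj
  obtain ⟨c, s, hs, hcs⟩ := hA.loc t (Or.inr (by omega))
  have hs0 : s ≠ 0 := fun h0 => hs (by rw [h0]; exact q.zero_mem)
  have hsL := unr_ne h hs0
  have hcL : algebraMap X.B L c ≠ 0 := by
    rw [← hcs]
    exact mul_ne_zero ht0 hsL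
  have hc0 : c ≠ 0 := fun h0 => hcL (by rw [h0, map_zero])
  have hc1 : E'.v (algebraMap X.B L c) = 1 := by
    rw [← hcs, E'.v_mul _ _ ht0 hsL, ht1, unr_v hA hs, add_zero]
  have hcq : c ∈ q := (hA.mem c).2 (Or.inr (by omega))
  have h1 : ∀ g : X.G, ∃ y : X.B, y ∉ q ∧ X.act g.1 g.2 (c * y) ∈ q := by
    intro g
    by_cases hq : q.comap (X.act g.1 g.2) = q
    · refine ⟨1, fun h0 => hA.prime.ne_top ((Ideal.eq_top_iff_one q).2 h0), ?_⟩
      rw [mul_one]
      have h2 : c ∈ q.comap (X.act g.1 g.2) := by rw [hq]; exact hcq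
      exact h2
    · have h2 : ¬ q.comap (X.act g.1 g.2) ≤ q := by
        intro hle
        rcases hA.ht _ (Ideal.comap_isPrime _ _) hle with h3 | h3
        · obtain ⟨b, hb, hb0⟩ := Submodule.exists_mem_ne_zero_of_ne_bot hA.ne
          have h4 : X.act g.1⁻¹ (X.G.inv_mem g.2) b ∈ q.comap (X.act g.1 g.2) := by
            rw [Ideal.mem_comap]
            rw [unr_act_inv]
            exact hb
          rw [h3, Ideal.mem_bot] at h4
          have h5 := unr_act_inv g.1 g.2 (X.G.inv_mem g.2) b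
          rw [h4, map_zero] at h5
          exact hb0 h5.symm
        · exact hq h3
      obtain ⟨y, hy1, hy2⟩ := SetLike.not_le_iff_exists.1 h2
      refine ⟨y, hy2, ?_⟩
      rw [map_mul]
      exact q.mul_mem_left _ hy1
  choose y hy1 hy2 using h1
  have hy0 : ∀ g, algebraMap X.B L (y g) ≠ 0 := fun g =>
    unr_ne h fun h0 => hy1 g (by rw [h0]; exact q.zero_mem)
  refine ⟨c * ∏ g : X.G, y g, ?_, ?_, ?_⟩
  · refine mul_ne_zero hc0 (Finset.prod_ne_zero_iff.2 fun g _ h0 => hy1 g ?_)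
    rw [h0]
    exact q.zero_mem
  · rw [map_mul, map_prod, E'.v_mul _ _ hcL (Finset.prod_ne_zero_iff.2 fun g _ => hy0 g), hc1,
      NVal.v_prod _ _ _ fun g _ => hy0 g, Finset.sum_eq_zero fun g _ => unr_v hA (hy1 g), add_zero]
  · intro g hg
    rw [← Finset.mul_prod_erase Finset.univ y (Finset.mem_univ (⟨g, hg⟩ : X.G)), ← mul_assoc,
      map_mul]
    exact q.mul_mem_right _ (hy2 ⟨g, hg⟩)

theorem e_eq_one [CharZero k] (h : Ctx X K L) {E : NVal k K} {E' : NVal k L} {q : Ideal X.B}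
    {e : ℤ} (hA : Above X E E' q e)
    (hfree : ∀ m : Fin n → ℤ, ∃ u : Fin n → ℤ, (∀ i, X.x i ∈ q → u i = 0) ∧
      m - u ∈ perp X.G) : e = 1 := by
  classical
  obtain ⟨x, hx0, hx1, hx2⟩ := unr_exists h hA
  obtain ⟨p, rfl⟩ := X.cl_surjective x
  set π : (Fin n →₀ ℕ) → (Fin n → ℤ) ⧸ perp X.G := fun m =>
    QuotientAddGroup.mk (fun i => (m i : ℤ)) with hπ
  set pp : ((Fin n → ℤ) ⧸ perp X.G) → MvPolynomial (Fin n) k := fun κ =>
    ∑ m ∈ p.support with π m = κ, monomial m (coeff m p) with hpp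
  have hcoef : ∀ κ m, coeff m (pp κ) = if π m = κ then coeff m p else 0 := by
    intro κ m
    simp only [hpp, coeff_sum, coeff_monomial, Finset.sum_ite_eq', Finset.mem_filter, mem_support_iff]
    by_cases h1 : π m = κ
    · by_cases h2 : coeff m p = 0 <;> simp [h1, h2]
    · simp [h1]
  have hsum : p = ∑ κ ∈ p.support.image π, pp κ := by
    conv_lhs => rw [← support_sum_monomial_coeff p]
    rw [← Finset.sum_fiberwise_of_maps_to (t := p.support.image π) (g := π)
      fun m hm => Finset.mem_image_of_mem π hm]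
  -- some part has value exactly one
  have hκ : ∃ κ ∈ p.support.image π, algebraMap X.B L (X.cl (pp κ)) ≠ 0 ∧
      E'.v (algebraMap X.B L (X.cl (pp κ))) ≤ 1 := by
    by_contra hcon
    push Not at hcon
    have h1 : E'.Ge 2 (algebraMap X.B L (X.cl p)) := by
      rw [hsum, map_sum, map_sum]
      refine NVal.Ge.sum _ _ fun κ hκ => ?_
      by_cases h0 : algebraMap X.B L (X.cl (pp κ)) = 0
      · exact Or.inl h0
      · exact Or.inr (hcon κ hκ h0)
    have h2 := h1.le (unr_ne h hx0)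
    omega
  obtain ⟨κ, hκ1, hκ2, hκ3⟩ := hκ
  obtain ⟨m0, hm0, rfl⟩ := Finset.mem_image.1 hκ1
  obtain ⟨u, hu1, hu2⟩ := hfree (fun i => (m0 i : ℤ))
  have hclass : ∀ m : Fin n →₀ ℕ, π m = π m0 ↔ (fun i => (m i : ℤ) - u i) ∈ perp X.G := by
    intro m
    have h1 : π m = π m0 ↔ (fun i => (m i : ℤ)) - (fun i => (m0 i : ℤ)) ∈ perp X.G := by
      rw [hπ]
      simp only
      rw [QuotientAddGroup.eq_iff_sub_mem]
    have h2 : (fun i => (m i : ℤ) - u i) =
        ((fun i => (m i : ℤ)) - (fun i => (m0 i : ℤ))) + ((fun i => (m0 i : ℤ)) - u) := by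
      funext i
      simp
    rw [h1, h2]
    exact (AddSubgroup.add_mem_cancel_right _ hu2).symm
  have hq : X.cl (pp (π m0)) ∈ q := by
    refine X.part_mem q (p := p) (fun g hg => ?_) u (fun m hm => ?_) (fun m hm => ?_)
    · have h1 := hx2 g hg
      rwa [Pre.act_cl] at h1
    · rw [hcoef, if_pos ((hclass m).2 hm)]
    · rw [hcoef, if_neg (mt (hclass m).1 hm)]
  have hv : E'.v (algebraMap X.B L (X.cl (pp (π m0)))) = 1 := by
    rcases (hA.mem _).1 hq with h1 | h1
    · exact absurd (by rw [h1, map_zero]) hκ2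
    · omega
  obtain ⟨z, hz⟩ := unr_lift h (u := u) (p := pp (π m0)) (by
    intro m hm
    rw [mem_support_iff, hcoef] at hm
    by_contra hcon
    exact hm (if_neg (mt (hclass m).1 hcon)))
  have hz0 : z ≠ 0 := by
    rintro rfl
    rw [map_zero, mul_zero] at hz
    exact hκ2 hz
  have hz0' : algebraMap K L z ≠ 0 := by
    intro h0
    rw [h0, mul_zero] at hz
    exact hκ2 hz
  rw [hz, E'.v_mul _ _ (mono_ne X h u) hz0', unr_v_mono h hA hu1, zero_add, hA.comp z hz0] at hv
  have he := hA.e_pos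
  rcases Int.mul_eq_one_iff_eq_one_or_neg_one.1 hv with ⟨h1, -⟩ | ⟨h1, -⟩
  · exact h1
  · omega

end Pool.Agent.GAP
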