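import Pool.Agent.GAP.Cmb

/-!
# GAP, module WQO: Maclagan's theorem on sequences of monomial ideals

Every sequence `T_0, T_1, ...` of subsets of `ℕ^n` has a subsequence such that for `a ≤ b` every
element of `T_(φ b)` lies above an element of `T_(φ a)` (the generated upper sets decrease).

Proof. Induction on `n`, for the relation `T ≽ T'` (every `m' ∈ T'` is `≥` some `m ∈ T`) on
`Set (Fin n → ℕ)`; `n = 0` is trivial (two classes: empty and nonempty; in a sequence either
infinitely many are nonempty or almost all are empty).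

Step `n → n + 1`. For `T ⊆ ℕ^(n+1) = ℕ × ℕ^n` and `t ∈ ℕ` put
`U_t(T) = {m ∈ ℕ^n | ∃ (s, m') ∈ T, s ≤ t, m' ≤ m}`, an upper set increasing with `t`. By the
Dickson lemma (the minimal elements of `⋃ U_t` are finitely many, `Set.IsPWO` of
`Fin n → ℕ`: use `Pi.isPWO`, or `WellQuasiOrderedLE`) there is `r` with `U_t = U_r` for all
`t ≥ r`. Let `L(T)` be the list `[U_0, ..., U_r]` and `E(T) = U_r`. By the induction hypothesis the
relation `≽` on sets of `ℕ^n` is a well quasi-order (every sequence has `i < j` with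
`T_i ≽ T_j`), so by Higman's lemma (`Set.PartiallyWellOrderedOn.partiallyWellOrderedOn_sublistForall₂`)
the relation `List.SublistForall₂ (≽)` on lists is one too, and so is the product with `≽` for
`E(T)`. If `L(T)` embeds in `L(T')` (i.e. there is a strictly increasing `ψ` with
`U_t(T) ≽ U_(ψ t)(T')` for `t ≤ r`) and `E(T) ≽ E(T')`, then `T ≽ T'`: let `(t, m) ∈ T'`, so
`m ∈ U_t(T')`. If `t ≤ r` then `ψ t ≥ t`, so `m ∈ U_(ψ t)(T')`, so `m ≥ m₁` with `m₁ ∈ U_t(T)`,
hence `m ∈ U_t(T)`: there is `(s, m') ∈ T` with `s ≤ t`, `m' ≤ m`. If `t > r`, then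
`m ∈ E(T')`, so `m ∈ E(T) = U_r(T)`, and again there is `(s, m') ∈ T`, `s ≤ r < t`, `m' ≤ m`.
The passage from `i < j` to an infinite monotone subsequence is
`Set.PartiallyWellOrderedOn.exists_monotone_subseq` (`≽` is a preorder).
-/

set_option linter.dupNamespace false

namespace Pool.Agent.GAP

/-- every element of `T'` lies above an element of `T` -/
private def WRel {α : Type} [Preorder α] (T T' : Set α) : Prop := ∀ m' ∈ T', ∃ m ∈ T, m ≤ m'

private instance {α : Type} [Preorder α] : IsPreorder (Set α) WRel where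
  refl _ m' hm' := ⟨m', hm', le_rfl⟩
  trans _ _ _ h h' m hm := by
    obtain ⟨m₁, h1, h2⟩ := h' m hm
    obtain ⟨m₂, h3, h4⟩ := h m₁ h1
    exact ⟨m₂, h3, h4.trans h2⟩

private def WU {α : Type} [Preorder α] (T : Set (ℕ × α)) (t : ℕ) : Set α :=
  {m | ∃ x ∈ T, x.1 ≤ t ∧ x.2 ≤ m}

private lemma WU_mono {α : Type} [Preorder α] (T : Set (ℕ × α)) {t t' : ℕ} (h : t ≤ t') {m : α}
    (hm : m ∈ WU T t) : m ∈ WU T t' := by
  obtain ⟨x, hx, h1, h2⟩ := hm
  exact ⟨x, hx, h1.trans h, h2⟩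

private lemma WU_stab {α : Type} [Preorder α] [hα : WellQuasiOrderedLE α] (T : Set (ℕ × α)) :
    ∃ r, ∀ t m, m ∈ WU T t → m ∈ WU T r := by
  classical
  by_contra hcon
  push Not at hcon
  -- the smallest level
  have hex : ∀ r, ∃ m, (∃ t, m ∈ WU T t) ∧ m ∉ WU T r := by
    intro r
    obtain ⟨t, m, h1, h2⟩ := hcon r
    exact ⟨m, ⟨t, h1⟩, h2⟩
  choose g hg1 hg2 using hex
  let lev : ℕ → ℕ := fun r => Nat.find (hg1 r)
  have hlev : ∀ r, g r ∈ WU T (lev r) := fun r => Nat.find_spec (hg1 r)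
  have hgt : ∀ r, r < lev r := by
    intro r
    by_contra h1
    exact hg2 r (WU_mono T (not_lt.1 h1) (hlev r))
  let s : ℕ → ℕ := fun k => Nat.rec 0 (fun _ x => lev x) k
  have hs : ∀ k, s (k + 1) = lev (s k) := fun k => rfl
  have hsm : StrictMono s := strictMono_nat_of_lt_succ fun k => by
    rw [hs]
    exact hgt _
  obtain ⟨i, j, hij, hle⟩ := wellQuasiOrdered_le (α := α) (fun k => g (s k))
  obtain ⟨x, hx, h1, h2⟩ := hlev (s i)
  refine hg2 (s j) ⟨x, hx, h1.trans ?_, h2.trans hle⟩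
  rw [← hs]
  exact hsm.monotone hij

private lemma sublist_index {α : Type} {R : α → α → Prop} {l₁ l₂ : List α}
    (h : List.SublistForall₂ R l₁ l₂) : ∀ i (hi : i < l₁.length), ∃ j, ∃ hj : j < l₂.length,
      i ≤ j ∧ R l₁[i] l₂[j] := by
  induction h with
  | nil =>
    intro i hi
    exact absurd hi (Nat.not_lt_zero _)
  | cons h1 _ ih =>
    intro i hi
    rcases i with _ | i
    · exact ⟨0, by simp, le_rfl, h1⟩
    · obtain ⟨j, hj, h2, h3⟩ := ih i (by simpa using hi)
      exact ⟨j + 1, by simpa using hj, by omega, by simpa using h3⟩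
  | cons_right _ ih =>
    intro i hi
    obtain ⟨j, hj, h2, h3⟩ := ih i hi
    exact ⟨j + 1, by simpa using hj, by omega, by simpa using h3⟩

private lemma wqo_step {α : Type} [Preorder α] [WellQuasiOrderedLE α]
    (h : WellQuasiOrdered (WRel (α := α))) : WellQuasiOrdered (WRel (α := ℕ × α)) := by
  classical
  have h1 := Set.PartiallyWellOrderedOn.partiallyWellOrderedOn_sublistForall₂ (WRel (α := α))
    (Set.partiallyWellOrderedOn_univ_iff.2 h)
  have h2 : {l : List (Set α) | ∀ x, x ∈ l → x ∈ Set.univ} = Set.univ := by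
    ext l
    simp
  rw [h2, Set.partiallyWellOrderedOn_univ_iff] at h1
  choose r hr using fun T : Set (ℕ × α) => WU_stab T
  intro T
  obtain ⟨i, j, hij, h4, h3⟩ := (h.prod h1) fun k =>
    (WU (T k) (r (T k)), (List.range (r (T k) + 1)).map (fun t => WU (T k) t))
  refine ⟨i, j, hij, ?_⟩
  rintro ⟨t, m⟩ hm
  have hmt : m ∈ WU (T j) t := ⟨(t, m), hm, le_rfl, le_rfl⟩
  by_cases ht : t ≤ r (T i)
  · obtain ⟨t', ht', h5, h6⟩ := sublist_index h3 t (by simpa using Nat.lt_succ_of_le ht)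
    simp only [List.getElem_map, List.getElem_range] at h6
    obtain ⟨m₁, ⟨x, hx, h7, h8⟩, h9⟩ := h6 m (WU_mono _ h5 hmt)
    exact ⟨x, hx, h7, h8.trans h9⟩
  · obtain ⟨m₁, ⟨x, hx, h7, h8⟩, h9⟩ := h4 m (hr (T j) t m hmt)
    exact ⟨x, hx, h7.trans (by omega), h8.trans h9⟩

private lemma wqo_all (n : ℕ) : WellQuasiOrdered (WRel (α := Fin n → ℕ)) := by
  induction n with
  | zero => exact Finite.wellQuasiOrdered _
  | succ n ih =>
    intro T
    let e := Fin.consOrderIso (fun _ : Fin (n + 1) => ℕ)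
    obtain ⟨i, j, hij, h1⟩ := wqo_step ih fun k => e ⁻¹' T k
    refine ⟨i, j, hij, fun m' hm' => ?_⟩
    obtain ⟨m, hm, hle⟩ := h1 (e.symm m') (by
      rw [Set.mem_preimage, OrderIso.apply_symm_apply]
      exact hm')
    exact ⟨e m, hm, (e.le_symm_apply).1 hle⟩

theorem exists_decreasing_subseq (n : ℕ) (T : ℕ → Set (Fin n → ℕ)) :
    ∃ φ : ℕ → ℕ, StrictMono φ ∧ ∀ a b, a ≤ b → ∀ m' ∈ T (φ b), ∃ m ∈ T (φ a), m ≤ m' := by
  obtain ⟨g, hg⟩ := (wqo_all n).exists_monotone_subseq T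
  exact ⟨g, g.strictMono, fun a b hab => hg a b hab⟩

end Pool.Agent.GAP
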